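import Pool.Agent.LibMA62.Defs

/-! Row A1: Cohen conditions. All statements are pointwise on `f i n` (unfold `Coh.lo`, `Coh.hi`,
`Coh.restr`, `Coh.un`, `Coh.am`; the decidability instances in the definitions are classical, so
start with the four lemmas `lo_of_lt` ... `hi_of_le` and use only them afterwards). -/

set_option autoImplicit false

namespace Pool.Agent.LibMA62

open Cardinal Set Pool.Agent.LibTk83

variable {K : Type}

theorem Coh.ext' {p q : Coh K} (h : ∀ i n, p.f i n = q.f i n) : p = q := by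
  cases p with
  | mk f hf =>
    cases q with
    | mk g hg =>
      have hfg : f = g := by
        funext i n
        exact h i n
      subst hfg
      rfl

private theorem A1_none {p q : Coh K} {i : K} {n : ℕ} (h : p.f i n = none) :
    (p.un q).f i n = q.f i n := by
  show (p.f i n).orElse (fun _ => q.f i n) = q.f i n
  rw [h]
  rfl

private theorem A1_some {p q : Coh K} {i : K} {n : ℕ} {b : Bool} (h : p.f i n = some b) :
    (p.un q).f i n = some b := by
  show (p.f i n).orElse (fun _ => q.f i n) = some b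
  rw [h]
  rfl

theorem Coh.un_le_left (p q : Coh K) : p.un q ≤ p := by
  intro i n b hb
  exact A1_some hb

theorem Coh.un_le_right {p q : Coh K} (h : ∃ s, s ≤ p ∧ s ≤ q) : p.un q ≤ q := by
  obtain ⟨s, h1, h2⟩ := h
  intro i n b hb
  cases hp : p.f i n with
  | none => rw [A1_none hp, hb]
  | some c =>
    have h3 := h1 i n c hp
    have h4 := h2 i n b hb
    rw [h3] at h4
    rw [A1_some hp, h4]

theorem Coh.le_un {s p q : Coh K} (h1 : s ≤ p) (h2 : s ≤ q) : s ≤ p.un q := by
  intro i n b hb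
  cases hp : p.f i n with
  | none =>
    rw [A1_none hp] at hb
    exact h2 i n b hb
  | some c =>
    rw [A1_some hp] at hb
    rw [← hb]
    exact h1 i n c hp

variable [LinearOrder K] {d e : K}

theorem Coh.lo_of_lt {i : K} (h : i < d) (p : Coh K) (n : ℕ) : (p.lo d).f i n = p.f i n := by
  simp only [Coh.lo, Coh.restr, if_pos h]

theorem Coh.lo_of_le {i : K} (h : d ≤ i) (p : Coh K) (n : ℕ) : (p.lo d).f i n = none := by
  simp only [Coh.lo, Coh.restr, if_neg (not_lt.2 h)]

theorem Coh.hi_of_lt {i : K} (h : i < d) (p : Coh K) (n : ℕ) : (p.hi d).f i n = none := by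
  simp only [Coh.hi, Coh.restr, if_neg (not_le.2 h)]

theorem Coh.hi_of_le {i : K} (h : d ≤ i) (p : Coh K) (n : ℕ) : (p.hi d).f i n = p.f i n := by
  simp only [Coh.hi, Coh.restr, if_pos h]

theorem Coh.am_of_lt {i : K} (h : i < d) (p q : Coh K) (n : ℕ) :
    (Coh.am d p q).f i n = p.f i n := by
  cases hp : p.f i n with
  | none =>
    have h1 : (p.lo d).f i n = none := by rw [Coh.lo_of_lt h, hp]
    exact (A1_none h1).trans (Coh.hi_of_lt h q n)
  | some b =>
    have h1 : (p.lo d).f i n = some b := by rw [Coh.lo_of_lt h, hp]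
    exact A1_some h1

theorem Coh.am_of_le {i : K} (h : d ≤ i) (p q : Coh K) (n : ℕ) :
    (Coh.am d p q).f i n = q.f i n :=
  (A1_none (Coh.lo_of_le h p n)).trans (Coh.hi_of_le h q n)

theorem Coh.lo_un (d : K) (p q : Coh K) : (p.un q).lo d = (p.lo d).un (q.lo d) := by
  apply Coh.ext'
  intro i n
  rcases lt_or_ge i d with h | h
  · rw [Coh.lo_of_lt h]
    cases hp : p.f i n with
    | none =>
      have h1 : (p.lo d).f i n = none := by rw [Coh.lo_of_lt h, hp]
      rw [A1_none hp, A1_none h1, Coh.lo_of_lt h]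
    | some b =>
      have h1 : (p.lo d).f i n = some b := by rw [Coh.lo_of_lt h, hp]
      rw [A1_some hp, A1_some h1]
  · rw [Coh.lo_of_le h, A1_none (Coh.lo_of_le h p n), Coh.lo_of_le h]

theorem Coh.le_lo (d : K) (p : Coh K) : p ≤ p.lo d := by
  intro i n b hb
  rcases lt_or_ge i d with h | h
  · rwa [Coh.lo_of_lt h] at hb
  · rw [Coh.lo_of_le h] at hb
    cases hb

theorem Coh.lo_mono (d : K) {p q : Coh K} (h : p ≤ q) : p.lo d ≤ q.lo d := by
  intro i n b hb
  rcases lt_or_ge i d with hi | hi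
  · rw [Coh.lo_of_lt hi] at hb ⊢
    exact h i n b hb
  · rw [Coh.lo_of_le hi] at hb
    cases hb

theorem Coh.lo_lo (h : d ≤ e) (p : Coh K) : (p.lo e).lo d = p.lo d := by
  apply Coh.ext'
  intro i n
  rcases lt_or_ge i d with hi | hi
  · rw [Coh.lo_of_lt hi, Coh.lo_of_lt hi, Coh.lo_of_lt (hi.trans_le h)]
  · rw [Coh.lo_of_le hi, Coh.lo_of_le hi]

theorem Coh.lo_lo' (h : d ≤ e) (p : Coh K) : (p.lo d).lo e = p.lo d := by
  apply Coh.ext'
  intro i n
  rcases lt_or_ge i e with hi | hi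
  · rw [Coh.lo_of_lt hi]
  · rw [Coh.lo_of_le hi, Coh.lo_of_le (h.trans hi)]

theorem Coh.am_lo (d : K) (p q : Coh K) : (Coh.am d p q).lo d = p.lo d := by
  apply Coh.ext'
  intro i n
  rcases lt_or_ge i d with hi | hi
  · rw [Coh.lo_of_lt hi, Coh.lo_of_lt hi, Coh.am_of_lt hi]
  · rw [Coh.lo_of_le hi, Coh.lo_of_le hi]

theorem Coh.am_le_left (d : K) (p q : Coh K) : Coh.am d p q ≤ p.lo d :=
  Coh.un_le_left _ _

theorem Coh.am_le_right {p q : Coh K} (h : p.lo d ≤ q.lo d) : Coh.am d p q ≤ q := by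
  intro i n b hb
  rcases lt_or_ge i d with hi | hi
  · rw [Coh.am_of_lt hi]
    have h1 := h i n b (by rw [Coh.lo_of_lt hi, hb])
    rwa [Coh.lo_of_lt hi] at h1
  · rw [Coh.am_of_le hi, hb]

theorem Coh.am_mono {p p' q q' : Coh K} (h : p'.lo d ≤ p.lo d) (h' : q' ≤ q) :
    Coh.am d p' q' ≤ Coh.am d p q := by
  intro i n b hb
  rcases lt_or_ge i d with hi | hi
  · rw [Coh.am_of_lt hi] at hb ⊢
    have h1 := h i n b (by rw [Coh.lo_of_lt hi, hb])
    rwa [Coh.lo_of_lt hi] at h1
  · rw [Coh.am_of_le hi] at hb ⊢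
    exact h' i n b hb

theorem Coh.am_self (d : K) (p : Coh K) : Coh.am d p p = p := by
  apply Coh.ext'
  intro i n
  rcases lt_or_ge i d with hi | hi
  · rw [Coh.am_of_lt hi]
  · rw [Coh.am_of_le hi]

theorem Coh.am_congr {p p' : Coh K} (q : Coh K) (h : p.lo d = p'.lo d) :
    Coh.am d p q = Coh.am d p' q := by
  unfold Coh.am
  rw [h]

theorem Coh.am_am (d : K) (p q r : Coh K) : Coh.am d (Coh.am d p q) r = Coh.am d p r :=
  Coh.am_congr r (Coh.am_lo d p q)

theorem Coh.am_loc (d : K) (p r : Coh K) : Coh.am d (p.lo d) r = Coh.am d p r :=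
  Coh.am_congr r (Coh.lo_lo le_rfl p)

end Pool.Agent.LibMA62
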