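import Pool.Agent.LibMA62.Defs

/-! Row A2: the second coordinates. All statements are pointwise on `q a x`; start with
`lo_of_lt` ... `glue_of_le` (the decidability instances in the definitions are classical). -/

set_option autoImplicit false

namespace Pool.Agent.LibMA62

open Cardinal Set Pool.Agent.LibTk83

variable {K X : Type} [LinearOrder K] {κ : Cardinal.{0}} {d e : K}

theorem Rq.ext' {r s : Rq K X κ} (h : ∀ a x, r.q a x = s.q a x) : r = s := by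
  cases r with
  | mk q1 s1 t1 =>
    cases s with
    | mk q2 s2 t2 =>
      have hq : q1 = q2 := by
        funext a x
        exact h a x
      subst hq
      rfl

theorem Rq.lo_of_lt {a : K} (h : a < d) (r : Rq K X κ) (x : X) : (r.lo d).q a x = r.q a x := by
  unfold Rq.lo Rq.restr
  exact if_pos h

theorem Rq.lo_of_le {a : K} (h : d ≤ a) (r : Rq K X κ) (x : X) : (r.lo d).q a x = none := by
  unfold Rq.lo Rq.restr
  exact if_neg (not_lt.2 h)

theorem Rq.glue_of_lt (hκ : ℵ₀ ≤ κ) {a : K} (h : a < d) (r s : Rq K X κ) (x : X) :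
    (Rq.glue hκ d r s).q a x = r.q a x := by
  unfold Rq.glue
  exact if_pos h

theorem Rq.glue_of_le (hκ : ℵ₀ ≤ κ) {a : K} (h : d ≤ a) (r s : Rq K X κ) (x : X) :
    (Rq.glue hκ d r s).q a x = s.q a x := by
  unfold Rq.glue
  exact if_neg (not_lt.2 h)

theorem Rq.un_of_some (hκ : ℵ₀ ≤ κ) {r : Rq K X κ} (s : Rq K X κ) {a : K} {x : X}
    {b : RO (Coh K)} (h : r.q a x = some b) : (Rq.un hκ r s).q a x = some b := by
  change ((r.q a x).orElse fun _ => s.q a x) = some b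
  rw [h]
  rfl

theorem Rq.un_of_none (hκ : ℵ₀ ≤ κ) {r : Rq K X κ} (s : Rq K X κ) {a : K} {x : X}
    (h : r.q a x = none) : (Rq.un hκ r s).q a x = s.q a x := by
  change ((r.q a x).orElse fun _ => s.q a x) = s.q a x
  rw [h]
  rfl

theorem Rq.un_le_left (hκ : ℵ₀ ≤ κ) (r s : Rq K X κ) : Rq.un hκ r s ≤ r := by
  intro a x b h
  exact Rq.un_of_some hκ s h

theorem Rq.lo_un (hκ : ℵ₀ ≤ κ) (d : K) (r s : Rq K X κ) :
    (Rq.un hκ r s).lo d = Rq.un hκ (r.lo d) (s.lo d) := by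
  apply Rq.ext'
  intro a x
  rcases lt_or_ge a d with h | h
  · rw [Rq.lo_of_lt h]
    cases hr : r.q a x with
    | none =>
      rw [Rq.un_of_none hκ s hr, Rq.un_of_none hκ (s.lo d) (by rw [Rq.lo_of_lt h]; exact hr),
        Rq.lo_of_lt h]
    | some b =>
      rw [Rq.un_of_some hκ s hr, Rq.un_of_some hκ (s.lo d) (by rw [Rq.lo_of_lt h]; exact hr)]
  · rw [Rq.lo_of_le h, Rq.un_of_none hκ (s.lo d) (Rq.lo_of_le h r x), Rq.lo_of_le h]

theorem Rq.le_lo (d : K) (r : Rq K X κ) : r ≤ r.lo d := by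
  intro a x b h
  rcases lt_or_ge a d with h' | h'
  · rwa [Rq.lo_of_lt h'] at h
  · rw [Rq.lo_of_le h'] at h
    exact absurd h (by simp)

theorem Rq.lo_mono (d : K) {r s : Rq K X κ} (h : r ≤ s) : r.lo d ≤ s.lo d := by
  intro a x b hb
  rcases lt_or_ge a d with h' | h'
  · rw [Rq.lo_of_lt h'] at hb ⊢
    exact h a x b hb
  · rw [Rq.lo_of_le h'] at hb
    exact absurd hb (by simp)

theorem Rq.lo_lo (h : d ≤ e) (r : Rq K X κ) : (r.lo e).lo d = r.lo d := by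
  apply Rq.ext'
  intro a x
  rcases lt_or_ge a d with h' | h'
  · rw [Rq.lo_of_lt h', Rq.lo_of_lt h', Rq.lo_of_lt (h'.trans_le h)]
  · rw [Rq.lo_of_le h', Rq.lo_of_le h']

theorem Rq.lo_lo' (h : d ≤ e) (r : Rq K X κ) : (r.lo d).lo e = r.lo d := by
  apply Rq.ext'
  intro a x
  rcases lt_or_ge a e with h' | h'
  · rw [Rq.lo_of_lt h']
  · rw [Rq.lo_of_le h', Rq.lo_of_le (h.trans h')]

theorem Rq.glue_self (hκ : ℵ₀ ≤ κ) (d : K) (r : Rq K X κ) : Rq.glue hκ d r r = r := by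
  apply Rq.ext'
  intro a x
  rcases lt_or_ge a d with h' | h'
  · rw [Rq.glue_of_lt hκ h']
  · rw [Rq.glue_of_le hκ h']

theorem Rq.glue_mono (hκ : ℵ₀ ≤ κ) (d : K) {r r' s s' : Rq K X κ} (h : r' ≤ r) (h' : s' ≤ s) :
    Rq.glue hκ d r' s' ≤ Rq.glue hκ d r s := by
  intro a x b hb
  rcases lt_or_ge a d with h1 | h1
  · rw [Rq.glue_of_lt hκ h1] at hb ⊢
    exact h a x b hb
  · rw [Rq.glue_of_le hκ h1] at hb ⊢
    exact h' a x b hb

theorem Rq.glue_le (hκ : ℵ₀ ≤ κ) (d : K) {r s t : Rq K X κ} (h : r ≤ t) (h' : s ≤ t) :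
    Rq.glue hκ d r s ≤ t := by
  intro a x b hb
  rcases lt_or_ge a d with h1 | h1
  · rw [Rq.glue_of_lt hκ h1]
    exact h a x b hb
  · rw [Rq.glue_of_le hκ h1]
    exact h' a x b hb

theorem Rq.glue_lo (hκ : ℵ₀ ≤ κ) (d : K) (r s : Rq K X κ) :
    (Rq.glue hκ d r s).lo d = r.lo d := by
  apply Rq.ext'
  intro a x
  rcases lt_or_ge a d with h' | h'
  · rw [Rq.lo_of_lt h', Rq.lo_of_lt h', Rq.glue_of_lt hκ h']
  · rw [Rq.lo_of_le h', Rq.lo_of_le h']

theorem Rq.glue_loc (hκ : ℵ₀ ≤ κ) (d : K) (r s : Rq K X κ) :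
    Rq.glue hκ d (r.lo d) s = Rq.glue hκ d r s := by
  apply Rq.ext'
  intro a x
  rcases lt_or_ge a d with h' | h'
  · rw [Rq.glue_of_lt hκ h', Rq.glue_of_lt hκ h', Rq.lo_of_lt h']
  · rw [Rq.glue_of_le hκ h', Rq.glue_of_le hκ h']

end Pool.Agent.LibMA62
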