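import Pool.Agent.LibMA62.Defs

/-! Row A3: closure of the second coordinates under unions of chains.
For `c : J → Rq K X κ` decreasing (literal order: the functions `(c j).q` extend each other) take
`q a x := (c j).q a x` for some `j` with `(c j).q a x ≠ none` if there is one, `none` otherwise
(classical choice). The value does not depend on `j` because `J` is linearly ordered. The domain is
the union of the domains: `Cardinal.mk_iUnion_le_sum_mk` / `mk_iUnion_le` and `κ * κ = κ`.
`J` may be empty. -/

set_option autoImplicit false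

namespace Pool.Agent.LibMA62

open Cardinal Set Pool.Agent.LibTk83

variable {K X : Type} [LinearOrder K] {κ : Cardinal.{0}}

theorem closed_Rq (hκ : ℵ₀ ≤ κ) {ν : Cardinal.{0}} (hν : ν ≤ κ) : Closed ν (Rq K X κ) := by
  classical
  intro J _ _ c hJ hdec
  let Q : K → X → Option (RO (Coh K)) := fun a x =>
    if h : ∃ j, (c j).q a x ≠ none then (c h.choose).q a x else none
  have hQ0 : ∀ a x b, Q a x = some b → ∃ j, (c j).q a x = some b := by
    intro a x b h
    by_cases h' : ∃ j, (c j).q a x ≠ none
    · refine ⟨h'.choose, ?_⟩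
      have h1 : Q a x = (c h'.choose).q a x := dif_pos h'
      rw [← h1]
      exact h
    · have h1 : Q a x = none := dif_neg h'
      rw [h1] at h
      cases h
  have key : ∀ j a x b, (c j).q a x = some b → Q a x = some b := by
    intro j a x b h
    have h' : ∃ j, (c j).q a x ≠ none := ⟨j, by rw [h]; exact Option.some_ne_none b⟩
    have h1 : Q a x = (c h'.choose).q a x := dif_pos h'
    rw [h1]
    obtain ⟨b', hb'⟩ := Option.ne_none_iff_exists'.1 h'.choose_spec
    rcases le_total j h'.choose with hle | hle
    · exact hdec j _ hle a x b h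
    · have h2 := hdec _ j hle a x b' hb'
      rw [h] at h2
      rw [hb', h2]
  refine ⟨⟨Q, ?_, ?_⟩, ?_⟩
  · have hsub : {z : K × X | Q z.1 z.2 ≠ none} ⊆ ⋃ j, {z : K × X | (c j).q z.1 z.2 ≠ none} := by
      intro z hz
      obtain ⟨b, hb⟩ := Option.ne_none_iff_exists'.1 (show Q z.1 z.2 ≠ none from hz)
      obtain ⟨j, hj⟩ := hQ0 _ _ _ hb
      refine mem_iUnion.2 ⟨j, ?_⟩
      change (c j).q z.1 z.2 ≠ none
      rw [hj]
      exact Option.some_ne_none b
    refine (Cardinal.mk_le_mk_of_subset hsub).trans ?_
    refine Cardinal.mk_iUnion_le_sum_mk.trans ?_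
    refine (Cardinal.sum_le_sum _ (fun _ => κ) fun j => (c j).small).trans ?_
    rw [Cardinal.sum_const']
    exact (mul_le_mul' (hJ.trans hν) le_rfl).trans_eq (Cardinal.mul_eq_self hκ)
  · intro a x b h
    obtain ⟨j, hj⟩ := hQ0 a x b h
    exact (c j).sup a x b hj
  · intro j a x b h
    exact key j a x b h

end Pool.Agent.LibMA62
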