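import Pool.Agent.LibMA62.Defs

/-! Row A4: closure of products and of unbounded linear orders. -/

set_option autoImplicit false

namespace Pool.Agent.LibMA62

open Cardinal Set Pool.Agent.LibTk83

theorem Closed.mono {ν ν' : Cardinal.{0}} {R : Type} [Preorder R] (h : ν ≤ ν')
    (hR : Closed ν' R) : Closed ν R := by
  intro J _ _ c hJ hc
  exact hR J c (hJ.trans h) hc

theorem Closed.prod {ν : Cardinal.{0}} {R S : Type} [Preorder R] [Preorder S] (hR : Closed ν R)
    (hS : Closed ν S) : Closed ν (R × S) := by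
  intro J _ _ c hJ hc
  obtain ⟨r, hr⟩ := hR J (fun j => (c j).1) hJ (fun i j hij => (hc i j hij).1)
  obtain ⟨s, hs⟩ := hS J (fun j => (c j).2) hJ (fun i j hij => (hc i j hij).2)
  exact ⟨(r, s), fun j => ⟨hr j, hs j⟩⟩

theorem Closed.pi {ν : Cardinal.{0}} {I R : Type} [Preorder R] (hR : Closed ν R) :
    Closed ν (I → R) := by
  intro J _ _ c hJ hc
  have h : ∀ i, ∃ r, ∀ j, r ≤ c j i := fun i =>
    hR J (fun j => c j i) hJ (fun j k hjk => hc j k hjk i)
  choose r hr using h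
  exact ⟨r, fun j i => hr i j⟩

/-- `range (fun j => OrderDual.ofDual (c j))` has at most `#J` elements. -/
theorem Closed.dual {ν : Cardinal.{0}} {G : Type} [LinearOrder G]
    (h : ∀ s : Set G, #s ≤ ν → ∃ b, ∀ a ∈ s, a ≤ b) : Closed ν Gᵒᵈ := by
  intro J _ _ c hJ hc
  obtain ⟨b, hb⟩ := h (range (fun j => OrderDual.ofDual (c j))) (Cardinal.mk_range_le.trans hJ)
  exact ⟨OrderDual.toDual b, fun j => hb (OrderDual.ofDual (c j)) ⟨j, rfl⟩⟩

end Pool.Agent.LibMA62
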