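import Pool.Agent.LibMA62.A1
import Pool.Agent.LibMA62.A2

/-! Row A5: the forcing notion `Mt`.

`Mt.lo_mono`: for `a < d` and `x.r.q a z = some b` there is `b'` with `y.r.q a z = some b'` and
`s ∈ b' ↔ s ∈ b` for `s ≤ y.p`; both `b` and `b'` satisfy `Sup a`. Let `s ≤ y.p.lo d`. Put
`s' := Coh.am a s y.p`. Since `(s.lo a) ≤ y.p.lo a` we have `s' ≤ y.p`, and `s'.lo a = s.lo a`. Hence
`s ∈ b ↔ s.lo a ∈ b ↔ s' ∈ b ↔ s' ∈ b' ↔ s ∈ b'` (`Sup` and lower: `s ≤ s.lo a`).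

`Mt.am_le_right`: below `d` by `h`, from `d` on the second coordinates are equal.
`Mt.am_mono`: below `d` by `h` (`Coh.am_le_left`), from `d` on by `h'` and
`Coh.am d y'.p x'.p ≤ x'.p` (from `h''`).
`Mt.lit`: pointwise (`Rq.un_of_some`, `Rq.un_of_none`). -/

set_option autoImplicit false

namespace Pool.Agent.LibMA62

open Cardinal Set Pool.Agent.LibTk83

variable {K X : Type} [LinearOrder K] {κ : Cardinal.{0}} {d e : K}

private theorem mem_iff_lo {a : K} {b : RO (Coh K)} (hb : Sup a b) (s : Coh K) :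
    s ∈ b ↔ s.lo a ∈ b :=
  ⟨fun h => hb s h, fun h => RO.mem_of_le (Coh.le_lo a s) h⟩

theorem Mt.ext' {x y : Mt K X κ} (h : x.p = y.p) (h' : x.r = y.r) : x = y := by
  cases x
  cases y
  simp only at h h'
  subst h
  subst h'
  rfl

theorem Mt.mk_le {p p' : Coh K} {r r' : Rq K X κ} (h : p' ≤ p) (h' : r' ≤ r) :
    (⟨p', r'⟩ : Mt K X κ) ≤ ⟨p, r⟩ := by
  exact ⟨h, fun a z b hb => ⟨b, h' a z b hb, fun _ _ => Iff.rfl⟩⟩

theorem Mt.le_lo (d : K) (x : Mt K X κ) : x ≤ x.lo d := by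
  exact Mt.mk_le (Coh.le_lo d x.p) (Rq.le_lo d x.r)

theorem Mt.lo_lo (h : d ≤ e) (x : Mt K X κ) : (x.lo e).lo d = x.lo d := by
  exact Mt.ext' (Coh.lo_lo h x.p) (Rq.lo_lo h x.r)

theorem Mt.lo_lo' (h : d ≤ e) (x : Mt K X κ) : (x.lo d).lo e = x.lo d := by
  exact Mt.ext' (Coh.lo_lo' h x.p) (Rq.lo_lo' h x.r)

theorem Mt.lo_mono (d : K) {x y : Mt K X κ} (h : y ≤ x) : y.lo d ≤ x.lo d := by
  refine ⟨Coh.lo_mono d h.1, fun a z b hb => ?_⟩
  rcases lt_or_ge a d with had | had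
  · have hb1 : x.r.q a z = some b := by
      rw [← Rq.lo_of_lt had x.r z]
      exact hb
    obtain ⟨b', hb', h1⟩ := h.2 a z b hb1
    refine ⟨b', ?_, fun s hs => ?_⟩
    · show (y.r.lo d).q a z = some b'
      rw [Rq.lo_of_lt had y.r z]
      exact hb'
    · have hs1 : s.lo a ≤ y.p.lo a := by
        have h2 := Coh.lo_mono a hs
        have h3 : (y.lo d).p.lo a = y.p.lo a := Coh.lo_lo had.le y.p
        rw [h3] at h2
        exact h2
      have hs2 : Coh.am a s y.p ≤ y.p := Coh.am_le_right hs1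
      have h4 := h1 _ hs2
      rw [mem_iff_lo (x.r.sup a z b hb1) s, mem_iff_lo (y.r.sup a z b' hb') s,
        ← Coh.am_lo a s y.p, ← mem_iff_lo (x.r.sup a z b hb1),
        ← mem_iff_lo (y.r.sup a z b' hb')]
      exact h4
  · exfalso
    have h1 : (x.r.lo d).q a z = some b := hb
    rw [Rq.lo_of_le had x.r z] at h1
    cases h1

theorem Mt.lo_le_lo (h : d ≤ e) (x : Mt K X κ) : x.lo e ≤ x.lo d := by
  have h1 := Mt.le_lo d (x.lo e)
  rw [Mt.lo_lo h x] at h1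
  exact h1

theorem Mt.am_lo (hκ : ℵ₀ ≤ κ) (d : K) (y x : Mt K X κ) : (Mt.am hκ d y x).lo d = y.lo d := by
  exact Mt.ext' (Coh.am_lo d y.p x.p) (Rq.glue_lo hκ d y.r x.r)

theorem Mt.am_le_left (hκ : ℵ₀ ≤ κ) (d : K) (y x : Mt K X κ) : Mt.am hκ d y x ≤ y.lo d := by
  rw [← Mt.am_lo hκ d y x]
  exact Mt.le_lo d _

theorem Mt.am_le_right (hκ : ℵ₀ ≤ κ) {y x : Mt K X κ} (h : y.lo d ≤ x.lo d) :
    Mt.am hκ d y x ≤ x := by
  have h0 : Coh.am d y.p x.p ≤ x.p := Coh.am_le_right h.1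
  refine ⟨h0, fun a z b hb => ?_⟩
  rcases lt_or_ge a d with had | had
  · have hb1 : (x.lo d).r.q a z = some b := by
      show (x.r.lo d).q a z = some b
      rw [Rq.lo_of_lt had x.r z]
      exact hb
    obtain ⟨b', hb', h1⟩ := h.2 a z b hb1
    have hb2 : (y.r.lo d).q a z = some b' := hb'
    rw [Rq.lo_of_lt had y.r z] at hb2
    refine ⟨b', ?_, fun s hs => h1 s (le_trans hs (Coh.am_le_left d y.p x.p))⟩
    show (Rq.glue hκ d y.r x.r).q a z = some b'
    rw [Rq.glue_of_lt hκ had]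
    exact hb2
  · refine ⟨b, ?_, fun _ _ => Iff.rfl⟩
    show (Rq.glue hκ d y.r x.r).q a z = some b
    rw [Rq.glue_of_le hκ had]
    exact hb

theorem Mt.am_mono (hκ : ℵ₀ ≤ κ) {y y' x x' : Mt K X κ} (h : y'.lo d ≤ y.lo d) (h' : x' ≤ x)
    (h'' : y'.lo d ≤ x'.lo d) : Mt.am hκ d y' x' ≤ Mt.am hκ d y x := by
  refine ⟨Coh.am_mono h.1 h'.1, fun a z b hb => ?_⟩
  have hb0 : (Rq.glue hκ d y.r x.r).q a z = some b := hb
  rcases lt_or_ge a d with had | had
  · rw [Rq.glue_of_lt hκ had] at hb0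
    have hb1 : (y.lo d).r.q a z = some b := by
      show (y.r.lo d).q a z = some b
      rw [Rq.lo_of_lt had y.r z]
      exact hb0
    obtain ⟨b', hb', h1⟩ := h.2 a z b hb1
    have hb2 : (y'.r.lo d).q a z = some b' := hb'
    rw [Rq.lo_of_lt had y'.r z] at hb2
    refine ⟨b', ?_, fun s hs => h1 s (le_trans hs (Coh.am_le_left d y'.p x'.p))⟩
    show (Rq.glue hκ d y'.r x'.r).q a z = some b'
    rw [Rq.glue_of_lt hκ had]
    exact hb2
  · rw [Rq.glue_of_le hκ had] at hb0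
    obtain ⟨b', hb', h1⟩ := h'.2 a z b hb0
    refine ⟨b', ?_, fun s hs => h1 s (le_trans hs (Coh.am_le_right h''.1))⟩
    show (Rq.glue hκ d y'.r x'.r).q a z = some b'
    rw [Rq.glue_of_le hκ had]
    exact hb'

theorem Mt.am_mono_left (hκ : ℵ₀ ≤ κ) {y y' : Mt K X κ} (x : Mt K X κ)
    (h : y'.lo d ≤ y.lo d) : Mt.am hκ d y' x ≤ Mt.am hκ d y x := by
  refine ⟨Coh.am_mono h.1 le_rfl, fun a z b hb => ?_⟩
  have hb0 : (Rq.glue hκ d y.r x.r).q a z = some b := hb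
  rcases lt_or_ge a d with had | had
  · rw [Rq.glue_of_lt hκ had] at hb0
    have hb1 : (y.lo d).r.q a z = some b := by
      show (y.r.lo d).q a z = some b
      rw [Rq.lo_of_lt had y.r z]
      exact hb0
    obtain ⟨b', hb', h1⟩ := h.2 a z b hb1
    have hb2 : (y'.r.lo d).q a z = some b' := hb'
    rw [Rq.lo_of_lt had y'.r z] at hb2
    refine ⟨b', ?_, fun s hs => h1 s (le_trans hs (Coh.am_le_left d y'.p x.p))⟩
    show (Rq.glue hκ d y'.r x.r).q a z = some b'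
    rw [Rq.glue_of_lt hκ had]
    exact hb2
  · rw [Rq.glue_of_le hκ had] at hb0
    refine ⟨b, ?_, fun _ _ => Iff.rfl⟩
    show (Rq.glue hκ d y'.r x.r).q a z = some b
    rw [Rq.glue_of_le hκ had]
    exact hb0

theorem Mt.am_self (hκ : ℵ₀ ≤ κ) (d : K) (x : Mt K X κ) : Mt.am hκ d x x = x := by
  exact Mt.ext' (Coh.am_self d x.p) (Rq.glue_self hκ d x.r)

theorem Mt.am_congr (hκ : ℵ₀ ≤ κ) {y y' : Mt K X κ} (x : Mt K X κ) (h : y.lo d = y'.lo d) :
    Mt.am hκ d y x = Mt.am hκ d y' x := by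
  have h1 : y.p.lo d = y'.p.lo d := congrArg Mt.p h
  have h2 : y.r.lo d = y'.r.lo d := congrArg Mt.r h
  refine Mt.ext' (Coh.am_congr x.p h1) ?_
  show Rq.glue hκ d y.r x.r = Rq.glue hκ d y'.r x.r
  rw [← Rq.glue_loc hκ d y.r x.r, h2, Rq.glue_loc]

/-- The literal form of an extension. -/
theorem Mt.lit (hκ : ℵ₀ ≤ κ) {x y : Mt K X κ} (h : y ≤ x) :
    (⟨y.p, Rq.un hκ x.r y.r⟩ : Mt K X κ) ≤ y ∧ y ≤ ⟨y.p, Rq.un hκ x.r y.r⟩ := by
  constructor
  · refine ⟨le_rfl, fun a z b hb => ?_⟩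
    show ∃ b', (Rq.un hκ x.r y.r).q a z = some b' ∧ _
    cases hx : x.r.q a z with
    | none =>
      rw [Rq.un_of_none hκ y.r hx]
      exact ⟨b, hb, fun _ _ => Iff.rfl⟩
    | some c =>
      rw [Rq.un_of_some hκ y.r hx]
      obtain ⟨b', hb', h1⟩ := h.2 a z c hx
      have hbb : b = b' := Option.some.inj (hb.symm.trans hb')
      subst hbb
      exact ⟨c, rfl, fun s hs => (h1 s hs).symm⟩
  · refine ⟨le_rfl, fun a z b hb => ?_⟩
    have hb0 : (Rq.un hκ x.r y.r).q a z = some b := hb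
    cases hx : x.r.q a z with
    | none =>
      rw [Rq.un_of_none hκ y.r hx] at hb0
      exact ⟨b, hb0, fun _ _ => Iff.rfl⟩
    | some c =>
      rw [Rq.un_of_some hκ y.r hx] at hb0
      have hbb : c = b := Option.some.inj hb0
      subst hbb
      exact h.2 a z c hx

/-- If `y ≤ ⟨p, r⟩` and `t ≤ y.p` then `⟨t, y.r⟩` is below `y` and below `⟨t, r⟩`. -/
theorem Mt.sharpen {y : Mt K X κ} {p t : Coh K} {r : Rq K X κ} (h : y ≤ ⟨p, r⟩) (ht : t ≤ y.p) :
    (⟨t, y.r⟩ : Mt K X κ) ≤ y ∧ (⟨t, y.r⟩ : Mt K X κ) ≤ ⟨t, r⟩ := by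
  refine ⟨Mt.mk_le ht le_rfl, le_rfl, fun a z b hb => ?_⟩
  obtain ⟨b', hb', h1⟩ := h.2 a z b hb
  exact ⟨b', hb', fun s hs => h1 s (le_trans hs ht)⟩

/-! Conditions of `P_D`. -/

theorem InD.lo_eq {x : Mt K X κ} (h : InD (Iio d) x) : x.lo d = x := by
  refine Mt.ext' (Coh.ext' fun i n => ?_) (Rq.ext' fun a z => ?_)
  · show (x.p.lo d).f i n = x.p.f i n
    rcases lt_or_ge i d with hi | hi
    · exact Coh.lo_of_lt hi x.p n
    · rw [Coh.lo_of_le hi x.p n]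
      by_contra hne
      exact absurd (h.1 i n fun h0 => hne h0.symm) (not_lt.2 hi)
  · show (x.r.lo d).q a z = x.r.q a z
    rcases lt_or_ge a d with hi | hi
    · exact Rq.lo_of_lt hi x.r z
    · rw [Rq.lo_of_le hi x.r z]
      by_contra hne
      exact absurd (h.2 a z fun h0 => hne h0.symm) (not_lt.2 hi)

theorem InD.of_lo (d : K) (x : Mt K X κ) : InD (Iio d) (x.lo d) := by
  constructor
  · intro i n hn
    rcases lt_or_ge i d with hi | hi
    · exact hi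
    · exact absurd (Coh.lo_of_le hi x.p n) hn
  · intro a z hz
    rcases lt_or_ge a d with hi | hi
    · exact hi
    · exact absurd (Rq.lo_of_le hi x.r z) hz

theorem InD.mono {D E : Set K} (h : D ⊆ E) {x : Mt K X κ} (hx : InD D x) : InD E x := by
  exact ⟨fun i n hn => h (hx.1 i n hn), fun a z hz => h (hx.2 a z hz)⟩

/-- The restriction of a condition of `P_D`. -/
theorem InD.lo {D : Set K} (d : K) {x : Mt K X κ} (hx : InD D x) : InD D (x.lo d) := by
  constructor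
  · intro i n hn
    rcases lt_or_ge i d with hi | hi
    · refine hx.1 i n fun h0 => hn ?_
      show (x.p.lo d).f i n = none
      rw [Coh.lo_of_lt hi x.p n, h0]
    · exact absurd (Coh.lo_of_le hi x.p n) hn
  · intro a z hz
    rcases lt_or_ge a d with hi | hi
    · refine hx.2 a z fun h0 => hz ?_
      show (x.r.lo d).q a z = none
      rw [Rq.lo_of_lt hi x.r z, h0]
    · exact absurd (Rq.lo_of_le hi x.r z) hz

theorem InD.am (hκ : ℵ₀ ≤ κ) {D : Set K} (d : K) {x y : Mt K X κ} (hx : InD D x)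
    (hy : InD D y) : InD D (Mt.am hκ d y x) := by
  constructor
  · intro i n hn
    rcases lt_or_ge i d with hi | hi
    · refine hy.1 i n fun h0 => hn ?_
      show (Coh.am d y.p x.p).f i n = none
      rw [Coh.am_of_lt hi, h0]
    · refine hx.1 i n fun h0 => hn ?_
      show (Coh.am d y.p x.p).f i n = none
      rw [Coh.am_of_le hi, h0]
  · intro a z hz
    rcases lt_or_ge a d with hi | hi
    · refine hy.2 a z fun h0 => hz ?_
      show (Rq.glue hκ d y.r x.r).q a z = none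
      rw [Rq.glue_of_lt hκ hi, h0]
    · refine hx.2 a z fun h0 => hz ?_
      show (Rq.glue hκ d y.r x.r).q a z = none
      rw [Rq.glue_of_le hκ hi, h0]

/-- The coordinates of a condition: a set of size at most `κ` (a finite set of coordinates of `x.p`,
the image under the first projection of a set of size `≤ κ` for `x.r`). -/
theorem exists_dom (hκ : ℵ₀ ≤ κ) (x : Mt K X κ) :
    ∃ s : Set K, #s ≤ κ ∧ InD s x ∧ ∀ D : Set K, InD D x → s ⊆ D := by
  refine ⟨Prod.fst '' {z : K × ℕ | x.p.f z.1 z.2 ≠ none} ∪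
    Prod.fst '' {z : K × X | x.r.q z.1 z.2 ≠ none}, ?_, ⟨?_, ?_⟩, ?_⟩
  · refine (Cardinal.mk_union_le _ _).trans ?_
    have h1 : #(Prod.fst '' {z : K × ℕ | x.p.f z.1 z.2 ≠ none} : Set K) ≤ κ :=
      (Cardinal.lt_aleph0_iff_set_finite.2 (x.p.fin.image _)).le.trans hκ
    have h2 : #(Prod.fst '' {z : K × X | x.r.q z.1 z.2 ≠ none} : Set K) ≤ κ :=
      Cardinal.mk_image_le.trans x.r.small
    exact (add_le_add h1 h2).trans_eq (Cardinal.add_eq_self hκ)
  · intro i n hn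
    exact Or.inl ⟨(i, n), hn, rfl⟩
  · intro a z hz
    exact Or.inr ⟨(a, z), hz, rfl⟩
  · rintro D hD i (⟨z, hz, rfl⟩ | ⟨z, hz, rfl⟩)
    · exact hD.1 _ _ hz
    · exact hD.2 _ _ hz

end Pool.Agent.LibMA62
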