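import Pool.Agent.LibMA62.Defs

/-! Row B1: recursion of length `J` in a closed preorder.

Define `c : J → R × R` (the pair `(u j, c j)`) by well-founded recursion
(`(wellFounded_lt (α := J)).fix`): `u j` := some `r ≤ r0` with `r ≤ c i` for all `i < j` if there is
one, `r0` otherwise; `c j` := some `r' ≤ u j` with `Φ j (u j) r'` (if `u j ≤ r0`, which always holds).
Then prove by strong induction on `j` that such an `r` exists: the family `i ↦ c i` on `Iio j` is
decreasing (`c i' ≤ u i' ≤ c i` for `i < i' < j` by the induction hypothesis), so `Closed κ R` for the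
type `Iio j` gives a lower bound; it is `≤ r0` if `Iio j` is nonempty (`c i ≤ u i ≤ r0`); if it is
empty take `r0`. -/

set_option autoImplicit false

namespace Pool.Agent.LibMA62

open Cardinal Set Pool.Agent.LibTk83

theorem rec_rel {κ : Cardinal.{0}} {R : Type} [Preorder R] (hR : Closed κ R) (J : Type)
    [LinearOrder J] [WellFoundedLT J] (hJ : ∀ j : J, #(Iio j) ≤ κ) (r0 : R)
    (Φ : J → R → R → Prop) (h : ∀ j r, r ≤ r0 → ∃ r', r' ≤ r ∧ Φ j r r') :
    ∃ c u : J → R, (∀ j, Φ j (u j) (c j)) ∧ (∀ j, c j ≤ u j) ∧ (∀ j, u j ≤ r0) ∧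
      ∀ i j, i < j → u j ≤ c i := by
  classical
  let F : (j : J) → ((i : J) → i < j → R × R) → R × R := fun j ih =>
    let uj : R := if h : ∃ r, r ≤ r0 ∧ ∀ i (hi : i < j), r ≤ (ih i hi).2 then h.choose else r0
    (uj, if h : ∃ r', r' ≤ uj ∧ Φ j uj r' then h.choose else uj)
  let g : J → R × R := (wellFounded_lt (α := J)).fix F
  have hg : ∀ j, g j = F j (fun i _ => g i) := fun j => (wellFounded_lt (α := J)).fix_eq F j
  have hu : ∀ j, (g j).1 =
      if h : ∃ r, r ≤ r0 ∧ ∀ i, i < j → r ≤ (g i).2 then h.choose else r0 := by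
    intro j
    rw [hg j]
  have hc : ∀ j, (g j).2 =
      if h : ∃ r', r' ≤ (g j).1 ∧ Φ j (g j).1 r' then h.choose else (g j).1 := by
    intro j
    rw [hg j]
  have hu0 : ∀ j, (g j).1 ≤ r0 := by
    intro j
    rw [hu j]
    split_ifs with h1
    · exact h1.choose_spec.1
    · exact le_rfl
  have hcs : ∀ j, (g j).2 ≤ (g j).1 ∧ Φ j (g j).1 (g j).2 := by
    intro j
    have h1 := h j (g j).1 (hu0 j)
    have h2 := hc j
    rw [dif_pos h1] at h2
    rw [h2]
    exact h1.choose_spec
  have hmain : ∀ j, ∃ r, r ≤ r0 ∧ ∀ i, i < j → r ≤ (g i).2 := by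
    intro j
    induction j using (wellFounded_lt (α := J)).induction with
    | _ j ih =>
      have hlt : ∀ i' i, i' < i → i < j → (g i).1 ≤ (g i').2 := by
        intro i' i hi' hi
        have h1 := ih i hi
        have h2 := hu i
        rw [dif_pos h1] at h2
        rw [h2]
        exact h1.choose_spec.2 i' hi'
      obtain ⟨r, hr⟩ := hR (Iio j) (fun i => (g i).2) (hJ j) (by
        intro i i' hii'
        rcases eq_or_lt_of_le hii' with h1 | h1
        · rw [h1]
        · exact (hcs i').1.trans (hlt i i' h1 i'.2))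
      by_cases hne : ∃ i, i < j
      · obtain ⟨i, hi⟩ := hne
        exact ⟨r, (hr ⟨i, hi⟩).trans ((hcs i).1.trans (hu0 i)), fun i' hi' => hr ⟨i', hi'⟩⟩
      · exact ⟨r0, le_rfl, fun i hi => absurd ⟨i, hi⟩ hne⟩
  refine ⟨fun j => (g j).2, fun j => (g j).1, fun j => (hcs j).2, fun j => (hcs j).1, hu0, ?_⟩
  intro i j hij
  have h1 := hmain j
  have h2 := hu j
  rw [dif_pos h1] at h2
  change (g j).1 ≤ (g i).2
  rw [h2]
  exact h1.choose_spec.2 i hij

end Pool.Agent.LibMA62
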