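import Pool.Agent.LibMA62.B1

/-! Row B2: Easton's lemma. (`LibTk83/K2.lean` has a similar proof by Zorn's lemma.)

Suppose not: for each `r ≤ r0` there is `s ≤ p0` such that no `t ≤ s` satisfies `D t r`. Apply
`rec_rel` with `κ := ℵ₀`, `J := (ℵ₁ : Cardinal.{0}).ord.ToType` (its initial segments are countable;
`#J = ℵ₁ > ℵ₀`, so `Uncountable J`) and `Φ j r r' := ∃ s ≤ p0, (∀ t ≤ s, ¬ D t r) ∧ ∃ t ≤ s, D t r'`. Choose `s j`,
`t j ≤ s j` with `D (t j) (c j)` and no `t ≤ s j` with `D t (u j)`. By `hC` there are `i ≠ j` and `w`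
below `t i` and `t j`; by symmetry `i < j`. Then `D w (c i)`, so `D w (u j)` because `u j ≤ c i`, and
`w ≤ t j ≤ s j`: contradiction. -/

set_option autoImplicit false

namespace Pool.Agent.LibMA62

open Cardinal Set Pool.Agent.LibTk83

theorem gen1 {C R : Type} [Preorder C] [Preorder R] (hC : CCC C) (hR : Closed ℵ₀ R)
    (D : C → R → Prop) (hD : ∀ s t r r', t ≤ s → r' ≤ r → D s r → D t r') (p0 : C) (r0 : R)
    (hd : ∀ s, s ≤ p0 → ∀ r, r ≤ r0 → ∃ t, t ≤ s ∧ ∃ r', r' ≤ r ∧ D t r') :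
    ∃ r, r ≤ r0 ∧ ∀ s, s ≤ p0 → ∃ t, t ≤ s ∧ D t r := by
  by_contra hcon
  push Not at hcon
  have hJ : ∀ j : (Order.succ (ℵ₀ : Cardinal.{0})).ord.ToType, #(Iio j) ≤ ℵ₀ := by
    intro k
    have h5 : #(Set.Iio k) < Order.succ (ℵ₀ : Cardinal.{0}) := by
      have h6 := mk_Iio_lt k (by rw [mk_ord_toType, Ordinal.type_toType])
      rwa [mk_ord_toType] at h6
    exact Order.lt_succ_iff.1 h5
  have hunc : Uncountable (Order.succ (ℵ₀ : Cardinal.{0})).ord.ToType := by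
    rw [← aleph0_lt_mk_iff, mk_ord_toType]
    exact Order.lt_succ ℵ₀
  obtain ⟨c, u, hΦ, -, -, huc⟩ := rec_rel hR (Order.succ (ℵ₀ : Cardinal.{0})).ord.ToType hJ r0
    (fun _ r r' => ∃ s, s ≤ p0 ∧ (∀ t, t ≤ s → ¬ D t r) ∧ ∃ t, t ≤ s ∧ D t r') (by
      intro _ r hr
      obtain ⟨s, hs, hs'⟩ := hcon r hr
      obtain ⟨t, ht, r', hr', hD'⟩ := hd s hs r hr
      exact ⟨r', hr', s, hs, hs', t, ht, hD'⟩)
  choose s hs0 hs t hts hDt using hΦ
  have key : ∀ i j, i < j → ∀ w, w ≤ t i → w ≤ t j → False := by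
    intro i j hij w hwi hwj
    exact hs j w (hwj.trans (hts j)) (hD (t i) w (c i) (u j) hwi (huc i j hij) (hDt i))
  obtain ⟨i, j, hij, w, hwi, hwj⟩ := hC _ hunc t
  rcases lt_or_gt_of_ne hij with h | h
  · exact key i j h w hwi hwj
  · exact key j i h w hwj hwi

end Pool.Agent.LibMA62
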