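import Pool.Agent.LibMA62.B2
import Pool.Agent.LibMA62.A4

/-! Row B3: Easton's lemma for a family of at most `κ` sets.

If `J` is empty take `r0`. Well-order `J` in type `(#J).ord`: let `J' := (#J).ord.ToType` and
`g : J' ≃ J` (`Cardinal.mk_ord_toType`, `Cardinal.eq`). Initial segments of `J'` have fewer than `#J ≤ κ`
elements. Apply `rec_rel` to `J'` with `Φ j r r' := ∀ s ≤ p0, ∃ t ≤ s, D (g j) t r'` (this is `gen1` for
`D (g j)` and `r`; `Closed.mono hκ hR`). The family `c` is decreasing (`c j ≤ u j ≤ c i` for `i < j`), so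
`hR` gives a lower bound `r` of all `c j` (`r ≤ c j ≤ u j ≤ r0`), and `D` is down-closed. -/

set_option autoImplicit false

namespace Pool.Agent.LibMA62

open Cardinal Set Pool.Agent.LibTk83

theorem gen2 {C R : Type} [Preorder C] [Preorder R] {κ : Cardinal.{0}} (hκ : ℵ₀ ≤ κ)
    (hC : CCC C) (hR : Closed κ R) (J : Type) (hJ : #J ≤ κ) (D : J → C → R → Prop)
    (hD : ∀ j s t r r', t ≤ s → r' ≤ r → D j s r → D j t r') (p0 : C) (r0 : R)
    (hd : ∀ j, ∀ s, s ≤ p0 → ∀ r, r ≤ r0 → ∃ t, t ≤ s ∧ ∃ r', r' ≤ r ∧ D j t r') :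
    ∃ r, r ≤ r0 ∧ ∀ j, ∀ s, s ≤ p0 → ∃ t, t ≤ s ∧ D j t r := by
  classical
  rcases isEmpty_or_nonempty J with hE | ⟨⟨j0⟩⟩
  · exact ⟨r0, le_rfl, fun j => isEmptyElim j⟩
  have hmk : #((#J).ord.ToType) = #J := Cardinal.mk_ord_toType _
  obtain ⟨g⟩ := Cardinal.eq.1 hmk
  have hle : #((#J).ord.ToType) ≤ κ := hmk.trans_le hJ
  obtain ⟨c, u, h1, h2, h3, h4⟩ := rec_rel hR ((#J).ord.ToType)
    (fun j => (Cardinal.mk_set_le _).trans hle) r0
    (fun j _ r' => ∀ s, s ≤ p0 → ∃ t, t ≤ s ∧ D (g j) t r')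
    (fun j r hr => gen1 hC (Closed.mono hκ hR) (D (g j)) (hD (g j)) p0 r
      (fun s hs r1 hr1 => hd (g j) s hs r1 (hr1.trans hr)))
  obtain ⟨r, hr⟩ := hR _ c hle (fun i j hij => by
    rcases eq_or_lt_of_le hij with h | h
    · rw [h]
    · exact (h2 j).trans (h4 i j h))
  refine ⟨r, ((hr (g.symm j0)).trans (h2 _)).trans (h3 _), fun j s hs => ?_⟩
  obtain ⟨t, ht, htD⟩ := h1 (g.symm j) s hs
  rw [g.apply_symm_apply] at htD
  exact ⟨t, ht, hD j t t _ r le_rfl (hr _) htD⟩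

end Pool.Agent.LibMA62
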