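import Pool.Agent.LibMA62.A1
import Pool.Agent.LibTk83.C1

/-! Row C1: the countable chain condition of `Coh K` and of `Coh K × Coh K`, from
`Pool.Agent.LibTk83.delta` (a weak delta system lemma): for `t : J → Coh K` take
`f j := {z : K × ℕ | (t j).f z.1 z.2 ≠ none}` and `h j z := (t j).f z.1 z.2` (values in the countable
type `Option Bool`); two members agree on the common part of their domains, hence
`(t i).un (t j) ≤ t j`. For the product take the union of the two domains and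
`h j z := ((t j).1.f z.1 z.2, (t j).2.f z.1 z.2)`. -/

set_option autoImplicit false

namespace Pool.Agent.LibMA62

open Cardinal Set Pool.Agent.LibTk83

private theorem C1_un {K : Type} (p q : Coh K)
    (h : ∀ z : K × ℕ, p.f z.1 z.2 ≠ none → q.f z.1 z.2 ≠ none → p.f z.1 z.2 = q.f z.1 z.2) :
    p.un q ≤ p ∧ p.un q ≤ q := by
  constructor
  · intro i n b hb
    change (p.f i n).orElse (fun _ => q.f i n) = some b
    rw [hb]
    rfl
  · intro i n b hb
    change (p.f i n).orElse (fun _ => q.f i n) = some b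
    have h1 := h (i, n)
    change p.f i n ≠ none → q.f i n ≠ none → p.f i n = q.f i n at h1
    cases hp : p.f i n with
    | none => exact hb
    | some c =>
      rw [hp, hb] at h1
      exact h1 (by simp) (by simp)

theorem ccc_Coh (K : Type) : CCC (Coh K) := by
  intro J hJ t
  obtain ⟨i, j, hij, h⟩ := delta (fun j => {z : K × ℕ | (t j).f z.1 z.2 ≠ none}) (fun j => (t j).fin)
    (fun j z => (t j).f z.1 z.2)
  obtain ⟨h1, h2⟩ := C1_un (t i) (t j) (fun z hz hz' => h z ⟨hz, hz'⟩)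
  exact ⟨i, j, hij, _, h1, h2⟩

theorem ccc_Coh2 (K : Type) : CCC (Coh K × Coh K) := by
  intro J hJ t
  obtain ⟨i, j, hij, h⟩ := delta (fun j => {z : K × ℕ | (t j).1.f z.1 z.2 ≠ none} ∪
      {z : K × ℕ | (t j).2.f z.1 z.2 ≠ none}) (fun j => (t j).1.fin.union (t j).2.fin)
    (fun j z => ((t j).1.f z.1 z.2, (t j).2.f z.1 z.2))
  obtain ⟨h1, h2⟩ := C1_un (t i).1 (t j).1 (fun z hz hz' =>
    (Prod.ext_iff.1 (h z ⟨Or.inl hz, Or.inl hz'⟩)).1)
  obtain ⟨h3, h4⟩ := C1_un (t i).2 (t j).2 (fun z hz hz' =>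
    (Prod.ext_iff.1 (h z ⟨Or.inr hz, Or.inr hz'⟩)).2)
  exact ⟨i, j, hij, ((t i).1.un (t j).1, (t i).2.un (t j).2), ⟨h1, h3⟩, ⟨h2, h4⟩⟩

end Pool.Agent.LibMA62
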