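import Pool.Agent.LibMA62.A3
import Pool.Agent.LibMA62.A5
import Pool.Agent.LibMA62.B3
import Pool.Agent.LibMA62.C1

/-! Row B4: `gen2` for dense sets of the forcing notion `Mt`.

`gen2` with `C := Coh K`, `R := Rq K X κ`, `D j t r := D j ⟨t, r⟩` (down-closed by `Mt.mk_le`). Density
for the product order: for `s ≤ x0.p`, `r ≤ x0.r` take `y ≤ ⟨s, r⟩` with `D j y`; by `Mt.lit` the
condition `⟨y.p, Rq.un hκ r y.r⟩` is below `y`, `y.p ≤ s` and `Rq.un hκ r y.r ≤ r`. -/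

set_option autoImplicit false

namespace Pool.Agent.LibMA62

open Cardinal Set Pool.Agent.LibTk83

theorem mt_dense {K X : Type} [LinearOrder K] {κ : Cardinal.{0}} (hκ : ℵ₀ ≤ κ) (J : Type)
    (hJ : #J ≤ κ) (D : J → Mt K X κ → Prop) (hD : ∀ j x y, y ≤ x → D j x → D j y)
    (x0 : Mt K X κ) (hd : ∀ j, ∀ x, x ≤ x0 → ∃ y, y ≤ x ∧ D j y) :
    ∃ r, r ≤ x0.r ∧ ∀ j, ∀ s, s ≤ x0.p → ∃ t, t ≤ s ∧ D j ⟨t, r⟩ := by
  obtain ⟨r, hr, h⟩ := gen2 (C := Coh K) (R := Rq K X κ) hκ (ccc_Coh K) (closed_Rq hκ le_rfl) J hJ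
    (fun j t r => D j ⟨t, r⟩)
    (fun j _ _ _ _ ht hr h => hD j _ _ (Mt.mk_le ht hr) h) x0.p x0.r (by
      intro j s hs r hr
      obtain ⟨y, hy, hDy⟩ := hd j ⟨s, r⟩ (Mt.mk_le hs hr)
      refine ⟨y.p, hy.1, Rq.un hκ r y.r, ?_, hD j _ _ (Mt.lit hκ hy).1 hDy⟩
      intro a x b hb
      simp only [Rq.un, hb, Option.orElse_some])
  exact ⟨r, hr, h⟩

end Pool.Agent.LibMA62
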