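import Pool.Agent.LibMA62.A5

/-! Row D1: the number of conditions of `P_a`.

Write `m := #D`. Facts on `m`: `ℵ₀ ≤ κ < m`; products and sums of cardinals `< m` are `< m`
(`Cardinal.mul_lt_of_lt`, `ℵ₀ ≤ m`); if `c, e < m` and `2 ≤ c` then `c ^ e ≤ 2 ^ (c * e) < m`
(`Cardinal.power_le_power_right`, `Cardinal.cantor`, `(2 ^ c) ^ e = 2 ^ (c * e)`), so the cardinality of a
function type between types of cardinality `< m` is `< m`; also `#(Set T) = 2 ^ #T < m` for `#T < m`,
`#(Option T) = #T + 1`.
Let `A := Iio a`. A condition `x` with `InD (Iio a) x` is determined by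
 (1) the function `A × ℕ → Option Bool`, `(i, n) ↦ x.p.f i n` (it is `none` outside of `A`);
 (2) the function `A × X → Option (Set (A × ℕ → Option Bool))` which sends `(c, z)` to `none` if
 `x.r.q c z = none` and to `some {g | ∃ p : Coh K, p ∈ b ∧ ∀ i n, g (i, n) = p.f i n}` if
 `x.r.q c z = some b`. Indeed, if `Sup c b` with `c < a` then `p ∈ b` depends only on the values `p.f i n`,
 `i ∈ A`: if `p ∈ b` and `p'.f i n = p.f i n` for all `i < a` then `p'.lo c = p.lo c ∈ b` and
 `p' ≤ p'.lo c`, so `p' ∈ b`.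
So there is an injective map from `{x // InD (Iio a) x}` to the product of the two function types
(`Cardinal.mk_le_of_injective`). -/

set_option autoImplicit false

namespace Pool.Agent.LibMA62

open Cardinal Set Pool.Agent.LibTk83

section

variable {K X : Type} [LinearOrder K] {κ : Cardinal.{0}}

private def cd (a : K) (b : RO (Coh K)) : Set (Iio a × ℕ → Option Bool) :=
  {g | ∃ p : Coh K, p ∈ b ∧ ∀ (i : Iio a) (n : ℕ), g (i, n) = p.f i n}

private theorem cd_sub {a c : K} (hc : c < a) {b b' : RO (Coh K)} (hb' : Sup c b')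
    (h : cd a b = cd a b') (p : Coh K) (hp : p ∈ b) : p ∈ b' := by
  have h1 : (fun z : Iio a × ℕ => p.f z.1 z.2) ∈ cd a b := ⟨p, hp, fun _ _ => rfl⟩
  rw [h] at h1
  obtain ⟨p', hp', h2⟩ := h1
  have h3 : p.lo c = p'.lo c := by
    refine Coh.ext' fun i n => ?_
    rcases lt_or_ge i c with hi | hi
    · rw [Coh.lo_of_lt hi, Coh.lo_of_lt hi]
      exact h2 ⟨i, hi.trans hc⟩ n
    · rw [Coh.lo_of_le hi, Coh.lo_of_le hi]
  refine RO.mem_of_le (Coh.le_lo c p) ?_
  rw [h3]
  exact hb' p' hp'

private theorem cd_inj {a c : K} (hc : c < a) {b b' : RO (Coh K)} (hb : Sup c b) (hb' : Sup c b')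
    (h : cd a b = cd a b') : b = b' :=
  RO.ext fun p => ⟨fun hp => cd_sub hc hb' h p hp, fun hp => cd_sub hc hb h.symm p hp⟩

private def code (a : K) (x : {x : Mt K X κ // InD (Iio a) x}) :
    (Iio a × ℕ → Option Bool) × (Iio a × X → Option (Set (Iio a × ℕ → Option Bool))) :=
  (fun z => x.1.p.f z.1 z.2, fun z => (x.1.r.q z.1 z.2).map (cd a))

private theorem code_inj (a : K) :
    Function.Injective (code a : {x : Mt K X κ // InD (Iio a) x} → _) := by
  rintro ⟨x, hx⟩ ⟨y, hy⟩ h
  have h1 : ∀ z : Iio a × ℕ, x.p.f z.1 z.2 = y.p.f z.1 z.2 := fun z => congrFun (congrArg Prod.fst h) z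
  have h2 : ∀ z : Iio a × X, (x.r.q z.1 z.2).map (cd a) = (y.r.q z.1 z.2).map (cd a) :=
    fun z => congrFun (congrArg Prod.snd h) z
  apply Subtype.ext
  show x = y
  refine Mt.ext' (Coh.ext' fun i n => ?_) (Rq.ext' fun c z => ?_)
  · rcases lt_or_ge i a with hi | hi
    · exact h1 (⟨i, hi⟩, n)
    · have e1 : x.p.f i n = none := by
        by_contra hne
        exact absurd (hx.1 i n hne) (not_lt.2 hi)
      have e2 : y.p.f i n = none := by
        by_contra hne
        exact absurd (hy.1 i n hne) (not_lt.2 hi)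
      rw [e1, e2]
  · rcases lt_or_ge c a with hc | hc
    · have h3 : (x.r.q c z).map (cd a) = (y.r.q c z).map (cd a) := h2 (⟨c, hc⟩, z)
      cases ex : x.r.q c z with
      | none =>
        cases ey : y.r.q c z with
        | none => rfl
        | some b' =>
          rw [ex, ey] at h3
          cases h3
      | some b =>
        cases ey : y.r.q c z with
        | none =>
          rw [ex, ey] at h3
          cases h3
        | some b' =>
          rw [ex, ey] at h3
          have h4 : cd a b = cd a b' := Option.some.inj h3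
          rw [cd_inj hc (x.r.sup c z b ex) (y.r.sup c z b' ey) h4]
    · have e1 : x.r.q c z = none := by
        by_contra hne
        exact absurd (hx.2 c z hne) (not_lt.2 hc)
      have e2 : y.r.q c z = none := by
        by_contra hne
        exact absurd (hy.2 c z hne) (not_lt.2 hc)
      rw [e1, e2]

end

private theorem pow_lt_m {m : Cardinal.{0}} (hm : ℵ₀ ≤ m)
    (hp : ∀ c : Cardinal.{0}, c < m → (2 : Cardinal.{0}) ^ c < m) {c e : Cardinal.{0}}
    (hc : c < m) (he : e < m) : c ^ e < m := by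
  have h1 : c ^ e ≤ (2 ^ c) ^ e := Cardinal.power_le_power_right (Cardinal.cantor c).le
  rw [← Cardinal.power_mul] at h1
  exact h1.trans_lt (hp _ (Cardinal.mul_lt_of_lt hm hc he))

private theorem opt_lt {m : Cardinal.{0}} (hm : ℵ₀ ≤ m) {T : Type} (hT : #T < m) :
    #(Option T) < m := by
  rw [Cardinal.mk_option]
  exact Cardinal.add_lt_of_lt hm hT (Cardinal.one_lt_aleph0.trans_le hm)

theorem size_lt {K X : Type} [LinearOrder K] {κ : Cardinal.{0}} (hκ : ℵ₀ ≤ κ) {D : Set K}
    (hD : InacD κ X D) {a : K} (ha : a ∈ D) : #{x : Mt K X κ // InD (Iio a) x} < #D := by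
  have hm : ℵ₀ ≤ #D := hκ.trans hD.hκ.le
  have hN : #ℕ < #D := by
    rw [Cardinal.mk_nat]
    exact hκ.trans_lt hD.hκ
  have hA : #(Iio a) < #D := hD.ini a ha
  have h1 : #(Iio a × ℕ) < #D := by
    rw [Cardinal.mk_prod, Cardinal.lift_id, Cardinal.lift_id]
    exact Cardinal.mul_lt_of_lt hm hA hN
  have h2 : #(Iio a × X) < #D := by
    rw [Cardinal.mk_prod, Cardinal.lift_id, Cardinal.lift_id]
    exact Cardinal.mul_lt_of_lt hm hA hD.hX
  have hB : #(Option Bool) < #D := (Cardinal.lt_aleph0_of_finite (Option Bool)).trans_le hm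
  have h3 : #(Iio a × ℕ → Option Bool) < #D := by
    rw [← Cardinal.power_def]
    exact pow_lt_m hm hD.pow hB h1
  have h4 : #(Set (Iio a × ℕ → Option Bool)) < #D := by
    rw [Cardinal.mk_set]
    exact hD.pow _ h3
  have h5 : #(Iio a × X → Option (Set (Iio a × ℕ → Option Bool))) < #D := by
    rw [← Cardinal.power_def]
    exact pow_lt_m hm hD.pow (opt_lt hm h4) h2
  refine (Cardinal.mk_le_of_injective (code_inj (X := X) (κ := κ) a)).trans_lt ?_
  rw [Cardinal.mk_prod, Cardinal.lift_id, Cardinal.lift_id]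
  exact Cardinal.mul_lt_of_lt hm h3 h5

end Pool.Agent.LibMA62
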