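import Pool.Agent.LibMA62.Defs

/-! Row D2: closing off. For an inaccessible `D` and `G : D → D` there is a point `γ ∈ D` of cofinality
greater than `κ` which is a limit of points `b` with `G b < γ`.

Facts: `κ⁺ = Order.succ κ ≤ 2 ^ κ < #D` (`hD.hκ`, `hD.pow`, `Cardinal.cantor`). Let
`J := (Order.succ κ).ord.ToType` (well-ordered, `#J = κ⁺`, initial segments have at most `κ`
elements, and each subset of `J` with at most `κ` elements is bounded in `J`, because `κ⁺` is regular;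
`J` has no largest element). By well-founded recursion on `J` and `hD.reg` choose `g : J → K` with `g j ∈ D`
and `g i < g j`, `G (g i) < g j` for all `i < j` (the set `{g i, G (g i) | i < j}` has at most `κ + κ = κ`
elements and is a subset of `D`; recursion on the subtype `{x // x ∈ D}` is convenient). The range of `g`
has at most `κ⁺ < #D` elements, so it has a strict upper bound in `D`; let `γ` be the least strict upper
bound (`wellFounded_lt.min`); it is in `D` (`hD.lower`). For `s` with `#s ≤ κ` and all elements `< γ`: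
each `a ∈ s` is not a strict upper bound of the range, so there is `i a` with `a ≤ g (i a)`. The set of the
`i a` has at most `κ` elements, hence there is `j : J` with `i a < j` for all `a ∈ s`. Then
`a ≤ g (i a) < g j` and `b := g j` works: `g j < γ`, `G (g j) < g j' < γ` for some `j' > j`. -/

set_option autoImplicit false

namespace Pool.Agent.LibMA62

open Cardinal Set Pool.Agent.LibTk83

private theorem D2_Iio {κ : Cardinal.{0}} (i : (Order.succ κ).ord.ToType) : #(Iio i) ≤ κ := by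
  have h : #(Iio i) < Order.succ κ := by simpa using Cardinal.mk_Iio_lt i
  exact Order.lt_succ_iff.1 h

private theorem D2_Iic {κ : Cardinal.{0}} (hκ : ℵ₀ ≤ κ) (i : (Order.succ κ).ord.ToType) :
    #(Iic i) ≤ κ := by
  have h1 : #(Iio i) ≤ κ := D2_Iio i
  have h2 : Iic i ⊆ Iio i ∪ {i} := by
    intro x hx
    rcases lt_or_eq_of_le (mem_Iic.1 hx) with h | h
    · exact Or.inl h
    · exact Or.inr h
  calc #(Iic i) ≤ #(Iio i ∪ {i} : Set _) := Cardinal.mk_le_mk_of_subset h2
    _ ≤ #(Iio i) + #({i} : Set _) := Cardinal.mk_union_le _ _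
    _ ≤ κ + κ := by
        refine add_le_add h1 ?_
        rw [Cardinal.mk_singleton]
        exact Cardinal.one_le_aleph0.trans hκ
    _ = κ := Cardinal.add_eq_self hκ

private theorem D2_bd {κ : Cardinal.{0}} (hκ : ℵ₀ ≤ κ) (S : Set (Order.succ κ).ord.ToType) (hS : #S ≤ κ) :
    ∃ j : (Order.succ κ).ord.ToType, ∀ i ∈ S, i < j := by
  by_contra hcon
  push Not at hcon
  have h1 : (univ : Set (Order.succ κ).ord.ToType) ⊆ ⋃ i ∈ S, Iic i := by
    intro j _
    obtain ⟨i, hi, hij⟩ := hcon j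
    exact mem_biUnion hi hij
  have h2 : #(Order.succ κ).ord.ToType ≤ κ := by
    rw [← Cardinal.mk_univ]
    refine (Cardinal.mk_le_mk_of_subset h1).trans ((Cardinal.mk_biUnion_le _ _).trans ?_)
    calc #S * ⨆ x : S, #(Iic x.1) ≤ κ * κ :=
          mul_le_mul' hS (ciSup_le' fun x => D2_Iic hκ x.1)
      _ = κ := Cardinal.mul_eq_self hκ
  rw [Cardinal.mk_ord_toType] at h2
  exact absurd h2 (not_le.2 (Order.lt_succ κ))

theorem close_off {K X : Type} [LinearOrder K] [WellFoundedLT K] {κ : Cardinal.{0}} (hκ : ℵ₀ ≤ κ)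
    {D : Set K} (hD : InacD κ X D) (G : K → K) (hG : ∀ b ∈ D, G b ∈ D) :
    ∃ γ ∈ D, ∀ s : Set K, #s ≤ κ → (∀ a ∈ s, a < γ) →
      ∃ b, b < γ ∧ (∀ a ∈ s, a < b) ∧ G b < γ := by
  classical
  have hsucc : Order.succ κ < #D :=
    (Order.succ_le_of_lt (Cardinal.cantor κ)).trans_lt (hD.pow κ hD.hκ)
  have key : ∀ (j : (Order.succ κ).ord.ToType) (f : ∀ i, i < j → D),
      ∃ b : D, ∀ i h, (f i h : K) < b ∧ G (f i h) < b := by
    intro j f
    have h1 : #(Iio j) ≤ κ := D2_Iio j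
    obtain ⟨b, hb, hb'⟩ := hD.reg
      (range (fun i : Iio j => (f i.1 i.2 : K)) ∪ range (fun i : Iio j => G (f i.1 i.2))) (by
        rintro _ (⟨i, rfl⟩ | ⟨i, rfl⟩)
        · exact (f i.1 i.2).2
        · exact hG _ (f i.1 i.2).2) (by
        refine lt_of_le_of_lt ((Cardinal.mk_union_le _ _).trans ?_) hD.hκ
        calc _ ≤ #(Iio j) + #(Iio j) := add_le_add Cardinal.mk_range_le Cardinal.mk_range_le
          _ ≤ κ + κ := add_le_add h1 h1
          _ = κ := Cardinal.add_eq_self hκ)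
    exact ⟨⟨b, hb⟩, fun i h => ⟨hb' _ (Or.inl ⟨⟨i, h⟩, rfl⟩), hb' _ (Or.inr ⟨⟨i, h⟩, rfl⟩)⟩⟩
  choose F hF using key
  obtain ⟨g, hg⟩ : ∃ g : (Order.succ κ).ord.ToType → D, ∀ j, g j = F j fun i _ => g i := by
    refine ⟨wellFounded_lt.fix fun j ih => F j ih, fun j => ?_⟩
    exact WellFounded.fix_eq _ _ _
  have hg1 : ∀ i j, i < j → (g i : K) < g j ∧ G (g i) < g j := by
    intro i j hij
    rw [hg j]
    exact hF j (fun i _ => g i) i hij
  obtain ⟨β, hβ, hβ'⟩ := hD.reg (range fun j => (g j : K)) (by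
    rintro _ ⟨j, rfl⟩
    exact (g j).2) (by
    refine lt_of_le_of_lt Cardinal.mk_range_le ?_
    rw [Cardinal.mk_ord_toType]
    exact hsucc)
  have hne : {b : K | ∀ j, (g j : K) < b}.Nonempty := ⟨β, fun j => hβ' _ ⟨j, rfl⟩⟩
  obtain ⟨γ, hγ⟩ : ∃ γ, γ = (wellFounded_lt (α := K)).min {b : K | ∀ j, (g j : K) < b} hne := ⟨_, rfl⟩
  have hγ1 : ∀ j, (g j : K) < γ := by
    rw [hγ]
    exact WellFounded.min_mem _ _ hne
  have hγ2 : ∀ a, a < γ → ∃ j, a ≤ g j := by
    intro a ha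
    by_contra hcon
    push Not at hcon
    have h1 : a ∈ {b : K | ∀ j, (g j : K) < b} := hcon
    rw [hγ] at ha
    exact WellFounded.not_lt_min _ _ h1 ha
  have hγβ : γ ≤ β := by
    by_contra hcon
    rw [not_le] at hcon
    obtain ⟨j, hj⟩ := hγ2 β hcon
    exact absurd (hβ' _ ⟨j, rfl⟩) (not_lt.2 hj)
  refine ⟨γ, hD.lower γ β hγβ hβ, ?_⟩
  intro s hs hsγ
  choose i hi using fun a : s => hγ2 a.1 (hsγ a.1 a.2)
  obtain ⟨j, hj⟩ := D2_bd hκ (range i) (Cardinal.mk_range_le.trans hs)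
  obtain ⟨j', hj'⟩ := D2_bd hκ {j} (by
    rw [Cardinal.mk_singleton]
    exact Cardinal.one_le_aleph0.trans hκ)
  refine ⟨g j, hγ1 j, ?_, ((hg1 j j' (hj' j rfl)).2).trans (hγ1 j')⟩
  intro a ha
  exact (hi ⟨a, ha⟩).trans_lt (hg1 _ j (hj _ ⟨⟨a, ha⟩, rfl⟩)).1

end Pool.Agent.LibMA62
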