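import Pool.Agent.LibMA62.D1
import Pool.Agent.LibMA62.D2

/-! Row D3: the `#D`-chain condition of `P_D`.

Suppose not; then `x` is injective modulo compatibility. Say that a set `A` of conditions of `P_D` is an
antichain if no two different members have a common extension `y` with `InD D y`. The range of `x` is an
antichain (and `x` is injective, so it has at least `#D` elements). By Zorn's lemma
(`zorn_subset_nonempty` or `zorn_subset`) let `A` be a maximal antichain containing the range of `x`.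
For each `s` with `InD D s` there is `m s ∈ A` compatible with `s` (some `y`, `InD D y`, `y ≤ s`,
`y ≤ m s`).
For `b ∈ D` there is `G b ∈ D` with `InD (Iio (G b)) (m s)` for all `s` with `InD (Iio b) s`: by
`exists_dom` the coordinates of `m s` are a subset of `D` of size `≤ κ < #D`, so they are bounded by some
`β s ∈ D` (`hD.reg`); there are fewer than `#D` such `s` (`size_lt`), so the `β s` have a common strict
upper bound in `D`. Apply `close_off` to `G`: `γ ∈ D`. If `InD (Iio γ) s` then by `exists_dom` the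
coordinates of `s` are below some `b < γ` with `G b < γ`, so `InD (Iio γ) (m s)`.
Now let `u ∈ A`. Put `s := u.lo γ` (`InD.of_lo`), `v := m s`, `InD (Iio γ) v`, and `y` a common extension of
`s` and `v` in `P_D`. Then `z := Mt.am hκ γ y u` is `≤ u` (`y.lo γ ≤ s.lo γ = u.lo γ`),
`≤ y.lo γ ≤ v.lo γ = v`, and in `P_D`. So `u` and `v` are compatible members of `A`, `u = v`, and
`InD (Iio γ) u`. Hence `#A ≤ #{u // InD (Iio γ) u} < #D`: contradiction. -/

set_option autoImplicit false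

namespace Pool.Agent.LibMA62

open Cardinal Set Pool.Agent.LibTk83

theorem cc {K X : Type} [LinearOrder K] [WellFoundedLT K] {κ : Cardinal.{0}} (hκ : ℵ₀ ≤ κ)
    {D : Set K} (hD : InacD κ X D) (J : Type) (hJ : #D ≤ #J) (x : J → Mt K X κ)
    (hx : ∀ j, InD D (x j)) : ∃ i j, i ≠ j ∧ ∃ y, InD D y ∧ y ≤ x i ∧ y ≤ x j := by
  classical
  by_contra hcon
  have hno : ∀ i j, (∃ y, InD D y ∧ y ≤ x i ∧ y ≤ x j) → i = j := by
    intro i j h
    by_contra hij
    exact hcon ⟨i, j, hij, h⟩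
  let S : Set (Set (Mt K X κ)) := {A | (∀ u ∈ A, InD D u) ∧
    ∀ u ∈ A, ∀ v ∈ A, (∃ y, InD D y ∧ y ≤ u ∧ y ≤ v) → u = v}
  have hxS : range x ∈ S := by
    refine ⟨?_, ?_⟩
    · rintro _ ⟨j, rfl⟩
      exact hx j
    · rintro _ ⟨i, rfl⟩ _ ⟨j, rfl⟩ h
      rw [hno i j h]
  have hxinj : Function.Injective x := by
    intro i j h
    refine hno i j ⟨x i, hx i, le_rfl, ?_⟩
    rw [h]
  obtain ⟨A, hxA, hA⟩ := zorn_subset_nonempty S (fun c hc hch hne => by
    refine ⟨⋃₀ c, ⟨?_, ?_⟩, fun s hs => subset_sUnion_of_mem hs⟩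
    · rintro u ⟨s, hs, hu⟩
      exact (hc hs).1 u hu
    · rintro u ⟨s, hs, hu⟩ v ⟨t, ht, hv⟩ h
      rcases hch.total hs ht with h1 | h1
      · exact (hc ht).2 u (h1 hu) v hv h
      · exact (hc hs).2 u hu v (h1 hv) h) (range x) hxS
  have hAS : A ∈ S := hA.prop
  have hcomp : ∀ s : Mt K X κ, ∃ m, InD D s → (m ∈ A ∧ ∃ y, InD D y ∧ y ≤ s ∧ y ≤ m) := by
    intro s
    by_cases hs : InD D s
    · by_contra hc
      push Not at hc
      have hc' : ∀ m ∈ A, ∀ y, InD D y → y ≤ s → ¬ y ≤ m := fun m hm => (hc m).2 hm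
      have hins : insert s A ∈ S := by
        refine ⟨?_, ?_⟩
        · rintro u (rfl | hu)
          · exact hs
          · exact hAS.1 u hu
        · rintro u (rfl | hu) v (rfl | hv) h
          · rfl
          · obtain ⟨y, h1, h2, h3⟩ := h
            exact absurd h3 (hc' v hv y h1 h2)
          · obtain ⟨y, h1, h2, h3⟩ := h
            exact absurd h2 (hc' u hu y h1 h3)
          · exact hAS.2 u hu v hv h
      have hsub : insert s A ⊆ A := hA.le_of_ge hins (subset_insert s A)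
      exact hc' s (hsub (mem_insert s A)) s hs le_rfl le_rfl
    · exact ⟨s, fun h => absurd h hs⟩
  choose m hm using hcomp
  have hβ : ∀ s : Mt K X κ, ∃ b, InD D s → (b ∈ D ∧ InD (Iio b) (m s)) := by
    intro s
    by_cases hs : InD D s
    · obtain ⟨t, ht, ht1, ht2⟩ := exists_dom hκ (m s)
      obtain ⟨b, hb, hb1⟩ := hD.reg t (ht2 D (hAS.1 _ (hm s hs).1)) (ht.trans_lt hD.hκ)
      exact ⟨b, fun _ => ⟨hb, ht1.mono fun a ha => hb1 a ha⟩⟩
    · obtain ⟨t, -⟩ := exists_dom hκ s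
      by_cases hne : Nonempty K
      · exact ⟨hne.some, fun h => absurd h hs⟩
      · exfalso
        refine hs ⟨fun i => absurd ⟨i⟩ hne, fun a => absurd ⟨a⟩ hne⟩
  choose β hβ using hβ
  have hsubD : ∀ b ∈ D, Iio b ⊆ D := fun b hb a ha => hD.lower a b (le_of_lt ha) hb
  have hG : ∀ b : K, ∃ g, b ∈ D → (g ∈ D ∧ ∀ s, InD (Iio b) s → InD (Iio g) (m s)) := by
    intro b
    by_cases hb : b ∈ D
    · let T : Set K := range (fun s : {s : Mt K X κ // InD (Iio b) s} => β s.1)
      have hT1 : T ⊆ D := by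
        rintro _ ⟨s, rfl⟩
        exact (hβ s.1 (s.2.mono (hsubD b hb))).1
      have hT2 : #T < #D := Cardinal.mk_range_le.trans_lt (size_lt hκ hD hb)
      obtain ⟨g, hg, hg1⟩ := hD.reg T hT1 hT2
      refine ⟨g, fun _ => ⟨hg, fun s hs => ?_⟩⟩
      have h1 := (hβ s (hs.mono (hsubD b hb))).2
      exact h1.mono fun a ha => lt_trans ha (hg1 _ ⟨⟨s, hs⟩, rfl⟩)
    · exact ⟨b, fun h => absurd h hb⟩
  choose G hG using hG
  obtain ⟨γ, hγ, hcl⟩ := close_off hκ hD G fun b hb => (hG b hb).1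
  have hmγ : ∀ s, InD (Iio γ) s → InD (Iio γ) (m s) := by
    intro s hs
    obtain ⟨t, ht, ht1, ht2⟩ := exists_dom hκ s
    obtain ⟨b, hb, hb1, hb2⟩ := hcl t ht (fun a ha => ht2 (Iio γ) hs ha)
    have h1 : InD (Iio b) s := ht1.mono fun a ha => hb1 a ha
    exact ((hG b (hsubD γ hγ hb)).2 s h1).mono fun a ha => lt_trans ha hb2
  have hAγ : ∀ u ∈ A, InD (Iio γ) u := by
    intro u hu
    have huD : InD D u := hAS.1 u hu
    have hs : InD (Iio γ) (u.lo γ) := InD.of_lo γ u
    have hsD : InD D (u.lo γ) := huD.lo γ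
    obtain ⟨hv, y, hy, hys, hyv⟩ := hm (u.lo γ) hsD
    have hvγ := hmγ _ hs
    have h1 : y.lo γ ≤ u.lo γ := by
      have h2 := Mt.lo_mono γ hys
      rwa [Mt.lo_lo le_rfl] at h2
    have h3 : Mt.am hκ γ y u ≤ u := Mt.am_le_right hκ h1
    have h4 : Mt.am hκ γ y u ≤ m (u.lo γ) := by
      have h5 := Mt.lo_mono γ hyv
      rw [hvγ.lo_eq] at h5
      exact (Mt.am_le_left hκ γ y u).trans h5
    have h6 : u = m (u.lo γ) := hAS.2 u hu _ hv ⟨_, InD.am hκ γ huD hy, h3, h4⟩
    rw [h6]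
    exact hvγ
  have hcard : #J ≤ #{s : Mt K X κ // InD (Iio γ) s} := by
    refine Cardinal.mk_le_of_injective
      (f := fun j => (⟨x j, hAγ _ (hxA ⟨j, rfl⟩)⟩ : {s : Mt K X κ // InD (Iio γ) s})) ?_
    intro i j h
    exact hxinj (congrArg Subtype.val h)
  exact absurd (hJ.trans hcard) (not_le.mpr (size_lt hκ hD hγ))

end Pool.Agent.LibMA62
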