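import Pool.Agent.LibMA62.D3

/-! Row D4: each element of the algebra depends only on the coordinates below some `c`.

By Zorn's lemma let `A` be a maximal set of conditions, pairwise incompatible (no common extension),
each of which is in `b` or in `bᶜ`. By maximality each condition `s` is compatible with some member of `A`
(extend `s` to `y` with `y ∈ b` or `y ∈ bᶜ`; `y` is compatible with a member of `A`, else insert `y`). By `cc`
(for `D := univ`, `J := A`) `#A < #K` (`#(univ : Set K) = #K`). The coordinates of a member of `A` are a set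
of size `≤ κ < #K` (`exists_dom`), so they are bounded (`hK.reg`), and the bounds of all members of `A` are
bounded by some `c` (`hK.reg` again). So `u.lo c = u` for `u ∈ A` (`InD.lo_eq`).
Let `x ∈ b` and suppose that `x.lo c ∉ b`. Then (`RO.mem_of_dense`, `RO.mem_compl`) there is `y ≤ x.lo c`
with `y ∈ bᶜ`. Let `u ∈ A` and `z` with `z ≤ y`, `z ≤ u`. Then `u ∉ b` so `u ∈ bᶜ`. Now
`z.lo c ≤ (x.lo c).lo c = x.lo c` and `z.lo c ≤ u.lo c = u`. The condition `Mt.am hκ c z x` is `≤ x`, hence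
in `b`, and `≤ z.lo c ≤ u`, hence in `bᶜ`: contradiction. -/

set_option autoImplicit false

namespace Pool.Agent.LibMA62

open Cardinal Set Pool.Agent.LibTk83

private theorem D4_compat {K X : Type} [LinearOrder K] {κ : Cardinal.{0}} (b : RO (Mt K X κ)) :
    ∃ A : Set (Mt K X κ), (∀ u ∈ A, u ∈ b ∨ u ∈ bᶜ) ∧
      (∀ u ∈ A, ∀ v ∈ A, u ≠ v → ¬ ∃ y, y ≤ u ∧ y ≤ v) ∧
      ∀ s, ∃ u ∈ A, ∃ z, z ≤ s ∧ z ≤ u := by
  obtain ⟨A, hA⟩ := zorn_subset {A : Set (Mt K X κ) | (∀ u ∈ A, u ∈ b ∨ u ∈ bᶜ) ∧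
      (∀ u ∈ A, ∀ v ∈ A, u ≠ v → ¬ ∃ y, y ≤ u ∧ y ≤ v)} (by
    intro c hc hch
    refine ⟨⋃₀ c, ⟨?_, ?_⟩, fun s hs => subset_sUnion_of_mem hs⟩
    · rintro u ⟨s, hs, hus⟩
      exact (hc hs).1 u hus
    · rintro u ⟨s, hs, hus⟩ v ⟨t, ht, hvt⟩ huv
      rcases hch.total hs ht with h | h
      · exact (hc ht).2 u (h hus) v hvt huv
      · exact (hc hs).2 u hus v (h hvt) huv)
  refine ⟨A, hA.prop.1, hA.prop.2, fun s => ?_⟩
  by_contra hcon
  have hcon' : ∀ u ∈ A, ∀ z, z ≤ s → ¬ z ≤ u := fun u hu z hz hzu => hcon ⟨u, hu, z, hz, hzu⟩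
  obtain ⟨y, hys, hyb⟩ : ∃ y, y ≤ s ∧ (y ∈ b ∨ y ∈ bᶜ) := by
    by_cases h : s ∈ bᶜ
    · exact ⟨s, le_rfl, Or.inr h⟩
    · rw [RO.mem_compl] at h
      push Not at h
      obtain ⟨y, hy, hyb⟩ := h
      exact ⟨y, hy, Or.inl hyb⟩
  have hins : insert y A ∈ {A : Set (Mt K X κ) | (∀ u ∈ A, u ∈ b ∨ u ∈ bᶜ) ∧
      (∀ u ∈ A, ∀ v ∈ A, u ≠ v → ¬ ∃ y, y ≤ u ∧ y ≤ v)} := by
    refine ⟨?_, ?_⟩
    · intro u hu
      rcases hu with rfl | hu
      · exact hyb
      · exact hA.prop.1 u hu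
    · intro u hu v hv huv
      rcases hu with rfl | hu
      · rcases hv with rfl | hv
        · exact absurd rfl huv
        · rintro ⟨w, hw1, hw2⟩
          exact hcon' v hv w (hw1.trans hys) hw2
      · rcases hv with rfl | hv
        · rintro ⟨w, hw1, hw2⟩
          exact hcon' u hu w (hw2.trans hys) hw1
        · exact hA.prop.2 u hu v hv huv
  have hsub : insert y A ⊆ A := hA.le_of_ge hins (subset_insert y A)
  exact hcon' y (hsub (mem_insert y A)) y hys le_rfl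

theorem supp {K X : Type} [LinearOrder K] [WellFoundedLT K] {κ : Cardinal.{0}} (hκ : ℵ₀ ≤ κ)
    (hK : InacD κ X (univ : Set K)) (b : RO (Mt K X κ)) : ∃ c : K, ∀ x, x ∈ b → x.lo c ∈ b := by
  obtain ⟨A, hAb, hAi, hAc⟩ := D4_compat b
  have hcard : #A < #(univ : Set K) := by
    by_contra h
    push Not at h
    obtain ⟨i, j, hij, y, -, hyi, hyj⟩ := cc hκ hK A h (fun u => u.1)
      (fun _ => ⟨fun _ _ _ => trivial, fun _ _ _ => trivial⟩)
    exact hAi i.1 i.2 j.1 j.2 (fun h => hij (Subtype.ext h)) ⟨y, hyi, hyj⟩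
  have hβ : ∀ u : A, ∃ β : K, InD (Iio β) u.1 := by
    intro u
    obtain ⟨s, hs, hus, -⟩ := exists_dom hκ u.1
    obtain ⟨β, -, hβ⟩ := hK.reg s (subset_univ s) (hs.trans_lt hK.hκ)
    exact ⟨β, hus.mono fun a ha => hβ a ha⟩
  choose β hβ using hβ
  obtain ⟨c, -, hc⟩ := hK.reg (range β) (subset_univ _) (mk_range_le.trans_lt hcard)
  have hlo : ∀ u ∈ A, u.lo c = u := by
    intro u hu
    refine InD.lo_eq ((hβ ⟨u, hu⟩).mono ?_)
    exact Iio_subset_Iio (hc _ (mem_range_self _)).le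
  refine ⟨c, fun x hx => ?_⟩
  refine RO.mem_of_dense fun y hy => ?_
  by_contra hcon
  have hyc : y ∈ bᶜ := by
    rw [RO.mem_compl]
    exact fun r hr hrb => hcon ⟨r, hr, hrb⟩
  obtain ⟨u, hu, z, hzy, hzu⟩ := hAc y
  have huc : u ∈ bᶜ := by
    rcases hAb u hu with h | h
    · exact absurd (RO.mem_of_le hzu h) ((RO.mem_compl.1 (RO.mem_of_le hzy hyc)) z le_rfl)
    · exact h
  have h1 : z.lo c ≤ x.lo c := by
    have := Mt.lo_mono c (hzy.trans hy)
    rwa [Mt.lo_lo le_rfl] at this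
  have h2 : z.lo c ≤ u := by
    have := Mt.lo_mono c hzu
    rwa [hlo u hu] at this
  have h3 : Mt.am hκ c z x ≤ x := Mt.am_le_right hκ h1
  have h4 : Mt.am hκ c z x ≤ u := (Mt.am_le_left hκ c z x).trans h2
  exact (RO.mem_compl.1 (RO.mem_of_le h4 huc)) _ le_rfl (RO.mem_of_le h3 hx)

end Pool.Agent.LibMA62
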