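import Mathlib
import Pool.Agent.LibTk83.RO
import Pool.Agent.LibTk83.CccDef

/-!
MA62: a Mitchell-type forcing at `ω`. Cohen conditions, the algebra-valued second coordinate, the
forcing notion, restrictions. Conditions: smaller is stronger.
-/

set_option autoImplicit false

namespace Pool.Agent.LibMA62

open Cardinal Set Pool.Agent.LibTk83

/-- Finite partial functions from `K × ℕ` to `Bool`. -/
structure Coh (K : Type) where
  f : K → ℕ → Option Bool
  fin : {z : K × ℕ | f z.1 z.2 ≠ none}.Finite

instance {K : Type} : Preorder (Coh K) where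
  le p q := ∀ i n b, q.f i n = some b → p.f i n = some b
  le_refl _ _ _ _ h := h
  le_trans _ _ _ h h' i n b hb := h i n b (h' i n b hb)

theorem Coh.le_def {K : Type} {p q : Coh K} :
    p ≤ q ↔ ∀ i n b, q.f i n = some b → p.f i n = some b := Iff.rfl

/-- The coordinates of a Cohen condition for which the predicate `S` holds. -/
def Coh.restr {K : Type} (S : K → Prop) [DecidablePred S] (p : Coh K) : Coh K where
  f := fun i n => if S i then p.f i n else none
  fin := p.fin.subset fun z hz => by
    simp only [mem_ofPred_eq] at hz ⊢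
    intro h
    apply hz
    split_ifs <;> first | exact h | rfl

/-- The coordinates below `d`. -/
noncomputable def Coh.lo {K : Type} [LinearOrder K] (d : K) (p : Coh K) : Coh K := by
  classical exact p.restr (fun i => i < d)

/-- The coordinates from `d` on. -/
noncomputable def Coh.hi {K : Type} [LinearOrder K] (d : K) (p : Coh K) : Coh K := by
  classical exact p.restr (fun i => d ≤ i)

/-- The union of two Cohen conditions (the first one has priority). -/
def Coh.un {K : Type} (p q : Coh K) : Coh K where
  f := fun i n => (p.f i n).orElse fun _ => q.f i n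
  fin := (p.fin.union q.fin).subset fun z hz => by
    simp only [mem_ofPred_eq, mem_union] at hz ⊢
    by_contra h
    push Not at h
    apply hz
    rw [h.1, h.2]
    rfl

/-- The amalgamation: `p` below `d`, `q` from `d` on. -/
noncomputable def Coh.am {K : Type} [LinearOrder K] (d : K) (p q : Coh K) : Coh K :=
  (p.lo d).un (q.hi d)

/-- The element `b` of the algebra depends only on the Cohen coordinates below `a`. -/
def Sup {K : Type} [LinearOrder K] (a : K) (b : RO (Coh K)) : Prop :=
  ∀ p : Coh K, p ∈ b → p.lo a ∈ b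

/-- The second coordinates: partial functions on `K × X`, of size at most `κ`, the value at `(a, x)`
is (the Boolean value of) a name for a bit which depends only on the coordinates below `a`. -/
structure Rq (K X : Type) [LinearOrder K] (κ : Cardinal.{0}) where
  q : K → X → Option (RO (Coh K))
  small : #{z : K × X | q z.1 z.2 ≠ none} ≤ κ
  sup : ∀ a x b, q a x = some b → Sup a b

section

variable {K X : Type} [LinearOrder K] {κ : Cardinal.{0}}

/-- The literal order: extension of partial functions. -/
instance : Preorder (Rq K X κ) where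
  le r s := ∀ a x b, s.q a x = some b → r.q a x = some b
  le_refl _ _ _ _ h := h
  le_trans _ _ _ h h' a x b hb := h a x b (h' a x b hb)

theorem Rq.le_def {r s : Rq K X κ} :
    r ≤ s ↔ ∀ a x b, s.q a x = some b → r.q a x = some b := Iff.rfl

/-- The coordinates for which `S` holds. -/
def Rq.restr (S : K → Prop) [DecidablePred S] (r : Rq K X κ) : Rq K X κ where
  q := fun a x => if S a then r.q a x else none
  small := by
    refine (Cardinal.mk_le_mk_of_subset fun z hz => ?_).trans r.small
    simp only [mem_ofPred_eq] at hz ⊢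
    intro h
    apply hz
    split_ifs <;> first | exact h | rfl
  sup := by
    intro a x b h
    split_ifs at h
    exact r.sup a x b h

noncomputable def Rq.lo (d : K) (r : Rq K X κ) : Rq K X κ := by
  classical exact r.restr (fun a => a < d)

noncomputable def Rq.hi (d : K) (r : Rq K X κ) : Rq K X κ := by
  classical exact r.restr (fun a => d ≤ a)

/-- The union of two second coordinates (the first one has priority). -/
noncomputable def Rq.un (hκ : ℵ₀ ≤ κ) (r s : Rq K X κ) : Rq K X κ where
  q := fun a x => (r.q a x).orElse fun _ => s.q a x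
  small := by
    refine (Cardinal.mk_le_mk_of_subset (fun z hz => ?_ :
      {z : K × X | ((r.q z.1 z.2).orElse fun _ => s.q z.1 z.2) ≠ none} ⊆
        {z : K × X | r.q z.1 z.2 ≠ none} ∪ {z : K × X | s.q z.1 z.2 ≠ none})).trans ?_
    · simp only [mem_ofPred_eq, mem_union] at hz ⊢
      by_contra h
      push Not at h
      apply hz
      rw [h.1, h.2]
      rfl
    · refine (Cardinal.mk_union_le _ _).trans ?_
      exact (add_le_add r.small s.small).trans_eq (Cardinal.add_eq_self hκ)
  sup := by
    intro a x b h
    cases hr : r.q a x with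
    | none =>
      rw [hr] at h
      exact s.sup a x b h
    | some c =>
      rw [hr] at h
      exact r.sup a x b (by rw [hr]; exact h)

/-- The second coordinate which is `r` below `d` and `s` from `d` on. -/
noncomputable def Rq.glue (hκ : ℵ₀ ≤ κ) (d : K) (r s : Rq K X κ) : Rq K X κ := by
  classical exact
    { q := fun a x => if a < d then r.q a x else s.q a x
      small := by
        refine (Cardinal.mk_le_mk_of_subset (fun z hz => ?_ :
          {z : K × X | (if z.1 < d then r.q z.1 z.2 else s.q z.1 z.2) ≠ none} ⊆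
            {z : K × X | r.q z.1 z.2 ≠ none} ∪ {z : K × X | s.q z.1 z.2 ≠ none})).trans ?_
        · simp only [mem_ofPred_eq, mem_union] at hz ⊢
          split_ifs at hz
          · exact Or.inl hz
          · exact Or.inr hz
        · refine (Cardinal.mk_union_le _ _).trans ?_
          exact (add_le_add r.small s.small).trans_eq (Cardinal.add_eq_self hκ)
      sup := by
        intro a x b h
        split_ifs at h
        · exact r.sup a x b h
        · exact s.sup a x b h }

end

/-- The forcing notion. -/
structure Mt (K X : Type) [LinearOrder K] (κ : Cardinal.{0}) where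
  p : Coh K
  r : Rq K X κ

section

variable {K X : Type} [LinearOrder K] {κ : Cardinal.{0}}

/-- `(p', q') ≤ (p, q)` if `p' ≤ p` and `p'` forces that `q'` agrees with `q` on the domain
of `q`. -/
instance : Preorder (Mt K X κ) where
  le y x := y.p ≤ x.p ∧ ∀ a z b, x.r.q a z = some b →
    ∃ b', y.r.q a z = some b' ∧ ∀ s : Coh K, s ≤ y.p → (s ∈ b' ↔ s ∈ b)
  le_refl _ := ⟨le_rfl, fun _ _ b h => ⟨b, h, fun _ _ => Iff.rfl⟩⟩
  le_trans _ _ _ h h' := by
    refine ⟨h.1.trans h'.1, fun a z b hb => ?_⟩
    obtain ⟨b', hb', h1⟩ := h'.2 a z b hb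
    obtain ⟨b'', hb'', h2⟩ := h.2 a z b' hb'
    exact ⟨b'', hb'', fun s hs => (h2 s hs).trans (h1 s (hs.trans h.1))⟩

theorem Mt.le_def {y x : Mt K X κ} : y ≤ x ↔ y.p ≤ x.p ∧ ∀ a z b, x.r.q a z = some b →
    ∃ b', y.r.q a z = some b' ∧ ∀ s : Coh K, s ≤ y.p → (s ∈ b' ↔ s ∈ b) := Iff.rfl

/-- The part of a condition below `d`. -/
noncomputable def Mt.lo (d : K) (x : Mt K X κ) : Mt K X κ := ⟨x.p.lo d, x.r.lo d⟩

/-- `x` is a condition of `P_D`: its coordinates are in the set `D`. -/
def InD (D : Set K) (x : Mt K X κ) : Prop :=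
  (∀ i n, x.p.f i n ≠ none → i ∈ D) ∧ ∀ a z, x.r.q a z ≠ none → a ∈ D

/-- The amalgamation: `y` below `d`, `x` from `d` on. -/
noncomputable def Mt.am (hκ : ℵ₀ ≤ κ) (d : K) (y x : Mt K X κ) : Mt K X κ :=
  ⟨Coh.am d y.p x.p, Rq.glue hκ d y.r x.r⟩

/-- The set `D` (a lower set) is like an inaccessible cardinal above `κ` and `#X`. -/
structure InacD (κ : Cardinal.{0}) (X : Type) (D : Set K) : Prop where
  lower : ∀ a b, a ≤ b → b ∈ D → a ∈ D
  reg : ∀ s : Set K, s ⊆ D → #s < #D → ∃ b ∈ D, ∀ a ∈ s, a < b
  pow : ∀ c : Cardinal.{0}, c < #D → (2 : Cardinal.{0}) ^ c < #D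
  ini : ∀ a ∈ D, #(Iio a) < #D
  hX : #X < #D
  hκ : κ < #D

/-- `U` is a normal ultrafilter. -/
structure NormalU (U : Ultrafilter K) : Prop where
  tail : ∀ a, {d | a < d} ∈ U
  comp : ∀ (I : Type) (A : I → Set K), #I < #K → (∀ i, A i ∈ U) → {d | ∀ i, d ∈ A i} ∈ U
  norm : ∀ A : K → Set K, (∀ a, A a ∈ U) → {d | ∀ a < d, d ∈ A a} ∈ U

end

/-- `R` is `κ`-closed: well-ordered decreasing families of at most `κ` conditions have lower
bounds. -/
def Closed (κ : Cardinal.{0}) (R : Type) [Preorder R] : Prop :=
  ∀ (J : Type) [LinearOrder J] [WellFoundedLT J] (c : J → R), #J ≤ κ →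
    (∀ i j, i ≤ j → c j ≤ c i) → ∃ r, ∀ j, r ≤ c j

/-- The data for a cofinal branch, added by the forcing, of a tree of height `d` all of whose
initial segments are in the part `P_d`: `Dec x a z` means that `x` decides that the branch goes at
level `a` through the node number `z`, and `Lt x a z b w` that `x` forces that the node number `z` of
level `a` is below the node number `w` of level `b`. -/
structure BrData (K X : Type) [LinearOrder K] (κ : Cardinal.{0}) (d : K) (Th : Type)
    (x0 : Mt K X κ) where
  Dec : Mt K X κ → K → Th → Prop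
  Lt : Mt K X κ → K → Th → K → Th → Prop
  dmono : ∀ x y a z, y ≤ x → Dec x a z → Dec y a z
  ddense : ∀ x, x ≤ x0 → ∀ a, a < d → ∃ y, y ≤ x ∧ ∃ z, Dec y a z
  dreg : ∀ x a z, (∀ y, y ≤ x → ∃ y', y' ≤ y ∧ Dec y' a z) → Dec x a z
  duniq : ∀ x, x ≤ x0 → ∀ a z z', a < d → Dec x a z → Dec x a z' → z = z'
  lmono : ∀ x y a z b w, y ≤ x → Lt x a z b w → Lt y a z b w
  llo : ∀ x a z b w, a < d → b < d → Lt x a z b w → Lt (x.lo d) a z b w
  luniq : ∀ x, x ≤ x0 → ∀ a z z' b w, a < b → b < d → Lt x a z b w → Lt x a z' b w → z = z'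
  dl : ∀ x, x ≤ x0 → ∀ a z b w, a < b → b < d → Dec x a z → Dec x b w → Lt x a z b w

end Pool.Agent.LibMA62
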