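import Pool.Agent.LibMA62.Defs

/-! Definitions for the main lemma. -/

set_option autoImplicit false

namespace Pool.Agent.LibMA62

open Cardinal Set Pool.Agent.LibTk83

variable {K X : Type} [LinearOrder K] {κ : Cardinal.{0}} {d : K} {Th : Type} {x0 : Mt K X κ}

/-- Below `x`, the decisions on the branch depend only on the part below `d`. -/
def BrData.FP (M : BrData K X κ d Th x0) (x : Mt K X κ) : Prop :=
  ∀ y, y ≤ x → ∀ y', y' ≤ x → y.lo d = y'.lo d →
    ∀ a, a < d → ∀ z z', M.Dec y a z → M.Dec y' a z' → z = z'

/-- Below `⟨p, q⟩` (literal order), the decisions do not depend on the Cohen part from `d` on. -/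
structure StarAt (M : BrData K X κ d Th x0) (p : Coh K) (q : Rq K X κ) : Prop where
  hp : p ≤ x0.p
  hq : q ≤ x0.r
  star : ∀ r, r ≤ q → ∀ s, s ≤ p → ∀ a, a < d → ∀ z,
    M.Dec ⟨s, r⟩ a z → M.Dec ⟨Coh.am d s p, r⟩ a z

/-- Splitting: for a dense set of Cohen parts, `r0` and `r1` (from `d` on) together with `Q` (below
`d`) decide some level below `g` in different ways. -/
def SLP (M : BrData K X κ d Th x0) (hκ : ℵ₀ ≤ κ) (p : Coh K) (Q r0 r1 : Rq K X κ) (g : K) : Prop :=
  ∀ s, s ≤ p → ∃ s', s' ≤ s ∧ ∃ b, b < g ∧ ∃ z0 z1, z0 ≠ z1 ∧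
    M.Dec ⟨Coh.am d s' p, Rq.glue hκ d Q r0⟩ b z0 ∧
    M.Dec ⟨Coh.am d s' p, Rq.glue hκ d Q r1⟩ b z1

/-- The Cohen condition which says that the first bits of the real number `i` are the bits of the
reversed list `l`. -/
noncomputable def pc {K : Type} (i : K) (l : List Bool) : Coh K := by
  classical exact
    { f := fun j n => if j = i then l.reverse[n]? else none
      fin := by
        refine ((Set.finite_singleton i).prod (Set.finite_lt_nat l.length)).subset ?_
        rintro ⟨j, n⟩ hz
        simp only [mem_ofPred_eq] at hz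
        simp only [mem_prod, mem_singleton_iff, mem_ofPred_eq]
        by_cases h : j = i
        · refine ⟨h, ?_⟩
          rw [if_pos h] at hz
          by_contra hn
          apply hz
          simp only [List.getElem?_eq_none_iff, List.length_reverse]
          omega
        · rw [if_neg h] at hz
          exact absurd rfl hz }

end Pool.Agent.LibMA62
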