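import Pool.Agent.LibMA62.B1

/-! Row E1: the abstract form of the lemma that a ccc forcing (with ccc square) does not add a branch.

Suppose not: (N) for all `p ≤ p0`, `r ≤ r0` there are `r' ≤ r`, `p', p'' ≤ p` with `E p' p''`, `a`, `z ≠ z'`
with `Dec p' r' a z`, `Dec p'' r' a z'`.
Apply `rec_rel` with `κ := ℵ₀`, `J := (ℵ₁ : Cardinal.{0}).ord.ToType`, the preorder `R × Gᵒᵈ`, the start
`(r0, g0)` (any `g0`; `G` is nonempty, otherwise the conclusion is trivial with `p0`, `r0`), and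
`Φ j (u, g) (c, g') := ∃ p' p'' ≤ p0, E p' p'' ∧ ∃ a w z z', a < g' ∧ z ≠ z' ∧ Dec p' c a z ∧
  Dec p'' c a z' ∧ Dec p' c g w ∧ Dec p'' c g w`.
To prove the hypothesis of `rec_rel` at `(u, g)`: by `dense` at `p0`, `u`, `g` there are `p1 ≤ p0`, `u1 ≤ u`, `w`
with `Dec p1 u1 g w`; by (N) for `p1`, `u1` there are `c ≤ u1`, `p', p'' ≤ p1` etc.; use `mono` for the
decision `w`; take `g'` greater than `a` and at least `g` (`hG`).
By `hC` there are `i ≠ j`, by symmetry `i < j`, such that `(p'_i, p''_i)` and `(p'_j, p''_j)` are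
compatible in `C × C`; by `hE` there are `s0 ≤ p'_i, p'_j` and `s1 ≤ p''_i, p''_j` with `E s0 s1`. With
`r := (c j).1` (`≤ (u j).1 ≤ (c i).1`), `a := a_i`, `g := (u j).2 ≥ (c i).2 > a_i` (`u j ≤ c i` in `Gᵒᵈ`)
the hypothesis `coh` gives `z_i = z'_i`: contradiction. -/

set_option autoImplicit false

namespace Pool.Agent.LibMA62

open Cardinal Set Pool.Agent.LibTk83

theorem tail_abs {C R G Th : Type} [Preorder C] [Preorder R] [LinearOrder G]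
    (hC : CCC (C × C)) (hR : Closed ℵ₀ (R × Gᵒᵈ)) (hG : ∀ g : G, ∃ g', g < g')
    (E : C → C → Prop)
    (hE : ∀ p0 p1 q0 q1, E p0 p1 → E q0 q1 → (∃ s, s ≤ p0 ∧ s ≤ q0) → (∃ s, s ≤ p1 ∧ s ≤ q1) →
      ∃ s0 s1, s0 ≤ p0 ∧ s0 ≤ q0 ∧ s1 ≤ p1 ∧ s1 ≤ q1 ∧ E s0 s1)
    (p0 : C) (r0 : R) (Dec : C → R → G → Th → Prop)
    (mono : ∀ p p' r r' a z, p' ≤ p → r' ≤ r → Dec p r a z → Dec p' r' a z)
    (dense : ∀ p, p ≤ p0 → ∀ r, r ≤ r0 → ∀ a, ∃ p', p' ≤ p ∧ ∃ r', r' ≤ r ∧ ∃ z, Dec p' r' a z)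
    (coh : ∀ s0 s1, s0 ≤ p0 → s1 ≤ p0 → ∀ r, r ≤ r0 → E s0 s1 → ∀ a g z z' w, a < g →
      Dec s0 r a z → Dec s0 r g w → Dec s1 r a z' → Dec s1 r g w → z = z') :
    ∃ p, p ≤ p0 ∧ ∃ r, r ≤ r0 ∧ ∀ r', r' ≤ r → ∀ p' p'', p' ≤ p → p'' ≤ p → E p' p'' →
      ∀ a z z', Dec p' r' a z → Dec p'' r' a z' → z = z' := by
  by_contra hN
  push Not at hN
  rcases isEmpty_or_nonempty G with hGe | ⟨⟨g0⟩⟩
  · obtain ⟨-, -, -, -, -, -, -, a, -⟩ := hN p0 le_rfl r0 le_rfl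
    exact hGe.elim a
  -- the index set
  have hJ : ∀ j : (ℵ₁ : Cardinal.{0}).ord.ToType, #(Iio j) ≤ ℵ₀ := by
    intro j
    exact lt_aleph_one_iff.1 (mk_Iio_toType_ord_lt j)
  have hJu : Uncountable (ℵ₁ : Cardinal.{0}).ord.ToType := by
    rw [← aleph0_lt_mk_iff, mk_ord_toType]
    exact aleph0_lt_aleph_one
  obtain ⟨c, u, hΦ, hcu, hur, hij⟩ := rec_rel hR (ℵ₁ : Cardinal.{0}).ord.ToType hJ
    (r0, OrderDual.toDual g0)
    (fun _ x y => ∃ p' p'', p' ≤ p0 ∧ p'' ≤ p0 ∧ E p' p'' ∧ ∃ a w z z',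
      a < OrderDual.ofDual y.2 ∧ z ≠ z' ∧ Dec p' y.1 a z ∧ Dec p'' y.1 a z' ∧
      Dec p' y.1 (OrderDual.ofDual x.2) w ∧ Dec p'' y.1 (OrderDual.ofDual x.2) w)
    (by
      rintro - ⟨x, g⟩ hxg
      have hx : x ≤ r0 := hxg.1
      obtain ⟨p1, hp1, x1, hx1, w, hw⟩ := dense p0 le_rfl x hx (OrderDual.ofDual g)
      obtain ⟨c, hc, p', p'', hp', hp'', hE', a, z, z', hz, hz', hne⟩ :=
        hN p1 hp1 x1 (hx1.trans hx)
      obtain ⟨g', hg'⟩ := hG (max a (OrderDual.ofDual g))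
      refine ⟨(c, OrderDual.toDual g'), ⟨hc.trans hx1, ?_⟩, p', p'', hp'.trans hp1,
        hp''.trans hp1, hE', a, w, z, z', ?_, hne, hz, hz', ?_, ?_⟩
      · exact OrderDual.toDual_le.2 ((le_max_right _ _).trans hg'.le)
      · exact (le_max_left _ _).trans_lt hg'
      · exact mono _ _ _ _ _ _ hp' hc hw
      · exact mono _ _ _ _ _ _ hp'' hc hw)
  choose p' p'' hp' hp'' hE' a w z z' ha hne hz hz' hw hw' using hΦ
  obtain ⟨i, j, hne', s, hs⟩ := hC _ hJu (fun j => (p' j, p'' j))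
  have key : ∀ i j, i < j → (∃ s, s ≤ p' i ∧ s ≤ p' j) → (∃ s, s ≤ p'' i ∧ s ≤ p'' j) →
      False := by
    intro i j hlt h1 h2
    obtain ⟨s0, s1, h3, h4, h5, h6, h7⟩ := hE _ _ _ _ (hE' i) (hE' j) h1 h2
    have h8 := hij i j hlt
    have h9 : (c j).1 ≤ (u j).1 := (hcu j).1
    have h10 : (u j).1 ≤ (c i).1 := h8.1
    have h11 : OrderDual.ofDual (c i).2 ≤ OrderDual.ofDual (u j).2 := h8.2
    refine hne i (coh s0 s1 (h3.trans (hp' i)) (h5.trans (hp'' i)) (c j).1 (h9.trans (hur j).1) h7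
      (a i) (OrderDual.ofDual (u j).2) (z i) (z' i) (w j) ((ha i).trans_le h11) ?_ ?_ ?_ ?_)
    · exact mono _ _ _ _ _ _ h3 (h9.trans h10) (hz i)
    · exact mono _ _ _ _ _ _ h4 le_rfl (hw j)
    · exact mono _ _ _ _ _ _ h5 (h9.trans h10) (hz' i)
    · exact mono _ _ _ _ _ _ h6 le_rfl (hw' j)
  rcases lt_or_gt_of_ne hne' with h | h
  · exact key i j h ⟨s.1, hs.1.1, hs.2.1⟩ ⟨s.2, hs.1.2, hs.2.2⟩
  · exact key j i h ⟨s.1, hs.2.1, hs.1.1⟩ ⟨s.2, hs.2.2, hs.1.2⟩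

end Pool.Agent.LibMA62
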