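import Pool.Agent.LibMA62.E0
import Pool.Agent.LibMA62.E1
import Pool.Agent.LibMA62.A3
import Pool.Agent.LibMA62.A4
import Pool.Agent.LibMA62.A5
import Pool.Agent.LibMA62.C1

/-! Row E2: the decisions below some `⟨p, r⟩` do not depend on the Cohen part from `d` on.

`tail_abs` with `C := Coh K`, `R := Rq K X κ`, `G := Iio d` (a subtype; it is unbounded and its countable
subsets are bounded, by `hd`), `E p' p'' := p'.lo d = p''.lo d`, `p0 := x0.p`, `r0 := x0.r`,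
`Dec p r a z := M.Dec ⟨p, r⟩ a z`. `Closed ℵ₀ (Rq K X κ × (Iio d)ᵒᵈ)`: `closed_Rq`, `Closed.prod`,
`Closed.dual`. `hE`: take `s0 := p0.un q0`, `s1 := p1.un q1` (`Coh.un_le_left`, `Coh.un_le_right`,
`Coh.lo_un`). `dense`: `M.ddense` at `⟨p, r⟩ ≤ x0` gives `y ≤ ⟨p, r⟩`; by `Mt.lit` the condition
`⟨y.p, Rq.un hκ r y.r⟩` is below `y`. `coh`: let `x := ⟨s0, r⟩`, `x' := ⟨s1, r⟩`, both `≤ x0`. `M.dl` gives
`M.Lt x a z g w` and `M.Lt x' a z' g w`; by `M.llo` also `M.Lt (x'.lo d) a z' g w` and `x'.lo d = x.lo d`, so by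
`M.lmono` and `Mt.le_lo` `M.Lt x a z' g w`; `M.luniq` gives `z = z'`.
`StarAt`: let `r' ≤ r`, `s ≤ p`, `M.Dec ⟨s, r'⟩ a z`. Use `M.dreg`: let `y ≤ ⟨Coh.am d s p, r'⟩`; this is
`≤ x0` (`Coh.am_le_right`). By `M.ddense` there are `y' ≤ y` and `z''` with `M.Dec y' a z''`; replace `y'` by
`⟨t, r''⟩`, `t := y'.p`, `r'' := Rq.un hκ r' y'.r ≤ r'` (`Mt.lit` for `y' ≤ ⟨Coh.am d s p, r'⟩`). Here
`t ≤ Coh.am d s p`, so `t.lo d ≤ s.lo d` and `t ≤ p`. Put `t' := Coh.am d t s ≤ s`, `t'.lo d = t.lo d`. By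
monotonicity `M.Dec ⟨t', r''⟩ a z` and `M.Dec ⟨t, r''⟩ a z''`, so `z'' = z`. -/

set_option autoImplicit false

namespace Pool.Agent.LibMA62

open Cardinal Set Pool.Agent.LibTk83

theorem exists_star {K X : Type} [LinearOrder K] {κ : Cardinal.{0}} (hκ : ℵ₀ ≤ κ) {d : K}
    {Th : Type} {x0 : Mt K X κ}
    (hd : ∀ s : Set K, #s ≤ ℵ₀ → (∀ a ∈ s, a < d) → ∃ b, b < d ∧ ∀ a ∈ s, a < b)
    (M : BrData K X κ d Th x0) : ∃ p q, StarAt M p q := by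
  have hC : CCC (Coh K × Coh K) := ccc_Coh2 K
  have hR : Closed ℵ₀ (Rq K X κ × (Iio d)ᵒᵈ) := by
    refine Closed.prod (closed_Rq hκ hκ) (Closed.dual fun s hs => ?_)
    obtain ⟨b, hb, hab⟩ := hd (Subtype.val '' s) (Cardinal.mk_image_le.trans hs) (by
      rintro a ⟨a', _, rfl⟩
      exact a'.2)
    exact ⟨⟨b, hb⟩, fun a ha => (hab a.1 ⟨a, ha, rfl⟩).le⟩
  have hG : ∀ g : Iio d, ∃ g', g < g' := by
    intro g
    obtain ⟨b, hb, hab⟩ := hd {g.1} (by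
      rw [Cardinal.mk_singleton]
      exact Cardinal.one_le_aleph0) (by
      intro a ha
      rw [mem_singleton_iff] at ha
      rw [ha]
      exact g.2)
    exact ⟨⟨b, hb⟩, hab g.1 rfl⟩
  obtain ⟨p, hp, r, hr, H⟩ := tail_abs (C := Coh K) (R := Rq K X κ) (G := Iio d) (Th := Th)
    hC hR hG (fun p' p'' => p'.lo d = p''.lo d)
    (by
      intro p0 p1 q0 q1 h0 h1 hs0 hs1
      refine ⟨p0.un q0, p1.un q1, Coh.un_le_left p0 q0, Coh.un_le_right hs0,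
        Coh.un_le_left p1 q1, Coh.un_le_right hs1, ?_⟩
      show (p0.un q0).lo d = (p1.un q1).lo d
      have e0 : p0.lo d = p1.lo d := h0
      have e1 : q0.lo d = q1.lo d := h1
      rw [Coh.lo_un, Coh.lo_un, e0, e1])
    x0.p x0.r (fun p r a z => M.Dec ⟨p, r⟩ a.1 z)
    (fun p p' r r' a z h h' hD => M.dmono _ _ _ _ (Mt.mk_le h h') hD)
    (by
      intro p hp r hr a
      have hle : (⟨p, r⟩ : Mt K X κ) ≤ x0 := Mt.mk_le (p := x0.p) (r := x0.r) hp hr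
      obtain ⟨y, hy, z, hz⟩ := M.ddense ⟨p, r⟩ hle a.1 a.2
      exact ⟨y.p, hy.1, Rq.un hκ r y.r, Rq.un_le_left hκ r y.r, z,
        M.dmono _ _ _ _ (Mt.lit hκ hy).1 hz⟩)
    (by
      intro s0 s1 h0 h1 r hr hE a g z z' w hag hz hw hz' hw'
      have hE' : s0.lo d = s1.lo d := hE
      have hx : (⟨s0, r⟩ : Mt K X κ) ≤ x0 := Mt.mk_le (p := x0.p) (r := x0.r) h0 hr
      have hx' : (⟨s1, r⟩ : Mt K X κ) ≤ x0 := Mt.mk_le (p := x0.p) (r := x0.r) h1 hr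
      have l1 : M.Lt ⟨s0, r⟩ a.1 z g.1 w := M.dl _ hx _ _ _ _ hag g.2 hz hw
      have l2 : M.Lt ⟨s1, r⟩ a.1 z' g.1 w := M.dl _ hx' _ _ _ _ hag g.2 hz' hw'
      have l3 := M.llo _ _ _ _ _ a.2 g.2 l2
      have he : (⟨s1, r⟩ : Mt K X κ).lo d = (⟨s0, r⟩ : Mt K X κ).lo d :=
        Mt.ext' hE'.symm rfl
      rw [he] at l3
      have l4 : M.Lt ⟨s0, r⟩ a.1 z' g.1 w := M.lmono _ _ _ _ _ _ (Mt.le_lo d _) l3
      exact M.luniq _ hx _ _ _ _ _ hag g.2 l1 l4)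
  refine ⟨p, r, hp, hr, ?_⟩
  intro r' hr' s hs a ha z hz
  refine M.dreg _ _ _ fun y hy => ?_
  have hbase : (⟨Coh.am d s p, r'⟩ : Mt K X κ) ≤ x0 :=
    Mt.mk_le (p := x0.p) (r := x0.r) ((Coh.am_le_right (Coh.lo_mono d hs)).trans hp) (hr'.trans hr)
  obtain ⟨y', hy', z'', hz''⟩ := M.ddense y (hy.trans hbase) a ha
  have hy2 : y' ≤ (⟨Coh.am d s p, r'⟩ : Mt K X κ) := hy'.trans hy
  have ht : y'.p ≤ Coh.am d s p := hy2.1
  have htp : y'.p ≤ p := ht.trans (Coh.am_le_right (Coh.lo_mono d hs))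
  have htlo : y'.p.lo d ≤ s.lo d := by
    have h1 := Coh.lo_mono d ht
    rw [Coh.am_lo] at h1
    exact h1
  have hts : Coh.am d y'.p s ≤ s := Coh.am_le_right htlo
  have hD1 : M.Dec ⟨Coh.am d y'.p s, Rq.un hκ r' y'.r⟩ a z :=
    M.dmono _ _ _ _ (Mt.mk_le hts (Rq.un_le_left hκ r' y'.r)) hz
  have hD2 : M.Dec ⟨y'.p, Rq.un hκ r' y'.r⟩ a z'' :=
    M.dmono _ _ _ _ (Mt.lit hκ hy2).1 hz''
  have hzz : z = z'' := H _ ((Rq.un_le_left hκ r' y'.r).trans hr') _ _ (hts.trans hs) htp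
    (Coh.am_lo d y'.p s) ⟨a, ha⟩ z z'' hD1 hD2
  rw [← hzz] at hz''
  exact ⟨y', hy', hz''⟩

end Pool.Agent.LibMA62
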