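import Pool.Agent.LibMA62.E0
import Pool.Agent.LibMA62.A5

/-! Row E3: density of the decisions of the form `⟨Coh.am d s p, r⟩`, and the splitting property if
`FP` fails everywhere.

Auxiliary fact for both: let `s ≤ p`, `r ≤ q`, `y ≤ ⟨Coh.am d s p, r⟩` and `M.Dec y a z`, `a < d`. Put
`r' := Rq.un hκ r y.r ≤ r`. By `Mt.lit`, `⟨y.p, r'⟩ ≤ y`, so `M.Dec ⟨y.p, r'⟩ a z`; here
`y.p ≤ Coh.am d s p ≤ p`, so by `h.star`, `M.Dec ⟨Coh.am d y.p p, r'⟩ a z`. Put `s' := Coh.am d y.p s`; then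
`s' ≤ s` (`y.p.lo d ≤ s.lo d`, `Coh.am_le_right`) and `Coh.am d s' p = Coh.am d y.p p` (`Coh.am_am`).
`dens`: `M.ddense` at `⟨Coh.am d s p, r⟩ ≤ x0`.
`split`: `hno` at `x := ⟨Coh.am d s p, r⟩ ≤ x0` gives `y, y' ≤ x` with `y.lo d = y'.lo d`, `a < d`,
`M.Dec y a z`, `M.Dec y' a z'`, `z ≠ z'`. The two conditions `s'` are equal because
`y.p.lo d = y'.p.lo d` (`Coh.am_congr`), and `(Rq.un hκ r y.r).lo d = (Rq.un hκ r y'.r).lo d` (`Rq.lo_un`). -/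

set_option autoImplicit false

namespace Pool.Agent.LibMA62

open Cardinal Set Pool.Agent.LibTk83

variable {K X : Type} [LinearOrder K] {κ : Cardinal.{0}} {d : K} {Th : Type} {x0 : Mt K X κ}

private theorem E3_aux (hκ : ℵ₀ ≤ κ) {M : BrData K X κ d Th x0} {p : Coh K} {q : Rq K X κ}
    (h : StarAt M p q) {s : Coh K} (hs : s ≤ p) {r : Rq K X κ} (hr : r ≤ q) {y : Mt K X κ}
    (hy : y ≤ ⟨Coh.am d s p, r⟩) {a : K} (ha : a < d) {z : Th} (hD : M.Dec y a z) :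
    Coh.am d y.p s ≤ s ∧ Rq.un hκ r y.r ≤ r ∧
      M.Dec ⟨Coh.am d (Coh.am d y.p s) p, Rq.un hκ r y.r⟩ a z := by
  have h1 : y.p ≤ Coh.am d s p := hy.1
  have h2 : Coh.am d s p ≤ p := Coh.am_le_right (Coh.lo_mono d hs)
  have h3 : Rq.un hκ r y.r ≤ r := Rq.un_le_left hκ r y.r
  have h4 := M.dmono y ⟨y.p, Rq.un hκ r y.r⟩ a z (Mt.lit hκ hy).1 hD
  have h5 := h.star _ (h3.trans hr) y.p (h1.trans h2) a ha z h4
  refine ⟨Coh.am_le_right ?_, h3, ?_⟩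
  · have h6 := Coh.lo_mono d h1
    rw [Coh.am_lo] at h6
    exact h6
  · rw [Coh.am_am]
    exact h5

private theorem E3_le {M : BrData K X κ d Th x0} {p : Coh K} {q : Rq K X κ}
    (h : StarAt M p q) {s : Coh K} (hs : s ≤ p) {r : Rq K X κ} (hr : r ≤ q) :
    (⟨Coh.am d s p, r⟩ : Mt K X κ) ≤ x0 :=
  Mt.mk_le ((Coh.am_le_right (Coh.lo_mono d hs)).trans h.hp) (hr.trans h.hq)

theorem dens (hκ : ℵ₀ ≤ κ) {M : BrData K X κ d Th x0} {p : Coh K} {q : Rq K X κ}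
    (h : StarAt M p q) (s : Coh K) (hs : s ≤ p) (r : Rq K X κ) (hr : r ≤ q) (a : K) (ha : a < d) :
    ∃ s', s' ≤ s ∧ ∃ r', r' ≤ r ∧ ∃ z, M.Dec ⟨Coh.am d s' p, r'⟩ a z := by
  obtain ⟨y, hy, z, hz⟩ := M.ddense _ (E3_le h hs hr) a ha
  obtain ⟨h1, h2, h3⟩ := E3_aux hκ h hs hr hy ha hz
  exact ⟨_, h1, _, h2, z, h3⟩

theorem split (hκ : ℵ₀ ≤ κ) {M : BrData K X κ d Th x0} {p : Coh K} {q : Rq K X κ}
    (h : StarAt M p q) (hno : ∀ x, x ≤ x0 → ¬ M.FP x) (s : Coh K) (hs : s ≤ p) (r : Rq K X κ)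
    (hr : r ≤ q) :
    ∃ s', s' ≤ s ∧ ∃ q0 q1, q0 ≤ r ∧ q1 ≤ r ∧ q0.lo d = q1.lo d ∧ ∃ b, b < d ∧
      ∃ z0 z1, z0 ≠ z1 ∧ M.Dec ⟨Coh.am d s' p, q0⟩ b z0 ∧ M.Dec ⟨Coh.am d s' p, q1⟩ b z1 := by
  have h0 := hno _ (E3_le h hs hr)
  unfold BrData.FP at h0
  push Not at h0
  obtain ⟨y, hy, y', hy', hlo, a, ha, z, z', hz, hz', hne⟩ := h0
  obtain ⟨h1, h2, h3⟩ := E3_aux hκ h hs hr hy ha hz
  obtain ⟨_, h2', h3'⟩ := E3_aux hκ h hs hr hy' ha hz'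
  have hp : y.p.lo d = y'.p.lo d := congrArg Mt.p hlo
  have hrr : y.r.lo d = y'.r.lo d := congrArg Mt.r hlo
  refine ⟨_, h1, _, _, h2, h2', ?_, a, ha, z, z', hne, h3, ?_⟩
  · rw [Rq.lo_un, Rq.lo_un, hrr]
  · rw [Coh.am_congr s hp]
    exact h3'

end Pool.Agent.LibMA62
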