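import Pool.Agent.LibMA62.E3
import Pool.Agent.LibMA62.B3
import Pool.Agent.LibMA62.A3
import Pool.Agent.LibMA62.A4
import Pool.Agent.LibMA62.C1

/-! Row E4: the splitting step for all nodes at once.

`gen2` with `κ := ℵ₀`, `C := Coh K`, `R' := Rq K X κ × (List Bool → Rq K X κ) × (List Bool → Rq K X κ) ×
(Iio d)ᵒᵈ` (closed: `closed_Rq hκ hκ`, `Closed.pi`, `Closed.prod`, `Closed.dual`), `J := List Bool`,
`D l s (Q, r0, r1, g) := ∃ b < g, ∃ z0 ≠ z1, M.Dec ⟨Coh.am d s p, glue Q (r0 l)⟩ b z0 ∧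
M.Dec ⟨Coh.am d s p, glue Q (r1 l)⟩ b z1` (down-closed: `M.dmono`, `Mt.mk_le`, `Coh.am_mono`,
`Rq.glue_mono`), start `p`, `(Q, r, r, g)`.
Density for `l` at `s ≤ p` and `(Q, r0, r1, g)` (all below the start, so `Q, r0 l, r1 l ≤ q`,
`glue Q (r0 l) ≤ q`): `split` at `s`, `glue Q (r0 l)` gives `s' ≤ s`, `q0, q1 ≤ glue Q (r0 l)` with
`q0.lo d = q1.lo d`, `b < d`, `z0 ≠ z1`. Put `Q' := glue q0 Q ≤ Q` (below `d` from `q0`). `dens` at `s'`,
`glue Q' (r1 l) ≤ q`, `b` gives `s'' ≤ s'`, `q'' ≤ glue Q' (r1 l)`, `w` with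
`M.Dec ⟨Coh.am d s'' p, q''⟩ b w`. Put `Q'' := glue q'' Q' ≤ Q'`, `r1' l := glue (r1 l) q'' ≤ r1 l`, and choose
`e ∈ {0, 1}` with `z_e ≠ w` and `r0' l := glue (r0 l) q_e ≤ r0 l`; `r0'`, `r1'` are unchanged at the other
lists (`Function.update`). Then `glue Q'' (r0' l) ≤ q_e` (below `d`: `q''`, which extends `Q'`, that is `q0`,
that is `q_e`; from `d` on: `q_e`) and `glue Q'' (r1' l) = q''`, so the decisions `z_e ≠ w` at `b`; take
`g' < d` greater than `b` and `g` (`hd`). All inequalities are pointwise (`Rq.glue_of_lt`,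
`Rq.glue_of_le`). -/

set_option autoImplicit false

namespace Pool.Agent.LibMA62

open Cardinal Set Pool.Agent.LibTk83

variable {K X : Type} [LinearOrder K] {κ : Cardinal.{0}} {d : K} {Th : Type} {x0 : Mt K X κ}

private theorem q_of_lo {r s : Rq K X κ} (h : r.lo d = s.lo d) {a : K} (ha : a < d) (x : X) :
    r.q a x = s.q a x := by
  rw [← Rq.lo_of_lt ha r x, h, Rq.lo_of_lt ha s x]

/-- The step at one list. -/
private theorem step (hκ : ℵ₀ ≤ κ) {M : BrData K X κ d Th x0} {p : Coh K} {q : Rq K X κ}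
    (h : StarAt M p q) (hno : ∀ x, x ≤ x0 → ¬ M.FP x) (s : Coh K) (hs : s ≤ p) (Q : Rq K X κ)
    (hQ : Q ≤ q) (r0 r1 : Rq K X κ) (h0 : r0 ≤ q) (h1 : r1 ≤ q) :
    ∃ s', s' ≤ s ∧ ∃ Q', Q' ≤ Q ∧ ∃ r0', r0' ≤ r0 ∧ ∃ r1', r1' ≤ r1 ∧ ∃ b, b < d ∧
      ∃ z0 z1, z0 ≠ z1 ∧ M.Dec ⟨Coh.am d s' p, Rq.glue hκ d Q' r0'⟩ b z0 ∧
        M.Dec ⟨Coh.am d s' p, Rq.glue hκ d Q' r1'⟩ b z1 := by
  obtain ⟨s', hs', q0, q1, hq0, hq1, hlo, b, hb, z0, z1, hz, hd0, hd1⟩ :=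
    split hκ h hno s hs (Rq.glue hκ d Q r0) (Rq.glue_le hκ d hQ h0)
  have hQ' : Rq.glue hκ d q0 Q ≤ q :=
    Rq.glue_le hκ d (hq0.trans (Rq.glue_le hκ d hQ h0)) hQ
  obtain ⟨s'', hs'', q2, hq2, w, hw⟩ :=
    dens hκ h s' (hs'.trans hs) (Rq.glue hκ d (Rq.glue hκ d q0 Q) r1)
      (Rq.glue_le hκ d hQ' h1) b hb
  -- below `d`, `q2` extends `q0`
  have hlow : ∀ a x c, a < d → q0.q a x = some c → q2.q a x = some c := by
    intro a x c ha hc
    apply hq2 a x c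
    rw [Rq.glue_of_lt hκ ha, Rq.glue_of_lt hκ ha]
    exact hc
  have key : ∀ (t : Rq K X κ) (z : Th), t ≤ Rq.glue hκ d Q r0 → t.lo d = q0.lo d →
      M.Dec ⟨Coh.am d s' p, t⟩ b z → z ≠ w →
      ∃ s', s' ≤ s ∧ ∃ Q', Q' ≤ Q ∧ ∃ r0', r0' ≤ r0 ∧ ∃ r1', r1' ≤ r1 ∧ ∃ b, b < d ∧
      ∃ z0 z1, z0 ≠ z1 ∧ M.Dec ⟨Coh.am d s' p, Rq.glue hκ d Q' r0'⟩ b z0 ∧
        M.Dec ⟨Coh.am d s' p, Rq.glue hκ d Q' r1'⟩ b z1 := by
    intro t z ht htlo hdt hzw
    refine ⟨s'', hs''.trans hs', Rq.glue hκ d q2 Q, ?_, Rq.glue hκ d r0 t, ?_,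
      Rq.glue hκ d r1 q2, ?_, b, hb, z, w, hzw, ?_, ?_⟩
    · intro a x c hc
      rcases lt_or_ge a d with ha | ha
      · rw [Rq.glue_of_lt hκ ha]
        apply hlow a x c ha
        apply hq0 a x c
        rw [Rq.glue_of_lt hκ ha]
        exact hc
      · rw [Rq.glue_of_le hκ ha]
        exact hc
    · intro a x c hc
      rcases lt_or_ge a d with ha | ha
      · rw [Rq.glue_of_lt hκ ha]
        exact hc
      · rw [Rq.glue_of_le hκ ha]
        apply ht a x c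
        rw [Rq.glue_of_le hκ ha]
        exact hc
    · intro a x c hc
      rcases lt_or_ge a d with ha | ha
      · rw [Rq.glue_of_lt hκ ha]
        exact hc
      · rw [Rq.glue_of_le hκ ha]
        apply hq2 a x c
        rw [Rq.glue_of_le hκ ha]
        exact hc
    · refine M.dmono _ _ _ _ (Mt.mk_le (Coh.am_mono (Coh.lo_mono d hs'') le_rfl) ?_) hdt
      intro a x c hc
      rcases lt_or_ge a d with ha | ha
      · rw [Rq.glue_of_lt hκ ha, Rq.glue_of_lt hκ ha]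
        apply hlow a x c ha
        rw [← q_of_lo htlo ha x]
        exact hc
      · rw [Rq.glue_of_le hκ ha, Rq.glue_of_le hκ ha]
        exact hc
    · have he : Rq.glue hκ d (Rq.glue hκ d q2 Q) (Rq.glue hκ d r1 q2) = q2 := by
        apply Rq.ext'
        intro a x
        rcases lt_or_ge a d with ha | ha
        · rw [Rq.glue_of_lt hκ ha, Rq.glue_of_lt hκ ha]
        · rw [Rq.glue_of_le hκ ha, Rq.glue_of_le hκ ha]
      rw [he]
      exact hw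
  by_cases hzw : z0 = w
  · exact key q1 z1 hq1 hlo.symm hd1 (fun e => hz (hzw.trans e.symm))
  · exact key q0 z0 hq0 rfl hd0 hzw

theorem slfam (hκ : ℵ₀ ≤ κ)
    (hd : ∀ s : Set K, #s ≤ ℵ₀ → (∀ a ∈ s, a < d) → ∃ b, b < d ∧ ∀ a ∈ s, a < b)
    {M : BrData K X κ d Th x0} {p : Coh K} {q : Rq K X κ} (h : StarAt M p q)
    (hno : ∀ x, x ≤ x0 → ¬ M.FP x) (Q : Rq K X κ) (hQ : Q ≤ q) (r : List Bool → Rq K X κ)
    (hr : ∀ l, r l ≤ q) (g : K) (hg : g < d) :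
    ∃ Q', Q' ≤ Q ∧ ∃ r0 r1 : List Bool → Rq K X κ, (∀ l, r0 l ≤ r l) ∧ (∀ l, r1 l ≤ r l) ∧
      ∃ g', g ≤ g' ∧ g' < d ∧ ∀ l, SLP M hκ p Q' (r0 l) (r1 l) g' := by
  classical
  have hclosG : Closed ℵ₀ (Iio d : Set K)ᵒᵈ := by
    apply Closed.dual
    intro t ht
    obtain ⟨b, hb, hb'⟩ := hd (Subtype.val '' t) (Cardinal.mk_image_le.trans ht) (by
      rintro a ⟨a', _, rfl⟩
      exact a'.2)
    exact ⟨⟨b, hb⟩, fun a ha => (hb' a.1 ⟨a, ha, rfl⟩).le⟩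
  have hclos : Closed ℵ₀ (Rq K X κ × (List Bool → Rq K X κ) × (List Bool → Rq K X κ) ×
      (Iio d : Set K)ᵒᵈ) :=
    (closed_Rq hκ hκ).prod ((Closed.pi (closed_Rq hκ hκ)).prod
      ((Closed.pi (closed_Rq hκ hκ)).prod hclosG))
  have hJ : #(List Bool) ≤ ℵ₀ := Cardinal.mk_le_aleph0
  obtain ⟨⟨Q', r0, r1, g'⟩, hle, hD⟩ := gen2 (κ := ℵ₀) le_rfl (ccc_Coh K) hclos (List Bool) hJ
    (fun l s y => ∃ b, b < (OrderDual.ofDual y.2.2.2).1 ∧ ∃ z0 z1, z0 ≠ z1 ∧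
      M.Dec ⟨Coh.am d s p, Rq.glue hκ d y.1 (y.2.1 l)⟩ b z0 ∧
      M.Dec ⟨Coh.am d s p, Rq.glue hκ d y.1 (y.2.2.1 l)⟩ b z1)
    (by
      rintro l s t ⟨Q1, a0, a1, g1⟩ ⟨Q2, b0, b1, g2⟩ hts hle ⟨b, hb, z0, z1, hz, hd0, hd1⟩
      obtain ⟨hle1, hle2, hle3, hle4⟩ := hle
      refine ⟨b, lt_of_lt_of_le hb hle4, z0, z1, hz, ?_, ?_⟩
      · exact M.dmono _ _ _ _ (Mt.mk_le (Coh.am_mono (Coh.lo_mono d hts) le_rfl)
          (Rq.glue_mono hκ d hle1 (hle2 l))) hd0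
      · exact M.dmono _ _ _ _ (Mt.mk_le (Coh.am_mono (Coh.lo_mono d hts) le_rfl)
          (Rq.glue_mono hκ d hle1 (hle3 l))) hd1)
    p (Q, r, r, OrderDual.toDual ⟨g, hg⟩)
    (by
      rintro l s hs ⟨Q1, a0, a1, g1⟩ hle
      obtain ⟨hle1, hle2, hle3, hle4⟩ := hle
      obtain ⟨s', hs', Q2, hQ2, b0, hb0, b1, hb1, b, hb, z0, z1, hz, hd0, hd1⟩ :=
        step hκ h hno s hs Q1 (le_trans hle1 hQ) (a0 l) (a1 l) (le_trans (hle2 l) (hr l))
          (le_trans (hle3 l) (hr l))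
      obtain ⟨g2, hg2, hg2'⟩ := hd {b, (OrderDual.ofDual g1).1}
        ((Set.toFinite _).countable.le_aleph0) (by
          rintro a (rfl | rfl)
          · exact hb
          · exact (OrderDual.ofDual g1).2)
      refine ⟨s', hs', (Q2, Function.update a0 l b0, Function.update a1 l b1,
        OrderDual.toDual ⟨g2, hg2⟩), ⟨hQ2, ?_, ?_, ?_⟩, b, hg2' b (Or.inl rfl), z0, z1, hz, ?_, ?_⟩
      · intro l'
        by_cases hl : l' = l
        · subst hl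
          simpa only [Function.update_self] using hb0
        · simp only [Function.update_of_ne hl]
          exact le_rfl
      · intro l'
        by_cases hl : l' = l
        · subst hl
          simpa only [Function.update_self] using hb1
        · simp only [Function.update_of_ne hl]
          exact le_rfl
      · exact (hg2' _ (Or.inr rfl)).le
      · simpa only [Function.update_self] using hd0
      · simpa only [Function.update_self] using hd1)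
  obtain ⟨hle1, hle2, hle3, hle4⟩ := hle
  refine ⟨Q', hle1, r0, r1, hle2, hle3, (OrderDual.ofDual g').1, hle4, (OrderDual.ofDual g').2,
    fun l s hs => ?_⟩
  exact hD l s hs

end Pool.Agent.LibMA62
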