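import Pool.Agent.LibMA62.E0
import Pool.Agent.LibMA62.A2
import Pool.Agent.LibMA62.A3
import Pool.Agent.LibMA62.A5

/-! Row E5: the tree of second coordinates.

Dependent choice over `ℕ` (`exists_seq...` or `Nat.rec` with `Classical.choose` on the subtype of good
states): states `(Q, r, g)` with `Q ≤ q`, `∀ l, r l ≤ q`, `g < d`, start `(q, fun _ => q, g0)` where `g0 < d` is
any element (`hd` for the empty set). From a state `(Q, r, g)` the hypothesis `hsl` gives `Q'`, `r0`, `r1`, `g'`;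
the next state is `(Q', r', g')` with `r' [] := r []`, `r' (false :: l) := r0 l`, `r' (true :: l) := r1 l`.
So there are sequences `Q n` decreasing, `g n` increasing, `R n : List Bool → Rq` with
`R (n + 1) (b :: l) ≤ R n l`, `R n l ≤ q` and
`SLP M hκ p (Q (n + 1)) (R (n + 1) (false :: l)) (R (n + 1) (true :: l)) (g (n + 1))` for all `l`. Put
`r l := R l.length l`. Let `Qs` be a lower bound of all `Q n` (`closed_Rq hκ` with `ν := ℵ₀`, `J := ℕ`) and
`gs < d` a strict upper bound of all `g n` (`hd`). `SLP` is preserved if `Q` is replaced by a stronger one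
and `g` by a larger one (`M.dmono`, `Mt.mk_le`, `Rq.glue_mono`). -/

set_option autoImplicit false

namespace Pool.Agent.LibMA62

open Cardinal Set Pool.Agent.LibTk83

variable {K X : Type} [LinearOrder K] {κ : Cardinal.{0}} {d : K} {Th : Type} {x0 : Mt K X κ}

private theorem E5_slp (hκ : ℵ₀ ≤ κ) {M : BrData K X κ d Th x0} {p : Coh K}
    {Q Q' r0 r1 : Rq K X κ} {g g' : K} (hQ : Q' ≤ Q) (hg : g ≤ g') (h : SLP M hκ p Q r0 r1 g) :
    SLP M hκ p Q' r0 r1 g' := by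
  intro s hs
  obtain ⟨s', hs', b, hb, z0, z1, hz, h0, h1⟩ := h s hs
  exact ⟨s', hs', b, lt_of_lt_of_le hb hg, z0, z1, hz,
    M.dmono _ _ _ _ (Mt.mk_le le_rfl (Rq.glue_mono hκ d hQ le_rfl)) h0,
    M.dmono _ _ _ _ (Mt.mk_le le_rfl (Rq.glue_mono hκ d hQ le_rfl)) h1⟩

theorem sltree (hκ : ℵ₀ ≤ κ)
    (hd : ∀ s : Set K, #s ≤ ℵ₀ → (∀ a ∈ s, a < d) → ∃ b, b < d ∧ ∀ a ∈ s, a < b)
    {M : BrData K X κ d Th x0} {p : Coh K} {q : Rq K X κ}
    (hsl : ∀ Q, Q ≤ q → ∀ r : List Bool → Rq K X κ, (∀ l, r l ≤ q) → ∀ g, g < d →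
      ∃ Q', Q' ≤ Q ∧ ∃ r0 r1 : List Bool → Rq K X κ, (∀ l, r0 l ≤ r l) ∧ (∀ l, r1 l ≤ r l) ∧
        ∃ g', g ≤ g' ∧ g' < d ∧ ∀ l, SLP M hκ p Q' (r0 l) (r1 l) g') :
    ∃ Q, Q ≤ q ∧ ∃ g, g < d ∧ ∃ r : List Bool → Rq K X κ, r [] ≤ q ∧
      (∀ b l, r (b :: l) ≤ r l) ∧ ∀ l, SLP M hκ p Q (r (false :: l)) (r (true :: l)) g := by
  classical
  obtain ⟨g0, hg0, -⟩ := hd ∅ (by simp) (by simp)
  let St : Type := {s : Rq K X κ × (List Bool → Rq K X κ) × K //
    s.1 ≤ q ∧ (∀ l, s.2.1 l ≤ q) ∧ s.2.2 < d}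
  have step : ∀ S : St, ∃ S' : St, S'.1.1 ≤ S.1.1 ∧ S.1.2.2 ≤ S'.1.2.2 ∧
      (∀ b l, S'.1.2.1 (b :: l) ≤ S.1.2.1 l) ∧
      ∀ l, SLP M hκ p S'.1.1 (S'.1.2.1 (false :: l)) (S'.1.2.1 (true :: l)) S'.1.2.2 := by
    rintro ⟨⟨Q, r, g⟩, hQ, hr, hg⟩
    obtain ⟨Q', hQ', r0, r1, h0, h1, g', hg1, hg2, hS⟩ := hsl Q hQ r hr g hg
    refine ⟨⟨⟨Q', fun l => match l with
      | [] => r []
      | false :: l => r0 l
      | true :: l => r1 l, g'⟩, hQ'.trans hQ, ?_, hg2⟩, hQ', hg1, ?_, hS⟩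
    · intro l
      match l with
      | [] => exact hr []
      | false :: l => exact (h0 l).trans (hr l)
      | true :: l => exact (h1 l).trans (hr l)
    · intro b l
      cases b with
      | false => exact h0 l
      | true => exact h1 l
  choose F hF1 hF2 hF3 hF4 using step
  let S0 : St := ⟨⟨q, fun _ => q, g0⟩, le_rfl, fun _ => le_rfl, hg0⟩
  let S : ℕ → St := fun n => Nat.rec S0 (fun _ s => F s) n
  have hS0 : S 0 = S0 := rfl
  have hSs : ∀ n, S (n + 1) = F (S n) := fun n => rfl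
  have hanti : ∀ i j : ℕ, i ≤ j → (S j).1.1 ≤ (S i).1.1 := by
    intro i j hij
    induction j, hij using Nat.le_induction with
    | base => exact le_rfl
    | succ n _ ih => exact (hF1 (S n)).trans ih
  obtain ⟨Qs, hQs⟩ := closed_Rq (K := K) (X := X) hκ hκ ℕ (fun n => (S n).1.1) Cardinal.mk_nat.le
    hanti
  obtain ⟨gs, hgs, hgs'⟩ := hd (Set.range fun n => (S n).1.2.2)
    ((Cardinal.mk_range_le).trans Cardinal.mk_nat.le) (by
      rintro a ⟨n, rfl⟩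
      exact (S n).2.2.2)
  refine ⟨Qs, hQs 0, gs, hgs, fun l => (S l.length).1.2.1 l, le_rfl, ?_, ?_⟩
  · intro b l
    exact hF3 (S l.length) b l
  · intro l
    exact E5_slp hκ (hQs (l.length + 1)) (hgs' _ ⟨l.length + 1, rfl⟩).le (hF4 (S l.length) l)

end Pool.Agent.LibMA62
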