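import Pool.Agent.LibMA62.E0
import Pool.Agent.LibMA62.A1
import Pool.Agent.LibMA62.A2

/-! Row E6: merging a tree of second coordinates along the bits of a Cohen real.

Simple facts on `pc`: `pc i (b :: l) ≤ pc i l`; `(pc i l).lo d = pc i l` for `i < d`; `pc i []` is the
empty condition (every condition is below it); if `s ≤ pc i l` and `s ≤ pc i l'` then `l <:+ l'` or
`l' <:+ l` (compare the reversed lists: they agree at the common positions).
`Sup` is closed under `⊓`, arbitrary `⨆`, contains `⊥` and `RO.of p` for `p.lo a = p`. (For `⨆`, `RO.mem_iSup`: let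
`p ∈ ⨆ b_i` and `q ≤ p.lo a`. Then `q' := Coh.am a q p ≤ p`, so there is `r ≤ q'` with `r ∈ b_i`, hence
`r.lo a ∈ b_i`; `Coh.am a r q ≤ q` (`r.lo a ≤ q'.lo a = q.lo a`) and `Coh.am a r q ≤ r.lo a ∈ b_i`. For `RO.of p`:
`RO.mem_of`; similar.)
`exists_merge`: put `m.q a x := if d ≤ a ∧ ∃ l, (r l).q a x ≠ none then
  some (⨆ l, RO.of (pc i l) ⊓ ((r l).q a x).getD ⊥) else none`. The domain is contained in the union of the
domains of the `r l` over the countable type `List Bool` (`ℵ₀ * κ = κ`). If `(r []).q a x = some b` then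
`(r l).q a x = some b` for all `l` (induction, `hr`), and the supremum is `b` because `RO.of (pc i []) = ⊤`.
Let `(r l).q a x = some b`, `d ≤ a`, `s ≤ pc i l`. If `s ∈ b` then `s ∈ RO.of (pc i l) ⊓ b`. Conversely let
`s` be in the supremum; by `RO.mem_of_dense` it suffices that each `q ≤ s` has an extension in `b`:
`RO.mem_iSup` gives `t ≤ q` and `l'` with `t ∈ RO.of (pc i l')` and `t ∈ ((r l').q a x).getD ⊥`; so
`(r l').q a x = some b'` with `t ∈ b'` (`RO.not_mem_bot`), and some `t' ≤ t` is below `pc i l'` and below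
`pc i l`. So one of the lists `l`, `l'` is a suffix of the other one; by `hr` (induction on the suffix
relation) the longer one has the literally stronger `r`, so `b = b'`. -/

set_option autoImplicit false

namespace Pool.Agent.LibMA62

open Cardinal Set Pool.Agent.LibTk83

variable {K X : Type} [LinearOrder K] {κ : Cardinal.{0}} {d : K}

private theorem e6_pc_f {K : Type} (i : K) (l : List Bool) (j : K) (n : ℕ) [Decidable (j = i)] :
    (pc i l).f j n = if j = i then l.reverse[n]? else none := by
  unfold pc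
  by_cases h : j = i
  · simp only [if_pos h]
  · simp only [if_neg h]

private theorem e6_pc_self {K : Type} (i : K) (l : List Bool) (n : ℕ) :
    (pc i l).f i n = l.reverse[n]? := by
  classical
  rw [e6_pc_f, if_pos rfl]

private theorem e6_pc_ne {K : Type} {i j : K} (h : j ≠ i) (l : List Bool) (n : ℕ) :
    (pc i l).f j n = none := by
  classical
  rw [e6_pc_f, if_neg h]

private theorem e6_pc_nil {K : Type} (i : K) (s : Coh K) : s ≤ pc i [] := by
  intro j n b hb
  by_cases h : j = i
  · subst h
    rw [e6_pc_self] at hb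
    simp at hb
  · rw [e6_pc_ne h] at hb
    exact absurd hb (by simp)

private theorem e6_pc_lo {i d : K} (h : i < d) (l : List Bool) : (pc i l).lo d = pc i l := by
  apply Coh.ext'
  intro j n
  by_cases hj : j < d
  · rw [Coh.lo_of_lt hj]
  · rw [Coh.lo_of_le (not_lt.1 hj), e6_pc_ne]
    rintro rfl
    exact hj h

private theorem e6_prefix (u v : List Bool) (g : ℕ → Option Bool)
    (hu : ∀ n b, u[n]? = some b → g n = some b) (hv : ∀ n b, v[n]? = some b → g n = some b)
    (hl : u.length ≤ v.length) : u <+: v := by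
  rw [List.prefix_iff_getElem?]
  intro n hn
  have hn' : n < v.length := hn.trans_le hl
  have h1 := hu n u[n] (List.getElem?_eq_getElem hn)
  have h2 := hv n v[n] (List.getElem?_eq_getElem hn')
  rw [h1] at h2
  rw [List.getElem?_eq_getElem hn', h2]

private theorem e6_suffix {K : Type} {i : K} {l l' : List Bool} {s : Coh K} (h : s ≤ pc i l)
    (h' : s ≤ pc i l') : l <:+ l' ∨ l' <:+ l := by
  have hu : ∀ n b, l.reverse[n]? = some b → s.f i n = some b := fun n b hb =>
    h i n b (by rw [e6_pc_self]; exact hb)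
  have hv : ∀ n b, l'.reverse[n]? = some b → s.f i n = some b := fun n b hb =>
    h' i n b (by rw [e6_pc_self]; exact hb)
  rcases le_total l.reverse.length l'.reverse.length with hl | hl
  · exact Or.inl (List.reverse_prefix.1 (e6_prefix _ _ _ hu hv hl))
  · exact Or.inr (List.reverse_prefix.1 (e6_prefix _ _ _ hv hu hl))

private theorem e6_anti {r : List Bool → Rq K X κ} (hr : ∀ b l, r (b :: l) ≤ r l)
    {l l' : List Bool} (h : l <:+ l') : r l' ≤ r l := by
  obtain ⟨t, rfl⟩ := h
  induction t with
  | nil => exact le_rfl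
  | cons c t ih => exact (hr c (t ++ l)).trans ih

theorem Sup.inf {a : K} {b c : RO (Coh K)} (hb : Sup a b) (hc : Sup a c) : Sup a (b ⊓ c) := by
  intro p hp
  rw [RO.mem_inf] at hp ⊢
  exact ⟨hb p hp.1, hc p hp.2⟩

theorem Sup.iSup {a : K} {ι : Type} {b : ι → RO (Coh K)} (h : ∀ i, Sup a (b i)) :
    Sup a (⨆ i, b i) := by
  intro p hp
  rw [RO.mem_iSup] at hp ⊢
  intro q hq
  have h1 : q.lo a ≤ p.lo a := by
    have := Coh.lo_mono a hq
    rwa [Coh.lo_lo le_rfl] at this
  obtain ⟨r, hr, i, hi⟩ := hp (Coh.am a q p) (Coh.am_le_right h1)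
  have h2 : r.lo a ≤ q.lo a := by
    have := Coh.lo_mono a hr
    rwa [Coh.am_lo] at this
  exact ⟨Coh.am a r q, Coh.am_le_right h2, i,
    RO.mem_of_le (Coh.am_le_left a r q) (h i r hi)⟩

theorem Sup.bot (a : K) : Sup a (⊥ : RO (Coh K)) := by
  intro p hp
  exact absurd hp RO.not_mem_bot

theorem Sup.of {a : K} {p : Coh K} (h : p.lo a = p) : Sup a (RO.of p) := by
  intro q hq
  rw [RO.mem_of] at hq ⊢
  intro r hr
  have h1 : r.lo a ≤ q.lo a := by
    have := Coh.lo_mono a hr
    rwa [Coh.lo_lo le_rfl] at this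
  obtain ⟨s, hs, hsp⟩ := hq (Coh.am a r q) (Coh.am_le_right h1)
  have h2 : s.lo a ≤ r.lo a := by
    have := Coh.lo_mono a hs
    rwa [Coh.am_lo] at this
  have h3 : s.lo a ≤ p := by
    have := Coh.lo_mono a hsp
    rwa [h] at this
  exact ⟨Coh.am a s r, Coh.am_le_right h2, (Coh.am_le_left a s r).trans h3⟩

theorem exists_merge (hκ : ℵ₀ ≤ κ) (d i : K) (hi : i < d) (r : List Bool → Rq K X κ)
    (hr : ∀ b l, r (b :: l) ≤ r l) :
    ∃ m : Rq K X κ,
      (∀ a x b, d ≤ a → (r []).q a x = some b → m.q a x = some b) ∧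
      ∀ l a x b, d ≤ a → (r l).q a x = some b →
        ∃ b', m.q a x = some b' ∧ ∀ s, s ≤ pc i l → (s ∈ b' ↔ s ∈ b) := by
  classical
  obtain ⟨g, hg⟩ : ∃ g : K → X → RO (Coh K),
      ∀ a x, g a x = ⨆ l : List Bool, RO.of (pc i l) ⊓ ((r l).q a x).getD ⊥ := ⟨_, fun _ _ => rfl⟩
  refine ⟨{ q := fun a x => if d ≤ a ∧ ∃ l, (r l).q a x ≠ none then some (g a x) else none
            small := ?_
            sup := ?_ }, ?_, ?_⟩
  · have h1 : {z : K × X | (if d ≤ z.1 ∧ ∃ l, (r l).q z.1 z.2 ≠ none then some (g z.1 z.2)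
        else none) ≠ none} ⊆ ⋃ l : List Bool, {z : K × X | (r l).q z.1 z.2 ≠ none} := by
      intro z hz
      simp only [mem_ofPred_eq] at hz
      by_cases h : d ≤ z.1 ∧ ∃ l, (r l).q z.1 z.2 ≠ none
      · obtain ⟨-, l, hl⟩ := h
        exact mem_iUnion.2 ⟨l, hl⟩
      · rw [if_neg h] at hz
        exact absurd rfl hz
    refine (Cardinal.mk_le_mk_of_subset h1).trans ((Cardinal.mk_iUnion_le _).trans ?_)
    refine Cardinal.mul_le_of_le hκ (Cardinal.mk_le_aleph0.trans hκ) ?_
    exact ciSup_le' fun l => (r l).small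
  · intro a x b hb
    by_cases h : d ≤ a ∧ ∃ l, (r l).q a x ≠ none
    · rw [if_pos h, Option.some_inj] at hb
      rw [← hb, hg]
      refine Sup.iSup fun l => Sup.inf (Sup.of (e6_pc_lo (hi.trans_le h.1) l)) ?_
      cases hl : (r l).q a x with
      | none => exact Sup.bot a
      | some c => exact (r l).sup a x c hl
    · rw [if_neg h] at hb
      exact absurd hb (by simp)
  · intro a x b ha hb
    have hall : ∀ l, (r l).q a x = some b := fun l =>
      e6_anti hr (List.nil_suffix (l := l)) a x b hb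
    show (if d ≤ a ∧ ∃ l, (r l).q a x ≠ none then some (g a x) else none) = some b
    rw [if_pos ⟨ha, [], by rw [hb]; simp⟩, hg]
    congr 1
    apply le_antisymm
    · refine iSup_le fun l => ?_
      rw [hall l]
      exact inf_le_right
    · intro s hs
      refine (le_iSup (fun l : List Bool => RO.of (pc i l) ⊓ ((r l).q a x).getD ⊥) []) ?_
      rw [RO.mem_inf, hb]
      exact ⟨RO.mem_of.2 fun t _ => ⟨t, le_rfl, e6_pc_nil i t⟩, hs⟩
  · intro l a x b ha hb
    refine ⟨g a x, ?_, ?_⟩
    · show (if d ≤ a ∧ ∃ l, (r l).q a x ≠ none then some (g a x) else none) = some (g a x)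
      rw [if_pos ⟨ha, l, by rw [hb]; simp⟩]
    · intro s hs
      rw [hg]
      constructor
      · intro hsb
        refine RO.mem_of_dense fun q hq => ?_
        obtain ⟨t, htq, l', ht⟩ := RO.mem_iSup.1 hsb q hq
        rw [RO.mem_inf] at ht
        obtain ⟨ht1, ht2⟩ := ht
        obtain ⟨t', ht't, ht'p⟩ := RO.mem_of.1 ht1 t le_rfl
        have hsuf := e6_suffix (ht't.trans (htq.trans (hq.trans hs))) ht'p
        cases hl' : (r l').q a x with
        | none =>
          rw [hl'] at ht2
          exact absurd ht2 RO.not_mem_bot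
        | some c =>
          rw [hl'] at ht2
          have ht3 : t ∈ c := ht2
          have hbc : b = c := by
            rcases hsuf with h | h
            · have h1 := e6_anti hr h a x b hb
              rw [hl', Option.some_inj] at h1
              exact h1.symm
            · have h1 := e6_anti hr h a x c hl'
              rw [hb, Option.some_inj] at h1
              exact h1
          exact ⟨t', ht't.trans htq, by rw [hbc]; exact RO.mem_of_le ht't ht3⟩
      · intro hsb
        refine (le_iSup (fun l : List Bool => RO.of (pc i l) ⊓ ((r l).q a x).getD ⊥) l) ?_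
        rw [RO.mem_inf, hb]
        exact ⟨RO.mem_of_le hs (RO.self_mem_of _), hsb⟩

end Pool.Agent.LibMA62
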