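import Pool.Agent.LibMA62.E0

/-! Row E7: two different Cohen reals can be split.

Let `A n := (a.f i n).getD false`, `B n := (a.f j n).getD false` for `n < N` and `A N := false`,
`B N := true`, where `N` is such that `a.f i n = none` and `a.f j n = none` for `n ≥ N` (`a.fin` is finite).
Let `n0 ≤ N` be the least `n` with `A n ≠ B n` (`Nat.find`). Let `a'` be `a` together with the values `A n` at
`(i, n)` and `B n` at `(j, n)` for `n ≤ n0` (they agree with `a` where `a` is defined; `i ≠ j`). The
reversed list `l := ((List.range n0).map A).reverse`; then `l.reverse = (List.range n0).map A =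
(List.range n0).map B`, and `(c :: l).reverse = l.reverse ++ [c]`. If `A n0 = false`, `B n0 = true`: first
alternative, otherwise the second one. -/

set_option autoImplicit false

namespace Pool.Agent.LibMA62

open Cardinal Set Pool.Agent.LibTk83

private theorem e7_getElem (A : ℕ → Bool) (m n : ℕ) (b : Bool)
    (h : ((List.range m).map A)[n]? = some b) : n < m ∧ A n = b := by
  rw [List.getElem?_map] at h
  by_cases hn : n < m
  · rw [List.getElem?_range hn] at h
    exact ⟨hn, by simpa using h⟩
  · rw [List.getElem?_eq_none (by simpa using not_lt.1 hn)] at h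
    simp at h

private theorem e7_rev (A : ℕ → Bool) (m : ℕ) :
    (A m :: ((List.range m).map A).reverse).reverse = (List.range (m + 1)).map A := by
  rw [List.reverse_cons, List.reverse_reverse, List.range_succ, List.map_append]
  rfl

private theorem e7_le {K : Type} {i : K} {a' : Coh K} (A : ℕ → Bool) (m : ℕ)
    (h : ∀ n, n ≤ m → a'.f i n = some (A n)) :
    a' ≤ pc i (A m :: ((List.range m).map A).reverse) := by
  classical
  rw [Coh.le_def]
  intro k n b hb
  unfold pc at hb
  simp only at hb
  by_cases hk : k = i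
  · rw [if_pos hk, e7_rev] at hb
    obtain ⟨h1, h2⟩ := e7_getElem A (m + 1) n b hb
    rw [hk, h n (by omega), h2]
  · rw [if_neg hk] at hb
    exact absurd hb (by simp)

theorem splitbits {K : Type} {i j : K} (hij : i ≠ j) (a : Coh K) :
    ∃ a', a' ≤ a ∧ ∃ l : List Bool, (a' ≤ pc i (false :: l) ∧ a' ≤ pc j (true :: l)) ∨
      (a' ≤ pc i (true :: l) ∧ a' ≤ pc j (false :: l)) := by
  classical
  obtain ⟨N, hN⟩ : ∃ N : ℕ, ∀ k n, a.f k n ≠ none → n < N := by
    obtain ⟨N, hN⟩ := (a.fin.image Prod.snd).bddAbove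
    refine ⟨N + 1, fun k n h => ?_⟩
    have h1 : n ≤ N := hN ⟨(k, n), h, rfl⟩
    omega
  obtain ⟨A, hA⟩ : ∃ A : ℕ → Bool, A = fun n => if n < N then (a.f i n).getD false else false :=
    ⟨_, rfl⟩
  obtain ⟨B, hB⟩ : ∃ B : ℕ → Bool, B = fun n => if n < N then (a.f j n).getD false else true :=
    ⟨_, rfl⟩
  have hA1 : ∀ n b, a.f i n = some b → A n = b := by
    intro n b h
    have h1 : n < N := hN i n (by rw [h]; simp)
    rw [hA]
    simp only
    rw [if_pos h1, h]
    rfl
  have hB1 : ∀ n b, a.f j n = some b → B n = b := by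
    intro n b h
    have h1 : n < N := hN j n (by rw [h]; simp)
    rw [hB]
    simp only
    rw [if_pos h1, h]
    rfl
  have hex : ∃ n, A n ≠ B n := ⟨N, by rw [hA, hB]; simp⟩
  obtain ⟨n0, hn0, hmin⟩ : ∃ n0, A n0 ≠ B n0 ∧ ∀ n, n < n0 → A n = B n :=
    ⟨Nat.find hex, Nat.find_spec hex, fun n hn => by
      by_contra h
      exact Nat.find_min hex hn h⟩
  obtain ⟨f, hf⟩ : ∃ f : K → ℕ → Option Bool, ∀ k n, f k n = if k = i ∧ n ≤ n0 then some (A n) else
      if k = j ∧ n ≤ n0 then some (B n) else a.f k n := ⟨_, fun _ _ => rfl⟩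
  have hfin : {z : K × ℕ | f z.1 z.2 ≠ none}.Finite := by
    refine (a.fin.union (((Set.finite_singleton i).union (Set.finite_singleton j)).prod
      (Set.finite_le_nat n0))).subset ?_
    rintro ⟨k, n⟩ hz
    by_cases h1 : k = i ∧ n ≤ n0
    · exact Or.inr ⟨Or.inl h1.1, h1.2⟩
    · by_cases h2 : k = j ∧ n ≤ n0
      · exact Or.inr ⟨Or.inr h2.1, h2.2⟩
      · left
        have hz' : f k n ≠ none := hz
        rw [hf, if_neg h1, if_neg h2] at hz'
        exact hz'
  obtain ⟨a', ha'⟩ : ∃ a' : Coh K, a'.f = f := ⟨⟨f, hfin⟩, rfl⟩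
  have hfi : ∀ n, n ≤ n0 → a'.f i n = some (A n) := by
    intro n hn
    rw [ha', hf, if_pos ⟨rfl, hn⟩]
  have hfj : ∀ n, n ≤ n0 → a'.f j n = some (B n) := by
    intro n hn
    rw [ha', hf, if_neg (fun h => hij h.1.symm), if_pos ⟨rfl, hn⟩]
  refine ⟨a', ?_, ((List.range n0).map A).reverse, ?_⟩
  · rw [Coh.le_def]
    intro k n b hb
    rw [ha', hf]
    by_cases h1 : k = i ∧ n ≤ n0
    · rw [if_pos h1, hA1 n b (by rw [← h1.1]; exact hb)]
    · rw [if_neg h1]
      by_cases h2 : k = j ∧ n ≤ n0
      · rw [if_pos h2, hB1 n b (by rw [← h2.1]; exact hb)]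
      · rw [if_neg h2]
        exact hb
  · have hAB : (List.range n0).map A = (List.range n0).map B :=
      List.map_congr_left fun n hn => hmin n (List.mem_range.1 hn)
    have h1 := e7_le (i := i) A n0 hfi
    have h2 := e7_le (i := j) B n0 hfj
    rw [← hAB] at h2
    cases hA0 : A n0 with
    | false =>
      cases hB0 : B n0 with
      | false => exact absurd (hA0.trans hB0.symm) hn0
      | true =>
        rw [hA0] at h1
        rw [hB0] at h2
        exact Or.inl ⟨h1, h2⟩
    | true =>
      cases hB0 : B n0 with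
      | true => exact absurd (hA0.trans hB0.symm) hn0
      | false =>
        rw [hA0] at h1
        rw [hB0] at h2
        exact Or.inr ⟨h1, h2⟩

end Pool.Agent.LibMA62
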