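import Pool.Agent.LibMA62.E3
import Pool.Agent.LibMA62.E6
import Pool.Agent.LibMA62.E7
import Pool.Agent.LibMA62.D3

/-! Row E8: the final contradiction of the main lemma.

For `i < d` let `m i` be given by `exists_merge` for `r` (with `hi : i < d`). `glue Q (m i) ≤ q` (below `d`:
`Q ≤ q`; from `d` on: `m i` extends `r [] ≤ q`). By `dens` at `p`, `glue Q (m i)`, `g` choose `s i ≤ p`,
`q' i ≤ glue Q (m i)`, `w i : Th` with `M.Dec ⟨Coh.am d (s i) p, q' i⟩ g (w i)`.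
Since `#Th < #(Iio d)` and `#(Iio d)` is regular (`hd.reg`: if all fibres of `w : Iio d → Th` had fewer
than `#(Iio d)` elements, each would be bounded by some `β z ∈ Iio d`, and the set of the `β z` would be
bounded in `Iio d`, but each `i < d` is below the bound of its fibre: contradiction) there is `w0 : Th` such
that `J := {i : Iio d // w i = w0}` has `#J ≥ #(Iio d)`. Apply `cc` to `J` and the conditions
`y i := ⟨(s i).lo d, (q' i).lo d⟩` (`InD.of_lo`): there are `i ≠ j` and `v` with `v ≤ y i`, `v ≤ y j`.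
Put `t0 := Coh.am d v.p p`. Since `v.p ≤ (s i).lo d`, we have `v.p.lo d ≤ p.lo d`, so `t0 ≤ p`. By `splitbits`
for `i`, `j` and `t0` there is `t1 ≤ t0` and `l`; say `t1 ≤ pc i (false :: l)` and `t1 ≤ pc j (true :: l)` (the
other case is symmetric: exchange `i` and `j`). By `hs l` at `t1` there are `t ≤ t1`, `b < g`, `z0 ≠ z1` with
`M.Dec ⟨Coh.am d t p, glue Q (r (false :: l))⟩ b z0` and `M.Dec ⟨Coh.am d t p, glue Q (r (true :: l))⟩ b z1`.
Put `T := Coh.am d t p` and `Y i := ⟨T, glue v.r (q' i)⟩`. Then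
 (1) `Y i ≤ ⟨Coh.am d (s i) p, q' i⟩`: the first coordinates by `Coh.am_mono` (`t.lo d ≤ v.p.lo d ≤ (s i).lo d`);
 for the second coordinates below `d` use `v ≤ y i` (`T ≤ v.p`-part: `T ≤ t.lo d`, and
 `t.lo d ≤ v.p.lo d`; the agreement is needed for `s ≤ T`; note `v ≤ y i` gives `v.lo d ≤ (y i).lo d = y i`
 by `Mt.lo_mono`, so that the agreement holds for all `s ≤ v.p.lo d`); from `d` on they are equal.
 (2) `Y i ≤ ⟨T, glue Q (r (false :: l))⟩`: `Y i ≤ ⟨T, q' i⟩` as in (1), `q' i ≤ glue Q (m i)`, and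
 `⟨T, glue Q (m i)⟩ ≤ ⟨T, glue Q (r (false :: l))⟩` by `exists_merge` because `T ≤ pc i (false :: l)` (`T`
 agrees with `t` at `i < d`).
The same for `j` with `true :: l`. So `M.Dec (Y i) g w0`, `M.Dec (Y i) b z0`, `M.Dec (Y j) g w0`,
`M.Dec (Y j) b z1`; `M.dl` gives `M.Lt (Y i) b z0 g w0`, `M.Lt (Y j) b z1 g w0`. `(Y i).lo d = (Y j).lo d`
(`Rq.glue_lo`, `Coh.am_lo`), so `M.Lt (Y i) b z1 g w0` (`M.llo`, `M.lmono`, `Mt.le_lo`), and `M.luniq` gives
`z0 = z1`: contradiction. (`Y i ≤ x0`: `h.hp`, `h.hq` and (1).) -/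

set_option autoImplicit false

namespace Pool.Agent.LibMA62

open Cardinal Set Pool.Agent.LibTk83

variable {K X : Type} [LinearOrder K] [WellFoundedLT K] {κ : Cardinal.{0}} {d : K} {Th : Type}
  {x0 : Mt K X κ}

private theorem pc_ne {i k : K} (l : List Bool) (n : ℕ) (hk : k ≠ i) : (pc i l).f k n = none := by
  unfold pc
  exact if_neg hk

private theorem am_le_pc {i : K} (hi : i < d) {t p : Coh K} {l : List Bool} (h : t ≤ pc i l) :
    Coh.am d t p ≤ pc i l := by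
  intro k n b hb
  by_cases hk : k = i
  · subst hk
    rw [Coh.am_of_lt hi]
    exact h k n b hb
  · rw [pc_ne l n hk] at hb
    exact absurd hb (by simp)

/-- Everything for one of the two indices. -/
private theorem half (hκ : ℵ₀ ≤ κ) {M : BrData K X κ d Th x0} {p : Coh K} {q : Rq K X κ}
    (h : StarAt M p q) {Q : Rq K X κ} {g : K} {i : K} (hi : i < d)
    {m R : Rq K X κ} {l : List Bool}
    (hmq : Rq.glue hκ d Q m ≤ q)
    (hm : ∀ a x b, d ≤ a → R.q a x = some b →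
        ∃ b', m.q a x = some b' ∧ ∀ s, s ≤ pc i l → (s ∈ b' ↔ s ∈ b))
    {s : Coh K} (hsp : s ≤ p) {q' : Rq K X κ} (hq' : q' ≤ Rq.glue hκ d Q m) {w : Th}
    (hw : M.Dec ⟨Coh.am d s p, q'⟩ g w) {v : Mt K X κ} (hv : v.p.lo d = v.p)
    (hvy : v ≤ ⟨s.lo d, q'.lo d⟩) {t : Coh K} (ht : t ≤ Coh.am d v.p p) (hti : t ≤ pc i l)
    {b : K} {z : Th} (hz : M.Dec ⟨Coh.am d t p, Rq.glue hκ d Q R⟩ b z) :
    (⟨Coh.am d t p, Rq.glue hκ d v.r q'⟩ : Mt K X κ) ≤ x0 ∧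
      M.Dec ⟨Coh.am d t p, Rq.glue hκ d v.r q'⟩ g w ∧
      M.Dec ⟨Coh.am d t p, Rq.glue hκ d v.r q'⟩ b z := by
  have htv : t.lo d ≤ v.p := by
    have h1 := Coh.lo_mono d ht
    rw [Coh.am_lo, hv] at h1
    exact h1
  have hTv : Coh.am d t p ≤ v.p := (Coh.am_le_left d t p).trans htv
  have hts : t.lo d ≤ s.lo d := htv.trans hvy.1
  have hTs : Coh.am d t p ≤ Coh.am d s p := Coh.am_mono hts le_rfl
  have key : ∀ a x c, q'.q a x = some c → ∃ c', (Rq.glue hκ d v.r q').q a x = some c' ∧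
      ∀ u : Coh K, u ≤ Coh.am d t p → (u ∈ c' ↔ u ∈ c) := by
    intro a x c hc
    rcases lt_or_ge a d with had | had
    · have hc' : (q'.lo d).q a x = some c := by rw [Rq.lo_of_lt had]; exact hc
      obtain ⟨c', hc1, hc2⟩ := hvy.2 a x c hc'
      refine ⟨c', by rw [Rq.glue_of_lt hκ had]; exact hc1, fun u hu => hc2 u (hu.trans hTv)⟩
    · exact ⟨c, by rw [Rq.glue_of_le hκ had]; exact hc, fun _ _ => Iff.rfl⟩
  have hY1 : (⟨Coh.am d t p, Rq.glue hκ d v.r q'⟩ : Mt K X κ) ≤ ⟨Coh.am d s p, q'⟩ :=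
    ⟨hTs, key⟩
  have hY2 : (⟨Coh.am d t p, Rq.glue hκ d v.r q'⟩ : Mt K X κ) ≤
      ⟨Coh.am d t p, Rq.glue hκ d Q R⟩ := by
    refine ⟨le_rfl, fun a x c hc => ?_⟩
    rcases lt_or_ge a d with had | had
    · have h1 : (Rq.glue hκ d Q m).q a x = some c := by
        rw [Rq.glue_of_lt hκ had]
        change (Rq.glue hκ d Q R).q a x = some c at hc
        rw [Rq.glue_of_lt hκ had] at hc
        exact hc
      exact key a x c (hq' a x c h1)
    · change (Rq.glue hκ d Q R).q a x = some c at hc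
      rw [Rq.glue_of_le hκ had] at hc
      obtain ⟨c', hc1, hc2⟩ := hm a x c had hc
      have h1 : (Rq.glue hκ d Q m).q a x = some c' := by
        rw [Rq.glue_of_le hκ had]
        exact hc1
      obtain ⟨c'', hc3, hc4⟩ := key a x c' (hq' a x c' h1)
      exact ⟨c'', hc3, fun u hu => (hc4 u hu).trans (hc2 u (hu.trans (am_le_pc hi hti)))⟩
  have hx0 : (⟨Coh.am d s p, q'⟩ : Mt K X κ) ≤ x0 := by
    have h1 : (⟨Coh.am d s p, q'⟩ : Mt K X κ) ≤ ⟨x0.p, x0.r⟩ :=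
      Mt.mk_le ((Coh.am_le_right (Coh.lo_mono d hsp)).trans h.hp) ((hq'.trans hmq).trans h.hq)
    exact h1
  exact ⟨hY1.trans hx0, M.dmono _ _ _ _ hY1 hw, M.dmono _ _ _ _ hY2 hz⟩

/-- The contradiction from two conditions with the same part below `d`. -/
private theorem clash {M : BrData K X κ d Th x0} {Y Y' : Mt K X κ} (hY : Y ≤ x0) (hY' : Y' ≤ x0)
    (hlo : Y.lo d = Y'.lo d) {b g : K} (hbg : b < g) (hg : g < d) {w z z' : Th} (hz : z ≠ z')
    (h1 : M.Dec Y g w) (h2 : M.Dec Y b z) (h3 : M.Dec Y' g w) (h4 : M.Dec Y' b z') : False := by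
  have l1 := M.dl Y hY b z g w hbg hg h2 h1
  have l2 := M.dl Y' hY' b z' g w hbg hg h4 h3
  have l3 := M.llo Y' b z' g w (hbg.trans hg) hg l2
  rw [← hlo] at l3
  have l4 := M.lmono _ _ _ _ _ _ (Mt.le_lo d Y) l3
  exact hz (M.luniq Y hY b z z' g w hbg hg l1 l4)

private theorem pigeon (hd : InacD κ X (Iio d)) (hTh : #Th < #(Iio d)) (w : Iio d → Th) :
    ∃ w0, #(Iio d) ≤ #{i : Iio d // w i = w0} := by
  by_contra hcon
  push Not at hcon
  have hβ : ∀ z : Th, ∃ b ∈ Iio d, ∀ i : Iio d, w i = z → (i : K) < b := by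
    intro z
    have hle : #(((↑) : Iio d → K) '' {i | w i = z}) ≤ #{i : Iio d // w i = z} :=
      Cardinal.mk_image_le
    obtain ⟨b, hb, hb'⟩ := hd.reg (((↑) : Iio d → K) '' {i | w i = z})
      (by rintro _ ⟨i, _, rfl⟩; exact i.2) (hle.trans_lt (hcon z))
    exact ⟨b, hb, fun i hi => hb' _ ⟨i, hi, rfl⟩⟩
  choose β hβ1 hβ2 using hβ
  obtain ⟨b, hb, hb'⟩ := hd.reg (range β) (by rintro _ ⟨z, rfl⟩; exact hβ1 z)
    (Cardinal.mk_range_le.trans_lt hTh)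
  have h1 := hβ2 (w ⟨b, hb⟩) ⟨b, hb⟩ rfl
  have h2 := hb' _ ⟨w ⟨b, hb⟩, rfl⟩
  exact lt_asymm h1 h2

theorem final_step (hκ : ℵ₀ ≤ κ) (hd : InacD κ X (Iio d)) (hTh : #Th < #(Iio d))
    {M : BrData K X κ d Th x0} {p : Coh K} {q : Rq K X κ} (h : StarAt M p q) {Q : Rq K X κ}
    (hQ : Q ≤ q) {g : K} (hg : g < d) {r : List Bool → Rq K X κ} (h0 : r [] ≤ q)
    (hr : ∀ b l, r (b :: l) ≤ r l)
    (hs : ∀ l, SLP M hκ p Q (r (false :: l)) (r (true :: l)) g) : False := by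
  have hmerge : ∀ i : Iio d, ∃ m : Rq K X κ,
      (∀ a x b, d ≤ a → (r []).q a x = some b → m.q a x = some b) ∧
      ∀ l a x b, d ≤ a → (r l).q a x = some b →
        ∃ b', m.q a x = some b' ∧ ∀ s, s ≤ pc (i : K) l → (s ∈ b' ↔ s ∈ b) :=
    fun i => exists_merge hκ d i i.2 r hr
  choose m hm1 hm2 using hmerge
  have hmq : ∀ i : Iio d, Rq.glue hκ d Q (m i) ≤ q := by
    intro i a x b hb
    rcases lt_or_ge a d with had | had
    · rw [Rq.glue_of_lt hκ had]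
      exact hQ a x b hb
    · rw [Rq.glue_of_le hκ had]
      exact hm1 i a x b had (h0 a x b hb)
  have hdens := fun i : Iio d => dens hκ h p le_rfl (Rq.glue hκ d Q (m i)) (hmq i) g hg
  choose s hsp q' hq' w hw using hdens
  obtain ⟨w0, hw0⟩ := pigeon hd hTh w
  obtain ⟨i, j, hij, v, hvD, hvi, hvj⟩ := cc hκ hd {i : Iio d // w i = w0} hw0
    (fun i => (⟨(s i.1).lo d, (q' i.1).lo d⟩ : Mt K X κ))
    (fun i => InD.of_lo d (⟨s i.1, q' i.1⟩ : Mt K X κ))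
  have hv : v.p.lo d = v.p := congrArg Mt.p (InD.lo_eq hvD)
  have hijK : ((i.1 : Iio d) : K) ≠ ((j.1 : Iio d) : K) := fun hh =>
    hij (Subtype.ext (Subtype.ext hh))
  have ht0 : Coh.am d v.p p ≤ p := by
    refine Coh.am_le_right ?_
    have h1 : v.p.lo d ≤ (s i.1).lo d := by rw [hv]; exact hvi.1
    exact h1.trans (Coh.lo_mono d (hsp i.1))
  obtain ⟨t1, ht1, l, hl⟩ := splitbits hijK (Coh.am d v.p p)
  obtain ⟨t, ht, b, hbg, z0, z1, hz, hD0, hD1⟩ := hs l t1 (ht1.trans ht0)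
  have hwi : M.Dec ⟨Coh.am d (s i.1) p, q' i.1⟩ g w0 := by
    have h1 := hw i.1
    rw [i.2] at h1
    exact h1
  have hwj : M.Dec ⟨Coh.am d (s j.1) p, q' j.1⟩ g w0 := by
    have h1 := hw j.1
    rw [j.2] at h1
    exact h1
  have hloij : (⟨Coh.am d t p, Rq.glue hκ d v.r (q' i.1)⟩ : Mt K X κ).lo d =
      (⟨Coh.am d t p, Rq.glue hκ d v.r (q' j.1)⟩ : Mt K X κ).lo d := by
    refine Mt.ext' rfl ?_
    change (Rq.glue hκ d v.r (q' i.1)).lo d = (Rq.glue hκ d v.r (q' j.1)).lo d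
    rw [Rq.glue_lo, Rq.glue_lo]
  rcases hl with ⟨hli, hlj⟩ | ⟨hli, hlj⟩
  · obtain ⟨a1, a2, a3⟩ := half hκ h i.1.2 (hmq i.1) (fun a x b => hm2 i.1 _ a x b) (hsp i.1)
      (hq' i.1) hwi hv hvi (ht.trans ht1) (ht.trans hli) hD0
    obtain ⟨b1, b2, b3⟩ := half hκ h j.1.2 (hmq j.1) (fun a x b => hm2 j.1 _ a x b) (hsp j.1)
      (hq' j.1) hwj hv hvj (ht.trans ht1) (ht.trans hlj) hD1
    exact clash a1 b1 hloij hbg hg hz a2 a3 b2 b3
  · obtain ⟨a1, a2, a3⟩ := half hκ h i.1.2 (hmq i.1) (fun a x b => hm2 i.1 _ a x b) (hsp i.1)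
      (hq' i.1) hwi hv hvi (ht.trans ht1) (ht.trans hli) hD1
    obtain ⟨b1, b2, b3⟩ := half hκ h j.1.2 (hmq j.1) (fun a x b => hm2 j.1 _ a x b) (hsp j.1)
      (hq' j.1) hwj hv hvj (ht.trans ht1) (ht.trans hlj) hD0
    exact clash a1 b1 hloij hbg hg hz.symm a2 a3 b2 b3

end Pool.Agent.LibMA62
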