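import Pool.Agent.LibMA62.E2
import Pool.Agent.LibMA62.E4
import Pool.Agent.LibMA62.E5
import Pool.Agent.LibMA62.E8

/-! The main lemma. -/

set_option autoImplicit false

namespace Pool.Agent.LibMA62

open Cardinal Set Pool.Agent.LibTk83

variable {K X : Type} [LinearOrder K] [WellFoundedLT K] {κ : Cardinal.{0}} {d : K} {Th : Type}
  {x0 : Mt K X κ}

theorem main_lemma (hκ : ℵ₀ ≤ κ) (hd : InacD κ X (Iio d)) (hTh : #Th < #(Iio d))
    (M : BrData K X κ d Th x0) : ∃ x, x ≤ x0 ∧ M.FP x := by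
  by_contra hno
  push Not at hno
  have hc : ∀ s : Set K, #s ≤ ℵ₀ → (∀ a ∈ s, a < d) → ∃ b, b < d ∧ ∀ a ∈ s, a < b := by
    intro s hs hs'
    obtain ⟨b, hb, hb'⟩ := hd.reg s (fun a ha => hs' a ha) (hs.trans_lt (hκ.trans_lt hd.hκ))
    exact ⟨b, hb, hb'⟩
  obtain ⟨p, q, h⟩ := exists_star hκ hc M
  obtain ⟨Q, hQ, g, hg, r, h0, hr, hs⟩ := sltree hκ hc (M := M) (p := p) (q := q)
    (fun Q hQ r hr g hg => slfam hκ hc h hno Q hQ r hr g hg)
  exact final_step hκ hd hTh h hQ hg h0 hr hs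

end Pool.Agent.LibMA62
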