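import Pool.Agent.LibMA62.Defs

/-! Row F2: almost all `d` are inaccessible.

`press_small`: otherwise the intersection of the sets `{d | f d ≠ s}` (`s : S`) is in `U` (`hU.comp`) and
empty.
`press_lt` (regressive functions are constant on a set of `U`): otherwise `{d | f d ≠ a} ∈ U` for all `a`, and
by `hU.norm` `{d | ∀ a < d, f d ≠ a} ∈ U`, so some `d ∈ A` has `f d < d` and `f d ≠ f d`.
`ae_big`: there is `a : K` with `#(Iio a) ≥ c` (otherwise...: take a subset `s` of `K` with `#s = c`
(`Cardinal.le_mk_iff_exists_set`, `c ≤ #K`); it has a strict upper bound `b` (`hK.reg`), and `s ⊆ Iio b`). Use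
this for `Order.succ c < #K` (`Order.succ c ≤ 2 ^ c < #K`); for `d > b`:
`c < Order.succ c ≤ #(Iio b) ≤ #(Iio d)`. `hU.tail b`.
`ae_inac`: `lower` is trivial. `hX`, `hκ` for almost all `d`: `ae_big`. `ini` (and `pow`): for each `a : K`, `c := 2 ^ #(Iio a) < #K`
(`hK.ini`, `hK.pow`), so `{d | 2 ^ #(Iio a) < #(Iio d)} ∈ U` by `ae_big`, and by `hU.norm`
`{d | ∀ a < d, 2 ^ #(Iio a) < #(Iio d)} ∈ U`. For such `d`: `ini` by `Cardinal.cantor`; `pow`: let
`c < #(Iio d)`. There is `a < d` with `c ≤ #(Iio a)`: otherwise `#(Iio a) < c` for all `a < d`; take the order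
isomorphism of `Iio d` with its order type (an ordinal `o` with `o.card = #(Iio d) > c`, so
`c.ord < o`, and the element number `c.ord` has `c` predecessors: `Ordinal.typein`, `Ordinal.enum`,
`Ordinal.card_typein`, `Ordinal.lt_ord`). So `2 ^ c ≤ 2 ^ #(Iio a) < #(Iio d)`.
`reg` for almost all `d`: suppose not; then for almost all `d` there is `s d ⊆ Iio d` with
`#(s d) < #(Iio d)` and without strict upper bound in `Iio d`. There is `a d < d` with
`#(s d) ≤ #(Iio (a d))` (as above); by `press_lt` `a d = a0` for almost all `d`. If `s d` is empty then `Iio d` is empty,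
impossible for `d` large. Let `f d : Iio a0 → Iio d` be a function whose range contains `s d` (extended by some
element of `Iio d`; `#(s d) ≤ #(Iio a0)`, `s d` nonempty). For each `x < a0` the function `d ↦ f d x < d` is constant, `= e x`,
on a set of `U` (`press_lt`). By `hU.comp` (`#(Iio a0) < #K`) for almost all `d`: `f d x = e x` for all `x < a0`. The range of
`e` is bounded by some `b` (`hK.reg`). Take such a `d` with `b < d`: then `s d` is bounded by `b < d`: contradiction. -/

set_option autoImplicit false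

namespace Pool.Agent.LibMA62

open Cardinal Set Pool.Agent.LibTk83

variable {K X : Type} [LinearOrder K] [WellFoundedLT K] {κ : Cardinal.{0}} {U : Ultrafilter K}

private theorem F2_compl {P : K → Prop} (h : {d | P d} ∉ U) : {d | ¬ P d} ∈ U :=
  Ultrafilter.compl_mem_iff_notMem.mpr h

theorem press_small (hU : NormalU U) (S : Type) (hS : #S < #K) (f : K → S) :
    ∃ s, {d | f d = s} ∈ U := by
  by_contra hcon
  push Not at hcon
  have h2 := hU.comp S (fun s => {d | ¬ f d = s}) hS fun s => F2_compl (hcon s)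
  obtain ⟨d, hd⟩ := U.nonempty_of_mem h2
  exact hd (f d) rfl

theorem press_lt (hU : NormalU U) (A : Set K) (hA : A ∈ U) (f : K → K) (hf : ∀ d ∈ A, f d < d) :
    ∃ a, {d | f d = a} ∈ U := by
  by_contra hcon
  push Not at hcon
  have h2 := hU.norm (fun a => {d | ¬ f d = a}) fun a => F2_compl (hcon a)
  obtain ⟨d, hd, hdA⟩ := U.nonempty_of_mem (Filter.inter_mem h2 hA)
  exact hd (f d) (hf d hdA) rfl

theorem ae_big (hU : NormalU U) (hK : InacD κ X (univ : Set K)) (c : Cardinal.{0})
    (hc : c < #K) : {d : K | c < #(Iio d)} ∈ U := by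
  have hc' : c < #(univ : Set K) := by rw [Cardinal.mk_univ]; exact hc
  have h2 : (2 : Cardinal.{0}) ^ c < #(univ : Set K) := hK.pow c hc'
  have h3 : (2 : Cardinal.{0}) ^ c ≤ #K := by rw [Cardinal.mk_univ] at h2; exact h2.le
  obtain ⟨s, hs⟩ := Cardinal.le_mk_iff_exists_set.mp h3
  obtain ⟨b, -, hb⟩ := hK.reg s (subset_univ s) (by rw [hs]; exact h2)
  refine Filter.mem_of_superset (hU.tail b) fun d hd => ?_
  have h4 : s ⊆ Iio d := fun a ha => (hb a ha).trans hd
  calc c < 2 ^ c := Cardinal.cantor c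
    _ = #s := hs.symm
    _ ≤ #(Iio d) := Cardinal.mk_le_mk_of_subset h4

private theorem F2_enum (d : K) (c : Cardinal.{0}) (hc : c < #(Iio d)) :
    ∃ a, a < d ∧ #(Iio a) = c := by
  have hlt : c.ord < Ordinal.type (fun x y : Iio d => x < y) := by
    by_contra h
    rw [not_lt] at h
    have h1 := Ordinal.card_le_card h
    rw [Cardinal.card_ord, Ordinal.card_type] at h1
    exact absurd hc (not_lt.mpr h1)
  set x : Iio d := Ordinal.enum (fun x y : Iio d => x < y) ⟨c.ord, hlt⟩ with hx
  have h2 : Ordinal.typein (fun x y : Iio d => x < y) x = c.ord := Ordinal.typein_enum _ hlt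
  have h3 : #{ y : Iio d // y < x } = c := by
    have h4 := Ordinal.card_typein (r := fun x y : Iio d => x < y) x
    rw [h2, Cardinal.card_ord] at h4
    exact h4.symm
  refine ⟨(x : K), x.2, ?_⟩
  rw [← h3]
  refine Cardinal.mk_congr ?_
  exact
    { toFun := fun y => ⟨⟨(y : K), lt_trans y.2 x.2⟩, y.2⟩
      invFun := fun y => ⟨((y : Iio d) : K), y.2⟩
      left_inv := fun y => rfl
      right_inv := fun y => rfl }

theorem ae_inac (hκ : ℵ₀ ≤ κ) (hU : NormalU U) (hK : InacD κ X (univ : Set K)) :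
    {d : K | InacD κ X (Iio d)} ∈ U := by
  classical
  have hini : ∀ a : K, #(Iio a) < #K := fun a => by
    have := hK.ini a (mem_univ a)
    rwa [Cardinal.mk_univ] at this
  have hpow : ∀ c : Cardinal.{0}, c < #K → (2 : Cardinal.{0}) ^ c < #K := fun c hc => by
    have := hK.pow c (by rw [Cardinal.mk_univ]; exact hc)
    rwa [Cardinal.mk_univ] at this
  have E1 : {d : K | #X < #(Iio d)} ∈ U := ae_big hU hK _ (by
    have := hK.hX
    rwa [Cardinal.mk_univ] at this)
  have E2 : {d : K | κ < #(Iio d)} ∈ U := ae_big hU hK _ (by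
    have := hK.hκ
    rwa [Cardinal.mk_univ] at this)
  have E3 : {d : K | ∀ a < d, d ∈ {e : K | (2 : Cardinal.{0}) ^ #(Iio a) < #(Iio e)}} ∈ U :=
    hU.norm _ fun a => ae_big hU hK _ (hpow _ (hini a))
  have E4 : {d : K | ∀ s : Set K, s ⊆ Iio d → #s < #(Iio d) → ∃ b ∈ Iio d, ∀ a ∈ s, a < b} ∈ U := by
    by_contra hcon
    have hA := F2_compl hcon
    set A : Set K := {d : K | ¬ ∀ s : Set K, s ⊆ Iio d → #s < #(Iio d) →
      ∃ b ∈ Iio d, ∀ a ∈ s, a < b} with hAdef
    have hch : ∀ d ∈ A, ∃ (s : Set K) (a : K), s ⊆ Iio d ∧ (∀ b ∈ Iio d, ∃ a ∈ s, b ≤ a) ∧ a < d ∧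
        #(Iio a) = #s := by
      intro d hd
      rw [hAdef, mem_ofPred_eq] at hd
      push Not at hd
      obtain ⟨s, hs, hcard, hb⟩ := hd
      obtain ⟨a, had, ha⟩ := F2_enum d _ hcard
      exact ⟨s, a, hs, hb, had, ha⟩
    choose! s av hs hb had hcard using hch
    obtain ⟨a0, ha0⟩ := press_lt hU A hA av had
    have hAB : A ∩ {d | av d = a0} ∈ U := Filter.inter_mem hA ha0
    have heq : ∀ d ∈ A ∩ {d | av d = a0}, Nonempty (Iio a0 ≃ s d) := by
      rintro d ⟨hdA, hda⟩
      have hda' : av d = a0 := hda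
      rw [← hda']
      exact Cardinal.eq.mp (hcard d hdA)
    let F : K → Iio a0 → K := fun d x =>
      if h : d ∈ A ∩ {d | av d = a0} then ((Classical.choice (heq d h)) x : K) else d
    have hF : ∀ (d : K) (h : d ∈ A ∩ {d | av d = a0}) (x : Iio a0),
        F d x = ((Classical.choice (heq d h)) x : K) := fun d h x => by
      simp only [F]
      rw [dif_pos h]
    have hFlt : ∀ x : Iio a0, ∀ d ∈ A ∩ {d | av d = a0}, F d x < d := by
      intro x d hd
      rw [hF d hd x]
      exact hs d hd.1 (Subtype.coe_prop _)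
    have hex : ∀ x : Iio a0, ∃ e : K, {d | F d x = e} ∈ U := fun x =>
      press_lt hU _ hAB (fun d => F d x) (hFlt x)
    choose e he using hex
    have hall : {d | ∀ x : Iio a0, d ∈ {d | F d x = e x}} ∈ U :=
      hU.comp (Iio a0) (fun x => {d | F d x = e x}) (hini a0) he
    obtain ⟨b, -, hbb⟩ := hK.reg (range e) (subset_univ _) (by
      rw [Cardinal.mk_univ]
      exact lt_of_le_of_lt Cardinal.mk_range_le (hini a0))
    obtain ⟨d, ⟨hdAB, hdall⟩, hdb⟩ := U.nonempty_of_mem
      (Filter.inter_mem (Filter.inter_mem hAB hall) (hU.tail b))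
    obtain ⟨a, has, hba⟩ := hb d hdAB.1 b hdb
    have hdall' : ∀ x : Iio a0, F d x = e x := hdall
    have h5 : a = e ((Classical.choice (heq d hdAB)).symm ⟨a, has⟩) := by
      rw [← hdall', hF d hdAB]
      simp
    have h6 : a < b := by
      rw [h5]
      exact hbb _ (mem_range_self _)
    exact absurd h6 (not_lt.mpr hba)
  refine Filter.mem_of_superset (Filter.inter_mem (Filter.inter_mem E1 E2)
    (Filter.inter_mem E3 E4)) ?_
  rintro d ⟨⟨h1, h2⟩, h3, h4⟩
  have h3' : ∀ a < d, (2 : Cardinal.{0}) ^ #(Iio a) < #(Iio d) := h3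
  exact
    { lower := fun a b hab hbd => lt_of_le_of_lt hab hbd
      reg := h4
      pow := fun c hc => by
        obtain ⟨a, had, ha⟩ := F2_enum d c hc
        rw [← ha]
        exact h3' a had
      ini := fun a ha => (Cardinal.cantor _).trans (h3' a ha)
      hX := h1
      hκ := h2 }

end Pool.Agent.LibMA62
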