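import Pool.Agent.LibMA62.F2
import Pool.Agent.LibMA62.D1

/-! Row F3: a function `v` with `v d ∈ P_d` is constant on a set of the ultrafilter.

For `d ∈ A` with `InacD κ X (Iio d)` (`ae_inac`) the coordinates of `v d` are a subset of `Iio d` of size
`≤ κ < #(Iio d)` (`exists_dom`), so by `reg` they are below some `f d < d`, that is
`InD (Iio (f d)) (v d)`. By `press_lt` `f d = c` for almost all `d`. The type
`S := {x : Mt K X κ // InD (Iio c) x}` has fewer than `#K` elements (`size_lt` for `D := univ`), so by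
`press_small` (with a default value, the condition `v d` for one such `d`) `v d` is constant on a set of `U`. -/

set_option autoImplicit false

namespace Pool.Agent.LibMA62

open Cardinal Set Pool.Agent.LibTk83

variable {K X : Type} [LinearOrder K] [WellFoundedLT K] {κ : Cardinal.{0}} {U : Ultrafilter K}

theorem press (hκ : ℵ₀ ≤ κ) (hU : NormalU U) (hK : InacD κ X (univ : Set K))
    (v : K → Mt K X κ) (A : Set K) (hA : A ∈ U) (hv : ∀ d ∈ A, InD (Iio d) (v d)) :
    ∃ w, (∃ c : K, InD (Iio c) w) ∧ {d | v d = w} ∈ U := by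
  classical
  have hI : {d : K | InacD κ X (Iio d)} ∈ U := ae_inac hκ hU hK
  have hB : A ∩ {d : K | InacD κ X (Iio d)} ∈ U := Filter.inter_mem hA hI
  have hex : ∀ d ∈ A ∩ {d : K | InacD κ X (Iio d)}, ∃ c, c < d ∧ InD (Iio c) (v d) := by
    intro d hd
    obtain ⟨s, hs, hin, hmin⟩ := exists_dom hκ (v d)
    have hID : InacD κ X (Iio d) := hd.2
    have hsub : s ⊆ Iio d := hmin _ (hv d hd.1)
    obtain ⟨b, hb, hab⟩ := hID.reg s hsub (hs.trans_lt hID.hκ)
    exact ⟨b, hb, InD.mono (fun a ha => hab a ha) hin⟩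
  let f : K → K := fun d => if h : d ∈ A ∩ {d : K | InacD κ X (Iio d)} then (hex d h).choose else d
  have hf : ∀ d (h : d ∈ A ∩ {d : K | InacD κ X (Iio d)}), f d < d ∧ InD (Iio (f d)) (v d) := by
    intro d h
    have e : f d = (hex d h).choose := dif_pos h
    rw [e]
    exact (hex d h).choose_spec
  obtain ⟨c, hc⟩ := press_lt hU _ hB f fun d h => (hf d h).1
  have hC : (A ∩ {d : K | InacD κ X (Iio d)}) ∩ {d | f d = c} ∈ U := Filter.inter_mem hB hc
  have hCv : ∀ d ∈ (A ∩ {d : K | InacD κ X (Iio d)}) ∩ {d | f d = c}, InD (Iio c) (v d) := by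
    intro d hd
    have h1 := (hf d hd.1).2
    have h2 : f d = c := hd.2
    rw [h2] at h1
    exact h1
  obtain ⟨d0, hd0⟩ := Ultrafilter.nonempty_of_mem hC
  have hS : #{x : Mt K X κ // InD (Iio c) x} < #K := by
    have h := size_lt hκ hK (mem_univ c)
    rwa [Cardinal.mk_univ] at h
  let g : K → {x : Mt K X κ // InD (Iio c) x} := fun d =>
    if h : InD (Iio c) (v d) then ⟨v d, h⟩ else ⟨v d0, hCv d0 hd0⟩
  obtain ⟨s, hs⟩ := press_small hU _ hS g
  refine ⟨s.1, ⟨c, s.2⟩, ?_⟩
  refine Filter.mem_of_superset (Filter.inter_mem hC hs) ?_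
  intro d hd
  have h1 : g d = s := hd.2
  have h2 : g d = ⟨v d, hCv d hd.1⟩ := dif_pos (hCv d hd.1)
  show v d = s.1
  rw [← h1, h2]

end Pool.Agent.LibMA62
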