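import Pool.Agent.LibMA62.E9
import Pool.Agent.LibMA62.F2
import Pool.Agent.LibMA62.F3
import Pool.Agent.LibMA62.D4

/-! Row F4: the tree in the extension; for almost all `d` the main lemma applies to the branch below a
node of level `d`.

`ae_supp`: by `supp` choose `c a z b w : K` with `x ∈ lt a z b w → x.lo (c a z b w) ∈ lt a z b w`. For fixed `a`, `b`
the elements `c a z b w` (`z, w : Th`, fewer than `#K` pairs: `#Th * #Th < #K`) have a strict upper bound `C a b`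
(`hK.reg`). `{d | C a b < d} ∈ U`; by `hU.norm` twice `{d | ∀ a < d, ∀ b < d, C a b < d} ∈ U`. If `c ≤ d` and
`x ∈ e → x.lo c ∈ e` then `x ∈ e → x.lo d ∈ e` (`x.lo d ≤ x.lo c`: `Mt.lo_le_lo`).
`tp_fam`: for almost all `d` (`ae_inac`, `ae_big` for `#Th`, `ae_supp`): by `T.ne x0` there are `y ≤ x0` and `w` with `y ∈ nd d w`.
Define `M : BrData K X κ d Th y` by `M.Dec x a z := x ∈ T.lt a z d w`, `M.Lt x a z b v := x ∈ T.lt a z b v`: `dmono`,
`lmono` by `RO.mem_of_le`; `dreg` by `RO.mem_of_dense`; `ddense` by `T.pred`; `duniq`, `luniq` by `T.uniq`; `dl` by `T.coh`; `llo` by the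
support property. `main_lemma` gives `x ≤ y` with `M.FP x`. The function `d ↦ (x d).lo d` is constant on a set of
`U` by `press` (`InD.of_lo`). -/

set_option autoImplicit false

namespace Pool.Agent.LibMA62

open Cardinal Set Pool.Agent.LibTk83

/-- The tree given by names: `x ∈ nd a z` if `x` forces that there is a node number `z` at level `a`;
`x ∈ lt a z b w` if `x` forces that the node number `z` of level `a` is below the node number `w` of level
`b`. -/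
structure TD (K X : Type) [LinearOrder K] (κ : Cardinal.{0}) (Th : Type) (x0 : Mt K X κ) where
  nd : K → Th → RO (Mt K X κ)
  lt : K → Th → K → Th → RO (Mt K X κ)
  pred : ∀ x, x ≤ x0 → ∀ a b w, a < b → x ∈ nd b w → ∃ y, y ≤ x ∧ ∃ z, y ∈ lt a z b w
  uniq : ∀ x, x ≤ x0 → ∀ a b z z' w, a < b → x ∈ lt a z b w → x ∈ lt a z' b w → z = z'
  coh : ∀ x, x ≤ x0 → ∀ a a' b z z' w, a < a' → a' < b → x ∈ lt a z b w → x ∈ lt a' z' b w →
    x ∈ lt a z a' z'
  ne : ∀ x, x ≤ x0 → ∀ b, ∃ y, y ≤ x ∧ ∃ w, y ∈ nd b w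

variable {K X : Type} [LinearOrder K] [WellFoundedLT K] {κ : Cardinal.{0}} {U : Ultrafilter K}
  {Th : Type}

theorem ae_supp (hκ : ℵ₀ ≤ κ) (hU : NormalU U) (hK : InacD κ X (univ : Set K)) (hTh : #Th < #K)
    (lt : K → Th → K → Th → RO (Mt K X κ)) :
    {d : K | ∀ a, a < d → ∀ b, b < d → ∀ z w x, x ∈ lt a z b w → x.lo d ∈ lt a z b w} ∈ U := by
  have hinf : ℵ₀ ≤ #K := by
    have h := hK.hκ
    rw [mk_univ] at h
    exact hκ.trans h.le
  have h1 : ∀ a z b w, ∃ c : K, ∀ x, x ∈ lt a z b w → x.lo c ∈ lt a z b w := fun a z b w =>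
    supp hκ hK (lt a z b w)
  choose c hc using h1
  have h2 : ∀ a b, ∃ C : K, ∀ z w, c a z b w < C := by
    intro a b
    obtain ⟨C, -, hC⟩ := hK.reg (range fun p : Th × Th => c a p.1 b p.2) (subset_univ _) (by
      rw [mk_univ]
      refine mk_range_le.trans_lt ?_
      have h6 : #(Th × Th) = #Th * #Th := by simp
      rw [h6]
      exact mul_lt_of_lt hinf hTh hTh)
    exact ⟨C, fun z w => hC _ ⟨(z, w), rfl⟩⟩
  choose C hC using h2
  have h3 : ∀ a, {d : K | ∀ b < d, d ∈ {e : K | C a b < e}} ∈ U := fun a =>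
    hU.norm _ fun b => hU.tail (C a b)
  have h4 := hU.norm _ h3
  refine Filter.mem_of_superset h4 ?_
  intro d hd a ha b hb z w x hx
  have h5 : C a b < d := hd a ha b hb
  exact RO.mem_of_le (Mt.lo_le_lo ((hC a b z w).trans h5).le x) (hc a z b w x hx)

theorem tp_fam (hκ : ℵ₀ ≤ κ) (hU : NormalU U) (hK : InacD κ X (univ : Set K)) (hTh : #Th < #K)
    {x0 : Mt K X κ} (T : TD K X κ Th x0) :
    ∃ (A : Set K) (w : Mt K X κ) (x : K → Mt K X κ) (t : K → Th), A ∈ U ∧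
      (∃ c : K, InD (Iio c) w) ∧ ∀ d ∈ A, x d ≤ x0 ∧ (x d).lo d = w ∧ x d ∈ T.nd d (t d) ∧
        (∀ y, y ≤ x d → ∀ y', y' ≤ x d → y.lo d = y'.lo d → ∀ a, a < d → ∀ z z',
          y ∈ T.lt a z d (t d) → y' ∈ T.lt a z' d (t d) → z = z') ∧
        ∀ a, a < d → ∀ b, b < d → ∀ z v u, u ∈ T.lt a z b v → u.lo d ∈ T.lt a z b v := by
  obtain ⟨A0, hA0, hA0'⟩ : ∃ A0 : Set K, A0 ∈ U ∧ ∀ d ∈ A0, InacD κ X (Iio d) ∧ #Th < #(Iio d) ∧
      ∀ a, a < d → ∀ b, b < d → ∀ z w x, x ∈ T.lt a z b w → x.lo d ∈ T.lt a z b w :=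
    ⟨_, Filter.inter_mem (ae_inac hκ hU hK) (Filter.inter_mem (ae_big hU hK (#Th) hTh)
      (ae_supp hκ hU hK hTh T.lt)), fun d hd => ⟨hd.1, hd.2.1, hd.2.2⟩⟩
  have h1 : ∀ d : K, ∃ (x : Mt K X κ) (t : Th), d ∈ A0 → x ≤ x0 ∧ x ∈ T.nd d t ∧
      ∀ y, y ≤ x → ∀ y', y' ≤ x → y.lo d = y'.lo d → ∀ a, a < d → ∀ z z',
        y ∈ T.lt a z d t → y' ∈ T.lt a z' d t → z = z' := by
    intro d
    obtain ⟨y, hy, w, hyw⟩ := T.ne x0 le_rfl d
    by_cases hd : d ∈ A0
    · obtain ⟨hd1, hd2, hd3⟩ := hA0' d hd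
      let M : BrData K X κ d Th y :=
        { Dec := fun x a z => x ∈ T.lt a z d w
          Lt := fun x a z b v => x ∈ T.lt a z b v
          dmono := fun x x' a z hxx hx => RO.mem_of_le hxx hx
          ddense := fun x hx a ha => T.pred x (hx.trans hy) a d w ha (RO.mem_of_le hx hyw)
          dreg := fun x a z h => RO.mem_of_dense h
          duniq := fun x hx a z z' ha h h' => T.uniq x (hx.trans hy) a d z z' w ha h h'
          lmono := fun x x' a z b v hxx hx => RO.mem_of_le hxx hx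
          llo := fun x a z b v ha hb h => hd3 a ha b hb z v x h
          luniq := fun x hx a z z' b v hab _ h h' => T.uniq x (hx.trans hy) a b z z' v hab h h'
          dl := fun x hx a z b v hab hbd h h' => T.coh x (hx.trans hy) a b d z v w hab hbd h h' }
      obtain ⟨x, hxy, hx⟩ := main_lemma hκ hd1 hd2 M
      exact ⟨x, w, fun _ => ⟨hxy.trans hy, RO.mem_of_le hxy hyw, hx⟩⟩
    · exact ⟨y, w, fun h => absurd h hd⟩
  choose x t hx using h1
  obtain ⟨w, hw, hwU⟩ := press hκ hU hK (fun d => (x d).lo d) A0 hA0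
    (fun d _ => InD.of_lo d (x d))
  refine ⟨A0 ∩ {d | (x d).lo d = w}, w, x, t, Filter.inter_mem hA0 hwU, hw, ?_⟩
  rintro d ⟨hd, hdw⟩
  obtain ⟨h1, h2, h3⟩ := hx d hd
  exact ⟨h1, hdw, h2, h3, (hA0' d hd).2.2⟩

end Pool.Agent.LibMA62
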