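import Pool.Agent.LibMA62.F4

/-! Row F5: the cofinal branch.

Take `A`, `w`, `x`, `t` from `tp_fam`. For `v` with `v ≤ w` let
`Q v a z := {d | Mt.am hκ d v (x d) ∈ T.lt a z d (t d)} ∈ U`.
(1) `Q` is monotone: if `v' ≤ v` then `v'.lo d ≤ v.lo d` and `Mt.am hκ d v' (x d) ≤ Mt.am hκ d v (x d)`
(`Mt.am_mono_left`).
(2) Density: let `v ≤ w`, `InD (Iio c) v` for some `c`, and `a : K`. There are `v' ≤ v`, `z`, with `InD (Iio c') v'`
for some `c'` and `Q v' a z`. Indeed for almost all `d` (`d ∈ A`, `a < d`, `c ≤ d`, so `v.lo d = v`):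
`Mt.am hκ d v (x d) ≤ x d` (`v.lo d ≤ w.lo d = (x d).lo d`; `w.lo d = w` because `w = (x d).lo d`) is in `T.nd d (t d)`, so by
`T.pred` there are `y ≤ Mt.am hκ d v (x d)` and `z d` with `y ∈ T.lt a (z d) d (t d)`. Put `v1 d := y.lo d ≤ v.lo d = v`
(`Mt.am_lo`). Claim: `Mt.am hκ d (v1 d) (x d) ∈ T.lt a (z d) d (t d)`. By `RO.mem_of_dense` let
`q ≤ Mt.am hκ d (v1 d) (x d)`; by `T.pred` there are `q' ≤ q` and `z'` with `q' ∈ T.lt a z' d (t d)`. Let
`q'' := Mt.am hκ d q' y ≤ y` (`q'.lo d ≤ y.lo d`); `q'' ∈ T.lt a (z d) d (t d)`, `q''.lo d = q'.lo d`, both `≤ x d`, so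
`z' = z d`, and `q'` is in `T.lt a (z d) d (t d)`. By `press` `v1 d = v'` for almost all `d`, by `press_small`
`z d = z` for almost all `d`.
(3) Every condition `v ≤ w` has `v'' ≤ v` with `InD (Iio c) v''` for some `c`: `v` itself (`exists_dom` and `hK.reg`).
(4) Coherence: `v ≤ w`, `a < b`, `Q v a z`, `Q v b z'` imply `v ∈ T.lt a z b z'`: take `d` in both sets and in `A`, with
`b < d` and `v.lo d = v` (by (3)): `Mt.am hκ d v (x d) ∈ T.lt a z b z'` by `T.coh`, and by the support property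
`(Mt.am hκ d v (x d)).lo d = v.lo d = v ∈ T.lt a z b z'`.
Let `br a z := RO.gen {v | v ≤ w ∧ Q v a z}` and let `z0 := x d` for some `d ∈ A`: `z0 ≤ x0`, `z0 ≤ (x d).lo d = w`.
`z0 ∈ ⨆ z, br a z` by (2), (3) (`RO.mem_iSup`, `RO.mem_gen`; a member of the generating set is in `RO.gen`).
`br a z ⊓ br b z' ≤ T.lt a z b z'`: let `y` be in both; for `q ≤ y` there is `r ≤ q` with `r ≤ v`, `v ≤ w`, `Q v a z`, and
`r' ≤ r` with `r' ≤ v'`, `v' ≤ w`, `Q v' b z'`; by (1) `Q r' a z` and `Q r' b z'`, and by (4) `r' ∈ T.lt a z b z'`. -/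

set_option autoImplicit false

namespace Pool.Agent.LibMA62

open Cardinal Set Pool.Agent.LibTk83

variable {K X : Type} [LinearOrder K] [WellFoundedLT K] {κ : Cardinal.{0}} {U : Ultrafilter K}
  {Th : Type}

theorem tp_branch (hκ : ℵ₀ ≤ κ) (hU : NormalU U) (hK : InacD κ X (univ : Set K))
    (hTh : #Th < #K) {x0 : Mt K X κ} (T : TD K X κ Th x0) :
    ∃ z0, z0 ≤ x0 ∧ ∃ br : K → Th → RO (Mt K X κ), (∀ a, z0 ∈ ⨆ z, br a z) ∧
      ∀ a b z z', a < b → br a z ⊓ br b z' ≤ T.lt a z b z' := by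
  classical
  obtain ⟨A, w, x, t, hA, -, hx⟩ := tp_fam hκ hU hK hTh T
  -- the conditions below `w`
  have hxw : ∀ d ∈ A, (x d).lo d = w := fun d hd => (hx d hd).2.1
  have bdd : ∀ v : Mt K X κ, ∃ c : K, InD (Iio c) v := by
    intro v
    obtain ⟨s, hs, hs1, -⟩ := exists_dom hκ v
    obtain ⟨b, -, hb⟩ := hK.reg s (subset_univ s) (hs.trans_lt hK.hκ)
    exact ⟨b, hs1.mono fun a ha => hb a ha⟩
  have amle : ∀ v : Mt K X κ, v ≤ w → ∀ d ∈ A, v.lo d = v → Mt.am hκ d v (x d) ≤ x d := by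
    intro v hv d hd hvd
    refine Mt.am_le_right hκ ?_
    rw [hvd, hxw d hd]
    exact hv
  let Q : Mt K X κ → K → Th → Prop := fun v a z =>
    {d | Mt.am hκ d v (x d) ∈ T.lt a z d (t d)} ∈ U
  have Qmono : ∀ v v' a z, v' ≤ v → Q v a z → Q v' a z := by
    intro v v' a z h hq
    refine Filter.mem_of_superset hq fun d hd => ?_
    exact RO.mem_of_le (Mt.am_mono_left hκ (x d) (Mt.lo_mono d h)) hd
  have dens : ∀ v : Mt K X κ, v ≤ w → ∀ a, ∃ v', v' ≤ v ∧ ∃ z, Q v' a z := by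
    intro v hv a
    obtain ⟨c, hc⟩ := bdd v
    let B : Set K := A ∩ ({d | a < d} ∩ {d | c < d})
    have hB : B ∈ U := Filter.inter_mem hA (Filter.inter_mem (hU.tail a) (hU.tail c))
    have hvlo : ∀ d ∈ B, v.lo d = v := fun d hd =>
      (hc.mono fun e he => lt_trans he hd.2.2).lo_eq
    have hex : ∀ d, ∃ y : Mt K X κ, ∃ z : Th, d ∈ B →
        (y ≤ Mt.am hκ d v (x d) ∧ y ∈ T.lt a z d (t d)) := by
      intro d
      by_cases hd : d ∈ B
      · have h2 := amle v hv d hd.1 (hvlo d hd)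
        have h3 : Mt.am hκ d v (x d) ∈ T.nd d (t d) := RO.mem_of_le h2 (hx d hd.1).2.2.1
        obtain ⟨y, hy, z, hz⟩ := T.pred _ (h2.trans (hx d hd.1).1) a d (t d) hd.2.1 h3
        exact ⟨y, z, fun _ => ⟨hy, hz⟩⟩
      · exact ⟨v, t d, fun h => absurd h hd⟩
    choose y z hyz using hex
    obtain ⟨v', -, hv'⟩ := press hκ hU hK (fun d => (y d).lo d) B hB
      fun d _ => InD.of_lo d (y d)
    obtain ⟨s, hs⟩ := press_small hU Th hTh z
    have hv1 : ∀ d ∈ B, (y d).lo d ≤ v := by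
      intro d hd
      have h1 := Mt.lo_mono d (hyz d hd).1
      rwa [Mt.am_lo, hvlo d hd] at h1
    have hmem : ∀ d ∈ B, Mt.am hκ d ((y d).lo d) (x d) ∈ T.lt a (z d) d (t d) := by
      intro d hd
      refine RO.mem_of_dense fun q hq => ?_
      have hlo : ((y d).lo d).lo d = (y d).lo d := Mt.lo_lo le_rfl (y d)
      have h1 : Mt.am hκ d ((y d).lo d) (x d) ≤ x d :=
        amle _ ((hv1 d hd).trans hv) d hd.1 hlo
      have hqx : q ≤ x d := hq.trans h1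
      have hqn : q ∈ T.nd d (t d) := RO.mem_of_le hqx (hx d hd.1).2.2.1
      obtain ⟨q', hq', z', hz'⟩ := T.pred q (hqx.trans (hx d hd.1).1) a d (t d) hd.2.1 hqn
      have h2 : q'.lo d ≤ (y d).lo d := by
        have h3 := Mt.lo_mono d (hq'.trans hq)
        rwa [Mt.am_lo, hlo] at h3
      have h4 : Mt.am hκ d q' (y d) ≤ y d := Mt.am_le_right hκ h2
      have h5 : Mt.am hκ d q' (y d) ∈ T.lt a (z d) d (t d) := RO.mem_of_le h4 (hyz d hd).2
      have h6 : (Mt.am hκ d q' (y d)).lo d = q'.lo d := Mt.am_lo hκ d q' (y d)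
      have h7 : Mt.am hκ d q' (y d) ≤ x d :=
        (h4.trans (hyz d hd).1).trans (amle v hv d hd.1 (hvlo d hd))
      have h8 : z d = z' := (hx d hd.1).2.2.2.1 _ h7 q' (hq'.trans hqx) h6 a hd.2.1 _ _ h5 hz'
      exact ⟨q', hq', by rw [h8]; exact hz'⟩
    refine ⟨v', ?_, s, ?_⟩
    · obtain ⟨d, hd1, hd2⟩ := U.nonempty_of_mem (Filter.inter_mem hB hv')
      have h1 : (y d).lo d = v' := hd2
      rw [← h1]
      exact hv1 d hd1
    · refine Filter.mem_of_superset (Filter.inter_mem hB (Filter.inter_mem hv' hs)) ?_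
      rintro d ⟨hd, hd1, hd2⟩
      have h1 : (y d).lo d = v' := hd1
      have h2 : z d = s := hd2
      have h3 := hmem d hd
      rw [h1, h2] at h3
      exact h3
  have coh : ∀ v : Mt K X κ, v ≤ w → ∀ a b z z', a < b → Q v a z → Q v b z' →
      v ∈ T.lt a z b z' := by
    intro v hv a b z z' hab h1 h2
    obtain ⟨c, hc⟩ := bdd v
    obtain ⟨d, ⟨hd1, hd2⟩, hdA, hdb, hdc⟩ := U.nonempty_of_mem (Filter.inter_mem
      (Filter.inter_mem h1 h2) (Filter.inter_mem hA (Filter.inter_mem (hU.tail b) (hU.tail c))))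
    have hvd : v.lo d = v := (hc.mono fun e he => lt_trans he hdc).lo_eq
    have h3 := amle v hv d hdA hvd
    have h4 : Mt.am hκ d v (x d) ∈ T.lt a z b z' :=
      T.coh _ (h3.trans (hx d hdA).1) a b d z z' (t d) hab hdb hd1 hd2
    have h5 := (hx d hdA).2.2.2.2 a (lt_trans hab hdb) b hdb z z' _ h4
    rwa [Mt.am_lo, hvd] at h5
  obtain ⟨d, hd⟩ := U.nonempty_of_mem hA
  have hz0w : x d ≤ w := by
    have h := Mt.le_lo d (x d)
    rwa [hxw d hd] at h
  refine ⟨x d, (hx d hd).1, fun a z => RO.gen {v | v ≤ w ∧ Q v a z}, ?_, ?_⟩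
  · intro a
    rw [RO.mem_iSup]
    intro q hq
    obtain ⟨v', hv', z, hz⟩ := dens q (hq.trans hz0w) a
    refine ⟨v', hv', z, ?_⟩
    rw [RO.mem_gen]
    intro r hr
    exact ⟨r, le_rfl, v', ⟨(hv'.trans hq).trans hz0w, hz⟩, hr⟩
  · intro a b z z' hab y hy
    rw [RO.mem_inf, RO.mem_gen, RO.mem_gen] at hy
    refine RO.mem_of_dense fun q hq => ?_
    obtain ⟨r, hr, v, ⟨hv, hv1⟩, hrv⟩ := hy.1 q hq
    obtain ⟨r', hr', v', ⟨hv', hv1'⟩, hrv'⟩ := hy.2 r (hr.trans hq)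
    exact ⟨r', hr'.trans hr, coh r' (hrv'.trans hv') a b z z' hab
      (Qmono v r' a z (hr'.trans hrv) hv1) (Qmono v' r' b z' hrv' hv1')⟩

end Pool.Agent.LibMA62
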