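import Pool.Agent.LibMA62.Defs

/-! The properties of the complete Boolean algebra which are used in the Boolean-valued universe. -/

set_option autoImplicit false

namespace Pool.Agent.LibMA62

open Cardinal Set

/-- A tree of height `ν.ord` with levels of size `< ν` and without chains of size `ν`. -/
structure ATree (ν : Cardinal.{0}) (T : Type) [PartialOrder T] (ht : T → Ordinal.{0}) : Prop where
  comp : ∀ s u t : T, s < t → u < t → s ≤ u ∨ u ≤ s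
  mono : StrictMono ht
  down : ∀ t : T, ∀ α < ht t, ∃ s, s < t ∧ ht s = α
  ht_lt : ∀ t : T, ht t < ν.ord
  ne : ∀ α < ν.ord, ∃ t : T, ht t = α
  lev : ∀ α : Ordinal.{0}, #{t : T // ht t = α} < ν
  chain : ∀ S : Set T, IsChain (· ≤ ·) S → #S < ν

/-- The properties of the algebra `B`: `κ` is the singular cardinal, `Th` is its successor, `K` the
measurable cardinal. -/
structure MM (B : Type) [CompleteBooleanAlgebra B] (κ : Cardinal.{0}) (Th K : Type)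
    [LinearOrder K] : Prop where
  cover : ∀ (J V : Type) (e : J → V → B), #J ≤ κ →
    (∀ j v v', v ≠ v' → e j v ⊓ e j v' = ⊥) →
    (⨆ S : {S : J → Set V // ∀ j, (S j).Countable}, ⨅ j, ⨅ v, ⨅ (_ : v ∉ S.1 j), (e j v)ᶜ) = ⊤
  branch : ∀ (ν : Cardinal.{0}) (T : Type) [PartialOrder T] (ht : T → Ordinal.{0}),
    ATree ν T ht → ν ≤ κ → ν.IsRegular → ℵ₁ < ν → ∀ (Y : Type) (e : Y → T → B), #Y = ν →
    (∀ y t t', t ≠ t' → e y t ⊓ e y t' = ⊥) → (∀ y y' t, y ≠ y' → e y t ⊓ e y' t = ⊥) →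
    (∀ y y' t t', ¬ t ≤ t' → ¬ t' ≤ t → e y t ⊓ e y' t' = ⊥) → (⨅ y, ⨆ t, e y t) = ⊥
  noinj2 : ∀ e : K → Th → B, (∀ x x' y, x ≠ x' → e x y ⊓ e x' y = ⊥) → (⨅ x, ⨆ y, e x y) = ⊥
  col : ∀ a : K, ∃ e : K → Th → B, (∀ i, i < a → (⨆ y, e i y) = ⊤) ∧
    (∀ i y y', y ≠ y' → e i y ⊓ e i y' = ⊥) ∧ ∀ i i' y, i ≠ i' → e i y ⊓ e i' y = ⊥
  tp : ∀ (c : B) (nd : K → Th → B) (lt : K → Th → K → Th → B), c ≠ ⊥ →
    (∀ a b w, a < b → c ⊓ nd b w ≤ ⨆ z, lt a z b w) →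
    (∀ a b z z' w, a < b → z ≠ z' → c ⊓ (lt a z b w ⊓ lt a z' b w) = ⊥) →
    (∀ a a' b z z' w, a < a' → a' < b → c ⊓ (lt a z b w ⊓ lt a' z' b w) ≤ lt a z a' z') →
    (∀ b, c ≤ ⨆ w, nd b w) →
    ∃ z0, z0 ≤ c ∧ z0 ≠ ⊥ ∧ ∃ br : K → Th → B, (∀ a, z0 ≤ ⨆ z, br a z) ∧
      ∀ a b z z', a < b → br a z ⊓ br b z' ≤ lt a z b z'

end Pool.Agent.LibMA62
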