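import Pool.Agent.LibMA62.N1

/-! Row N2: a measurable cardinal has a normal ultrafilter.

The relation `f ≺ g := {x | f x < g x} ∈ U` on `K → K` is well-founded: otherwise there is a sequence `f n` with
`f (n + 1) ≺ f n` for all `n` (`RelEmbedding`/`wellFounded_iff_no_descending_seq` or
`WellFounded` by `not_rel_apply_succ`), and by `hcomp` for `ℕ` (`ℵ₀ < #K`) there is `x` with
`f (n + 1) x < f n x` for all `n`, which contradicts the well-ordering of `K`.
Let `S := {f : K → K | ∀ a, {x | a < f x} ∈ U}`; the identity is in `S` (`meas_tail`). Let `f` be a `≺`-minimal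
element of `S` and `W := U.map f` (`A ∈ W ↔ f ⁻¹' A ∈ U`).
`tail`: `f ∈ S`. `comp`: `hcomp`. `norm`: let `A a ∈ W` for all `a` and suppose
`{d | ∀ a < d, d ∈ A a} ∉ W`. Then `{x | ∃ a < f x, f x ∉ A a} ∈ U`; choose `g x < f x` with `f x ∉ A (g x)`
for these `x` (`g x := f x` elsewhere). `g ≺ f`, so `g ∉ S`: there is `a0` with `{x | g x ≤ a0} ∈ U`. The set
`Iic a0` has fewer than `#K` elements, so by `hcomp` (complements: if no `{x | g x = a} ∈ U`, `a ≤ a0`, then the
intersection of their complements is in `U`) there is `a1` with `{x | g x = a1} ∈ U`. Then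
`{x | f x ∉ A a1} ∈ U`, but `{x | f x ∈ A a1} ∈ U`: contradiction. -/

set_option autoImplicit false

namespace Pool.Agent.LibMA62

open Cardinal Set Pool.Agent.LibTk83

variable {K : Type} [LinearOrder K] [WellFoundedLT K]

theorem exists_normal {U : Ultrafilter K} (hns : ∀ a, ({a} : Set K) ∉ U)
    (hcomp : ∀ (I : Type) (A : I → Set K), #I < #K → (∀ i, A i ∈ U) → {d | ∀ i, d ∈ A i} ∈ U)
    (hinf : ℵ₀ < #K) (hini : ∀ a : K, #(Iio a) < #K) : ∃ W : Ultrafilter K, NormalU W := by
  classical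
  -- the relation on functions
  have hwf : WellFounded (fun f g : K → K => {x | f x < g x} ∈ U) := by
    rw [wellFounded_iff_isEmpty_descending_chain]
    refine ⟨fun ⟨f, hf⟩ => ?_⟩
    have h1 : {x | ∀ n : ℕ, x ∈ {x | f (n + 1) x < f n x}} ∈ U :=
      hcomp ℕ (fun n => {x | f (n + 1) x < f n x}) (by rw [Cardinal.mk_nat]; exact hinf)
        (fun n => hf n)
    obtain ⟨x, hx⟩ := U.nonempty_of_mem h1
    exact (wellFounded_iff_isEmpty_descending_chain.1
      (wellFounded_lt : WellFounded ((· < ·) : K → K → Prop))).elim ⟨fun n => f n x, hx⟩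
  obtain ⟨f, hfS, hmin⟩ := hwf.has_min {f : K → K | ∀ a, {x | a < f x} ∈ U}
    ⟨id, fun a => meas_tail hns hcomp hinf hini a⟩
  have hIic : ∀ a : K, #(Iic a) < #K := by
    intro a
    have h1 : #(Iic a) ≤ #(Iio a) + 1 := by
      have h2 : (Iic a : Set K) = insert a (Iio a) := by
        ext x
        simp only [mem_Iic, mem_insert_iff, mem_Iio]
        exact le_iff_eq_or_lt
      rw [h2]
      exact Cardinal.mk_insert_le
    exact h1.trans_lt (Cardinal.add_lt_of_lt hinf.le (hini a) (one_lt_aleph0.trans hinf))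
  refine ⟨U.map f, ?_, ?_, ?_⟩
  · intro a
    exact hfS a
  · intro I A hI hA
    exact hcomp I (fun i => f ⁻¹' A i) hI (fun i => hA i)
  · intro A hA
    by_contra hn
    have hbad : {x | ∃ a, a < f x ∧ f x ∉ A a} ∈ U := by
      have h1 : (f ⁻¹' {d | ∀ a < d, d ∈ A a})ᶜ ∈ U := by
        rw [Ultrafilter.compl_mem_iff_notMem]
        exact hn
      refine Filter.mem_of_superset h1 ?_
      intro x hx
      by_contra hx'
      apply hx
      intro a ha
      by_contra hxa
      exact hx' ⟨a, ha, hxa⟩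
    let g : K → K := fun x => if h : ∃ a, a < f x ∧ f x ∉ A a then h.choose else f x
    have hg : ∀ x, (∃ a, a < f x ∧ f x ∉ A a) → g x < f x ∧ f x ∉ A (g x) := by
      intro x hx
      have : g x = hx.choose := dif_pos hx
      rw [this]
      exact hx.choose_spec
    have hgf : {x | g x < f x} ∈ U :=
      Filter.mem_of_superset hbad fun x hx => (hg x hx).1
    have hgS : ¬ ∀ a, {x | a < g x} ∈ U := fun h => hmin g h hgf
    push Not at hgS
    obtain ⟨a0, ha0⟩ := hgS
    have ha0' : {x | g x ≤ a0} ∈ U := by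
      have h1 : {x | a0 < g x}ᶜ ∈ U := by
        rw [Ultrafilter.compl_mem_iff_notMem]
        exact ha0
      exact Filter.mem_of_superset h1 fun x hx => not_lt.1 hx
    obtain ⟨a1, ha1⟩ : ∃ a1, {x | g x = a1} ∈ U := by
      by_contra hne
      push Not at hne
      have h1 : {x | ∀ i : Iic a0, x ∈ {x | g x = (i : K)}ᶜ} ∈ U :=
        hcomp (Iic a0) (fun i => {x | g x = (i : K)}ᶜ) (hIic a0) (fun i => by
          rw [Ultrafilter.compl_mem_iff_notMem]
          exact hne i)
      obtain ⟨x, hx1, hx2⟩ := U.nonempty_of_mem (Filter.inter_mem ha0' h1)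
      exact hx2 ⟨g x, hx1⟩ rfl
    have h2 : f ⁻¹' A a1 ∈ U := hA a1
    obtain ⟨x, ⟨hx1, hx2⟩, hx3⟩ :=
      U.nonempty_of_mem (Filter.inter_mem (Filter.inter_mem ha1 hbad) h2)
    have h3 := (hg x hx2).2
    have hx1' : g x = a1 := hx1
    rw [hx1'] at h3
    exact h3 hx3

end Pool.Agent.LibMA62
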