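import Pool.Agent.LibMA62.D3

/-! Row P4: `K` does not inject into `Th`.

Suppose `x0 ∈ ⨅ x, ⨆ y, e x y` (`RO.ne_bot_iff`, `RO.mem_iInf`, `RO.mem_iSup`). For each `x : K` choose `u x ≤ x0` and `y x : Th` with
`u x ∈ e x (y x)`. Since `#Th < #K` and `K` is regular (`hK.reg`: if all fibres of `y` had fewer than `#K` elements, each would
have a strict upper bound `β z`, and the set of the `β z`, `z : Th`, would have a strict upper bound `b`; but `b` is in the
fibre of `y b`), there is `z : Th` whose fibre `J := {x // y x = z}` has `#J = #K`. By `cc` (`D := univ`) there are `x ≠ x'` in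
`J` and a common extension of `u x`, `u x'`; it is in `e x z ⊓ e x' z = ⊥`: contradiction. -/

set_option autoImplicit false

namespace Pool.Agent.LibMA62

open Cardinal Set Pool.Agent.LibTk83

theorem noinj2_Mt {K X : Type} [LinearOrder K] [WellFoundedLT K] {κ : Cardinal.{0}}
    (hκ : ℵ₀ ≤ κ) (hK : InacD κ X (univ : Set K)) {Th : Type} (hTh : #Th < #K)
    (e : K → Th → RO (Mt K X κ)) (he : ∀ x x' y, x ≠ x' → e x y ⊓ e x' y = ⊥) :
    (⨅ x, ⨆ y, e x y) = ⊥ := by
  by_contra hne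
  obtain ⟨x0, hx0⟩ := RO.ne_bot_iff.1 hne
  rw [RO.mem_iInf] at hx0
  have h1 : ∀ x, ∃ u, u ≤ x0 ∧ ∃ y, u ∈ e x y := fun x => RO.mem_iSup.1 (hx0 x) x0 le_rfl
  choose u hu y hy using h1
  have hpig : ∃ z, #K ≤ #{x // y x = z} := by
    by_contra hcon
    push Not at hcon
    have h2 : ∀ z, ∃ b : K, ∀ a, y a = z → a < b := by
      intro z
      obtain ⟨b, -, hb⟩ := hK.reg {x | y x = z} (subset_univ _) (by
        rw [Cardinal.mk_univ]
        exact hcon z)
      exact ⟨b, fun a ha => hb a ha⟩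
    choose β hβ using h2
    obtain ⟨b, -, hb⟩ := hK.reg (range β) (subset_univ _) (by
      rw [Cardinal.mk_univ]
      exact Cardinal.mk_range_le.trans_lt hTh)
    exact lt_asymm (hβ (y b) b rfl) (hb _ (mem_range_self _))
  obtain ⟨z, hz⟩ := hpig
  obtain ⟨i, j, hij, w, -, hwi, hwj⟩ := cc hκ hK {x // y x = z} (by
    rw [Cardinal.mk_univ]
    exact hz) (fun j => u j.1) (fun j => ⟨fun _ _ _ => mem_univ _, fun _ _ _ => mem_univ _⟩)
  have hne' : i.1 ≠ j.1 := fun h => hij (Subtype.ext h)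
  have h3 : w ∈ e i.1 z ⊓ e j.1 z := by
    rw [RO.mem_inf]
    refine ⟨RO.mem_of_le hwi ?_, RO.mem_of_le hwj ?_⟩
    · have := hy i.1
      rwa [i.2] at this
    · have := hy j.1
      rwa [j.2] at this
  rw [he i.1 j.1 z hne'] at h3
  exact RO.not_mem_bot h3

end Pool.Agent.LibMA62
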