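import Pool.Agent.LibMA62.E6
import Pool.Agent.LibMA62.A5

/-! Row P5: the elements below `a` are injected into `Th` by the generic function at `a`.

In `RO (Mt K (Th × ℕ) κ)` let
`F y n := RO.gen {x | ∃ b, x.r.q a (y, n) = some b ∧ x.p ∈ b}` (the bit number `n` in the block `y` of the generic
function at `a` is `1`), `Ro i n := RO.gen {x | x.p.f i n = some true}` (the bit number `n` of the Cohen real `i` is `1`),
`cod y i := ⨅ n, (F y n ⇨ Ro i n) ⊓ (Ro i n ⇨ F y n)`, and for `i < a`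
`e i y := cod y i ⊓ ⨅ y' < y, (cod y' i)ᶜ` (`e i y := ⊥` for `¬ i < a`).
(1) `e i y ⊓ e i y' = ⊥` for `y < y'` is clear (and symmetric).
(2) `cod y i ⊓ cod y i' = ⊥` for `i ≠ i'`: let `x` be in both. There is `n` with `x.p.f i n = none`,
`x.p.f i' n = none` (`x.p.fin`). Let `x' ≤ x` be `x` with `(i, n) ↦ true`, `(i', n) ↦ false` added to `x.p`. Then
`x' ∈ Ro i n`, so `x' ∈ F y n`, so `x' ∈ Ro i' n` (`RO.mem_himp`), but no extension of `x'` has the value `true` at
`(i', n)`: contradiction.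
(3) `⨆ y, cod y i = ⊤` for `i < a` (`RO.eq_top_iff'`): let `x` be a condition. Since
`#{z | x.r.q z.1 z.2 ≠ none} ≤ κ < #Th` there is `y : Th` with `x.r.q a (y, n) = none` for all `n`. Let `x' := ⟨x.p, r'⟩` where
`r'` extends `x.r` by `r'.q a (y, n) := some (β n)`, `β n := RO.of (the condition with the only value (i, n) ↦ true)`
(`Sup.of`, since `i < a`; countably many new arguments, `ℵ₀ ≤ κ`). Then `x' ≤ x` and `x' ∈ cod y i`: for `q ≤ x'` there is `b'` with
`q.r.q a (y, n) = some b'` and `s ∈ b' ↔ s ∈ β n` for all `s ≤ q.p`. `q ∈ F y n` iff `q.p ∈ β n` (density, `RO.mem_gen`;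
use the agreement for the extensions of `q`) iff `q.p.f i n = some true` (`RO.mem_of`: every extension of `q.p` is compatible with
the value `true`) iff `q ∈ Ro i n`.
(4) `⨆ y, e i y = ⊤`: for each `x` the set of `y` such that some `x' ≤ x` is in `cod y i` is nonempty; let `y` be its least
element (`WellFoundedLT Th`) and `x' ≤ x` with `x' ∈ cod y i`; then `x' ∈ (cod y' i)ᶜ` for `y' < y`. -/

set_option autoImplicit false

namespace Pool.Agent.LibMA62

open Cardinal Set Pool.Agent.LibTk83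

section

variable {K Th : Type} [LinearOrder K] [LinearOrder Th] {κ : Cardinal.{0}}

private def FF (κ : Cardinal.{0}) (a : K) (y : Th) (n : ℕ) : RO (Mt K (Th × ℕ) κ) :=
  RO.gen {x | ∃ b, x.r.q a (y, n) = some b ∧ x.p ∈ b}

private def Ro (Th : Type) (κ : Cardinal.{0}) (i : K) (n : ℕ) : RO (Mt K (Th × ℕ) κ) :=
  RO.gen {x | x.p.f i n = some true}

private noncomputable def cod (κ : Cardinal.{0}) (a : K) (y : Th) (i : K) :
    RO (Mt K (Th × ℕ) κ) :=
  ⨅ n, (FF κ a y n ⇨ Ro Th κ i n) ⊓ (Ro Th κ i n ⇨ FF κ a y n)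

private theorem mem_FF {a : K} {y : Th} {n : ℕ} {x : Mt K (Th × ℕ) κ} :
    x ∈ FF κ a y n ↔ ∀ q, q ≤ x → ∃ r, r ≤ q ∧ ∃ b, r.r.q a (y, n) = some b ∧ r.p ∈ b := by
  unfold FF
  rw [RO.mem_gen]
  constructor
  · intro h q hq
    obtain ⟨r, hr, s, ⟨b, hb, hsb⟩, hrs⟩ := h q hq
    refine ⟨r, hr, ?_⟩
    obtain ⟨hp, h2⟩ := Mt.le_def.1 hrs
    obtain ⟨b', hb', h3⟩ := h2 a (y, n) b hb
    exact ⟨b', hb', (h3 r.p le_rfl).2 (RO.mem_of_le hp hsb)⟩
  · intro h q hq
    obtain ⟨r, hr, hb⟩ := h q hq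
    exact ⟨r, hr, r, hb, le_rfl⟩

private theorem mem_Ro {i : K} {n : ℕ} {x : Mt K (Th × ℕ) κ} :
    x ∈ Ro Th κ i n ↔ ∀ q, q ≤ x → ∃ r, r ≤ q ∧ r.p.f i n = some true := by
  unfold Ro
  rw [RO.mem_gen]
  constructor
  · intro h q hq
    obtain ⟨r, hr, s, hs, hrs⟩ := h q hq
    exact ⟨r, hr, (Mt.le_def.1 hrs).1 i n true hs⟩
  · intro h q hq
    obtain ⟨r, hr, hb⟩ := h q hq
    exact ⟨r, hr, r, hb, le_rfl⟩

private theorem mem_cod {a : K} {y : Th} {i : K} {x : Mt K (Th × ℕ) κ} :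
    x ∈ cod κ a y i ↔ ∀ n, ∀ q, q ≤ x → (q ∈ FF κ a y n ↔ q ∈ Ro Th κ i n) := by
  unfold cod
  rw [RO.mem_iInf]
  refine forall_congr' fun n => ?_
  rw [RO.mem_inf, RO.mem_himp, RO.mem_himp]
  exact ⟨fun h q hq => ⟨h.1 q hq, h.2 q hq⟩, fun h => ⟨fun q hq => (h q hq).1, fun q hq => (h q hq).2⟩⟩

private theorem cod_disj {a : K} {y : Th} {i i' : K} (hi : i ≠ i') :
    cod κ a y i ⊓ cod κ a y i' = ⊥ := by
  classical
  by_contra hne
  obtain ⟨x, hx⟩ := RO.ne_bot_iff.1 hne
  rw [RO.mem_inf, mem_cod, mem_cod] at hx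
  obtain ⟨h1, h2⟩ := hx
  obtain ⟨n, hn⟩ : ∃ n, x.p.f i n = none ∧ x.p.f i' n = none := by
    have hfin : ((fun z : K × ℕ => z.2) '' {z : K × ℕ | x.p.f z.1 z.2 ≠ none}).Finite :=
      x.p.fin.image _
    obtain ⟨n, hn⟩ := hfin.exists_notMem
    refine ⟨n, ?_, ?_⟩
    · by_contra h
      exact hn ⟨(i, n), h, rfl⟩
    · by_contra h
      exact hn ⟨(i', n), h, rfl⟩
  let p' : Coh K :=
    { f := fun j m => if j = i ∧ m = n then some true else
        if j = i' ∧ m = n then some false else x.p.f j m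
      fin := by
        refine (x.p.fin.union (Set.toFinite {(i, n), (i', n)})).subset ?_
        rintro ⟨j, m⟩ hz
        simp only [mem_ofPred_eq] at hz
        by_cases hA : j = i ∧ m = n
        · right
          rw [hA.1, hA.2]
          simp
        · by_cases hB : j = i' ∧ m = n
          · right
            rw [hB.1, hB.2]
            simp
          · left
            rw [if_neg hA, if_neg hB] at hz
            exact hz }
  have hp' : p' ≤ x.p := by
    intro j m b hb
    show (if j = i ∧ m = n then some true else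
        if j = i' ∧ m = n then some false else x.p.f j m) = some b
    rw [if_neg, if_neg]
    · exact hb
    · rintro ⟨rfl, rfl⟩
      rw [hn.2] at hb
      cases hb
    · rintro ⟨rfl, rfl⟩
      rw [hn.1] at hb
      cases hb
  have hx' : (⟨p', x.r⟩ : Mt K (Th × ℕ) κ) ≤ x :=
    Mt.le_def.2 ⟨hp', fun c z b hb => ⟨b, hb, fun _ _ => Iff.rfl⟩⟩
  have h3 : (⟨p', x.r⟩ : Mt K (Th × ℕ) κ) ∈ Ro Th κ i n := by
    rw [mem_Ro]
    intro q hq
    refine ⟨q, le_rfl, (Mt.le_def.1 hq).1 i n true ?_⟩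
    show (if i = i ∧ n = n then some true else _) = some true
    rw [if_pos ⟨rfl, rfl⟩]
  have h4 := (h1 n _ hx').2 h3
  have h5 := (h2 n _ hx').1 h4
  rw [mem_Ro] at h5
  obtain ⟨r, hr, hr'⟩ := h5 _ le_rfl
  have h6 : r.p.f i' n = some false := by
    refine (Mt.le_def.1 hr).1 i' n false ?_
    show (if i' = i ∧ n = n then some true else
        if i' = i' ∧ n = n then some false else x.p.f i' n) = some false
    rw [if_neg (fun h => hi h.1.symm), if_pos ⟨rfl, rfl⟩]
  rw [hr'] at h6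
  cases h6

private theorem cod_dense (hκ : ℵ₀ ≤ κ) (hTh : κ < #Th) {a i : K} (hi : i < a)
    (x : Mt K (Th × ℕ) κ) : ∃ y, ∃ x', x' ≤ x ∧ x' ∈ cod κ a y i := by
  classical
  obtain ⟨y, hy⟩ : ∃ y : Th, ∀ n, x.r.q a (y, n) = none := by
    by_contra hcon
    push Not at hcon
    choose n hn using hcon
    have h1 : #Th ≤ #{z : K × (Th × ℕ) | x.r.q z.1 z.2 ≠ none} := by
      refine Cardinal.mk_le_of_injective
        (f := fun y => (⟨(a, (y, n y)), hn y⟩ : {z : K × (Th × ℕ) | x.r.q z.1 z.2 ≠ none})) ?_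
      intro y y' h
      have := congrArg (fun w => w.1.2.1) h
      exact this
    exact absurd (h1.trans x.r.small) (not_le.2 hTh)
  let one : ℕ → Coh K := fun n =>
    { f := fun j m => if j = i ∧ m = n then some true else none
      fin := by
        refine (Set.toFinite {(i, n)}).subset ?_
        rintro ⟨j, m⟩ hz
        simp only [mem_ofPred_eq] at hz
        by_cases hA : j = i ∧ m = n
        · rw [hA.1, hA.2]
          rfl
        · rw [if_neg hA] at hz
          exact absurd rfl hz }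
  have hone : ∀ n, (one n).f i n = some true := by
    intro n
    show (if i = i ∧ n = n then some true else none) = some true
    rw [if_pos ⟨rfl, rfl⟩]
  have hone_le : ∀ n (p : Coh K), p.f i n = some true → p ≤ one n := by
    intro n p hp j m b hb
    have hb' : (if j = i ∧ m = n then some true else none) = some b := hb
    by_cases hA : j = i ∧ m = n
    · rw [if_pos hA] at hb'
      rw [hA.1, hA.2, hp]
      exact hb'
    · rw [if_neg hA] at hb'
      cases hb'
  have hlo : ∀ n, (one n).lo a = one n := by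
    intro n
    refine Coh.ext' fun j m => ?_
    rcases lt_or_ge j a with hj | hj
    · exact Coh.lo_of_lt hj _ _
    · rw [Coh.lo_of_le hj]
      show none = (if j = i ∧ m = n then some true else none)
      rw [if_neg]
      rintro ⟨rfl, -⟩
      exact absurd hi (not_lt.2 hj)
  let r' : Rq K (Th × ℕ) κ :=
    { q := fun c z => if c = a ∧ z.1 = y then some (RO.of (one z.2)) else x.r.q c z
      small := by
        refine (Cardinal.mk_le_mk_of_subset (fun z hz => ?_ :
          {z : K × (Th × ℕ) | (if z.1 = a ∧ z.2.1 = y then some (RO.of (one z.2.2)) else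
            x.r.q z.1 z.2) ≠ none} ⊆
            {z : K × (Th × ℕ) | x.r.q z.1 z.2 ≠ none} ∪ range (fun n : ℕ => (a, (y, n))))).trans ?_
        · simp only [mem_ofPred_eq, mem_union] at hz ⊢
          by_cases hA : z.1 = a ∧ z.2.1 = y
          · right
            exact ⟨z.2.2, by rw [← hA.1, ← hA.2]⟩
          · left
            rw [if_neg hA] at hz
            exact hz
        · refine (Cardinal.mk_union_le _ _).trans ?_
          refine (add_le_add x.r.small ((Cardinal.mk_range_le.trans_eq Cardinal.mk_nat).trans hκ)).trans_eq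
            (Cardinal.add_eq_self hκ)
      sup := by
        intro c z b h
        by_cases hA : c = a ∧ z.1 = y
        · rw [if_pos hA] at h
          obtain rfl := Option.some.inj h
          rw [hA.1]
          exact Sup.of (hlo z.2)
        · rw [if_neg hA] at h
          exact x.r.sup c z b h }
  have hr'y : ∀ n, r'.q a (y, n) = some (RO.of (one n)) := by
    intro n
    show (if a = a ∧ y = y then some (RO.of (one n)) else _) = _
    rw [if_pos ⟨rfl, rfl⟩]
  refine ⟨y, ⟨x.p, r'⟩, Mt.le_def.2 ⟨le_rfl, fun c z b hb => ⟨b, ?_, fun _ _ => Iff.rfl⟩⟩, ?_⟩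
  · show (if c = a ∧ z.1 = y then some (RO.of (one z.2)) else x.r.q c z) = some b
    rw [if_neg]
    · exact hb
    · rintro ⟨hc, hz⟩
      have := hy z.2
      rw [← hc, ← hz] at this
      rw [show (z.1, z.2) = z from rfl] at this
      rw [this] at hb
      cases hb
  · rw [mem_cod]
    intro n q hq
    rw [mem_FF, mem_Ro]
    constructor
    · intro h t ht
      obtain ⟨r, hr, b, hb, hrb⟩ := h t ht
      obtain ⟨b', hb', h3⟩ := (Mt.le_def.1 ((hr.trans ht).trans hq)).2 a (y, n) _ (hr'y n)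
      rw [hb] at hb'
      obtain rfl := Option.some.inj hb'
      have h4 := (h3 r.p le_rfl).1 hrb
      rw [RO.mem_of] at h4
      obtain ⟨s, hs, hs1⟩ := h4 r.p le_rfl
      refine ⟨⟨s, r.r⟩, ?_, hs1 i n true (hone n)⟩
      refine le_trans (Mt.le_def.2 ⟨hs, fun c z b hb => ⟨b, hb, fun _ _ => Iff.rfl⟩⟩) hr
    · intro h t ht
      obtain ⟨r, hr, hrt⟩ := h t ht
      obtain ⟨b', hb', h3⟩ := (Mt.le_def.1 ((hr.trans ht).trans hq)).2 a (y, n) _ (hr'y n)
      refine ⟨r, hr, b', hb', (h3 r.p le_rfl).2 ?_⟩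
      exact RO.mem_of_le (hone_le n r.p hrt) (RO.self_mem_of _)

end

theorem col_Mt {K Th : Type} [LinearOrder K] [LinearOrder Th] [WellFoundedLT Th]
    {κ : Cardinal.{0}} (hκ : ℵ₀ ≤ κ) (hTh : κ < #Th) (a : K) :
    ∃ e : K → Th → RO (Mt K (Th × ℕ) κ), (∀ i, i < a → (⨆ y, e i y) = ⊤) ∧
      (∀ i y y', y ≠ y' → e i y ⊓ e i y' = ⊥) ∧ ∀ i i' y, i ≠ i' → e i y ⊓ e i' y = ⊥ := by
  classical
  let e : K → Th → RO (Mt K (Th × ℕ) κ) := fun i y =>
    if i < a then cod κ a y i ⊓ ⨅ y', ⨅ (_ : y' < y), (cod κ a y' i)ᶜ else ⊥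
  have he1 : ∀ i y, e i y ≤ cod κ a y i := by
    intro i y
    show (if i < a then cod κ a y i ⊓ ⨅ y', ⨅ (_ : y' < y), (cod κ a y' i)ᶜ else ⊥) ≤ _
    split_ifs with h
    · exact inf_le_left
    · exact bot_le
  have he2 : ∀ i y y', y' < y → e i y ≤ (cod κ a y' i)ᶜ := by
    intro i y y' hy
    show (if i < a then cod κ a y i ⊓ ⨅ y', ⨅ (_ : y' < y), (cod κ a y' i)ᶜ else ⊥) ≤ _
    split_ifs with h
    · exact inf_le_right.trans (iInf₂_le y' hy)
    · exact bot_le
  have he3 : ∀ i y y', y' < y → e i y' ⊓ e i y = ⊥ := by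
    intro i y y' hy
    rw [← le_bot_iff]
    exact (inf_le_inf (he1 i y') (he2 i y y' hy)).trans (by rw [inf_compl_self])
  refine ⟨e, ?_, ?_, ?_⟩
  · intro i hi
    rw [RO.eq_top_iff']
    intro x
    have hne : {y | ∃ x', x' ≤ x ∧ x' ∈ cod κ a y i}.Nonempty := cod_dense hκ hTh hi x
    obtain ⟨x', hx', hxc⟩ : ∃ x', x' ≤ x ∧ x' ∈ cod κ a (wellFounded_lt.min _ hne) i :=
      wellFounded_lt.min_mem _ hne
    refine ⟨x', hx', ?_⟩
    refine (le_iSup (fun y => e i y) (wellFounded_lt.min _ hne)) ?_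
    show x' ∈ (if i < a then cod κ a (wellFounded_lt.min _ hne) i ⊓
      ⨅ y', ⨅ (_ : y' < wellFounded_lt.min _ hne), (cod κ a y' i)ᶜ else ⊥)
    rw [if_pos hi, RO.mem_inf]
    refine ⟨hxc, ?_⟩
    rw [RO.mem_iInf]
    intro y'
    rw [RO.mem_iInf]
    intro hy'
    rw [RO.mem_compl]
    intro q hq hqc
    exact wellFounded_lt.not_lt_min {y | ∃ x', x' ≤ x ∧ x' ∈ cod κ a y i}
      (x := y') ⟨q, hq.trans hx', hqc⟩ hy'
  · intro i y y' hy
    rcases lt_or_gt_of_ne hy with h | h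
    · exact he3 i y' y h
    · rw [inf_comm]
      exact he3 i y y' h
  · intro i i' y hi
    rw [← le_bot_iff]
    exact (inf_le_inf (he1 i y) (he1 i' y)).trans (by rw [cod_disj hi])

end Pool.Agent.LibMA62
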