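import Pool.Agent.LibMA62.P3
import Pool.Agent.LibMA62.P4
import Pool.Agent.LibMA62.P5
import Pool.Agent.LibMA62.F5

/-! The algebra has the properties `MM`. -/

set_option autoImplicit false

namespace Pool.Agent.LibMA62

open Cardinal Set Pool.Agent.LibTk83

theorem tp_RO {K X : Type} [LinearOrder K] [WellFoundedLT K] {κ : Cardinal.{0}}
    {U : Ultrafilter K} {Th : Type} (hκ : ℵ₀ ≤ κ) (hU : NormalU U)
    (hK : InacD κ X (univ : Set K)) (hTh : #Th < #K) (c : RO (Mt K X κ))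
    (nd : K → Th → RO (Mt K X κ)) (lt : K → Th → K → Th → RO (Mt K X κ)) (hc : c ≠ ⊥)
    (h1 : ∀ a b w, a < b → c ⊓ nd b w ≤ ⨆ z, lt a z b w)
    (h2 : ∀ a b z z' w, a < b → z ≠ z' → c ⊓ (lt a z b w ⊓ lt a z' b w) = ⊥)
    (h3 : ∀ a a' b z z' w, a < a' → a' < b → c ⊓ (lt a z b w ⊓ lt a' z' b w) ≤ lt a z a' z')
    (h4 : ∀ b, c ≤ ⨆ w, nd b w) :
    ∃ z0, z0 ≤ c ∧ z0 ≠ ⊥ ∧ ∃ br : K → Th → RO (Mt K X κ), (∀ a, z0 ≤ ⨆ z, br a z) ∧
      ∀ a b z z', a < b → br a z ⊓ br b z' ≤ lt a z b z' := by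
  obtain ⟨x0, hx0⟩ := RO.ne_bot_iff.1 hc
  let T : TD K X κ Th x0 :=
    { nd := nd
      lt := lt
      pred := by
        intro x hx a b w hab hxn
        have := h1 a b w hab (RO.mem_inf.2 ⟨RO.mem_of_le hx hx0, hxn⟩)
        obtain ⟨y, hy, z, hz⟩ := RO.mem_iSup.1 this x le_rfl
        exact ⟨y, hy, z, hz⟩
      uniq := by
        intro x hx a b z z' w hab hz hz'
        by_contra hne
        have h := h2 a b z z' w hab hne
        apply RO.not_mem_bot (p := x)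
        rw [← h]
        exact RO.mem_inf.2 ⟨RO.mem_of_le hx hx0, RO.mem_inf.2 ⟨hz, hz'⟩⟩
      coh := by
        intro x hx a a' b z z' w haa hab hz hz'
        exact h3 a a' b z z' w haa hab
          (RO.mem_inf.2 ⟨RO.mem_of_le hx hx0, RO.mem_inf.2 ⟨hz, hz'⟩⟩)
      ne := by
        intro x hx b
        obtain ⟨y, hy, w, hw⟩ := RO.mem_iSup.1 (h4 b (RO.mem_of_le hx hx0)) x le_rfl
        exact ⟨y, hy, w, hw⟩ }
  obtain ⟨z0, hz0, br, hb1, hb2⟩ := tp_branch hκ hU hK hTh T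
  refine ⟨RO.of z0, ?_, RO.of_ne_bot z0, br, ?_, hb2⟩
  · exact RO.of_le_iff.2 (RO.mem_of_le hz0 hx0)
  · intro a
    exact RO.of_le_iff.2 (hb1 a)

theorem MM_Mt {K Th : Type} [LinearOrder K] [WellFoundedLT K] [LinearOrder Th]
    [WellFoundedLT Th] {κ : Cardinal.{0}} {U : Ultrafilter K} (hκ : ℵ₀ ≤ κ) (hU : NormalU U)
    (hK : InacD κ (Th × ℕ) (univ : Set K)) (hTh : #Th < #K) (hTh' : κ < #Th) :
    MM (RO (Mt K (Th × ℕ) κ)) κ Th K where
  cover := fun J V e hJ he => cover_Mt hκ J V e hJ he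
  branch := fun ν T _ ht A hν hreg h1 Y e hY hf hi hch =>
    branch_Mt hκ ν T ht A hν hreg h1 Y e hY hf hi hch
  noinj2 := fun e he => noinj2_Mt hκ hK hTh e he
  col := fun a => col_Mt hκ hTh' a
  tp := fun c nd lt hc h1 h2 h3 h4 => tp_RO hκ hU hK hTh c nd lt hc h1 h2 h3 h4

end Pool.Agent.LibMA62
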