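import Pool.Agent.LibMA62.V2
import Pool.Agent.LibMA62.MDef
import Pool.Agent.LibTk83.V2

/-! Row V4: `κ` is singular of uncountable cofinality.

`isSing_ck`: take `chk a` (`mem_chk_ck`) and the name `relN (fun j : {j // j < a} => chk j.1) chk
(fun j k => if f j = k then ⊤ else ⊥)` (or `relV` of the relation `j < a ∧ f j = k`); `all_ck`, `all_chk`, `ex_chk`,
`ex_ck`, `mem_chk_of_lt`.
`isOmega_le`: `isOmega w ⊓ isOmega w' ≤ eq w w'` (each is the least inductive set: `isOmega w ≤ isInd w` and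
`isOmega w' ≤ isInd w ⇨ sub w' w`; `le_eq_of_forall` (`LibPlas90/BBasic.lean`)), with `isOmega_ck`.
`notCofOmega_ck`: `isCofOmega k = ⨆ w, isOmega w ⊓ ⨆ f, isMap f w k ⊓ all k b ∃ n ∈ w ∃ c ∈ k, rel f n c ⊓ mem b c`. By
`isOmega_le` replace `w` by `ck B ℕ` (`Ext_isMap_2`, `Ext_ex_left`: the formula respects equality in `w`). For a name `f` let
`v := isMap f (ck B ℕ) (ck B J) ⊓ all (ck B J) fun b => ex (ck B ℕ) fun n => ex (ck B J) fun c => rel f n c ⊓ mem b c`,
`e n c := v ⊓ rel f (chk n) (chk c)` (`n : ℕ`, `c : J`): `e n c ⊓ e n c' = ⊥` for `c ≠ c'` (functionality, `eq_chk`). By `M.cover ℕ J e`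
it suffices that `v ⊓ ⨅ n, ⨅ c ∉ S n, (e n c)ᶜ = ⊥` for each countable-valued `S : ℕ → Set J`. The union of the `S n` is
countable; by `hcof` it has a strict upper bound `b`. The formula for `chk b` gives
`v ≤ ⨆ n, ⨆ c, rel f (chk n) (chk c) ⊓ mem (chk b) (chk c)`, where `mem (chk b) (chk c) = ⊥` unless `b < c`
(`mem_chk_chk`), and then `c ∉ S n`. -/

set_option autoImplicit false

namespace Pool.Agent.LibMA62

open Cardinal Set Pool.Agent.LibPlas90 Pool.Agent.LibPlas90.BSet Pool.Agent.LibTk83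
  Pool.Agent.LibDm83

variable {B : Type} [CompleteBooleanAlgebra B] {κ : Cardinal.{0}} {Th K J : Type}
  [LinearOrder Th] [WellFoundedLT Th] [LinearOrder K] [WellFoundedLT K] [LinearOrder J]
  [WellFoundedLT J]

private theorem V4_all_le {φ : BSet B → B} (j : J) : all (ck B J) φ ≤ φ (chk j) := by
  unfold all
  refine (iInf_le _ (chk j)).trans ?_
  rw [mem_chk_ck, top_himp]

private theorem V4_le_all_ck {φ : BSet B → B} (h : Ext φ) {c : B}
    (H : ∀ j : J, c ≤ φ (chk j)) : c ≤ all (ck B J) φ := by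
  rw [all_ck h]
  exact le_iInf H

private theorem V4_rel (a : J) (f : {j // j < a} → J) (j : {j // j < a}) (k : J) [Decidable (f j = k)]
    [∀ (i : {j // j < a}) (k : J), Decidable (f i = k)] :
    rel (relN (fun j : {j // j < a} => (chk j.1 : BSet B)) chk (fun j k => if f j = k then ⊤ else ⊥)) (chk j.1)
      (chk k) = if f j = k then ⊤ else ⊥ := by
  rw [rel_relN]
  apply le_antisymm
  · refine iSup_le fun i => iSup_le fun k' => ?_
    by_cases hi : j.1 = i.1
    · by_cases hk : k = k'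
      · have hi' : j = i := Subtype.ext hi
        subst hi'
        subst hk
        refine inf_le_left.trans ?_
        split_ifs <;> simp
      · rw [eq_chk hk, inf_bot_eq, inf_bot_eq]
        exact bot_le
    · rw [eq_chk hi, bot_inf_eq, inf_bot_eq]
      exact bot_le
  · refine le_iSup_of_le j (le_iSup_of_le k ?_)
    rw [BSet.eq_refl, BSet.eq_refl, inf_top_eq, inf_top_eq]

theorem isSing_ck (a : J) (f : {j // j < a} → J) (hf : ∀ b, ∃ j, b < f j) :
    isSing (ck B J) = ⊤ := by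
  classical
  refine top_le_iff.1 ?_
  unfold isSing
  refine le_trans ?_ (le_iSup _ (chk a))
  rw [mem_chk_ck, top_inf_eq]
  refine le_trans ?_ (le_iSup _ (relN (fun j : {j // j < a} => (chk j.1 : BSet B)) chk
    (fun j k => if f j = k then ⊤ else ⊥)))
  refine le_inf ?_ ?_
  · unfold isMap
    refine le_inf ?_ ?_
    · rw [all_chk (Ext.ex fun y => Ext.rel1 _ y)]
      refine le_iInf₂ fun j hj => ?_
      rw [ex_ck (Ext.rel2 _ _)]
      refine le_iSup_of_le (f ⟨j, hj⟩) ?_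
      have := V4_rel (B := B) a f ⟨j, hj⟩ (f ⟨j, hj⟩)
      rw [if_pos rfl] at this
      exact this.ge
    · rw [all_chk (Ext.all fun y => Ext.all fun y' =>
        Ext.himp (Ext.inf (Ext.rel1 _ y) (Ext.rel1 _ y')) (Ext.const _))]
      refine le_iInf₂ fun j hj => ?_
      refine V4_le_all_ck (Ext.all fun y' => Ext.himp (Ext.inf (Ext.rel2 _ _) (Ext.const _))
        (Ext.eq_left y')) fun k => ?_
      refine V4_le_all_ck (Ext.himp (Ext.inf (Ext.const _) (Ext.rel2 _ _))
        (Ext.eq_right _)) fun k' => ?_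
      rw [le_himp_iff, top_inf_eq]
      have h1 := V4_rel (B := B) a f ⟨j, hj⟩ k
      have h2 := V4_rel (B := B) a f ⟨j, hj⟩ k'
      refine le_trans (inf_le_inf h1.le h2.le) ?_
      by_cases hk : f ⟨j, hj⟩ = k
      · by_cases hk' : f ⟨j, hj⟩ = k'
        · rw [← hk, ← hk', BSet.eq_refl]
          exact le_top
        · rw [if_neg hk', inf_bot_eq]
          exact bot_le
      · rw [if_neg hk, bot_inf_eq]
        exact bot_le
  · have hE : ∀ b : BSet B, Ext (fun x => ex (ck B J) fun y => rel (relN (fun j : {j // j < a} =>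
        (chk j.1 : BSet B)) chk (fun j k => if f j = k then ⊤ else ⊥)) x y ⊓ mem b y) := fun b =>
      Ext.ex fun y => Ext.inf (Ext.rel1 _ y) (Ext.const _)
    refine V4_le_all_ck (Ext.ex fun x => Ext.ex fun y => Ext.inf (Ext.const _) (Ext.mem_left y)) fun b => ?_
    obtain ⟨j, hj⟩ := hf b
    rw [ex_chk (hE _)]
    refine le_iSup₂_of_le j.1 j.2 ?_
    rw [ex_ck (Ext.inf (Ext.rel2 _ _) (Ext.mem_right _))]
    refine le_iSup_of_le (f j) ?_
    have h1 := V4_rel (B := B) a f j (f j)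
    rw [if_pos rfl] at h1
    refine le_inf h1.ge ?_
    rw [mem_chk_of_lt hj]

theorem isOmega_le (w : BSet B) : isOmega w ≤ eq w (ck B ℕ) := by
  have h0 : isOmega (ck B ℕ) = ⊤ := isOmega_ck
  have h1 : isInd (ck B ℕ) = ⊤ := top_le_iff.1 (h0.ge.trans inf_le_left)
  have h2 : isInd w ≤ sub (ck B ℕ) w := by
    have h3 : (⊤ : B) ≤ isInd w ⇨ sub (ck B ℕ) w := h0.ge.trans (inf_le_right.trans (iInf_le _ w))
    rwa [le_himp_iff, top_inf_eq] at h3
  have h4 : isOmega w ≤ sub w (ck B ℕ) := by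
    have h5 : isOmega w ≤ isInd (ck B ℕ) ⇨ sub w (ck B ℕ) := inf_le_right.trans (iInf_le _ (ck B ℕ))
    rwa [h1, top_himp] at h5
  have h6 : isOmega w ≤ sub (ck B ℕ) w := (inf_le_left : isOmega w ≤ isInd w).trans h2
  refine le_eq_of_forall _ _ _ (fun x => ?_) (fun x => ?_)
  · rw [← le_himp_iff]
    exact h4.trans (iInf_le _ x)
  · rw [← le_himp_iff]
    exact h6.trans (iInf_le _ x)

theorem notCofOmega_ck (M : MM B κ Th K) (hκ : ℵ₀ ≤ κ)
    (hcof : ∀ s : Set J, s.Countable → ∃ b, ∀ a ∈ s, a < b) : (isCofOmega (ck B J))ᶜ = ⊤ := by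
  rw [compl_eq_top, ← le_bot_iff]
  unfold isCofOmega
  refine iSup_le fun w => ?_
  have hX : Ext (fun w : BSet B => ⨆ f : BSet B, isMap f w (ck B J) ⊓
      all (ck B J) fun b => ex w fun n => ex (ck B J) fun c => rel f n c ⊓ mem b c) :=
    Ext.iSup fun f => Ext.inf (Ext_isMap_2 f _) (Ext.all (R := ck B J)
      (φ := fun w b => ex w fun n => ex (ck B J) fun c => rel f n c ⊓ mem b c) fun b => Ext_ex_left _)
  refine (inf_le_inf_right _ (isOmega_le w)).trans ((hX w (ck B ℕ)).trans ?_)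
  refine iSup_le fun f => ?_
  set v : B := isMap f (ck B ℕ) (ck B J) ⊓
    all (ck B J) fun b => ex (ck B ℕ) fun n => ex (ck B J) fun c => rel f n c ⊓ mem b c with hv
  have hfun : ∀ (n : ℕ) (c c' : J), c ≠ c' →
      (v ⊓ rel f (chk n) (chk c)) ⊓ (v ⊓ rel f (chk n) (chk c')) = ⊥ := by
    intro n c c' h
    rw [← le_bot_iff, ← eq_chk (B := B) h]
    have h1 : v ≤ rel f (chk n) (chk c) ⊓ rel f (chk n) (chk c') ⇨ eq (chk c) (chk c') := by
      refine (inf_le_left.trans inf_le_right).trans ?_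
      exact ((V4_all_le (B := B) n).trans (V4_all_le (B := B) c)).trans (V4_all_le (B := B) c')
    rw [le_himp_iff] at h1
    refine le_trans (le_inf (inf_le_left.trans inf_le_left) (le_inf ?_ ?_)) h1
    · exact inf_le_left.trans inf_le_right
    · exact inf_le_right.trans inf_le_right
  have hcov := M.cover ℕ J (fun n c => v ⊓ rel f (chk n) (chk c)) (by rw [Cardinal.mk_nat]; exact hκ) hfun
  have h0 : v ≤ v ⊓ ⊤ := le_inf le_rfl le_top
  rw [← hcov, inf_iSup_eq] at h0
  refine h0.trans (iSup_le fun S => ?_)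
  obtain ⟨b, hb⟩ := hcof (⋃ n, S.1 n) (Set.countable_iUnion S.2)
  have h1 : v ≤ ⨆ n : ℕ, ⨆ c : J, rel f (chk n) (chk c) ⊓ mem (chk b) (chk c) := by
    refine inf_le_right.trans ((V4_all_le (B := B) b).trans ?_)
    rw [ex_ck (Ext.ex fun y => Ext.inf (Ext.rel1 _ y) (Ext.const _))]
    refine iSup_mono fun n => ?_
    rw [ex_ck (Ext.inf (Ext.rel2 _ _) (Ext.mem_right _))]
  set I : B := ⨅ n : ℕ, ⨅ c : J, ⨅ (_ : c ∉ S.1 n), (v ⊓ rel f (chk n) (chk c))ᶜ with hI
  have h2 : v ⊓ I ≤ (v ⊓ I) ⊓ ⨆ n : ℕ, ⨆ c : J, rel f (chk n) (chk c) ⊓ mem (chk b) (chk c) :=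
    le_inf le_rfl (inf_le_left.trans h1)
  refine h2.trans ?_
  rw [inf_iSup_eq]
  refine iSup_le fun n => ?_
  rw [inf_iSup_eq]
  refine iSup_le fun c => ?_
  by_cases hbc : b < c
  · have hc : c ∉ S.1 n := by
      intro hc
      exact lt_asymm hbc (hb c (Set.mem_iUnion.2 ⟨n, hc⟩))
    have h3 : I ≤ (v ⊓ rel f (chk n) (chk c))ᶜ := (iInf_le _ n).trans ((iInf_le _ c).trans (iInf_le _ hc))
    have h4 : (v ⊓ rel f (chk n) (chk c)) ⊓ (v ⊓ rel f (chk n) (chk c))ᶜ ≤ ⊥ := by
      rw [inf_compl_eq_bot]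
    refine le_trans (le_inf (le_inf ?_ ?_) ?_) h4
    · exact inf_le_left.trans inf_le_left
    · exact inf_le_right.trans inf_le_left
    · exact (inf_le_left.trans inf_le_right).trans h3
  · have h3 : mem (chk b : BSet B) (chk c) = ⊥ := by
      classical
      rw [mem_chk_chk, if_neg hbc]
    rw [h3, inf_bot_eq, inf_bot_eq]

end Pool.Agent.LibMA62
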