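import Pool.Agent.LibMA62.X0

/-! Row X2: the levels are enumerated by `Th`.

Fix `a : K`. `hc` at `chk a` (`mem_chk_ck`) gives
`c ≤ ⨆ L, isLevel T h (chk a) L ⊓ ex (ck B K) fun k => embeds L k = ⨆ L, ⨆ k : K, ⨆ f, isLevel T h (chk a) L ⊓ isInj f L (chk k)` (`ex_ck` with
`Ext_embeds_right`, `embeds L k = ⨆ f, isInj f L k`).
Let `Ω := BSet B × K × BSet B` and `v ω := isLevel T h (chk a) L ⊓ isInj f L (chk k)` for `ω = (L, k, f)`. Disjoint
refinement: well-order `Ω` (`WellOrderingRel`, `IsWellOrder`) and put `d ω := v ω ⊓ (⨆ ω' before ω, v ω')ᶜ`; then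
`d ω ≤ v ω`, `d ω ⊓ d ω' = ⊥` for `ω ≠ ω'` and `⨆ d = ⨆ v` (well-founded induction).
For each `k : K` let `e k : K → Th → B` be given by `M.col k`. Put
`E a t z := mem t T ⊓ rel h t (chk a) ⊓ ⨆ ω = (L, k, f), d ω ⊓ mem t L ⊓ ⨆ i : K, ⨆ (_ : i < k), rel f t (chk i) ⊓ e k i z`.
`ext`: `Ext.inf`, `Ext.iSup`, `Ext.mem_left`, `Ext.rel1`, `Ext.const`. `le`: clear.
`tot`: `c ≤ ⨆ d`; below `d ω ≤ v ω`: `mem t T ⊓ rel h t (chk a) ≤ mem t L` (`isLevel`), `isInj` gives
`mem t L ≤ ex (chk k) fun y => rel f t y = ⨆ i < k, rel f t (chk i)` (`ex_chk`, `Ext.rel2`), and `⨆ z, e k i z = ⊤` for `i < k`.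
`func`: for two different `ω` the `d` are disjoint; for the same `ω`: `rel f t (chk i) ⊓ rel f t (chk i') = ⊥` below `isInj ⊓ mem t L` for
`i ≠ i'` (functionality, `eq_chk`, `mem_chk_of_lt`), and `e k i z ⊓ e k i z' = ⊥`.
`inj`: for the same `ω`: `e k i z ⊓ e k i' z = ⊥` for `i ≠ i'`; for `i = i'` injectivity of `f`:
`mem t L ⊓ mem t' L ⊓ rel f t (chk i) ⊓ rel f t' (chk i) ≤ eq t t'` below `isInj f L (chk k)`. -/

set_option autoImplicit false

namespace Pool.Agent.LibMA62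

open Cardinal Set Pool.Agent.LibPlas90 Pool.Agent.LibPlas90.BSet Pool.Agent.LibTk83
  Pool.Agent.LibDm83

private theorem X2_refine {B : Type} [CompleteBooleanAlgebra B] {Ω : Type*} (v : Ω → B) :
    ∃ d : Ω → B, (∀ ω, d ω ≤ v ω) ∧ (∀ ω ω', ω ≠ ω' → d ω ⊓ d ω' = ⊥) ∧
      (⨆ ω, v ω) ≤ ⨆ ω, d ω := by
  let S : Ω → B := fun ω => ⨆ ω', ⨆ (_ : WellOrderingRel ω' ω), v ω'
  let d : Ω → B := fun ω => v ω ⊓ (S ω)ᶜ
  have h1 : ∀ ω ω', WellOrderingRel ω ω' → d ω ⊓ d ω' = ⊥ := by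
    intro ω ω' h
    refine le_bot_iff.1 ?_
    have k : v ω ≤ S ω' := le_iSup₂_of_le ω h le_rfl
    calc d ω ⊓ d ω' ≤ S ω' ⊓ (S ω')ᶜ := inf_le_inf (inf_le_left.trans k) inf_le_right
      _ = ⊥ := inf_compl_eq_bot
  refine ⟨d, fun ω => inf_le_left, ?_, ?_⟩
  · intro ω ω' h
    rcases trichotomous_of (WellOrderingRel : Ω → Ω → Prop) ω ω' with h2 | h2 | h2
    · exact h1 _ _ h2
    · exact absurd h2 h
    · rw [inf_comm]; exact h1 _ _ h2
  · refine iSup_le fun ω => ?_
    have wf : WellFounded (WellOrderingRel : Ω → Ω → Prop) := IsWellFounded.wf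
    induction ω using wf.induction with
    | _ ω ih =>
      calc v ω = v ω ⊓ (S ω ⊔ (S ω)ᶜ) := by rw [sup_compl_eq_top, inf_top_eq]
        _ = v ω ⊓ S ω ⊔ v ω ⊓ (S ω)ᶜ := inf_sup_left _ _ _
        _ ≤ ⨆ ω, d ω := by
            refine sup_le (inf_le_right.trans (iSup₂_le fun ω' h => ih ω' h)) ?_
            exact le_iSup d ω

section

variable {B : Type} [CompleteBooleanAlgebra B] {K : Type} [LinearOrder K] [WellFoundedLT K]

private theorem X2_all {R x : BSet B} {φ : BSet B → B} {p : B} (h : p ≤ all R φ)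
    (hx : p ≤ mem x R) : p ≤ φ x := by
  have h1 : p ≤ mem x R ⇨ φ x := h.trans (iInf_le _ x)
  exact (le_inf h1 hx).trans himp_inf_le

private theorem X2_mp {p a b : B} (h : p ≤ a ⇨ b) (h' : p ≤ a) : p ≤ b :=
  (le_inf h h').trans himp_inf_le

private theorem X2_level {T h L t : BSet B} {a : K} {p : B} (h1 : p ≤ isLevel T h (chk a) L)
    (h2 : p ≤ mem t T) (h3 : p ≤ rel h t (chk a)) : p ≤ mem t L := by
  have k := X2_all (h1.trans inf_le_right) h2
  exact X2_mp (k.trans inf_le_right) h3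

private theorem X2_tot {L f t : BSet B} {k : K} {p : B} (h1 : p ≤ isInj f L (chk k))
    (h2 : p ≤ mem t L) : p ≤ ⨆ i : K, ⨆ (_ : i < k), rel f t (chk i) := by
  have h3 := X2_all (h1.trans (inf_le_left.trans inf_le_left)) h2
  rw [ex_chk (Ext.rel2 f t)] at h3
  exact h3

private theorem X2_func {L f t : BSet B} {k i i' : K} (hi : i < k) (hi' : i' < k) (hne : i ≠ i')
    {p : B} (h1 : p ≤ isInj f L (chk k)) (h2 : p ≤ mem t L) (h3 : p ≤ rel f t (chk i))
    (h4 : p ≤ rel f t (chk i')) : p ≤ ⊥ := by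
  have k1 := X2_all (h1.trans (inf_le_left.trans inf_le_right)) h2
  have k2 := X2_all k1 (x := chk i) (le_top.trans (mem_chk_of_lt hi).ge)
  have k3 := X2_all k2 (x := chk i') (le_top.trans (mem_chk_of_lt hi').ge)
  have k4 := X2_mp k3 (le_inf h3 h4)
  rw [eq_chk hne] at k4
  exact k4

private theorem X2_inj {L f t t' : BSet B} {k i : K} (hi : i < k)
    {p : B} (h1 : p ≤ isInj f L (chk k)) (h2 : p ≤ mem t L) (h2' : p ≤ mem t' L)
    (h3 : p ≤ rel f t (chk i)) (h4 : p ≤ rel f t' (chk i)) : p ≤ eq t t' := by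
  have k1 := X2_all (h1.trans inf_le_right) h2
  have k2 := X2_all k1 h2'
  have k3 := X2_all k2 (x := chk i) (le_top.trans (mem_chk_of_lt hi).ge)
  exact X2_mp k3 (le_inf h3 h4)

end

theorem exists_enum {B : Type} [CompleteBooleanAlgebra B] {κ : Cardinal.{0}} {Th K : Type}
    [LinearOrder Th] [WellFoundedLT Th] [LinearOrder K] [WellFoundedLT K] (M : MM B κ Th K)
    {c : B} {T h : BSet B} (hc : c ≤ smallLev (ck B K) T h) :
    ∃ E : K → BSet B → Th → B, EnumData c T h E := by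
  have hc1 : ∀ a : K, c ≤ ⨆ ω : BSet B × K × BSet B,
      isLevel T h (chk a) ω.1 ⊓ isInj ω.2.2 ω.1 (chk ω.2.1) := by
    intro a
    unfold smallLev at hc
    rw [all_ck (Ext_small (ck B K) T h)] at hc
    refine (hc.trans (iInf_le _ a)).trans (iSup_le fun L => ?_)
    rw [ex_ck (Ext_embeds_right L), inf_iSup_eq]
    refine iSup_le fun k => ?_
    unfold embeds
    rw [inf_iSup_eq]
    refine iSup_le fun f => ?_
    exact le_iSup (fun ω : BSet B × K × BSet B =>
      isLevel T h (chk a) ω.1 ⊓ isInj ω.2.2 ω.1 (chk ω.2.1)) (L, k, f)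
  choose d hd1 hd2 hd3 using fun a : K => X2_refine (fun ω : BSet B × K × BSet B =>
      isLevel T h (chk a) ω.1 ⊓ isInj ω.2.2 ω.1 (chk ω.2.1))
  choose e he1 he2 he3 using M.col
  let X : K → BSet B → Th → BSet B × K × BSet B → B := fun a t z ω =>
    d a ω ⊓ mem t ω.1 ⊓ ⨆ i : K, ⨆ (_ : i < ω.2.1), rel ω.2.2 t (chk i) ⊓ e ω.2.1 i z
  let E : K → BSet B → Th → B := fun a t z =>
    mem t T ⊓ rel h t (chk a) ⊓ ⨆ ω : BSet B × K × BSet B, X a t z ω
  -- reduction to one `ω` and two numbers `i`, `i'`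
  have red : ∀ (a : K) (t t' : BSet B) (z z' : Th) (b : B),
      (∀ (L : BSet B) (k : K) (f : BSet B) (i i' : K), i < k → i' < k → ∀ p : B,
        p ≤ isInj f L (chk k) → p ≤ mem t L → p ≤ mem t' L → p ≤ rel f t (chk i) →
        p ≤ rel f t' (chk i') → p ≤ e k i z → p ≤ e k i' z' → p ≤ b) →
      E a t z ⊓ E a t' z' ≤ b := by
    intro a t t' z z' b hb
    refine (inf_le_inf inf_le_right inf_le_right).trans ?_
    rw [iSup_inf_iSup]
    refine iSup_le ?_
    rintro ⟨ω, ω'⟩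
    by_cases hω : ω = ω'
    · subst hω
      obtain ⟨L, k, f⟩ := ω
      change (d a (L, k, f) ⊓ mem t L ⊓ ⨆ i : K, ⨆ (_ : i < k), rel f t (chk i) ⊓ e k i z) ⊓
        (d a (L, k, f) ⊓ mem t' L ⊓ ⨆ i : K, ⨆ (_ : i < k), rel f t' (chk i) ⊓ e k i z') ≤ b
      rw [inf_inf_inf_comm]
      rw [inf_iSup_eq]
      rw [inf_iSup_eq]
      refine iSup_le fun i' => ?_
      rw [inf_iSup_eq, inf_iSup_eq]
      refine iSup_le fun hi' => ?_
      rw [iSup_inf_eq, inf_iSup_eq]
      refine iSup_le fun i => ?_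
      rw [iSup_inf_eq, inf_iSup_eq]
      refine iSup_le fun hi => ?_
      refine hb L k f i i' hi hi' _ ?_ ?_ ?_ ?_ ?_ ?_ ?_
      · exact inf_le_left.trans (inf_le_left.trans (inf_le_left.trans
          ((hd1 a (L, k, f)).trans inf_le_right)))
      · exact inf_le_left.trans (inf_le_left.trans inf_le_right)
      · exact inf_le_left.trans (inf_le_right.trans inf_le_right)
      · exact inf_le_right.trans (inf_le_left.trans inf_le_left)
      · exact inf_le_right.trans (inf_le_right.trans inf_le_left)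
      · exact inf_le_right.trans (inf_le_left.trans inf_le_right)
      · exact inf_le_right.trans (inf_le_right.trans inf_le_right)
    · refine le_trans ?_ (le_trans (hd2 a ω ω' hω).le bot_le)
      exact inf_le_inf (inf_le_left.trans inf_le_left) (inf_le_left.trans inf_le_left)
  refine ⟨E, ?_, ?_, ?_, ?_, ?_⟩
  · intro a z
    exact Ext.inf (Ext.inf (Ext.mem_left T) (Ext.rel1 h (chk a)))
      (Ext.iSup fun ω => Ext.inf (Ext.inf (Ext.const _) (Ext.mem_left _))
        (Ext.iSup fun i => Ext.iSup fun _ => Ext.inf (Ext.rel1 _ _) (Ext.const _)))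
  · intro a t z
    exact inf_le_left
  · intro a t
    refine (inf_le_inf_right _ ((hc1 a).trans (hd3 a))).trans ?_
    rw [iSup_inf_eq]
    refine iSup_le ?_
    rintro ⟨L, k, f⟩
    set p : B := d a (L, k, f) ⊓ (mem t T ⊓ rel h t (chk a)) with hp
    have p0 : p ≤ d a (L, k, f) := inf_le_left
    have p1 : p ≤ isLevel T h (chk a) L := p0.trans ((hd1 a (L, k, f)).trans inf_le_left)
    have p2 : p ≤ isInj f L (chk k) := p0.trans ((hd1 a (L, k, f)).trans inf_le_right)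
    have p3 : p ≤ mem t T ⊓ rel h t (chk a) := inf_le_right
    have p4 : p ≤ mem t L := X2_level p1 (p3.trans inf_le_left) (p3.trans inf_le_right)
    have p5 := X2_tot p2 p4
    refine (le_inf le_rfl p5).trans ?_
    rw [inf_iSup_eq]
    refine iSup_le fun i => ?_
    rw [inf_iSup_eq]
    refine iSup_le fun hi => ?_
    have p6 : p ⊓ rel f t (chk i) ≤ (p ⊓ rel f t (chk i)) ⊓ ⨆ z, e k i z := by
      rw [he1 k i hi, inf_top_eq]
    refine p6.trans ?_
    rw [inf_iSup_eq]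
    refine iSup_mono fun z => ?_
    refine le_inf (inf_le_left.trans (inf_le_left.trans p3)) ?_
    refine le_iSup_of_le (L, k, f) ?_
    refine le_inf (le_inf (inf_le_left.trans (inf_le_left.trans p0))
      (inf_le_left.trans (inf_le_left.trans p4))) ?_
    refine le_iSup₂_of_le i hi ?_
    exact le_inf (inf_le_left.trans inf_le_right) inf_le_right
  · intro a t z z' hz
    refine le_bot_iff.1 (red a t t z z' ⊥ ?_)
    intro L k f i i' hi hi' p h1 h2 _ h4 h5 h6 h7
    by_cases hii : i = i'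
    · subst hii
      exact (le_inf h6 h7).trans (he2 k i z z' hz).le
    · exact X2_func hi hi' hii h1 h2 h4 h5
  · intro a t t' z
    refine red a t t' z z (eq t t') ?_
    intro L k f i i' hi hi' p h1 h2 h3 h4 h5 h6 h7
    by_cases hii : i = i'
    · subst hii
      exact X2_inj hi h1 h2 h3 h4 h5
    · exact ((le_inf h6 h7).trans (he3 k i i' z hii).le).trans bot_le

end Pool.Agent.LibMA62
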