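import Pool.Agent.LibMA62.X3

/-! Row X4: from the branch `br` to a chain of size `K`.

Let `φ t := ⨆ a, ⨆ z, br a z ⊓ E a t z` (it respects equality: `D.ext`), `C := sep T φ` (`SepN.lean`): `mem t C = mem t T ⊓ φ t`,
`sub C T = ⊤`. `isChn T R C`: let `s`, `t` be in `C`, via `(a, z)` and `(b, w)`. If `a < b`: `br a z ⊓ br b w ≤ ltE R E a z b w`, so there are
names `s'`, `t'` with `E a s' z`, `E b t' w`, `rel R s' t'`; `D.inj` gives `eq s' s`, `eq t' t`; so `rel R s t`. If `b < a`:
symmetric. If `a = b` and `z = w`: `D.inj` gives `eq s t`. If `a = b` and `z ≠ w`: `z0 ⊓ br a z ⊓ br a w = ⊥`: take `a' > a` (`hmax`);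
`z0 ≤ ⨆ w', br a' w'`, and `br a z ⊓ br a w ⊓ br a' w' ≤ ltE R E a z a' w' ⊓ ltE R E a w a' w'`, which is disjoint from `c ≥ z0` by
`e_uniq`.
`embeds (ck B K) C`: take `g := relS (ck B K) C (fun x t => rel h t x)` (`SepN.lean`; `rel_relS`:
`rel g x t = mem x (ck B K) ⊓ mem t C ⊓ rel h t x`). `isInj g (ck B K) C` below `z0`:
 total: for `a : K` (`all_ck`; the formula respects equality) `z0 ≤ ⨆ z, br a z`, and `z0 ⊓ br a z ≤ ⨆ w', br a z ⊓ br a' w' ≤
 ⨆ w', ltE R E a z a' w' ≤ ⨆ t, E a t z` for `a' > a`; `br a z ⊓ E a t z ≤ mem t C ⊓ rel h t (chk a)`.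
 functional: for `t`, `t'` in `C` with heights `chk a`: `isChn` gives `rel R t t' ⊔ eq t t' ⊔ rel R t' t`, the first and the last are
 excluded by `V.incr`. injective: `V.func`: `rel h t (chk a) ⊓ rel h t (chk b) ⊓ mem t T ⊓ c = ⊥` for `a ≠ b`. -/

set_option autoImplicit false

namespace Pool.Agent.LibMA62

open Cardinal Set Pool.Agent.LibPlas90 Pool.Agent.LibPlas90.BSet Pool.Agent.LibTk83
  Pool.Agent.LibDm83

variable {B : Type} [CompleteBooleanAlgebra B] {K Th : Type} [LinearOrder K] [WellFoundedLT K]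
  {c : B} {T R h : BSet B} {E : K → BSet B → Th → B}

private theorem X4_force {p q : B} (h : ∀ r, r ≤ p → r ≠ ⊥ → ∃ r', r' ≤ r ∧ r' ≠ ⊥ ∧ r' ≤ q) :
    p ≤ q := by
  by_contra hn
  have h1 : p ⊓ qᶜ ≠ ⊥ := fun h0 => hn (by rwa [← disjoint_iff, disjoint_compl_right_iff] at h0)
  obtain ⟨r', h2, h3, h4⟩ := h _ inf_le_left h1
  exact h3 (le_bot_iff.1 ((le_inf h4 (h2.trans inf_le_right)).trans (le_of_eq inf_compl_eq_bot)))

private theorem X4_iSup {ι : Sort*} {r : B} {a : ι → B} (h : r ≤ ⨆ i, a i) (hr : r ≠ ⊥) :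
    ∃ i, r ⊓ a i ≠ ⊥ := by
  by_contra hn
  push Not at hn
  apply hr
  have h1 : r ≤ ⨆ i, r ⊓ a i := by
    rw [← inf_iSup_eq]
    exact le_inf le_rfl h
  rw [← le_bot_iff]
  refine h1.trans (iSup_le fun i => ?_)
  rw [hn i]

private theorem X4_br (V : TreeVal K c T R h) (D : EnumData c T h E)
    (hmax : ∀ a : K, ∃ b, a < b) {z0 : B} (hz0 : z0 ≤ c) (br : K → Th → B)
    (h1 : ∀ a, z0 ≤ ⨆ z, br a z)
    (h2 : ∀ a b z z', a < b → br a z ⊓ br b z' ≤ ltE R E a z b z') {r : B} (hr : r ≤ z0) {a : K}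
    {z w : Th} (hz : r ≤ br a z) (hw : r ≤ br a w) (hne : z ≠ w) : r = ⊥ := by
  by_contra hb
  obtain ⟨a', ha'⟩ := hmax a
  obtain ⟨w', hw'⟩ := X4_iSup (hr.trans (h1 a')) hb
  apply hw'
  rw [← le_bot_iff, ← e_uniq V D a a' z w w' ha' hne]
  refine le_inf (inf_le_left.trans (hr.trans hz0)) (le_inf ?_ ?_)
  · exact le_trans (le_inf (inf_le_left.trans hz) inf_le_right) (h2 a a' z w' ha')
  · exact le_trans (le_inf (inf_le_left.trans hw) inf_le_right) (h2 a a' w w' ha')

private theorem X4_rel (D : EnumData c T h E) (br : K → Th → B)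
    (h2 : ∀ a b z z', a < b → br a z ⊓ br b z' ≤ ltE R E a z b z') {r : B} {s t : BSet B} {a b : K}
    {z w : Th} (hab : a < b) (hz : r ≤ br a z) (hw : r ≤ br b w) (hs : r ≤ E a s z)
    (ht : r ≤ E b t w) : r ≤ rel R s t := by
  have h3 : r ≤ ltE R E a z b w := (le_inf hz hw).trans (h2 a b z w hab)
  calc r ≤ r ⊓ ltE R E a z b w := le_inf le_rfl h3
    _ ≤ rel R s t := by
      unfold ltE
      rw [inf_iSup_eq]
      refine iSup_le fun s' => ?_
      rw [inf_iSup_eq]
      refine iSup_le fun t' => ?_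
      have e1 : r ⊓ (E a s' z ⊓ E b t' w ⊓ rel R s' t') ≤ eq s' s :=
        le_trans (le_inf (inf_le_right.trans (inf_le_left.trans inf_le_left)) (inf_le_left.trans hs))
          (D.inj a s' s z)
      have e2 : r ⊓ (E a s' z ⊓ E b t' w ⊓ rel R s' t') ≤ eq t' t :=
        le_trans (le_inf (inf_le_right.trans (inf_le_left.trans inf_le_right)) (inf_le_left.trans ht))
          (D.inj b t' t w)
      have e3 : r ⊓ (E a s' z ⊓ E b t' w ⊓ rel R s' t') ≤ rel R s' t' := inf_le_right.trans inf_le_right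
      have e4 : r ⊓ (E a s' z ⊓ E b t' w ⊓ rel R s' t') ≤ rel R s t' :=
        (le_inf e1 e3).trans (Ext.rel1 R t' s' s)
      exact (le_inf e2 e4).trans (Ext.rel2 R s t' t)

private theorem X4_phi (D : EnumData c T h E) (br : K → Th → B) :
    Ext (fun t => ⨆ a, ⨆ z, br a z ⊓ E a t z) :=
  Ext.iSup fun a => Ext.iSup fun z => Ext.inf (Ext.const _) (D.ext a z)

/-- a condition which forces `t` to be in the chain can be refined -/
private theorem X4_get {r : B} (br : K → Th → B) {t : BSet B}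
    (h : r ≤ ⨆ a, ⨆ z, br a z ⊓ E a t z) (hr : r ≠ ⊥) :
    ∃ a z r', r' ≤ r ∧ r' ≠ ⊥ ∧ r' ≤ br a z ∧ r' ≤ E a t z := by
  obtain ⟨a, ha⟩ := X4_iSup h hr
  obtain ⟨z, hz⟩ := X4_iSup (r := r ⊓ ⨆ z, br a z ⊓ E a t z) inf_le_right ha
  exact ⟨a, z, _, inf_le_left.trans inf_le_left, hz, inf_le_right.trans inf_le_left,
    inf_le_right.trans inf_le_right⟩

theorem exists_chain (V : TreeVal K c T R h) (D : EnumData c T h E)
    (hmax : ∀ a : K, ∃ b, a < b) {z0 : B} (hz0 : z0 ≤ c) (br : K → Th → B)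
    (h1 : ∀ a, z0 ≤ ⨆ z, br a z)
    (h2 : ∀ a b z z', a < b → br a z ⊓ br b z' ≤ ltE R E a z b z') :
    z0 ≤ ⨆ C : BSet B, isChn T R C ⊓ embeds (ck B K) C := by
  have hφ := X4_phi D br
  obtain ⟨C, hC⟩ : ∃ C, C = sep T (fun t => ⨆ a, ⨆ z, br a z ⊓ E a t z) := ⟨_, rfl⟩
  have hmC : ∀ t, mem t C = mem t T ⊓ ⨆ a, ⨆ z, br a z ⊓ E a t z := by
    intro t
    rw [hC, mem_sep hφ]
  have hsub : sub C T = ⊤ := by
    rw [hC, sub_sep hφ]
  obtain ⟨g, hg⟩ : ∃ g, g = relS (ck B K) C (fun x t => rel h t x) := ⟨_, rfl⟩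
  have hrg : ∀ x t, rel g x t = mem x (ck B K) ⊓ mem t C ⊓ rel h t x := by
    intro x t
    rw [hg]
    exact rel_relS (fun y => Ext.rel2 h y) (fun x => Ext.rel1 h x) _ _ _ _
  refine le_iSup_of_le C (le_inf ?_ (le_iSup_of_le g ?_))
  · -- chain
    unfold isChn
    rw [hsub, top_inf_eq]
    refine le_iInf fun s => ?_
    rw [le_himp_iff]
    refine le_iInf fun t => ?_
    rw [le_himp_iff]
    refine X4_force fun r hr hr0 => ?_
    have r1 : r ≤ z0 := hr.trans (inf_le_left.trans inf_le_left)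
    have r2 := hr.trans (inf_le_left.trans inf_le_right)
    have r3 := hr.trans inf_le_right
    rw [hmC] at r2 r3
    obtain ⟨a, z, u, hu, hu0, u1, u2⟩ := X4_get br (r2.trans inf_le_right) hr0
    obtain ⟨b, w, v, hv, hv0, v1, v2⟩ := X4_get br (hu.trans (r3.trans inf_le_right)) hu0
    refine ⟨v, hv.trans hu, hv0, ?_⟩
    rcases lt_trichotomy a b with hab | hab | hab
    · exact (X4_rel D br h2 hab (hv.trans u1) v1 (hv.trans u2) v2).trans
        (le_sup_left.trans le_sup_left)
    · subst hab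
      by_cases hzw : z = w
      · subst hzw
        exact ((le_inf (hv.trans u2) v2).trans (D.inj a s t z)).trans (le_sup_right.trans le_sup_left)
      · exact absurd (X4_br V D hmax hz0 br h1 h2 (hv.trans (hu.trans r1)) (hv.trans u1) v1 hzw) hv0
    · exact (X4_rel D br h2 hab v1 (hv.trans u1) v2 (hv.trans u2)).trans le_sup_right
  · unfold isInj isMap
    refine le_inf (le_inf ?_ ?_) ?_
    · -- total
      rw [all_ck (Ext.ex (R := C) (φ := fun x y => rel g x y) fun y => Ext.rel1 g y)]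
      refine le_iInf fun a => ?_
      refine X4_force fun r hr hr0 => ?_
      obtain ⟨z, hz⟩ := X4_iSup (hr.trans (h1 a)) hr0
      obtain ⟨a', ha'⟩ := hmax a
      obtain ⟨w, hw⟩ := X4_iSup (inf_le_left.trans (hr.trans (h1 a'))) hz
      have h3 : r ⊓ br a z ⊓ br a' w ≤ ltE R E a z a' w :=
        (le_inf (inf_le_left.trans inf_le_right) inf_le_right).trans (h2 a a' z w ha')
      obtain ⟨s, hs⟩ := X4_iSup h3 hw
      obtain ⟨t, ht⟩ := X4_iSup (r := r ⊓ br a z ⊓ br a' w ⊓ ⨆ t, E a s z ⊓ E a' t w ⊓ rel R s t)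
        inf_le_right hs
      refine ⟨_, ?_, ht, ?_⟩
      · exact inf_le_left.trans (inf_le_left.trans (inf_le_left.trans inf_le_left))
      · have e1 : r ⊓ br a z ⊓ br a' w ⊓ (⨆ t, E a s z ⊓ E a' t w ⊓ rel R s t) ⊓
            (E a s z ⊓ E a' t w ⊓ rel R s t) ≤ E a s z :=
          inf_le_right.trans (inf_le_left.trans inf_le_left)
        have e2 : r ⊓ br a z ⊓ br a' w ⊓ (⨆ t, E a s z ⊓ E a' t w ⊓ rel R s t) ⊓
            (E a s z ⊓ E a' t w ⊓ rel R s t) ≤ br a z :=
          inf_le_left.trans (inf_le_left.trans (inf_le_left.trans inf_le_right))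
        have e3 : r ⊓ br a z ⊓ br a' w ⊓ (⨆ t, E a s z ⊓ E a' t w ⊓ rel R s t) ⊓
            (E a s z ⊓ E a' t w ⊓ rel R s t) ≤ mem s C := by
          rw [hmC]
          exact le_inf (e1.trans ((D.le a s z).trans inf_le_left))
            (le_iSup_of_le a (le_iSup_of_le z (le_inf e2 e1)))
        refine le_iSup_of_le s (le_inf e3 ?_)
        show _ ≤ rel g (chk a) s
        rw [hrg, mem_chk_ck, top_inf_eq]
        exact le_inf e3 (e1.trans ((D.le a s z).trans inf_le_right))
    · -- functional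
      rw [all_ck (Ext.all (R := C) (φ := fun x y => all C fun y' => rel g x y ⊓ rel g x y' ⇨ eq y y')
        fun y => Ext.all (R := C) (φ := fun x y' => rel g x y ⊓ rel g x y' ⇨ eq y y')
          fun y' => Ext.himp (Ext.inf (Ext.rel1 g y) (Ext.rel1 g y')) (Ext.const _))]
      refine le_iInf fun a => le_iInf fun s => ?_
      rw [le_himp_iff]
      refine le_iInf fun t => ?_
      rw [le_himp_iff, le_himp_iff]
      refine X4_force fun r hr hr0 => ?_
      have r1 : r ≤ z0 := hr.trans (inf_le_left.trans (inf_le_left.trans inf_le_left))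
      have r2 : r ≤ mem s C := hr.trans (inf_le_left.trans (inf_le_left.trans inf_le_right))
      have r3 : r ≤ mem t C := hr.trans (inf_le_left.trans inf_le_right)
      have r4 : r ≤ rel g (chk a) s := hr.trans (inf_le_right.trans inf_le_left)
      have r5 : r ≤ rel g (chk a) t := hr.trans (inf_le_right.trans inf_le_right)
      rw [hrg] at r4 r5
      rw [hmC] at r2 r3
      obtain ⟨b, z, u, hu, hu0, u1, u2⟩ := X4_get br (r2.trans inf_le_right) hr0
      have hb : b = a := by
        by_contra hne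
        apply hu0
        rw [← le_bot_iff, ← V.func s b a hne]
        exact le_inf (le_inf (le_inf (hu.trans (r1.trans hz0)) (hu.trans (r2.trans inf_le_left)))
          (u2.trans ((D.le b s z).trans inf_le_right))) (hu.trans (r4.trans inf_le_right))
      subst hb
      obtain ⟨b', w, v, hv, hv0, v1, v2⟩ := X4_get br (hu.trans (r3.trans inf_le_right)) hu0
      have hb' : b' = b := by
        by_contra hne
        apply hv0
        rw [← le_bot_iff, ← V.func t b' b hne]
        exact le_inf (le_inf (le_inf (hv.trans (hu.trans (r1.trans hz0)))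
          (hv.trans (hu.trans (r3.trans inf_le_left))))
          (v2.trans ((D.le b' t w).trans inf_le_right))) (hv.trans (hu.trans (r5.trans inf_le_right)))
      subst hb'
      refine ⟨v, hv.trans hu, hv0, ?_⟩
      by_cases hzw : z = w
      · subst hzw
        exact (le_inf (hv.trans u2) v2).trans (D.inj _ s t z)
      · exact absurd (X4_br V D hmax hz0 br h1 h2 (hv.trans (hu.trans r1)) (hv.trans u1) v1 hzw) hv0
    · -- injective
      rw [all_ck (Ext.all (R := ck B K) (φ := fun x x' => all C fun y => rel g x y ⊓ rel g x' y ⇨ eq x x')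
        fun x' => Ext.all (R := C) (φ := fun x y => rel g x y ⊓ rel g x' y ⇨ eq x x')
          fun y => Ext.himp (Ext.inf (Ext.rel1 g y) (Ext.const _)) (Ext.eq_left x'))]
      refine le_iInf fun a => ?_
      rw [all_ck (Ext.all (R := C) (φ := fun x' y => rel g (chk a) y ⊓ rel g x' y ⇨ eq (chk a) x')
          fun y => Ext.himp (Ext.inf (Ext.const _) (Ext.rel1 g y)) (Ext.eq_right (chk a)))]
      refine le_iInf fun b => le_iInf fun t => ?_
      rw [le_himp_iff, le_himp_iff]
      by_cases hab : a = b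
      · subst hab
        rw [BSet.eq_refl]
        exact le_top
      · refine le_trans ?_ bot_le
        rw [← V.func t a b hab, hrg, hrg, hmC]
        refine le_inf (le_inf (le_inf ?_ ?_) ?_) ?_
        · exact inf_le_left.trans (inf_le_left.trans hz0)
        · exact inf_le_left.trans (inf_le_right.trans inf_le_left)
        · exact inf_le_right.trans (inf_le_left.trans inf_le_right)
        · exact inf_le_right.trans (inf_le_right.trans inf_le_right)

end Pool.Agent.LibMA62
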