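import Pool.Agent.LibMA62.X1
import Pool.Agent.LibMA62.X2
import Pool.Agent.LibMA62.X4

/-! There is no `K`-Aronszajn tree in `V^B`. -/

set_option autoImplicit false

namespace Pool.Agent.LibMA62

open Cardinal Set Pool.Agent.LibPlas90 Pool.Agent.LibPlas90.BSet Pool.Agent.LibTk83
  Pool.Agent.LibDm83

variable {B : Type} [CompleteBooleanAlgebra B] {κ : Cardinal.{0}} {Th K : Type}
  [LinearOrder Th] [WellFoundedLT Th] [LinearOrder K] [WellFoundedLT K]

theorem not_isAron_K (M : MM B κ Th K) (hmax : ∀ a : K, ∃ b, a < b) :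
    (isAron (ck B K))ᶜ = ⊤ := by
  rw [compl_eq_top]
  refine le_bot_iff.1 (iSup_le fun T => iSup_le fun R => iSup_le fun h => ?_)
  set c := isTree (ck B K) T R h ⊓ smallLev (ck B K) T h ⊓ noBranch (ck B K) T R with hc
  by_contra hne
  have hc0 : c ≠ ⊥ := fun h0 => hne h0.le
  have hc1 : c ≤ isTree (ck B K) T R h := inf_le_left.trans inf_le_left
  have hc2 : c ≤ smallLev (ck B K) T h := inf_le_left.trans inf_le_right
  have hc3 : c ≤ noBranch (ck B K) T R := inf_le_right
  have V := treeVal_of_isTree hc1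
  obtain ⟨E, D⟩ := exists_enum M hc2
  obtain ⟨z0, hz0, hz0', br, hb1, hb2⟩ := M.tp c (ndE E) (ltE R E) hc0
    (fun a b w hab => e_pred V D a b w hab)
    (fun a b z z' w hab hz => e_uniq V D a b z z' w hab hz)
    (fun a a' b z z' w haa hab => e_coh V D a a' b z z' w haa hab)
    (fun b => e_ne V D b)
  have h1 := exists_chain V D hmax hz0 br hb1 hb2
  apply hz0'
  refine le_bot_iff.1 ((le_inf le_rfl h1).trans ?_)
  rw [inf_iSup_eq]
  refine iSup_le fun C => ?_
  have h2 : z0 ≤ isChn T R C ⇨ (embeds (ck B K) C)ᶜ := (hz0.trans hc3).trans (iInf_le _ C)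
  have h3 : z0 ⊓ isChn T R C ≤ (embeds (ck B K) C)ᶜ := le_himp_iff.1 h2
  calc z0 ⊓ (isChn T R C ⊓ embeds (ck B K) C)
      ≤ (embeds (ck B K) C)ᶜ ⊓ embeds (ck B K) C :=
        le_inf ((inf_le_inf_left _ inf_le_left).trans h3) (inf_le_right.trans inf_le_right)
    _ ≤ ⊥ := by rw [compl_inf_self]

end Pool.Agent.LibMA62
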