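import Pool.Agent.LibMA62.W3
import Pool.Agent.LibMA62.X5
import Pool.Agent.LibMA62.P6
import Pool.Agent.LibMA62.V4
import Pool.Agent.LibMA62.N2

/-! The final assembly. -/

set_option autoImplicit false

namespace Pool.Agent.LibMA62

open Cardinal Set Pool.Agent.LibPlas90 Pool.Agent.LibPlas90.BSet Pool.Agent.LibTk83
  Pool.Agent.LibDm83

/-- `lam` is a measurable cardinal: it is uncountable and there is a nonprincipal ultrafilter on the
set of the ordinals below it which is closed under intersections of fewer than `lam` sets. -/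
def IsMeas (lam : Cardinal.{0}) : Prop :=
  ℵ₀ < lam ∧ ∃ U : Ultrafilter lam.ord.ToType, (∀ a, ({a} : Set lam.ord.ToType) ∉ U) ∧
    ∀ (I : Type) (A : I → Set lam.ord.ToType), #I < lam → (∀ i, A i ∈ U) → (⋂ i, A i) ∈ U

theorem main_gen {κ : Cardinal.{0}} (h1 : ℵ₀ < κ.ord.cof) (h2 : κ.ord.cof < κ)
    (hst : TStat κ) {K : Type} [LinearOrder K] [WellFoundedLT K] {U : Ultrafilter K}
    (hns : ∀ a, ({a} : Set K) ∉ U)
    (hcomp : ∀ (I : Type) (A : I → Set K), #I < #K → (∀ i, A i ∈ U) → {d | ∀ i, d ∈ A i} ∈ U)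
    (hinf : ℵ₀ < #K) (hini : ∀ a : K, #(Iio a) < #K) (hκK : κ < #K)
    {Th : Type} [LinearOrder Th] [WellFoundedLT Th] (hThc : #Th = Order.succ κ)
    (hThi : ∀ a : Th, #(Iio a) < #Th) :
    ∃ (B : Type) (_ : CompleteBooleanAlgebra B) (_ : Nontrivial B),
      isCex (ck B κ.ord.ToType) = ⊤ ∧ (⨆ k : BSet B, isCex k) = ⊤ := by
  have hκ0 : ℵ₀ < κ := h1.trans h2
  obtain ⟨W, hW⟩ := exists_normal hns hcomp hinf hini
  have hpow : ∀ c : Cardinal.{0}, c < #K → (2 : Cardinal.{0}) ^ c < #K :=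
    fun c hc => meas_pow hns hcomp c hc
  have hThK : #Th < #K := by
    rw [hThc]
    exact (Order.succ_le_of_lt (cantor κ)).trans_lt (hpow κ hκK)
  have huniv : #(univ : Set K) = #K := mk_univ
  have hinac : InacD κ (Th × ℕ) (univ : Set K) :=
    { lower := fun _ _ _ _ => mem_univ _
      reg := by
        intro s _ hs
        rw [huniv] at hs
        obtain ⟨b, hb⟩ := meas_reg hns hcomp hinf hini s hs
        exact ⟨b, mem_univ _, hb⟩
      pow := by
        intro c hc
        rw [huniv] at hc ⊢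
        exact hpow c hc
      ini := by
        intro a _
        rw [huniv]
        exact hini a
      hX := by
        rw [huniv, mk_prod, lift_id, lift_id, mk_nat]
        exact mul_lt_of_lt hinf.le hThK hinf
      hκ := by
        rw [huniv]
        exact hκK }
  have M : MM (RO (Mt K (Th × ℕ) κ)) κ Th K :=
    MM_Mt hκ0.le hW hinac hThK (by rw [hThc]; exact Order.lt_succ κ)
  have hmax : ∀ a : K, ∃ b, a < b := by
    intro a
    obtain ⟨b, hb⟩ := meas_reg hns hcomp hinf hini {a} (by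
      rw [mk_singleton]
      exact one_lt_aleph0.trans hinf)
    exact ⟨b, hb a rfl⟩
  have hJc : #κ.ord.ToType = κ := mk_ord_toType κ
  have hJi : ∀ a : κ.ord.ToType, #(Iio a) < #κ.ord.ToType := fun a =>
    Cardinal.mk_Iio_lt a (by rw [hJc]; exact (Ordinal.type_toType _).symm)
  have hcex : isCex (ck (RO (Mt K (Th × ℕ) κ)) κ.ord.ToType) = ⊤ := by
    unfold isCex
    have e1 : isCard (ck (RO (Mt K (Th × ℕ) κ)) κ.ord.ToType) = ⊤ :=
      isCard_ck M hJc.le (by rw [hJc]; exact hκ0) hJi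
    have e2 : isSing (ck (RO (Mt K (Th × ℕ) κ)) κ.ord.ToType) = ⊤ := by
      obtain ⟨a, f, hf⟩ := exists_sing h1 h2
      exact isSing_ck a f hf
    have e3 : (isCofOmega (ck (RO (Mt K (Th × ℕ) κ)) κ.ord.ToType))ᶜ = ⊤ :=
      notCofOmega_ck M hκ0.le (fun s hs => cof_countable h1 s hs)
    have e4 : stat (ck (RO (Mt K (Th × ℕ) κ)) κ.ord.ToType) Tk = ⊤ := stat_ck M h1 h2 hst
    rw [e1, e2, e3, e4, top_inf_eq, top_inf_eq, top_inf_eq, top_inf_eq]
    refine top_le_iff.1 (le_iSup_of_le (ck _ Th) (le_iSup_of_le (ck _ K) ?_))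
    rw [isPlus_ck M hJc.le (by rw [hJc, hThc]; exact Order.lt_succ κ)
      (by rw [hThc]; exact hκ0.trans (Order.lt_succ κ))
      (fun a => by
        rw [hJc]
        have := hThi a
        rw [hThc] at this
        exact Order.lt_succ_iff.1 this), isPlus_K M, not_isAron_K M hmax, top_inf_eq, top_inf_eq]
  have hne : Nonempty (Mt K (Th × ℕ) κ) :=
    ⟨⟨⟨fun _ _ => none, by simp⟩, ⟨fun _ _ => none, by simp, by simp⟩⟩⟩
  refine ⟨RO (Mt K (Th × ℕ) κ), inferInstance, inferInstance, hcex, ?_⟩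
  exact top_le_iff.1 (le_iSup_of_le (ck _ κ.ord.ToType) hcex.ge)

theorem main (κ lam : Cardinal.{0}) (h1 : ℵ₀ < κ.ord.cof) (h2 : κ.ord.cof < κ)
    (hst : TStat κ) (hκ : κ < lam) (hm : IsMeas lam) :
    ∃ (B : Type) (_ : CompleteBooleanAlgebra B) (_ : Nontrivial B),
      isCex (ck B κ.ord.ToType) = ⊤ ∧ (⨆ k : BSet B, isCex k) = ⊤ := by
  obtain ⟨hunc, U, hns, hcomp⟩ := hm
  have hKc : #(lam.ord.ToType) = lam := mk_ord_toType lam
  have hThc : #(Order.succ κ).ord.ToType = Order.succ κ := mk_ord_toType _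
  refine main_gen h1 h2 hst (K := lam.ord.ToType) (Th := (Order.succ κ).ord.ToType) (U := U) hns
    ?_ (by rw [hKc]; exact hunc) ?_ (by rw [hKc]; exact hκ) hThc ?_
  · intro I A hI hA
    have he : {d | ∀ i, d ∈ A i} = ⋂ i, A i := by
      ext d
      simp
    rw [he]
    exact hcomp I A (by rwa [hKc] at hI) hA
  · exact fun a => Cardinal.mk_Iio_lt a (by rw [hKc]; exact (Ordinal.type_toType _).symm)
  · exact fun a => Cardinal.mk_Iio_lt a (by rw [hThc]; exact (Ordinal.type_toType _).symm)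

end Pool.Agent.LibMA62
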