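import Pool.Agent.LibMA62.Defs

/-! Row N1: elementary consequences of measurability. `K` is well-ordered in type a cardinal (`hini`),
`U` is nonprincipal and closed under intersections of fewer than `#K` sets.

`small`: if `#s < #K` then the intersection of the sets `{a}ᶜ ∈ U`, `a ∈ s`, is in `U`; it is `sᶜ`.
`tail`: `{d | a < d}ᶜ = Iic a` has fewer than `#K` elements (`#(Iio a) + 1`, `#K` infinite).
`reg`: suppose that each `b` is `≤` some `a ∈ s`. Then the intersection of the sets `(Iic a)ᶜ ∈ U`, `a ∈ s`, is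
empty and in `U`: contradiction.
`pow`: let `c < #K` and suppose `#K ≤ 2 ^ c`. Take a type `M` with `#M = c` (`c.out`) and an injection
`f : K → (M → Bool)` (`Cardinal.mk_pi`/`#(M → Bool) = 2 ^ #M`, `Cardinal.le_def`). For each `m : M` there is
`b m : Bool` with `{d | f d m = b m} ∈ U` (ultrafilter). The intersection over `m` is in `U` and has at most
one element: contradiction to nonprincipality (it is contained in a singleton; or it is empty). -/

set_option autoImplicit false

namespace Pool.Agent.LibMA62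

open Cardinal Set Pool.Agent.LibTk83

variable {K : Type} [LinearOrder K] [WellFoundedLT K]

theorem meas_small {U : Ultrafilter K} (hns : ∀ a, ({a} : Set K) ∉ U)
    (hcomp : ∀ (I : Type) (A : I → Set K), #I < #K → (∀ i, A i ∈ U) → {d | ∀ i, d ∈ A i} ∈ U)
    (s : Set K) (hs : #s < #K) : s ∉ U := by
  intro hsU
  have h := hcomp s (fun a => ({(a : K)}ᶜ : Set K)) hs
    (fun a => Ultrafilter.compl_mem_iff_notMem.2 (hns a))
  have h2 : s ∩ {d | ∀ i : s, d ∈ ({(i : K)}ᶜ : Set K)} ∈ U := Filter.inter_mem hsU h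
  have h3 : s ∩ {d | ∀ i : s, d ∈ ({(i : K)}ᶜ : Set K)} = ∅ := by
    ext d
    constructor
    · rintro ⟨h4, h5⟩
      exact h5 ⟨d, h4⟩ rfl
    · intro h4
      exact h4.elim
  rw [h3] at h2
  exact U.neBot.ne (Filter.empty_mem_iff_bot.1 h2)

theorem meas_tail {U : Ultrafilter K} (hns : ∀ a, ({a} : Set K) ∉ U)
    (hcomp : ∀ (I : Type) (A : I → Set K), #I < #K → (∀ i, A i ∈ U) → {d | ∀ i, d ∈ A i} ∈ U)
    (hinf : ℵ₀ < #K) (hini : ∀ a : K, #(Iio a) < #K) (a : K) : {d | a < d} ∈ U := by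
  have h1 : #(Iic a) < #K := by
    have h2 : Iic a = insert a (Iio a) := by
      ext d
      simp only [mem_Iic, mem_insert_iff, mem_Iio]
      exact le_iff_eq_or_lt
    rw [h2]
    exact (mk_insert_le).trans_lt (add_lt_of_lt hinf.le (hini a) (one_lt_aleph0.trans hinf))
  have h3 := meas_small hns hcomp (Iic a) h1
  have h4 : (Iic a)ᶜ ∈ U := Ultrafilter.compl_mem_iff_notMem.2 h3
  have h5 : (Iic a)ᶜ = {d | a < d} := by
    ext d
    simp only [mem_compl_iff, mem_Iic, not_le, mem_ofPred_eq]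
  rw [h5] at h4
  exact h4

theorem meas_reg {U : Ultrafilter K} (hns : ∀ a, ({a} : Set K) ∉ U)
    (hcomp : ∀ (I : Type) (A : I → Set K), #I < #K → (∀ i, A i ∈ U) → {d | ∀ i, d ∈ A i} ∈ U)
    (hinf : ℵ₀ < #K) (hini : ∀ a : K, #(Iio a) < #K) (s : Set K) (hs : #s < #K) :
    ∃ b, ∀ a ∈ s, a < b := by
  by_contra hcon
  push Not at hcon
  have h := hcomp s (fun a => {d | (a : K) < d}) hs
    (fun a => meas_tail hns hcomp hinf hini a)
  obtain ⟨d, hd⟩ := Ultrafilter.nonempty_of_mem h
  obtain ⟨a, ha, hda⟩ := hcon d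
  exact absurd (hd ⟨a, ha⟩) (not_lt.2 hda)

theorem meas_pow {U : Ultrafilter K} (hns : ∀ a, ({a} : Set K) ∉ U)
    (hcomp : ∀ (I : Type) (A : I → Set K), #I < #K → (∀ i, A i ∈ U) → {d | ∀ i, d ∈ A i} ∈ U)
    (c : Cardinal.{0}) (hc : c < #K) : (2 : Cardinal.{0}) ^ c < #K := by
  by_contra hcon
  push Not at hcon
  have h1 : #K ≤ #(c.out → Bool) := by
    simpa using hcon
  obtain ⟨f⟩ := Cardinal.le_def _ _ |>.1 h1
  have h2 : ∀ m : c.out, ∃ b : Bool, {d | f d m = b} ∈ U := by
    intro m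
    by_cases h3 : {d | f d m = true} ∈ U
    · exact ⟨true, h3⟩
    · refine ⟨false, ?_⟩
      have h4 := Ultrafilter.compl_mem_iff_notMem.2 h3
      have h5 : {d | f d m = true}ᶜ = {d | f d m = false} := by
        ext d
        simp only [mem_compl_iff, mem_ofPred_eq, Bool.not_eq_true]
      rw [h5] at h4
      exact h4
  choose b hb using h2
  have h6 := hcomp c.out (fun m => {d | f d m = b m}) (by rw [mk_out]; exact hc) hb
  obtain ⟨d, hd⟩ := Ultrafilter.nonempty_of_mem h6
  apply hns d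
  refine Filter.mem_of_superset h6 ?_
  intro e he
  rw [mem_singleton_iff]
  apply f.injective
  funext m
  exact (he m).trans (hd m).symm

end Pool.Agent.LibMA62
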