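import Pool.Agent.LibMA62.B4

/-! Row P1: covering of functions with at most `κ` arguments by countable sets of values.

`RO.eq_top_iff'`: let `x : Mt K X κ`. Apply `mt_dense` to `x0 := x` and
`D j y := (∃ v, y ∈ e j v) ∨ ∀ v, y ∈ (e j v)ᶜ` (down-closed; dense: if no extension of `y` is in any `e j v` then
`y ∈ (e j v)ᶜ` for all `v`, `RO.mem_compl`): some `r ≤ x.r` such that for all `j` and `s ≤ x.p` there is `t ≤ s`
with `D j ⟨t, r⟩`. Put `y := ⟨x.p, r⟩ ≤ x` and `S j := {v | ∃ t ≤ x.p, ⟨t, r⟩ ∈ e j v}`.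
`S j` is countable: otherwise choose for each `v ∈ S j` such a `t v`; by `ccc_Coh` there are `v ≠ v'` and
`t ≤ t v, t v'`; then `⟨t, r⟩ ∈ e j v ⊓ e j v' = ⊥` (`RO.mem_inf`, `RO.not_mem_bot`).
`y ∈ ⨅ j, ⨅ v ∉ S j, (e j v)ᶜ` (`RO.mem_iInf`): let `v ∉ S j` and `q ≤ y`, `q ∈ e j v`. There is `t ≤ q.p` with
`D j ⟨t, r⟩`. By `Mt.sharpen` `u := ⟨t, q.r⟩` is `≤ q` and `≤ ⟨t, r⟩`. If `⟨t, r⟩ ∈ e j v'` then
`v' ∈ S j`, so `v' ≠ v`, but `u ∈ e j v ⊓ e j v' = ⊥`. If `⟨t, r⟩ ∈ (e j v)ᶜ` then `u ∉ e j v`: contradiction. -/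

set_option autoImplicit false

namespace Pool.Agent.LibMA62

open Cardinal Set Pool.Agent.LibTk83

theorem cover_Mt {K X : Type} [LinearOrder K] {κ : Cardinal.{0}} (hκ : ℵ₀ ≤ κ) (J V : Type)
    (e : J → V → RO (Mt K X κ)) (hJ : #J ≤ κ)
    (he : ∀ j v v', v ≠ v' → e j v ⊓ e j v' = ⊥) :
    (⨆ S : {S : J → Set V // ∀ j, (S j).Countable}, ⨅ j, ⨅ v, ⨅ (_ : v ∉ S.1 j), (e j v)ᶜ) =
      ⊤ := by
  rw [RO.eq_top_iff']
  intro x
  have hdis : ∀ j v v' (y : Mt K X κ), v ≠ v' → y ∈ e j v → y ∈ e j v' → False := by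
    intro j v v' y hv h1 h2
    have h3 : y ∈ e j v ⊓ e j v' := RO.mem_inf.2 ⟨h1, h2⟩
    rw [he j v v' hv] at h3
    exact RO.not_mem_bot h3
  obtain ⟨r, hrx, hr⟩ := mt_dense hκ J hJ
    (fun j y => (∃ v, y ∈ e j v) ∨ ∀ v, y ∈ (e j v)ᶜ)
    (by
      intro j a b hba h
      rcases h with ⟨v, hv⟩ | h
      · exact Or.inl ⟨v, RO.mem_of_le hba hv⟩
      · exact Or.inr fun v => RO.mem_of_le hba (h v)) x
    (by
      intro j a _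
      by_cases h : ∃ y, y ≤ a ∧ ∃ v, y ∈ e j v
      · obtain ⟨y, hy, hv⟩ := h
        exact ⟨y, hy, Or.inl hv⟩
      · push Not at h
        exact ⟨a, le_rfl, Or.inr fun v => RO.mem_compl.2 fun q hq => h q hq v⟩)
  let S : J → Set V := fun j => {v | ∃ t : Coh K, t ≤ x.p ∧ (⟨t, r⟩ : Mt K X κ) ∈ e j v}
  have hS : ∀ j, (S j).Countable := by
    intro j
    by_contra hc
    have hunc : Uncountable (S j) := by
      rw [← not_countable_iff, Set.countable_coe_iff]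
      exact hc
    have ht : ∀ v : S j, ∃ t : Coh K, t ≤ x.p ∧ (⟨t, r⟩ : Mt K X κ) ∈ e j v.1 := fun v => v.2
    choose t ht1 ht2 using ht
    obtain ⟨v, v', hne, w, hw, hw'⟩ := ccc_Coh K (S j) hunc t
    refine hdis j v.1 v'.1 ⟨w, r⟩ (fun h => hne (Subtype.ext h)) ?_ ?_
    · exact RO.mem_of_le (Mt.mk_le hw le_rfl) (ht2 v)
    · exact RO.mem_of_le (Mt.mk_le hw' le_rfl) (ht2 v')
  refine ⟨⟨x.p, r⟩, Mt.mk_le (p := x.p) (r := x.r) le_rfl hrx, ?_⟩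
  refine (le_iSup (fun S : {S : J → Set V // ∀ j, (S j).Countable} =>
    ⨅ j, ⨅ v, ⨅ (_ : v ∉ S.1 j), (e j v)ᶜ) ⟨S, hS⟩) ?_
  simp only [RO.mem_iInf]
  intro j v hv
  rw [RO.mem_compl]
  intro q hq hqe
  obtain ⟨t, ht, hD⟩ := hr j q.p hq.1
  obtain ⟨h1, h2⟩ := Mt.sharpen hq ht
  rcases hD with ⟨v', hv'⟩ | hall
  · have hv'S : v' ∈ S j := ⟨t, ht.trans hq.1, hv'⟩
    have hne : v' ≠ v := by
      rintro rfl
      exact hv hv'S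
    exact hdis j v' v ⟨t, q.r⟩ hne (RO.mem_of_le h2 hv') (RO.mem_of_le h1 hqe)
  · exact (RO.mem_compl.1 (hall v)) ⟨t, q.r⟩ h2 (RO.mem_of_le h1 hqe)

end Pool.Agent.LibMA62
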