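import Pool.Agent.LibMA62.MDef

/-! Row P2: no new injections, from the covering property.

Let `b := ⨅ x, ⨆ y, e x y`. It suffices that `b ⊓ c = ⊥` for each term `c` of the supremum in `hc` for
`J := Y`, `V := X` and `e' y x := e x y` (`inf_iSup_eq`). Let `S : Y → Set X` be countable-valued,
`c := ⨅ y, ⨅ x ∉ S y, (e x y)ᶜ`. The union of the `S y` has at most `#Y * ℵ₀ < #X` elements
(`Cardinal.mk_iUnion_le_sum_mk`, `Cardinal.mul_lt_of_lt`), so there is `x` outside of all `S y`. Then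
`b ⊓ c ≤ (⨆ y, e x y) ⊓ c = ⨆ y, e x y ⊓ c ≤ ⨆ y, e x y ⊓ (e x y)ᶜ = ⊥`. -/

set_option autoImplicit false

namespace Pool.Agent.LibMA62

open Cardinal Set

theorem noinj {B : Type} [CompleteBooleanAlgebra B] {κ : Cardinal.{0}}
    (hc : ∀ (J V : Type) (e : J → V → B), #J ≤ κ →
      (∀ j v v', v ≠ v' → e j v ⊓ e j v' = ⊥) →
      (⨆ S : {S : J → Set V // ∀ j, (S j).Countable}, ⨅ j, ⨅ v, ⨅ (_ : v ∉ S.1 j), (e j v)ᶜ) = ⊤)
    (X Y : Type) (hY : #Y ≤ κ) (hXY : #Y < #X) (hX : ℵ₀ < #X) (e : X → Y → B)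
    (he : ∀ x x' y, x ≠ x' → e x y ⊓ e x' y = ⊥) : (⨅ x, ⨆ y, e x y) = ⊥ := by
  have h1 := hc Y X (fun y x => e x y) hY (fun y x x' hne => he x x' y hne)
  rw [← inf_top_eq (⨅ x, ⨆ y, e x y), ← h1, inf_iSup_eq, iSup_eq_bot]
  rintro ⟨S, hS⟩
  have hU : #(⋃ y, S y : Set X) < #X := by
    refine lt_of_le_of_lt (Cardinal.mk_iUnion_le_sum_mk (f := S)) ?_
    refine lt_of_le_of_lt (Cardinal.sum_le_sum _ (fun _ => ℵ₀) fun y => (hS y).le_aleph0) ?_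
    rw [Cardinal.sum_const']
    exact Cardinal.mul_lt_of_lt hX.le hXY hX
  have hne : (⋃ y, S y : Set X) ≠ Set.univ := by
    intro h
    rw [h, Cardinal.mk_univ] at hU
    exact lt_irrefl _ hU
  obtain ⟨x, hx⟩ := (Set.ne_univ_iff_exists_notMem _).1 hne
  rw [Set.mem_iUnion, not_exists] at hx
  rw [eq_bot_iff]
  have h2 : (⨅ x, ⨆ y, e x y) ≤ ⨆ y, e x y := iInf_le _ x
  refine le_trans (inf_le_inf_right _ h2) ?_
  rw [iSup_inf_eq]
  refine iSup_le fun y => ?_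
  have h3 : (⨅ j, ⨅ v, ⨅ (_ : v ∉ S j), (e v j)ᶜ) ≤ (e x y)ᶜ :=
    le_trans (iInf_le _ y) (le_trans (iInf_le _ x) (iInf_le _ (hx y)))
  exact le_trans (inf_le_inf_left _ h3) (le_of_eq inf_compl_eq_bot)

end Pool.Agent.LibMA62
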