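import Pool.Agent.LibMA62.P1
import Pool.Agent.LibMA62.P2
import Pool.Agent.LibMA62.E1

/-! Row P3: Aronszajn trees of height `ν ≤ κ` stay Aronszajn. -/

set_option autoImplicit false

namespace Pool.Agent.LibMA62

open Cardinal Set Pool.Agent.LibTk83

private theorem tk_bdd {c : Cardinal.{0}} (hc : c.IsRegular) (C : Set c.ord.ToType)
    (hC : #C < c) : ∃ w, ∀ v ∈ C, v ≤ w := by
  by_contra hcon
  push Not at hcon
  have h2 : (Set.univ : Set c.ord.ToType) ⊆ ⋃ v : C, Set.Iio (v : c.ord.ToType) := by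
    intro w _
    obtain ⟨v, hv, hwv⟩ := hcon w
    exact Set.mem_iUnion.2 ⟨⟨v, hv⟩, hwv⟩
  have h3 : ∀ k : c.ord.ToType, #(Set.Iio k) < c := fun k => by
    simpa using Cardinal.mk_Iio_lt k (by simp)
  have h4 : c < c := by
    calc c = #c.ord.ToType := (mk_ord_toType _).symm
      _ = #(Set.univ : Set c.ord.ToType) := mk_univ.symm
      _ ≤ #(⋃ v : C, Set.Iio (v : c.ord.ToType) : Set _) := mk_le_mk_of_subset h2
      _ ≤ sum (fun v : C => #(Set.Iio (v : c.ord.ToType))) := mk_iUnion_le_sum_mk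
      _ < c := sum_lt_of_isRegular hc hC fun v => h3 v
  exact lt_irrefl _ h4

private theorem tk_gt {c : Cardinal.{0}} (hc : c.IsRegular) (g : c.ord.ToType) :
    ∃ g', g < g' := by
  by_contra hcon
  push Not at hcon
  have h1 : (Set.univ : Set c.ord.ToType) ⊆ insert g (Set.Iio g) := by
    intro w _
    rcases (hcon w).lt_or_eq with h | h
    · exact Or.inr h
    · exact Or.inl h
  have h3 : #(Set.Iio g) < c := by simpa using Cardinal.mk_Iio_lt g (by simp)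
  have h4 : c < c := by
    calc c = #c.ord.ToType := (mk_ord_toType _).symm
      _ = #(Set.univ : Set c.ord.ToType) := mk_univ.symm
      _ ≤ #(insert g (Set.Iio g) : Set c.ord.ToType) := mk_le_mk_of_subset h1
      _ ≤ #(Set.Iio g) + 1 := mk_insert_le
      _ < c := Cardinal.add_lt_of_lt hc.aleph0_le h3 (Cardinal.one_lt_aleph0.trans_le hc.aleph0_le)
  exact lt_irrefl _ h4

private def od {c : Cardinal.{0}} (a : c.ord.ToType) : Ordinal.{0} :=
  Ordinal.typein (α := c.ord.ToType) (· < ·) a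

private theorem od_lt {c : Cardinal.{0}} (a : c.ord.ToType) : od a < c.ord :=
  Ordinal.typein_lt_self a

private theorem od_lt_od {c : Cardinal.{0}} {a b : c.ord.ToType} : od a < od b ↔ a < b :=
  Ordinal.typein_lt_typein _

private theorem od_inj {c : Cardinal.{0}} {a b : c.ord.ToType} (h : od a = od b) : a = b :=
  Ordinal.typein_injective _ h

section tree

variable {ν : Cardinal.{0}} {T : Type} [PartialOrder T] {ht : T → Ordinal.{0}}

private theorem tr_cmp (A : ATree ν T ht) {t u w : T} (h1 : t ≤ w) (h2 : u ≤ w)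
    (h : ht t ≤ ht u) : t ≤ u := by
  have h3 : t ≤ u ∨ u ≤ t := by
    rcases h1.lt_or_eq with h1 | h1
    · rcases h2.lt_or_eq with h2 | h2
      · exact A.comp t u w h1 h2
      · rw [h2]
        exact Or.inl h1.le
    · rw [h1]
      exact Or.inr h2
  rcases h3 with h3 | h3
  · exact h3
  · rcases h3.lt_or_eq with h4 | h4
    · exact absurd (A.mono h4) (not_lt.2 h)
    · exact h4.ge

private theorem tr_down (A : ATree ν T ht) (t : T) {α : Ordinal.{0}} (h : α ≤ ht t) :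
    ∃ s, s ≤ t ∧ ht s = α := by
  rcases h.lt_or_eq with h | h
  · obtain ⟨s, hs, hs'⟩ := A.down t α h
    exact ⟨s, hs.le, hs'⟩
  · exact ⟨t, le_rfl, h.symm⟩

private theorem tr_small (A : ATree ν T ht) (hreg : ν.IsRegular) {α : Ordinal.{0}}
    (hα : α < ν.ord) : #{t : T // ht t < α} < ν := by
  have h1 : #α.ToType < ν := by
    rw [Cardinal.mk_toType]
    exact Cardinal.lt_ord.1 hα
  have h2 : {t : T | ht t < α} ⊆ ⋃ i : α.ToType,
      {t : T | ht t = Ordinal.typein (α := α.ToType) (· < ·) i} := by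
    intro t htt
    have h3 : ht t < Ordinal.type (α := α.ToType) (· < ·) := by
      rw [Ordinal.type_toType]
      exact htt
    obtain ⟨i, hi⟩ := Ordinal.typein_surj _ h3
    exact Set.mem_iUnion.2 ⟨i, hi.symm⟩
  calc #{t : T // ht t < α} = #({t : T | ht t < α} : Set T) := rfl
    _ ≤ #(⋃ i : α.ToType, {t : T | ht t = Ordinal.typein (α := α.ToType) (· < ·) i} : Set T) :=
      mk_le_mk_of_subset h2
    _ ≤ sum (fun i : α.ToType =>
        #({t : T | ht t = Ordinal.typein (α := α.ToType) (· < ·) i} : Set T)) :=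
      mk_iUnion_le_sum_mk
    _ < ν := sum_lt_of_isRegular hreg h1 fun i => A.lev _

end tree

section gen

variable {P : Type} [Preorder P] {T Y : Type} [PartialOrder T]

private def FF (e : Y → T → RO P) (t : T) : RO P :=
  RO.gen {r | ∃ y t', t ≤ t' ∧ r ∈ e y t'}

private theorem mem_FF {e : Y → T → RO P} {t : T} {x : P} :
    x ∈ FF e t ↔ ∀ q, q ≤ x → ∃ r, r ≤ q ∧ ∃ y t', t ≤ t' ∧ r ∈ e y t' := by
  unfold FF
  rw [RO.mem_gen]
  constructor
  · intro h q hq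
    obtain ⟨r, hr, s, ⟨y, t', h1, h2⟩, hrs⟩ := h q hq
    exact ⟨r, hr, y, t', h1, RO.mem_of_le hrs h2⟩
  · intro h q hq
    obtain ⟨r, hr, y, t', h1, h2⟩ := h q hq
    exact ⟨r, hr, r, ⟨y, t', h1, h2⟩, le_rfl⟩

private theorem FF_of {e : Y → T → RO P} {t t' : T} {y : Y} {x : P} (h : t ≤ t')
    (hx : x ∈ e y t') : x ∈ FF e t :=
  mem_FF.2 fun q hq => ⟨q, le_rfl, y, t', h, RO.mem_of_le hq hx⟩

private theorem FF_cmp {ν : Cardinal.{0}} {ht : T → Ordinal.{0}} (A : ATree ν T ht)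
    {e : Y → T → RO P}
    (hch : ∀ y y' t t', ¬ t ≤ t' → ¬ t' ≤ t → e y t ⊓ e y' t' = ⊥) {t u : T} {x : P}
    (h1 : x ∈ FF e t) (h2 : x ∈ FF e u) (h : ht t ≤ ht u) : t ≤ u := by
  obtain ⟨r, hr, y, t', htt, hrt⟩ := mem_FF.1 h1 x le_rfl
  obtain ⟨r', hr', y', u', huu, hru⟩ := mem_FF.1 h2 r hr
  have h3 : t' ≤ u' ∨ u' ≤ t' := by
    by_contra hcon
    push Not at hcon
    have h4 : r' ∈ e y t' ⊓ e y' u' := RO.mem_inf.2 ⟨RO.mem_of_le hr' hrt, hru⟩
    rw [hch y y' t' u' hcon.1 hcon.2] at h4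
    exact RO.not_mem_bot h4
  rcases h3 with h3 | h3
  · exact tr_cmp A (htt.trans h3) huu h
  · exact tr_cmp A htt (huu.trans h3) h

end gen

theorem branch_Mt {K X : Type} [LinearOrder K] {κ : Cardinal.{0}} (hκ : ℵ₀ ≤ κ)
    (ν : Cardinal.{0}) (T : Type) [PartialOrder T] (ht : T → Ordinal.{0}) (A : ATree ν T ht)
    (hν : ν ≤ κ) (hreg : ν.IsRegular) (h1 : ℵ₁ < ν) (Y : Type) (e : Y → T → RO (Mt K X κ))
    (hY : #Y = ν) (hf : ∀ y t t', t ≠ t' → e y t ⊓ e y t' = ⊥)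
    (hi : ∀ y y' t, y ≠ y' → e y t ⊓ e y' t = ⊥)
    (hch : ∀ y y' t t', ¬ t ≤ t' → ¬ t' ≤ t → e y t ⊓ e y' t' = ⊥) :
    (⨅ y, ⨆ t, e y t) = ⊥ := by
  by_contra hne
  obtain ⟨x0, hx0⟩ := RO.ne_bot_iff.1 hne
  have hlt : ℵ₀ < ν := by
    refine lt_trans ?_ h1
    exact Cardinal.aleph0_lt_aleph_one
  -- density
  have dens : ∀ x, x ≤ x0 → ∀ α : Ordinal.{0}, α < ν.ord →
      ∃ x', x' ≤ x ∧ ∃ t, ht t = α ∧ x' ∈ FF e t := by
    intro x hx α hα
    by_contra hcon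
    have hsm : ∀ x', x' ≤ x → ∀ y t', x' ∈ e y t' → ht t' < α := by
      intro x' hx' y t' hxt
      by_contra hle
      obtain ⟨s, hs, hs'⟩ := tr_down A t' (not_lt.1 hle)
      exact hcon ⟨x', hx', s, hs', FF_of hs hxt⟩
    have hcard : #{t : T // ht t < α} < ν := tr_small A hreg hα
    have hbot : (⨅ y, ⨆ t : {t : T // ht t < α}, e y t.1) = ⊥ := by
      refine noinj (κ := κ) (fun J V e' hJ he' => cover_Mt hκ J V e' hJ he') Y
        {t : T // ht t < α} (hcard.le.trans hν) (by rw [hY]; exact hcard)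
        (by rw [hY]; exact hlt) (fun y t => e y t.1) ?_
      intro y y' t hyy
      exact hi y y' t.1 hyy
    have hmem : x ∈ (⨅ y, ⨆ t : {t : T // ht t < α}, e y t.1) := by
      rw [RO.mem_iInf]
      intro y
      rw [RO.mem_iSup]
      intro q hq
      have h2 := RO.mem_iInf.1 hx0 y
      obtain ⟨r, hr, t, hrt⟩ := RO.mem_iSup.1 h2 q (hq.trans hx)
      exact ⟨r, hr, ⟨t, hsm r (hr.trans hq) y t hrt⟩, hrt⟩
    rw [hbot] at hmem
    exact RO.not_mem_bot hmem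
  -- the preparation
  have hcl : Closed ℵ₀ (Rq K X κ × (ν.ord.ToType)ᵒᵈ) := by
    refine Closed.prod (closed_Rq hκ hκ) (Closed.dual fun s hs => ?_)
    exact tk_bdd hreg s (hs.trans_lt hlt)
  obtain ⟨p1, hp1, r1, hr1, huniq⟩ := tail_abs (ccc_Coh2 K) hcl (tk_gt hreg)
    (fun _ _ => True)
    (by
      rintro p0 p1 q0 q1 - - ⟨s, hs1, hs2⟩ ⟨s', hs1', hs2'⟩
      exact ⟨s, s', hs1, hs2, hs1', hs2', trivial⟩)
    x0.p x0.r
    (fun p r (a : ν.ord.ToType) t => ht t = od a ∧ (⟨p, r⟩ : Mt K X κ) ∈ FF e t)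
    (by
      rintro p p' r r' a z hp hr ⟨hz, hz'⟩
      exact ⟨hz, RO.mem_of_le (Mt.mk_le hp hr) hz'⟩)
    (by
      intro p hp r hr a
      obtain ⟨x', hx', t, ht1, ht2⟩ := dens ⟨p, r⟩ (Mt.mk_le hp hr) (od a) (od_lt a)
      refine ⟨x'.p, hx'.1, Rq.un hκ r x'.r, Rq.un_le_left hκ r x'.r, t, ht1, ?_⟩
      exact RO.mem_of_le (Mt.lit hκ hx').1 ht2)
    (by
      rintro s0 s1 - - r - - a g z z' w hag ⟨hz, hz1⟩ ⟨hw, hw1⟩ ⟨hz', hz1'⟩ ⟨-, hw1'⟩
      have hag' : od a < od g := od_lt_od.2 hag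
      have k1 : z ≤ w := FF_cmp A hch hz1 hw1 (by rw [hz, hw]; exact hag'.le)
      have k2 : z' ≤ w := FF_cmp A hch hz1' hw1' (by rw [hz', hw]; exact hag'.le)
      exact le_antisymm (tr_cmp A k1 k2 (by rw [hz, hz'])) (tr_cmp A k2 k1 (by rw [hz, hz'])))
  obtain ⟨r', hr', hd⟩ := mt_dense hκ ν.ord.ToType (by rw [mk_ord_toType]; exact hν)
    (fun (a : ν.ord.ToType) (x : Mt K X κ) => ∃ t, ht t = od a ∧ x ∈ FF e t)
    (by
      rintro j x y hxy ⟨t, ht1, ht2⟩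
      exact ⟨t, ht1, RO.mem_of_le hxy ht2⟩)
    (⟨p1, r1⟩ : Mt K X κ)
    (by
      intro j x hx
      obtain ⟨x', hx', t, ht1, ht2⟩ := dens x (le_trans hx (Mt.mk_le hp1 hr1)) (od j) (od_lt j)
      exact ⟨x', hx', t, ht1, ht2⟩)
  have hd' : ∀ j : ν.ord.ToType, ∃ s, s ≤ p1 ∧ ∃ t, ht t = od j ∧
      (⟨s, r'⟩ : Mt K X κ) ∈ FF e t := by
    intro j
    obtain ⟨s, hs, t, ht1, ht2⟩ := hd j p1 le_rfl
    exact ⟨s, hs, t, ht1, ht2⟩
  choose s hs u hu1 hu2 using hd'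
  have hu3 : ∀ j (s' : Coh K), s' ≤ p1 → ∀ t, ht t = od j →
      (⟨s', r'⟩ : Mt K X κ) ∈ FF e t → t = u j := fun j s' hs' t ht1 ht2 =>
    huniq r' hr' s' (s j) hs' (hs j) trivial j t (u j) ⟨ht1, ht2⟩ ⟨hu1 j, hu2 j⟩
  have hmono : ∀ i j, i < j → u i ≤ u j := by
    intro i j hij
    obtain ⟨s', hs', t, ht1, ht2⟩ := hd j (s i) (hs i)
    have ht3 : t = u j := hu3 j s' (hs'.trans (hs i)) t ht1 ht2
    subst ht3
    refine FF_cmp A hch (RO.mem_of_le (Mt.mk_le hs' le_rfl) (hu2 i)) ht2 ?_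
    rw [hu1 i, ht1]
    exact (od_lt_od.2 hij).le
  have hinj : Function.Injective u := by
    intro i j hij
    apply od_inj
    rw [← hu1 i, ← hu1 j, hij]
  have hchain : IsChain (· ≤ ·) (Set.range u) := by
    rintro _ ⟨i, rfl⟩ _ ⟨j, rfl⟩ -
    rcases lt_trichotomy i j with h | h | h
    · exact Or.inl (hmono i j h)
    · rw [h]
      exact Or.inl le_rfl
    · exact Or.inr (hmono j i h)
  have hfin := A.chain _ hchain
  rw [Cardinal.mk_range_eq u hinj, mk_ord_toType] at hfin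
  exact lt_irrefl _ hfin

end Pool.Agent.LibMA62
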