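import Pool.Agent.LibDm83.Sent

/-!
The truth values, in the Boolean-valued universe `V^B`, of the sentences on Aronszajn trees.

All quantifiers range over the whole universe `V^B`; the only primitive predicates are membership
and equality.
-/

set_option autoImplicit false

namespace Pool.Agent.LibMA62

open Pool.Agent.LibPlas90 Pool.Agent.LibPlas90.BSet Pool.Agent.LibTk83 Pool.Agent.LibDm83

variable {B : Type} [CompleteBooleanAlgebra B]

/-- `k` is a cardinal: an ordinal which does not inject into any of its elements. -/
noncomputable def isCard (k : BSet B) : B := isOrd k ⊓ all k fun a => (embeds k a)ᶜ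

/-- `k` is singular: for some `a ∈ k` there is a function `f` from `a` to `k` such that for each
`b ∈ k` there is `x ∈ a` with `b ∈ f(x)`. -/
noncomputable def isSing (k : BSet B) : B :=
  ex k fun a => ⨆ f : BSet B, isMap f a k ⊓
    all k fun b => ex a fun x => ex k fun y => rel f x y ⊓ mem b y

/-- `k'` is the least cardinal greater than the cardinal `k`: it is an ordinal, each of its elements
injects into `k`, and it does not inject into `k`. -/
noncomputable def isPlus (k k' : BSet B) : B :=
  isOrd k' ⊓ (all k' fun a => embeds a k) ⊓ (embeds k' k)ᶜ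

/-- `(T, R)` is a tree of height `l` with the height function `h`: `h` is a function from `T` to `l`
which is strictly increasing; `R` is transitive; the predecessors of an element are comparable;
below each element of height `b` there is an element of each height `a ∈ b`; there are elements of
each height `a ∈ l`. -/
noncomputable def isTree (l T R h : BSet B) : B :=
  isMap h T l ⊓
  (all T fun s => all T fun t => rel R s t ⇨
    all l fun a => all l fun b => rel h s a ⊓ rel h t b ⇨ mem a b) ⊓
  (all T fun s => all T fun t => all T fun u => rel R s t ⊓ rel R t u ⇨ rel R s u) ⊓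
  (all T fun s => all T fun u => all T fun t => rel R s t ⊓ rel R u t ⇨
    rel R s u ⊔ eq s u ⊔ rel R u s) ⊓
  (all T fun t => all l fun b => rel h t b ⇨ all b fun a => ex T fun s => rel R s t ⊓ rel h s a) ⊓
  (all l fun a => ex T fun t => rel h t a)

/-- `L` is the set of the elements of `T` of height `a`. -/
noncomputable def isLevel (T h a L : BSet B) : B :=
  sub L T ⊓ all T fun t => equiv (mem t L) (rel h t a)

/-- All levels have cardinality less than `l`: they inject into some element of `l`. -/
noncomputable def smallLev (l T h : BSet B) : B :=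
  all l fun a => ⨆ L : BSet B, isLevel T h a L ⊓ ex l fun c => embeds L c

/-- `C` is a chain of the tree. -/
noncomputable def isChn (T R C : BSet B) : B :=
  sub C T ⊓ all C fun s => all C fun t => rel R s t ⊔ eq s t ⊔ rel R t s

/-- There is no chain of cardinality `l`: `l` does not inject into any chain. -/
noncomputable def noBranch (l T R : BSet B) : B :=
  ⨅ C : BSet B, isChn T R C ⇨ (embeds l C)ᶜ

/-- There is an `l`-Aronszajn tree. -/
noncomputable def isAron (l : BSet B) : B :=
  ⨆ T : BSet B, ⨆ R : BSet B, ⨆ h : BSet B, isTree l T R h ⊓ smallLev l T h ⊓ noBranch l T R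

/-- `x` is a cardinal and there is an `x⁺⁺`-Aronszajn tree. -/
noncomputable def Tk (x : BSet B) : B :=
  isCard x ⊓ ⨆ k1 : BSet B, ⨆ k2 : BSet B, isPlus x k1 ⊓ isPlus k1 k2 ⊓ isAron k2

/-- `k` is a counterexample: it is a singular cardinal of uncountable cofinality, the set of the
cardinals `x ∈ k` such that there is an `x⁺⁺`-Aronszajn tree is stationary in `k`, and there is no
`k⁺⁺`-Aronszajn tree. -/
noncomputable def isCex (k : BSet B) : B :=
  isCard k ⊓ isSing k ⊓ (isCofOmega k)ᶜ ⊓ stat k Tk ⊓
    ⨆ k1 : BSet B, ⨆ k2 : BSet B, isPlus k k1 ⊓ isPlus k1 k2 ⊓ (isAron k2)ᶜ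

end Pool.Agent.LibMA62
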