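import Pool.Agent.LibTk83.V1

/-! Names: separation, relations between members of general names, initial segments. -/

namespace Pool.Agent.LibMA62

open Pool.Agent.LibPlas90 Pool.Agent.LibPlas90.BSet Pool.Agent.LibTk83

variable {B : Type} [CompleteBooleanAlgebra B]

/-- The name of the set of the members of `T` with `φ`. -/
def sep : BSet B → (BSet B → B) → BSet B
  | mk ι A b, φ => mk ι A (fun i => b i ⊓ φ (A i))

theorem mem_sep {φ : BSet B → B} (h : Ext φ) (T t : BSet B) :
    mem t (sep T φ) = mem t T ⊓ φ t := by
  cases T with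
  | mk ι A b =>
    rw [sep, mem_mk, mem_mk, iSup_inf_eq]
    refine iSup_congr fun i => ?_
    apply le_antisymm
    · refine le_inf (le_inf (inf_le_left.trans inf_le_left) inf_le_right) ?_
      refine le_trans (le_inf ?_ (inf_le_left.trans inf_le_right)) (h (A i) t)
      rw [eq_symm]
      exact inf_le_right
    · refine le_inf (le_inf (inf_le_left.trans inf_le_left) ?_) (inf_le_left.trans inf_le_right)
      exact le_trans (le_inf (inf_le_left.trans inf_le_right) inf_le_right) (h t (A i))

theorem sub_sep {φ : BSet B → B} (h : Ext φ) (T : BSet B) : sub (sep T φ) T = ⊤ := by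
  rw [eq_top_iff]
  refine le_iInf fun t => ?_
  rw [mem_sep h, le_himp_iff, top_inf_eq]
  exact inf_le_left

/-- The name of the relation `r` between the members of `T` and the members of `S`. -/
def relS : BSet B → BSet B → (BSet B → BSet B → B) → BSet B
  | mk ι A a, mk κ C c, r => mk (ι × κ) (fun p => opr (A p.1) (C p.2))
      (fun p => a p.1 ⊓ c p.2 ⊓ r (A p.1) (C p.2))

theorem rel_relS {r : BSet B → BSet B → B} (h1 : ∀ y, Ext (fun x => r x y))
    (h2 : ∀ x, Ext (fun y => r x y)) (T S x y : BSet B) :
    rel (relS T S r) x y = mem x T ⊓ mem y S ⊓ r x y := by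
  cases T with
  | mk ι A a =>
  cases S with
  | mk κ C c =>
    rw [rel_eq, relS, mem_mk, mem_mk, mem_mk, iSup_prod, iSup_inf_iSup, iSup_prod]
    simp only [iSup_inf_eq]
    refine iSup_congr fun i => iSup_congr fun j => ?_
    simp only [eq_opr]
    have k1 := h1 y (A i) x
    have k2 := h2 (A i) (C j) y
    have k3 := h1 y x (A i)
    have k4 := h2 (A i) y (C j)
    simp only at k1 k2 k3 k4
    apply le_antisymm
    · refine le_inf (le_inf (le_inf ?_ ?_) (le_inf ?_ ?_)) ?_
      · exact inf_le_left.trans (inf_le_left.trans inf_le_left)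
      · exact inf_le_right.trans inf_le_left
      · exact inf_le_left.trans (inf_le_left.trans inf_le_right)
      · exact inf_le_right.trans inf_le_right
      · refine le_trans (le_inf ?_ (le_trans (le_inf ?_ ?_) k2)) k1
        · rw [eq_symm (A i) x]; exact inf_le_right.trans inf_le_left
        · rw [eq_symm (C j) y]; exact inf_le_right.trans inf_le_right
        · exact inf_le_left.trans inf_le_right
    · refine le_inf (le_inf (le_inf ?_ ?_) ?_) (le_inf ?_ ?_)
      · exact inf_le_left.trans (inf_le_left.trans inf_le_left)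
      · exact inf_le_left.trans (inf_le_right.trans inf_le_left)
      · refine le_trans (le_inf ?_ (le_trans (le_inf ?_ inf_le_right) k3)) k4
        · exact inf_le_left.trans (inf_le_right.trans inf_le_right)
        · exact inf_le_left.trans (inf_le_left.trans inf_le_right)
      · exact inf_le_left.trans (inf_le_left.trans inf_le_right)
      · exact inf_le_left.trans (inf_le_right.trans inf_le_right)

theorem eq_of_mem {x y : BSet B} (h : ∀ t, mem t x = mem t y) : eq x y = ⊤ := by
  rw [eq_top_iff]
  refine le_eq_of_forall _ _ _ (fun t => ?_) (fun t => ?_)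
  · rw [h t]; exact inf_le_right
  · rw [h t]; exact inf_le_right

variable {J K : Type} [LinearOrder J] [WellFoundedLT J] [LinearOrder K] [WellFoundedLT K]

/-- Members of isomorphic initial segments have the same name. -/
theorem eq_chk_of_emb (f : J → K) (hf : StrictMono f) (hi : ∀ j k, k < f j → ∃ i, f i = k) (j : J) :
    eq (chk (f j) : BSet B) (chk j) = ⊤ := by
  induction j using WellFoundedLT.induction with
  | ind j ih =>
    refine eq_of_mem fun t => ?_
    rw [mem_chk, mem_chk]
    apply le_antisymm
    · refine iSup₂_le fun k hk => ?_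
      obtain ⟨i, rfl⟩ := hi j k hk
      have hij : i < j := hf.lt_iff_lt.1 hk
      refine le_iSup₂_of_le i hij ?_
      calc eq t (chk (f i)) ≤ eq t (chk (f i)) ⊓ eq (chk (f i)) (chk i) := by
            rw [ih i hij, inf_top_eq]
        _ ≤ eq t (chk i) := eq_trans _ _ _
    · refine iSup₂_le fun i hij => ?_
      refine le_iSup₂_of_le (f i) (hf hij) ?_
      calc eq t (chk i) ≤ eq t (chk i) ⊓ eq (chk i) (chk (f i)) := by
            rw [eq_symm (chk i) (chk (f i)), ih i hij, inf_top_eq]
        _ ≤ eq t (chk (f i)) := eq_trans _ _ _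

/-- If the elements of `J` are order isomorphic to the elements below `a`, then `ck J` is `chk a`. -/
theorem eq_ck_chk (a : K) (f : J → K) (hf : StrictMono f) (hi : ∀ k, k < a ↔ ∃ i, f i = k) :
    eq (ck B J) (chk a) = ⊤ := by
  have hi' : ∀ j k, k < f j → ∃ i, f i = k := fun j k hk =>
    (hi k).1 (hk.trans ((hi (f j)).2 ⟨j, rfl⟩))
  refine eq_of_mem fun t => ?_
  rw [mem_ck, mem_chk]
  apply le_antisymm
  · refine iSup_le fun j => ?_
    refine le_iSup₂_of_le (f j) ((hi _).2 ⟨j, rfl⟩) ?_
    calc eq t (chk j) ≤ eq t (chk j) ⊓ eq (chk j) (chk (f j)) := by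
          rw [eq_symm (chk j) (chk (f j)), eq_chk_of_emb f hf hi', inf_top_eq]
      _ ≤ eq t (chk (f j)) := eq_trans _ _ _
  · refine iSup₂_le fun k hk => ?_
    obtain ⟨i, rfl⟩ := (hi k).1 hk
    refine le_iSup_of_le i ?_
    calc eq t (chk (f i)) ≤ eq t (chk (f i)) ⊓ eq (chk (f i)) (chk i) := by
          rw [eq_chk_of_emb f hf hi', inf_top_eq]
      _ ≤ eq t (chk i) := eq_trans _ _ _

end Pool.Agent.LibMA62
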