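import Pool.Agent.LibMA62.Sent
import Pool.Agent.LibTk83.V13
import Pool.Agent.LibDm83.VB1

/-! Row V1: the formulas respect equality. Combinators `Ext.const`, `Ext.inf`, `Ext.compl`, `Ext.himp`,
`Ext.iSup`, `Ext.iInf`, `Ext.all`, `Ext.ex` (`LibPlas90/BBasic.lean`), `Ext.rel1`, `Ext.rel2`
(`LibPlas90/Pairs.lean`), `Ext_all_left`, `Ext_ex_left`, `Ext_all`, `Ext_ex`, `Ext_sub_left`
(`LibTk83/V0.lean`), `Ext_isInj_2`, `Ext_isInj_3`, `Ext_embeds_left` (`LibTk83/V13.lean`), `Ext_isTrans`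
(`LibDm83/VB1.lean`; examples there). -/

set_option autoImplicit false

namespace Pool.Agent.LibMA62

open Pool.Agent.LibPlas90 Pool.Agent.LibPlas90.BSet Pool.Agent.LibTk83 Pool.Agent.LibDm83

variable {B : Type} [CompleteBooleanAlgebra B]

theorem Ext_embeds_right (X : BSet B) : Ext (fun Y => embeds X Y) :=
  Ext.iSup fun f => Ext_isInj_3 f X

theorem Ext_isOrd : Ext (isOrd : BSet B → B) :=
  Ext.inf Ext_isTrans (Ext_all_left isTrans)

/-- `all k fun a => (embeds k a)ᶜ` respects equality in `k`: `Ext_all` with `φ k a := (embeds k a)ᶜ`. -/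
theorem Ext_isCard : Ext (isCard : BSet B → B) :=
  Ext.inf Ext_isOrd (Ext_all (φ := fun k a => (embeds k a)ᶜ) fun a => Ext.compl (Ext_embeds_left a))

theorem Ext_isPlus_left (k' : BSet B) : Ext (fun k => isPlus k k') :=
  Ext.inf (Ext.inf (Ext.const _) (Ext.all (R := k') (φ := fun k a => embeds a k) fun a => Ext_embeds_right a))
    (Ext.compl (Ext_embeds_right k'))

theorem Ext_Tk : Ext (Tk : BSet B → B) :=
  Ext.inf Ext_isCard (Ext.iSup fun k1 => Ext.iSup fun _ =>
    Ext.inf (Ext.inf (Ext_isPlus_left k1) (Ext.const _)) (Ext.const _))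

/-- The formula in `isTree`. -/
theorem Ext_down (T R h t : BSet B) :
    Ext (fun b => rel h t b ⇨ all b fun a => ex T fun s => rel R s t ⊓ rel h s a) :=
  Ext.himp (Ext.rel2 h t) (Ext_all_left _)

theorem Ext_isLevel_a (T h L : BSet B) : Ext (fun a => isLevel T h a L) :=
  Ext.inf (Ext.const _) (Ext.all (R := T) (φ := fun a t => equiv (mem t L) (rel h t a)) fun t =>
    Ext.inf (Ext.himp (Ext.const _) (Ext.rel2 h t)) (Ext.himp (Ext.rel2 h t) (Ext.const _)))

/-- The formula in `smallLev`. -/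
theorem Ext_small (l T h : BSet B) :
    Ext (fun a => ⨆ L : BSet B, isLevel T h a L ⊓ ex l fun c => embeds L c) :=
  Ext.iSup fun L => Ext.inf (Ext_isLevel_a T h L) (Ext.const _)

end Pool.Agent.LibMA62
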