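import Pool.Agent.LibMA62.V1
import Pool.Agent.LibMA62.P2
import Pool.Agent.LibTk83.V5
import Pool.Agent.LibDm83.VB6

/-! Row V2: relations and injections of the ground model; no new injections.

`rel_relV`: `rel_relN`, `eq_chk`, `eq_refl` (as `V5_rel` in `LibTk83/V5.lean`).
`embeds_ck_of_inj`, `embeds_chk_of_inj`: `embeds_of_BInj` (`LibTk83/V5.lean`) with `c := ⊤`, `s := fun _ => ⊤`,
`A := chk` (for `chk a`: index type `{j // j < a}`, `A j := chk j.1`, `chk_eq`), `r i j := if f i = j then ⊤ else ⊥`;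
`eq (chk i) (chk i') = ⊥` for `i ≠ i'` (`eq_chk`).
`isInj_tot`, `isInj_inj` and `embeds_ck_bot`: as in `LibTk83/V6.lean`: for a name `f` put
`e x y := isInj f (ck B J) (ck B K) ⊓ rel f (chk x) (chk y)`; then `isInj ... ≤ ⨅ x, ⨆ y, e x y` (totality: `all_ck`,
`ex_ck`) and `e x y ⊓ e x' y ≤ eq (chk x) (chk x') = ⊥`; use `noinj hc`.
`embeds_ck_chk_bot`: the same with `Y := {b : K // b < a}` and `ex_chk`, `all_chk` (`LibDm83/VB1.lean`). -/

set_option autoImplicit false

namespace Pool.Agent.LibMA62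

open Cardinal Set Pool.Agent.LibPlas90 Pool.Agent.LibPlas90.BSet Pool.Agent.LibTk83
  Pool.Agent.LibDm83

variable {B : Type} [CompleteBooleanAlgebra B] {J K : Type} [LinearOrder J] [WellFoundedLT J]
  [LinearOrder K] [WellFoundedLT K]

open Classical in
/-- The name of a relation of the ground model. -/
noncomputable def relV (B : Type) [CompleteBooleanAlgebra B] (ρ : J → K → Prop) : BSet B :=
  relN chk chk (fun j k => if ρ j k then ⊤ else ⊥)

open Classical in
theorem rel_relV (ρ : J → K → Prop) (j : J) (k : K) :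
    rel (relV B ρ) (chk j) (chk k) = if ρ j k then ⊤ else ⊥ := by
  unfold relV
  rw [rel_relN]
  apply le_antisymm
  · refine iSup_le fun i => iSup_le fun l => ?_
    by_cases hi : j = i
    · subst hi
      by_cases hl : k = l
      · subst hl
        exact inf_le_left
      · rw [eq_chk hl, inf_bot_eq, inf_bot_eq]
        exact bot_le
    · rw [eq_chk hi, bot_inf_eq, inf_bot_eq]
      exact bot_le
  · refine le_iSup_of_le j (le_iSup_of_le k ?_)
    rw [BSet.eq_refl, BSet.eq_refl, inf_top_eq, inf_top_eq]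

private theorem V2_le_all_ck {I : Type} [LinearOrder I] [WellFoundedLT I] {φ : BSet B → B}
    (h : Ext φ) {c : B} (H : ∀ j : I, c ≤ φ (chk j)) : c ≤ all (ck B I) φ := by
  rw [all_ck h]
  exact le_iInf H

theorem isMap_relV (f : J → K) : isMap (relV B fun j k => f j = k) (ck B J) (ck B K) = ⊤ := by
  unfold isMap
  refine top_le_iff.1 (le_inf ?_ ?_)
  · refine V2_le_all_ck (Ext.ex fun y => Ext.rel1 _ y) fun j => ?_
    rw [ex_ck (Ext.rel2 _ _)]
    refine le_iSup_of_le (f j) ?_
    rw [rel_relV, if_pos rfl]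
  · refine V2_le_all_ck (Ext.all fun y => Ext.all fun y' =>
      Ext.himp (Ext.inf (Ext.rel1 _ y) (Ext.rel1 _ y')) (Ext.const _)) fun j => ?_
    refine V2_le_all_ck (Ext.all fun y' => Ext.himp (Ext.inf (Ext.rel2 _ _) (Ext.const _))
      (Ext.eq_left y')) fun k => ?_
    refine V2_le_all_ck (Ext.himp (Ext.inf (Ext.const _) (Ext.rel2 _ _))
      (Ext.eq_right _)) fun k' => ?_
    rw [le_himp_iff, rel_relV, rel_relV]
    by_cases hk : f j = k
    · by_cases hk' : f j = k'
      · rw [← hk, ← hk', BSet.eq_refl]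
        exact le_top
      · rw [if_neg hk', inf_bot_eq, inf_bot_eq]
        exact bot_le
    · rw [if_neg hk, bot_inf_eq, inf_bot_eq]
      exact bot_le

/-- names indexed by a type, with an injection into a well-ordered type -/
private theorem V2_emb {ι : Type} (A : ι → BSet B) (hA : ∀ i i', i ≠ i' → eq (A i) (A i') = ⊥)
    (f : ι → K) (hf : Function.Injective f) : embeds (mk ι A fun _ => ⊤) (ck B K) = ⊤ := by
  classical
  refine top_le_iff.1 (embeds_of_BInj (r := fun i k => if f i = k then ⊤ else ⊥) ?_)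
  refine ⟨fun i => ?_, fun i i' j => ?_, fun i j j' hj => ?_, fun i i' j => ?_⟩
  · refine le_iSup_of_le (f i) ?_
    simp only [if_true]
    exact le_top
  · by_cases hi : i = i'
    · subst hi
      exact inf_le_right
    · simp only [hA i i' hi, inf_bot_eq, bot_inf_eq]
      exact bot_le
  · by_cases h1 : f i = j
    · have h2 : ¬ f i = j' := fun h => hj (h1.symm.trans h)
      simp only [if_neg h2, inf_bot_eq]
      exact le_rfl
    · simp only [if_neg h1, inf_bot_eq, bot_inf_eq]
      exact le_rfl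
  · by_cases hi : i = i'
    · subst hi
      rw [BSet.eq_refl]
      exact le_top
    · by_cases h1 : f i = j
      · have h2 : ¬ f i' = j := fun h => hi (hf (h1.trans h.symm))
        simp only [if_neg h2, inf_bot_eq]
        exact bot_le
      · simp only [if_neg h1, inf_bot_eq, bot_inf_eq]
        exact bot_le

theorem embeds_ck_of_inj (f : J → K) (hf : Function.Injective f) :
    embeds (ck B J) (ck B K) = ⊤ :=
  V2_emb chk (fun _ _ h => eq_chk h) f hf

theorem embeds_chk_of_inj (a : J) (f : {j // j < a} → K) (hf : Function.Injective f) :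
    embeds (chk a) (ck B K) = ⊤ := by
  rw [chk_eq a]
  exact V2_emb (fun j : {j // j < a} => chk j.1)
    (fun i i' h => eq_chk fun h' => h (Subtype.ext h')) f hf

variable {κ : Cardinal.{0}}

private theorem V2_all_le {I : Type} [LinearOrder I] [WellFoundedLT I] {φ : BSet B → B} (j : I) :
    all (ck B I) φ ≤ φ (chk j) := by
  unfold all
  refine (iInf_le _ (chk j)).trans ?_
  rw [mem_chk_ck, top_himp]

private theorem V2_all_le' {I : Type} [LinearOrder I] [WellFoundedLT I] {φ : BSet B → B} {a j : I}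
    (h : j < a) : all (chk a) φ ≤ φ (chk j) := by
  unfold all
  refine (iInf_le _ (chk j)).trans ?_
  rw [mem_chk_of_lt h, top_himp]

/-- An injection is total. -/
private theorem V2_tot (f : BSet B) (j : J) :
    isInj f (ck B J) (ck B K) ≤ ⨆ k : K, rel f (chk j) (chk k) := by
  rw [← ex_ck (Ext.rel2 f (chk j))]
  unfold isInj isMap
  exact (inf_le_left.trans inf_le_left).trans (V2_all_le (B := B) j)

/-- An injection is injective. -/
private theorem V2_inj (f : BSet B) {j j' : J} (k : K) (h : j ≠ j') :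
    isInj f (ck B J) (ck B K) ⊓ (rel f (chk j) (chk k) ⊓ rel f (chk j') (chk k)) = ⊥ := by
  rw [← le_bot_iff, ← eq_chk (B := B) h, ← le_himp_iff]
  unfold isInj isMap
  refine inf_le_right.trans ?_
  exact ((V2_all_le (B := B) j).trans (V2_all_le (B := B) j')).trans (V2_all_le (B := B) k)

private theorem V2_tot' (f : BSet B) (a : K) (j : J) :
    isInj f (ck B J) (chk a) ≤ ⨆ k : {b : K // b < a}, rel f (chk j) (chk k.1) := by
  have h1 : isInj f (ck B J) (chk a) ≤ ex (chk a) fun y => rel f (chk j) y := by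
    unfold isInj isMap
    exact (inf_le_left.trans inf_le_left).trans (V2_all_le (B := B) j)
  refine h1.trans ?_
  rw [ex_chk (Ext.rel2 f (chk j)), iSup_subtype]

private theorem V2_inj' (f : BSet B) (a : K) {j j' : J} {k : K} (hk : k < a) (h : j ≠ j') :
    isInj f (ck B J) (chk a) ⊓ (rel f (chk j) (chk k) ⊓ rel f (chk j') (chk k)) = ⊥ := by
  rw [← le_bot_iff, ← eq_chk (B := B) h, ← le_himp_iff]
  unfold isInj isMap
  refine inf_le_right.trans ?_
  exact ((V2_all_le (B := B) j).trans (V2_all_le (B := B) j')).trans (V2_all_le' (B := B) hk)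

theorem embeds_ck_bot
    (hc : ∀ (J V : Type) (e : J → V → B), #J ≤ κ →
      (∀ j v v', v ≠ v' → e j v ⊓ e j v' = ⊥) →
      (⨆ S : {S : J → Set V // ∀ j, (S j).Countable}, ⨅ j, ⨅ v, ⨅ (_ : v ∉ S.1 j), (e j v)ᶜ) = ⊤)
    (hK : #K ≤ κ) (hKJ : #K < #J) (hJ : ℵ₀ < #J) : embeds (ck B J) (ck B K) = ⊥ := by
  rw [← le_bot_iff]
  refine iSup_le fun f => ?_
  have h1 := noinj hc J K hK hKJ hJ
    (fun x y => isInj f (ck B J) (ck B K) ⊓ rel f (chk x) (chk y)) (fun x x' y h => by
    rw [← le_bot_iff, ← V2_inj f y h]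
    refine le_inf (inf_le_left.trans inf_le_left) (le_inf ?_ ?_)
    · exact inf_le_left.trans inf_le_right
    · exact inf_le_right.trans inf_le_right)
  rw [← h1]
  refine le_iInf fun x => ?_
  rw [← inf_iSup_eq]
  exact le_inf le_rfl (V2_tot f x)

theorem embeds_ck_chk_bot
    (hc : ∀ (J V : Type) (e : J → V → B), #J ≤ κ →
      (∀ j v v', v ≠ v' → e j v ⊓ e j v' = ⊥) →
      (⨆ S : {S : J → Set V // ∀ j, (S j).Countable}, ⨅ j, ⨅ v, ⨅ (_ : v ∉ S.1 j), (e j v)ᶜ) = ⊤)
    (a : K) (hK : #{b : K // b < a} ≤ κ) (hKJ : #{b : K // b < a} < #J) (hJ : ℵ₀ < #J) :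
    embeds (ck B J) (chk a) = ⊥ := by
  rw [← le_bot_iff]
  refine iSup_le fun f => ?_
  have h1 := noinj hc J {b : K // b < a} hK hKJ hJ
    (fun x y => isInj f (ck B J) (chk a) ⊓ rel f (chk x) (chk y.1)) (fun x x' y h => by
    rw [← le_bot_iff, ← V2_inj' f a y.2 h]
    refine le_inf (inf_le_left.trans inf_le_left) (le_inf ?_ ?_)
    · exact inf_le_left.trans inf_le_right
    · exact inf_le_right.trans inf_le_right)
  rw [← h1]
  refine le_iInf fun x => ?_
  rw [← inf_iSup_eq]
  exact le_inf le_rfl (V2_tot' f a x)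

end Pool.Agent.LibMA62
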