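import Pool.Agent.LibMA62.V2
import Pool.Agent.LibMA62.MDef

/-! Row V3: cardinals and successors.

`isCard_ck`: `isOrd_ck` (`LibDm83/VB6.lean`); `all_ck` (with `Ext.compl (Ext_embeds_right _)`) and
`embeds_ck_chk_bot`. `isPlus_ck`: `all_ck` (`Ext_embeds_left`), `embeds_chk_of_inj` (an injection of
`{b // b < a}` into `J` exists because `#{b // b < a} ≤ #J`), `embeds_ck_bot`.
`isPlus_K`: `(embeds (ck B K) (ck B Th))ᶜ = ⊤`: as in `embeds_ck_bot` with `M.noinj2` instead of `noinj`
(for a name `f` put `e x y := isInj f (ck B K) (ck B Th) ⊓ rel f (chk x) (chk y)`). `embeds (chk a) (ck B Th) = ⊤` for `a : K`: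
`M.col a` gives `e`; `embeds_of_BInj` (`LibTk83/V5.lean`) with `c := ⊤`, index type `{j : K // j < a}`, `s := fun _ => ⊤`,
`A j := chk j.1` (`chk_eq`), `r j y := e j.1 y` (`tot`: `(⨆ y, e i y) = ⊤`; `ext`: `E i i' = eq (chk i) (chk i')` is `⊥` for
`i ≠ i'` by `eq_chk`; `func`, `inj` from `M.col`). -/

set_option autoImplicit false

namespace Pool.Agent.LibMA62

open Cardinal Set Pool.Agent.LibPlas90 Pool.Agent.LibPlas90.BSet Pool.Agent.LibTk83
  Pool.Agent.LibDm83

variable {B : Type} [CompleteBooleanAlgebra B] {κ : Cardinal.{0}} {Th K J J' : Type}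
  [LinearOrder Th] [WellFoundedLT Th] [LinearOrder K] [WellFoundedLT K] [LinearOrder J]
  [WellFoundedLT J] [LinearOrder J'] [WellFoundedLT J']

omit [WellFoundedLT Th] [LinearOrder Th] [LinearOrder K] [WellFoundedLT K] in
private theorem V3_all_le {φ : BSet B → B} (j : J) :
    all (ck B J) φ ≤ φ (chk j) := by
  unfold all
  refine (iInf_le _ (chk j)).trans ?_
  rw [mem_chk_ck, top_himp]

/-- An injection is total. -/
private theorem V3_tot (f : BSet B) (j : J) :
    isInj f (ck B J) (ck B J') ≤ ⨆ k : J', rel f (chk j) (chk k) := by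
  rw [← ex_ck (Ext.rel2 f (chk j))]
  unfold isInj isMap
  exact (inf_le_left.trans inf_le_left).trans (V3_all_le (B := B) j)

/-- An injection is injective. -/
private theorem V3_inj (f : BSet B) {j j' : J} (k : J') (h : j ≠ j') :
    isInj f (ck B J) (ck B J') ⊓ (rel f (chk j) (chk k) ⊓ rel f (chk j') (chk k)) = ⊥ := by
  rw [← le_bot_iff, ← eq_chk (B := B) h, ← le_himp_iff]
  unfold isInj isMap
  refine inf_le_right.trans ?_
  exact ((V3_all_le (B := B) j).trans (V3_all_le (B := B) j')).trans (V3_all_le (B := B) k)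

theorem isCard_ck (M : MM B κ Th K) (hJ : #J ≤ κ) (hJ0 : ℵ₀ < #J) (hini : ∀ a : J, #(Iio a) < #J) :
    isCard (ck B J) = ⊤ := by
  unfold isCard
  rw [isOrd_ck, top_inf_eq, all_ck (Ext.compl (Ext_embeds_right (ck B J)))]
  refine top_le_iff.mp (le_iInf fun a => ?_)
  have h1 : #{b : J // b < a} < #J := hini a
  rw [embeds_ck_chk_bot M.cover a (h1.le.trans hJ) h1 hJ0, compl_bot]

theorem isPlus_ck (M : MM B κ Th K) (hJ : #J ≤ κ) (hJJ : #J < #J') (hJ0 : ℵ₀ < #J')
    (hini : ∀ a : J', #(Iio a) ≤ #J) : isPlus (ck B J) (ck B J') = ⊤ := by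
  unfold isPlus
  rw [isOrd_ck, top_inf_eq, embeds_ck_bot M.cover hJ hJJ hJ0, compl_bot, inf_top_eq,
    all_ck (Ext_embeds_left (ck B J))]
  refine top_le_iff.mp (le_iInf fun a => ?_)
  have h1 : #{b : J' // b < a} ≤ #J := hini a
  obtain ⟨f⟩ := (Cardinal.le_def _ _).1 h1
  rw [embeds_chk_of_inj a f f.injective]

theorem isPlus_K (M : MM B κ Th K) : isPlus (ck B Th) (ck B K) = ⊤ := by
  unfold isPlus
  rw [isOrd_ck, top_inf_eq, all_ck (Ext_embeds_left (ck B Th))]
  refine top_le_iff.mp (le_inf (le_iInf fun a => ?_) ?_)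
  · obtain ⟨e, h1, h2, h3⟩ := M.col a
    rw [chk_eq]
    refine embeds_of_BInj (r := fun (j : {j // j < a}) y => e j.1 y) ?_
    refine ⟨fun i => ?_, fun i i' j => ?_, fun i j j' hj => ?_, fun i i' j => ?_⟩
    · rw [h1 i.1 i.2]
      exact le_top
    · by_cases hi : i = i'
      · subst hi
        exact inf_le_right
      · have hi' : i.1 ≠ i'.1 := fun h => hi (Subtype.ext h)
        rw [eq_chk hi']
        exact (inf_le_left.trans inf_le_right).trans bot_le
    · rw [← h2 i.1 j j' hj]
      exact le_inf (inf_le_left.trans inf_le_right) inf_le_right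
    · by_cases hi : i = i'
      · subst hi
        rw [BSet.eq_refl]
        exact le_top
      · have hi' : i.1 ≠ i'.1 := fun h => hi (Subtype.ext h)
        refine le_trans ?_ (bot_le (a := eq (chk i.1) (chk i'.1)))
        rw [← h3 i.1 i'.1 j hi']
        exact le_inf (inf_le_left.trans inf_le_right) inf_le_right
  · have hbot : embeds (ck B K) (ck B Th) = ⊥ := by
      rw [← le_bot_iff]
      refine iSup_le fun f => ?_
      have h1 := M.noinj2 (fun x y => isInj f (ck B K) (ck B Th) ⊓ rel f (chk x) (chk y))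
        (fun x x' y h => by
          rw [← le_bot_iff, ← V3_inj f y h]
          refine le_inf (inf_le_left.trans inf_le_left) (le_inf ?_ ?_)
          · exact inf_le_left.trans inf_le_right
          · exact inf_le_right.trans inf_le_right)
      rw [← h1]
      refine le_iInf fun x => ?_
      calc isInj f (ck B K) (ck B Th) ≤
          isInj f (ck B K) (ck B Th) ⊓ ⨆ y : Th, rel f (chk x) (chk y) := le_inf le_rfl (V3_tot f x)
        _ = _ := inf_iSup_eq _ _
    rw [hbot, compl_bot]

end Pool.Agent.LibMA62
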