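import Pool.Agent.LibMA62.V2
import Pool.Agent.LibMA62.MDef

/-! Row V5: a tree of the ground model is a tree with small levels in `V^B`.

`N := ν.ord.ToType`-like: a well-ordered type `N`; the heights are given by `hn : W → N` (`W` a well-ordered
type which enumerates the tree; the order of the tree is the relation `lt` on `W`). The names are `ck B W`,
`relV B lt`, `relV B fun v a => hn v = a`.
`isTree_ck`: unfold; each quantifier over `ck B W` / `ck B N` by `all_ck`, `ex_ck` (the formulas respect equality: `Ext.all`,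
`Ext.ex`, `Ext.himp`, `Ext.inf`, `Ext.sup`, `Ext.rel1`, `Ext.rel2`, `Ext.mem_left`, `Ext.mem_right`, `Ext.eq_left`, `Ext.eq_right`, `Ext_down`), quantifiers over
`chk b` by `all_chk`; then `rel_relV`, `mem_chk_chk`, `mem_chk_of_lt`, `eq_chk`, `eq_refl` and case distinctions.
`smallLev_ck`: for `a : N` take `L := sb (fun w : W => if hn w = a then ⊤ else ⊥)` (`LibDm83/VB1.lean`: `mem_sb`, `sub_sb_ck`,
`all_sb`); it is the level `a`. By `hlev` there are `c : N` and an injection of `{w // hn w = a}` into `{b : N // b < c}`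
(`#... ≤ #...`), which gives `embeds L (chk c) = ⊤`. For the latter: the name
`relV B fun w b => ∃ h : hn w = a, (g ⟨w, h⟩).1 = b`; `isInj` by `all_sb`, `all_chk`, `ex_chk`, `rel_relV`. -/

set_option autoImplicit false

namespace Pool.Agent.LibMA62

open Cardinal Set Pool.Agent.LibPlas90 Pool.Agent.LibPlas90.BSet Pool.Agent.LibTk83
  Pool.Agent.LibDm83

variable {B : Type} [CompleteBooleanAlgebra B] {W N : Type} [LinearOrder W] [WellFoundedLT W]
  [LinearOrder N] [WellFoundedLT N]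

private theorem V5_all_ck {J : Type} [LinearOrder J] [WellFoundedLT J] {φ : BSet B → B}
    (h : Ext φ) (H : ∀ j : J, φ (chk j) = ⊤) : all (ck B J) φ = ⊤ := by
  rw [all_ck h]
  exact iInf_eq_top.2 H

private theorem V5_ex_ck {J : Type} [LinearOrder J] [WellFoundedLT J] {φ : BSet B → B}
    (h : Ext φ) (j : J) (H : φ (chk j) = ⊤) : ex (ck B J) φ = ⊤ := by
  rw [ex_ck h]
  exact top_le_iff.1 (le_iSup_of_le j H.ge)

theorem isTree_ck (lt : W → W → Prop) (hn : W → N) (h1 : ∀ s t, lt s t → hn s < hn t)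
    (h2 : ∀ s t u, lt s t → lt t u → lt s u)
    (h3 : ∀ s u t, lt s t → lt u t → lt s u ∨ s = u ∨ lt u s)
    (h4 : ∀ t a, a < hn t → ∃ s, lt s t ∧ hn s = a) (h5 : ∀ a, ∃ t, hn t = a) :
    isTree (ck B N) (ck B W) (relV B lt) (relV B fun w a => hn w = a) = ⊤ := by
  classical
  unfold isTree
  rw [isMap_relV, top_inf_eq]
  refine top_le_iff.1 (le_inf (le_inf (le_inf (le_inf ?_ ?_) ?_) ?_) ?_)
  · refine (V5_all_ck (Ext.all fun t => Ext.himp (Ext.rel1 _ t) (Ext.all fun a => Ext.all fun b =>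
      Ext.himp (Ext.inf (Ext.rel1 _ a) (Ext.const _)) (Ext.const _))) fun s => ?_).ge
    refine V5_all_ck (Ext.himp (Ext.rel2 _ _) (Ext.all fun a => Ext.all fun b =>
      Ext.himp (Ext.inf (Ext.const _) (Ext.rel1 _ b)) (Ext.const _))) fun t => ?_
    rw [rel_relV]
    split_ifs with hst
    · rw [top_himp]
      refine V5_all_ck (Ext.all fun b =>
        Ext.himp (Ext.inf (Ext.rel2 _ _) (Ext.const _)) (Ext.mem_left b)) fun a => ?_
      refine V5_all_ck (Ext.himp (Ext.inf (Ext.const _) (Ext.rel2 _ _)) (Ext.mem_right _))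
        fun b => ?_
      rw [rel_relV, rel_relV]
      by_cases ha : hn s = a
      · by_cases hb : hn t = b
        · rw [mem_chk_of_lt (by rw [← ha, ← hb]; exact h1 s t hst), himp_top]
        · rw [if_neg hb, inf_bot_eq, bot_himp]
      · rw [if_neg ha, bot_inf_eq, bot_himp]
    · rw [bot_himp]
  · refine (V5_all_ck (Ext.all fun t => Ext.all fun u => Ext.himp (Ext.inf (Ext.rel1 _ t)
      (Ext.const _)) (Ext.rel1 _ u)) fun s => ?_).ge
    refine V5_all_ck (Ext.all fun u => Ext.himp (Ext.inf (Ext.rel2 _ _) (Ext.rel1 _ u))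
      (Ext.const _)) fun t => ?_
    refine V5_all_ck (Ext.himp (Ext.inf (Ext.const _) (Ext.rel2 _ _)) (Ext.rel2 _ _)) fun u => ?_
    rw [rel_relV, rel_relV, rel_relV]
    by_cases hst : lt s t
    · by_cases htu : lt t u
      · rw [if_pos (h2 s t u hst htu), himp_top]
      · rw [if_neg htu, inf_bot_eq, bot_himp]
    · rw [if_neg hst, bot_inf_eq, bot_himp]
  · refine (V5_all_ck (Ext.all fun u => Ext.all fun t => Ext.himp (Ext.inf (Ext.rel1 _ t)
      (Ext.const _)) (Ext.sup (Ext.sup (Ext.rel1 _ u) (Ext.eq_left u)) (Ext.rel2 _ u)))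
      fun s => ?_).ge
    refine V5_all_ck (Ext.all fun t => Ext.himp (Ext.inf (Ext.const _) (Ext.rel1 _ t))
      (Ext.sup (Ext.sup (Ext.rel2 _ _) (Ext.eq_right _)) (Ext.rel1 _ _))) fun u => ?_
    refine V5_all_ck (Ext.himp (Ext.inf (Ext.rel2 _ _) (Ext.rel2 _ _)) (Ext.const _)) fun t => ?_
    rw [rel_relV, rel_relV, rel_relV, rel_relV]
    by_cases hst : lt s t
    · by_cases hut : lt u t
      · rcases h3 s u t hst hut with h | h | h
        · rw [if_pos h, top_sup_eq, top_sup_eq, himp_top]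
        · rw [h, BSet.eq_refl, sup_top_eq, top_sup_eq, himp_top]
        · rw [if_pos h, sup_top_eq, himp_top]
      · rw [if_neg hut, inf_bot_eq, bot_himp]
    · rw [if_neg hst, bot_inf_eq, bot_himp]
  · refine (V5_all_ck (Ext.all fun b => Ext.himp (Ext.rel1 _ b) (Ext.all fun a => Ext.ex fun s =>
      Ext.inf (Ext.rel2 _ s) (Ext.const _))) fun t => ?_).ge
    refine V5_all_ck (Ext_down _ _ _ _) fun b => ?_
    rw [rel_relV]
    split_ifs with hb
    · rw [top_himp, all_chk (Ext.ex fun s => Ext.inf (Ext.const _) (Ext.rel2 _ s))]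
      refine iInf_eq_top.2 fun a => iInf_eq_top.2 fun ha => ?_
      obtain ⟨s, hs, hsa⟩ := h4 t a (by rw [hb]; exact ha)
      refine V5_ex_ck (Ext.inf (Ext.rel1 _ _) (Ext.rel1 _ _)) s ?_
      rw [rel_relV, rel_relV, if_pos hs, if_pos hsa, top_inf_eq]
    · rw [bot_himp]
  · refine (V5_all_ck (Ext.ex fun t => Ext.rel2 _ t) fun a => ?_).ge
    obtain ⟨t, ht⟩ := h5 a
    refine V5_ex_ck (Ext.rel1 _ _) t ?_
    rw [rel_relV, if_pos ht]

private theorem V5_embeds (hn : W → N) (a c : N)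
    (g : {w // hn w = a} ↪ {b : N // b < c}) :
    embeds (sb (B := B) fun w : W => if hn w = a then ⊤ else ⊥) (chk c) = ⊤ := by
  classical
  refine top_le_iff.1 (le_iSup_of_le
    (relV B fun (w : W) (b : N) => ∃ h : hn w = a, (g ⟨w, h⟩).1 = b) ?_)
  unfold isInj isMap
  refine le_inf (le_inf ?_ ?_) ?_
  · rw [all_sb (Ext.ex fun y => Ext.rel1 _ y)]
    refine le_iInf fun w => ?_
    by_cases hw : hn w = a
    · rw [if_pos hw, top_himp, ex_chk (Ext.rel2 _ _)]
      refine le_iSup₂_of_le (g ⟨w, hw⟩).1 (g ⟨w, hw⟩).2 ?_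
      rw [rel_relV, if_pos ⟨hw, rfl⟩]
    · rw [if_neg hw, bot_himp]
  · rw [all_sb (Ext.all fun y => Ext.all fun y' =>
      Ext.himp (Ext.inf (Ext.rel1 _ y) (Ext.rel1 _ y')) (Ext.const _))]
    refine le_iInf fun w => ?_
    rw [all_chk (Ext.all fun y' => Ext.himp (Ext.inf (Ext.rel2 _ _) (Ext.const _))
      (Ext.eq_left y'))]
    refine le_trans ?_ le_himp
    refine le_iInf₂ fun b hb => ?_
    rw [all_chk (Ext.himp (Ext.inf (Ext.const _) (Ext.rel2 _ _)) (Ext.eq_right _))]
    refine le_iInf₂ fun b' hb' => ?_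
    rw [rel_relV, rel_relV]
    by_cases h : ∃ h : hn w = a, (g ⟨w, h⟩).1 = b
    · by_cases h' : ∃ h : hn w = a, (g ⟨w, h⟩).1 = b'
      · obtain ⟨h0, e⟩ := h
        obtain ⟨h0', e'⟩ := h'
        have hbb : b = b' := e.symm.trans e'
        rw [hbb, BSet.eq_refl, himp_top]
      · rw [if_neg h', inf_bot_eq, bot_himp]
    · rw [if_neg h, bot_inf_eq, bot_himp]
  · rw [all_sb (Ext.all fun x' => Ext.all fun y =>
      Ext.himp (Ext.inf (Ext.rel1 _ y) (Ext.const _)) (Ext.eq_left x'))]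
    refine le_iInf fun w => ?_
    by_cases hw : hn w = a
    · rw [if_pos hw, top_himp, all_sb (Ext.all fun y =>
        Ext.himp (Ext.inf (Ext.const _) (Ext.rel1 _ y)) (Ext.eq_right _))]
      refine le_iInf fun w' => ?_
      refine le_trans ?_ le_himp
      rw [all_chk (Ext.himp (Ext.inf (Ext.rel2 _ _) (Ext.rel2 _ _)) (Ext.const _))]
      refine le_iInf₂ fun b hb => ?_
      rw [rel_relV, rel_relV]
      by_cases h : ∃ h : hn w = a, (g ⟨w, h⟩).1 = b
      · by_cases h' : ∃ h : hn w' = a, (g ⟨w', h⟩).1 = b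
        · obtain ⟨h0, e⟩ := h
          obtain ⟨h0', e'⟩ := h'
          have hww : w = w' := by
            have h1 : g ⟨w, h0⟩ = g ⟨w', h0'⟩ := Subtype.ext (e.trans e'.symm)
            exact congrArg Subtype.val (g.injective h1)
          rw [hww, BSet.eq_refl, himp_top]
        · rw [if_neg h', inf_bot_eq, bot_himp]
      · rw [if_neg h, bot_inf_eq, bot_himp]
    · rw [if_neg hw, bot_himp]

theorem smallLev_ck (hn : W → N) (hlev : ∀ a, ∃ c : N, #{w // hn w = a} ≤ #{b : N // b < c}) :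
    smallLev (ck B N) (ck B W) (relV B fun w a => hn w = a) = ⊤ := by
  classical
  unfold smallLev
  refine V5_all_ck (Ext_small _ _ _) fun a => ?_
  refine top_le_iff.1 (le_iSup_of_le (sb (B := B) fun w : W => if hn w = a then ⊤ else ⊥) ?_)
  refine le_inf (le_inf ?_ ?_) ?_
  · rw [sub_sb_ck]
  · refine (V5_all_ck (Ext.inf (Ext.himp (Ext.mem_left _) (Ext.rel1 _ _))
      (Ext.himp (Ext.rel1 _ _) (Ext.mem_left _))) fun w => ?_).ge
    rw [mem_sb, rel_relV]
    by_cases hw : hn w = a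
    · rw [if_pos hw, if_pos hw, himp_self, inf_idem]
    · rw [if_neg hw, if_neg hw, himp_self, inf_idem]
  · obtain ⟨c, hc⟩ := hlev a
    obtain ⟨g⟩ := Cardinal.le_def _ _ |>.1 hc
    exact (V5_ex_ck (Ext_embeds_right _) c (V5_embeds hn a c g)).ge

end Pool.Agent.LibMA62
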