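import Pool.Agent.LibMA62.V2
import Pool.Agent.LibMA62.MDef

/-! Row V6: a tree of the ground model without chains of size `ν` has no such chains in `V^B`.

`noBranch l T R = ⨅ C, isChn T R C ⇨ (embeds l C)ᶜ`: it suffices that `isChn (ck B W) R C ⊓ isInj f (ck B N) C = ⊥` for all
names `C`, `f`, where `R := relV B lt`. Let `v` be this value, `e y t := v ⊓ rel f (chk y) (chk (g.symm t)) ⊓ mem (chk (g.symm t)) C` for `y : N`,
`t : T` (`g : W ≃ T`). Then
 (1) `v ≤ ⨅ y, ⨆ t, e y t`: `isInj f (ck B N) C ≤ all (ck B N) fun x => ex C fun z => rel f x z`, so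
 `v ≤ ⨆ z, mem z C ⊓ rel f (chk y) z`, and `sub C (ck B W) ⊓ mem z C ≤ mem z (ck B W) = ⨆ w : W, eq z (chk w)` (`mem_ck`); transport along
 `eq z (chk w)` (`mem_congr_left`, `Ext.rel2`).
 (2) `e y t ⊓ e y t' = ⊥` for `t ≠ t'` and `e y t ⊓ e y' t = ⊥` for `y ≠ y'`: the clauses of `isMap`, `isInj` (quantifiers over `C` are
 infima over all names: `iInf_le _ (chk w)`, with `mem (chk w) C` from `e`), `eq_chk`.
 (3) `e y t ⊓ e y' t' = ⊥` if `t`, `t'` are incomparable: `isChn` gives `rel R w w' ⊔ eq w w' ⊔ rel R w' w` for the names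
 `w := chk (g.symm t)`, `w' := chk (g.symm t')`; all three are `⊥` (`rel_relV`, `eq_chk`).
`M.branch` gives `v ≤ ⊥`. -/

set_option autoImplicit false

namespace Pool.Agent.LibMA62

open Cardinal Set Pool.Agent.LibPlas90 Pool.Agent.LibPlas90.BSet Pool.Agent.LibTk83
  Pool.Agent.LibDm83

variable {B : Type} [CompleteBooleanAlgebra B] {κ : Cardinal.{0}} {Th K W N : Type}
  [LinearOrder Th] [WellFoundedLT Th] [LinearOrder K] [WellFoundedLT K] [LinearOrder W]
  [WellFoundedLT W] [LinearOrder N] [WellFoundedLT N]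

/-- Instantiation of a bounded quantifier. -/
private theorem V6m_all {X : BSet B} {φ : BSet B → B} {a : B} (h : a ≤ all X φ) (x : BSet B)
    (hx : a ≤ mem x X) : a ≤ φ x := by
  have h1 : a ≤ mem x X ⇨ φ x := h.trans (iInf_le _ x)
  exact (le_inf h1 hx).trans himp_inf_le

private theorem V6m_ck {J : Type} [LinearOrder J] [WellFoundedLT J] (a : B) (j : J) :
    a ≤ mem (chk j : BSet B) (ck B J) := by
  rw [mem_chk_ck]
  exact le_top

private theorem V6m_imp {a p q : B} (h : a ≤ p ⇨ q) (hp : a ≤ p) : a ≤ q :=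
  (le_inf h hp).trans himp_inf_le

private theorem V6m_tot (C f : BSet B) (v : B) (hv1 : v ≤ sub C (ck B W))
    (hv2 : v ≤ isInj f (ck B N) C) (y : N) :
    v ≤ ⨆ w : W, v ⊓ rel f (chk y) (chk w) ⊓ mem (chk w) C := by
  have h1 : v ≤ ex C fun z => rel f (chk y) z := by
    have h2 : v ≤ all (ck B N) fun x => ex C fun z => rel f x z :=
      hv2.trans (inf_le_left.trans inf_le_left)
    exact V6m_all h2 _ (V6m_ck v y)
  calc v ≤ v ⊓ ex C fun z => rel f (chk y) z := le_inf le_rfl h1
    _ = ⨆ z : BSet B, v ⊓ (mem z C ⊓ rel f (chk y) z) := inf_iSup_eq _ _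
    _ ≤ _ := by
      refine iSup_le fun z => ?_
      have h3 : v ⊓ (mem z C ⊓ rel f (chk y) z) ≤ mem z (ck B W) :=
        V6m_all (inf_le_left.trans hv1) z (inf_le_right.trans inf_le_left)
      rw [mem_ck] at h3
      calc v ⊓ (mem z C ⊓ rel f (chk y) z)
          ≤ (v ⊓ (mem z C ⊓ rel f (chk y) z)) ⊓ ⨆ w : W, eq z (chk w) := le_inf le_rfl h3
        _ = ⨆ w : W, (v ⊓ (mem z C ⊓ rel f (chk y) z)) ⊓ eq z (chk w) := inf_iSup_eq _ _
        _ ≤ _ := by
          refine iSup_mono fun w => ?_
          refine le_inf (le_inf (inf_le_left.trans inf_le_left) ?_) ?_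
          · exact (le_inf inf_le_right
              (inf_le_left.trans (inf_le_right.trans inf_le_right))).trans
              (Ext.rel2 f (chk y) z (chk w))
          · exact (le_inf inf_le_right
              (inf_le_left.trans (inf_le_right.trans inf_le_left))).trans
              (mem_congr_left z (chk w) C)

theorem noBranch_ck (M : MM B κ Th K) {ν : Cardinal.{0}} {T : Type} [PartialOrder T]
    {ht : T → Ordinal.{0}} (A : ATree ν T ht) (hν : ν ≤ κ) (hreg : ν.IsRegular) (h1 : ℵ₁ < ν)
    (g : W ≃ T) (hN : #N = ν) :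
    noBranch (ck B N) (ck B W) (relV B fun v w => g v < g w) = ⊤ := by
  unfold noBranch
  rw [eq_top_iff]
  refine le_iInf fun C => ?_
  rw [le_himp_iff, top_inf_eq, le_compl_iff_disjoint_right, disjoint_iff]
  unfold embeds
  rw [inf_iSup_eq, ← le_bot_iff]
  refine iSup_le fun f => ?_
  set v := isChn (ck B W) (relV B fun v w => g v < g w) C ⊓ isInj f (ck B N) C with hv
  have hvc : v ≤ isChn (ck B W) (relV B fun v w => g v < g w) C := inf_le_left
  have hvi : v ≤ isInj f (ck B N) C := inf_le_right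
  have hb := M.branch ν T ht A hν hreg h1 N
    (fun y t => v ⊓ rel f (chk y) (chk (g.symm t)) ⊓ mem (chk (g.symm t)) C) hN ?_ ?_ ?_
  · rw [← hb]
    refine le_iInf fun y => ?_
    refine (V6m_tot C f v (hvc.trans inf_le_left) hvi y).trans ?_
    refine iSup_le fun w => ?_
    refine le_iSup_of_le (g w) ?_
    rw [Equiv.symm_apply_apply]
  · intro y t t' htt
    have hne : g.symm t ≠ g.symm t' := fun h => htt (g.symm.injective h)
    rw [← le_bot_iff, ← eq_chk (B := B) hne]
    set a := (v ⊓ rel f (chk y) (chk (g.symm t)) ⊓ mem (chk (g.symm t)) C) ⊓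
      (v ⊓ rel f (chk y) (chk (g.symm t')) ⊓ mem (chk (g.symm t')) C) with ha
    have hav : a ≤ v := inf_le_left.trans (inf_le_left.trans inf_le_left)
    have h2 : a ≤ all (ck B N) fun x => all C fun y => all C fun y' =>
        rel f x y ⊓ rel f x y' ⇨ eq y y' :=
      hav.trans (hvi.trans (inf_le_left.trans inf_le_right))
    have h3 := V6m_all (V6m_all (V6m_all h2 (chk y) (V6m_ck a y)) (chk (g.symm t))
      (inf_le_left.trans inf_le_right)) (chk (g.symm t')) (inf_le_right.trans inf_le_right)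
    refine V6m_imp h3 (le_inf ?_ ?_)
    · exact inf_le_left.trans (inf_le_left.trans inf_le_right)
    · exact inf_le_right.trans (inf_le_left.trans inf_le_right)
  · intro y y' t hyy
    rw [← le_bot_iff, ← eq_chk (B := B) hyy]
    set a := (v ⊓ rel f (chk y) (chk (g.symm t)) ⊓ mem (chk (g.symm t)) C) ⊓
      (v ⊓ rel f (chk y') (chk (g.symm t)) ⊓ mem (chk (g.symm t)) C) with ha
    have hav : a ≤ v := inf_le_left.trans (inf_le_left.trans inf_le_left)
    have h2 : a ≤ all (ck B N) fun x => all (ck B N) fun x' => all C fun y =>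
        rel f x y ⊓ rel f x' y ⇨ eq x x' :=
      hav.trans (hvi.trans inf_le_right)
    have h3 := V6m_all (V6m_all (V6m_all h2 (chk y) (V6m_ck a y)) (chk y') (V6m_ck a y'))
      (chk (g.symm t)) (inf_le_left.trans inf_le_right)
    refine V6m_imp h3 (le_inf ?_ ?_)
    · exact inf_le_left.trans (inf_le_left.trans inf_le_right)
    · exact inf_le_right.trans (inf_le_left.trans inf_le_right)
  · intro y y' t t' h2 h3
    rw [← le_bot_iff]
    set a := (v ⊓ rel f (chk y) (chk (g.symm t)) ⊓ mem (chk (g.symm t)) C) ⊓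
      (v ⊓ rel f (chk y') (chk (g.symm t')) ⊓ mem (chk (g.symm t')) C) with ha
    have hav : a ≤ v := inf_le_left.trans (inf_le_left.trans inf_le_left)
    have h4 : a ≤ all C fun s => all C fun t => rel (relV B fun v w => g v < g w) s t ⊔ eq s t ⊔
        rel (relV B fun v w => g v < g w) t s :=
      hav.trans (hvc.trans inf_le_right)
    have h5 := V6m_all (V6m_all h4 (chk (g.symm t)) (inf_le_left.trans inf_le_right))
      (chk (g.symm t')) (inf_le_right.trans inf_le_right)
    refine h5.trans ?_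
    have hne : g.symm t ≠ g.symm t' := by
      intro h
      have := g.symm.injective h
      exact h2 this.le
    have e1 : rel (relV B fun v w => g v < g w) (chk (g.symm t)) (chk (g.symm t')) = ⊥ := by
      rw [rel_relV, if_neg]
      simp only [Equiv.apply_symm_apply]
      exact fun h => h2 h.le
    have e2 : rel (relV B fun v w => g v < g w) (chk (g.symm t')) (chk (g.symm t)) = ⊥ := by
      rw [rel_relV, if_neg]
      simp only [Equiv.apply_symm_apply]
      exact fun h => h3 h.le
    rw [e1, e2, eq_chk hne]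
    simp

end Pool.Agent.LibMA62
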