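import Pool.Agent.LibMA62.V3
import Pool.Agent.LibMA62.V5
import Pool.Agent.LibMA62.V6

/-! Row V7: `isAron (ck B N) = ⊤` for a ground model tree of height `ν ≤ κ`, and `Tk`.

`isAron_ck`: `N := ν.ord.ToType`, `W := (#T).ord.ToType`, `g : W ≃ T` (`Cardinal.mk_ord_toType`, `Cardinal.eq`). The height
`hn : W → N` is the element of `N` of order type `ht (g w) < ν.ord` (`Ordinal.enum`/`Ordinal.ToType.mk`,
`Ordinal.typein_enum` ...); order of heights: `hn v < hn w ↔ ht (g v) < ht (g w)`; surjectivity: for `a : N` the ordinal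
`typein a < ν.ord` is the height of some `t` (`A.ne`). `isTree_ck` with `lt v w := g v < g w` (`A.mono`, `lt_trans`, `A.comp`, `A.down`).
`hlev` of `smallLev_ck`: `#{w // hn w = a} = #{t // ht t = α} < ν`, and for each cardinal `c < ν` there is an element of `N` with
exactly `c` predecessors (the element of order type `c.ord`; `Ordinal.card_typein`, `Cardinal.card_ord`). `noBranch_ck`.
`Tk_ck`: for `μ < κ` uncountable with `μ⁺⁺ ≤ κ` take `k1 := ck B (Order.succ μ).ord.ToType`,
`k2 := ck B (Order.succ (Order.succ μ)).ord.ToType`; `isCard_ck`, `isPlus_ck` twice (`#(ν.ord.ToType) = ν`; `#(Iio a) < ν` for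
`a : ν.ord.ToType`: `Cardinal.mk_Iio_ord_toType`; `c < Order.succ μ ↔ c ≤ μ`), `isAron_ck` (`Order.succ (Order.succ μ)` is regular:
`Cardinal.isRegular_succ`; `ℵ₁ = Order.succ ℵ₀ < μ⁺⁺`). -/

set_option autoImplicit false

namespace Pool.Agent.LibMA62

open Cardinal Set Pool.Agent.LibPlas90 Pool.Agent.LibPlas90.BSet Pool.Agent.LibTk83
  Pool.Agent.LibDm83

variable {B : Type} [CompleteBooleanAlgebra B] {κ : Cardinal.{0}} {Th K : Type}
  [LinearOrder Th] [WellFoundedLT Th] [LinearOrder K] [WellFoundedLT K]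

private theorem card_below_mk {ν : Cardinal.{0}} (x : Set.Iio ν.ord) :
    #{b : ν.ord.ToType // b < Ordinal.ToType.mk x} = x.1.card := by
  have h : Ordinal.typein (α := ν.ord.ToType) (· < ·) (Ordinal.ToType.mk x) = x.1 := by
    have h1 := Ordinal.ToType.mk.symm_apply_apply x
    exact congrArg Subtype.val h1
  rw [← h]
  rfl

private theorem mk_Iio_lt_card {ν : Cardinal.{0}} (a : ν.ord.ToType) : #(Iio a) < ν := by
  have h1 : Ordinal.typein (α := ν.ord.ToType) (· < ·) a < ν.ord := Ordinal.typein_lt_self a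
  have h2 : (Ordinal.typein (α := ν.ord.ToType) (· < ·) a).card < ν := Cardinal.lt_ord.1 h1
  exact h2

theorem isAron_ck (M : MM B κ Th K) {ν : Cardinal.{0}} {T : Type} [PartialOrder T]
    {ht : T → Ordinal.{0}} (A : ATree ν T ht) (hν : ν ≤ κ) (hreg : ν.IsRegular) (h1 : ℵ₁ < ν) :
    isAron (ck B ν.ord.ToType) = ⊤ := by
  have hW : #((#T).ord.ToType) = #T := Cardinal.mk_ord_toType _
  obtain ⟨g⟩ := Cardinal.eq.1 hW
  have hN : #(ν.ord.ToType) = ν := Cardinal.mk_ord_toType _
  let hn : (#T).ord.ToType → ν.ord.ToType := fun w => Ordinal.ToType.mk ⟨ht (g w), A.ht_lt _⟩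
  have hlt : ∀ v w, hn v < hn w ↔ ht (g v) < ht (g w) := fun v w =>
    (OrderIso.lt_iff_lt Ordinal.ToType.mk).trans Iff.rfl
  have hmk : ∀ (w : (#T).ord.ToType) (x : Set.Iio ν.ord), hn w = Ordinal.ToType.mk x ↔ ht (g w) = x.1 := by
    intro w x
    constructor
    · intro h
      exact congrArg Subtype.val (Ordinal.ToType.mk.injective h)
    · intro h
      exact congrArg Ordinal.ToType.mk (Subtype.ext h)
  have hsur : ∀ a : ν.ord.ToType, ∃ x : Set.Iio ν.ord, Ordinal.ToType.mk x = a := fun a =>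
    ⟨Ordinal.ToType.mk.symm a, Ordinal.ToType.mk.apply_symm_apply a⟩
  have hT := isTree_ck (B := B) (fun v w : (#T).ord.ToType => g v < g w) hn
    (fun s t h => (hlt s t).2 (A.mono h)) (fun s t u h h' => lt_trans h h')
    (fun s u t h h' => by
      rcases A.comp (g s) (g u) (g t) h h' with h2 | h2
      · rcases h2.lt_or_eq with h3 | h3
        · exact Or.inl h3
        · exact Or.inr (Or.inl (g.injective h3))
      · rcases h2.lt_or_eq with h3 | h3
        · exact Or.inr (Or.inr h3)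
        · exact Or.inr (Or.inl (g.injective h3.symm)))
    (fun t a h => by
      obtain ⟨x, rfl⟩ := hsur a
      have h2 : x.1 < ht (g t) := (OrderIso.lt_iff_lt Ordinal.ToType.mk).1 h
      obtain ⟨s, hs, hs2⟩ := A.down (g t) x.1 h2
      refine ⟨g.symm s, ?_, (hmk _ _).2 ?_⟩
      · show g (g.symm s) < g t
        rw [g.apply_symm_apply]
        exact hs
      · rw [g.apply_symm_apply]
        exact hs2)
    (fun a => by
      obtain ⟨x, rfl⟩ := hsur a
      obtain ⟨t, ht'⟩ := A.ne x.1 x.2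
      refine ⟨g.symm t, (hmk _ _).2 ?_⟩
      rw [g.apply_symm_apply]
      exact ht')
  have hS := smallLev_ck (B := B) hn (fun a => by
    obtain ⟨x, rfl⟩ := hsur a
    have h2 : #{t : T // ht t = x.1} < ν := A.lev x.1
    refine ⟨Ordinal.ToType.mk ⟨(#{t : T // ht t = x.1}).ord, Cardinal.ord_lt_ord.2 h2⟩, ?_⟩
    rw [card_below_mk]
    show _ ≤ (#{t : T // ht t = x.1}).ord.card
    rw [Cardinal.card_ord]
    refine Cardinal.mk_le_of_injective (f := fun w => (⟨g w.1, (hmk w.1 x).1 w.2⟩ :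
      {t : T // ht t = x.1})) ?_
    intro v w h
    exact Subtype.ext (g.injective (congrArg Subtype.val h)))
  have hB := noBranch_ck M A hν hreg h1 g hN
  refine top_le_iff.1 ?_
  refine le_trans ?_ (le_iSup (fun T' : BSet B => ⨆ R : BSet B, ⨆ h : BSet B,
    isTree (ck B ν.ord.ToType) T' R h ⊓ smallLev (ck B ν.ord.ToType) T' h ⊓
      noBranch (ck B ν.ord.ToType) T' R) (ck B (#T).ord.ToType))
  refine le_trans ?_ (le_iSup (fun R : BSet B => ⨆ h : BSet B,
    isTree (ck B ν.ord.ToType) (ck B (#T).ord.ToType) R h ⊓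
      smallLev (ck B ν.ord.ToType) (ck B (#T).ord.ToType) h ⊓
      noBranch (ck B ν.ord.ToType) (ck B (#T).ord.ToType) R)
      (relV B fun v w : (#T).ord.ToType => g v < g w))
  refine le_trans ?_ (le_iSup (fun h : BSet B =>
    isTree (ck B ν.ord.ToType) (ck B (#T).ord.ToType)
      (relV B fun v w : (#T).ord.ToType => g v < g w) h ⊓
      smallLev (ck B ν.ord.ToType) (ck B (#T).ord.ToType) h ⊓
      noBranch (ck B ν.ord.ToType) (ck B (#T).ord.ToType)
      (relV B fun v w : (#T).ord.ToType => g v < g w))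
      (relV B fun (w : (#T).ord.ToType) (a : ν.ord.ToType) => hn w = a))
  rw [hT, hS, hB, inf_top_eq, inf_top_eq]

theorem Tk_ck (M : MM B κ Th K) {μ : Cardinal.{0}} (hμ : ℵ₀ < μ)
    (hμκ : Order.succ (Order.succ μ) ≤ κ) {T : Type} [PartialOrder T] {ht : T → Ordinal.{0}}
    (A : ATree (Order.succ (Order.succ μ)) T ht) : Tk (ck B μ.ord.ToType) = ⊤ := by
  have c0 : #(μ.ord.ToType) = μ := Cardinal.mk_ord_toType _
  have c1 : #((Order.succ μ).ord.ToType) = Order.succ μ := Cardinal.mk_ord_toType _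
  have c2 : #((Order.succ (Order.succ μ)).ord.ToType) = Order.succ (Order.succ μ) :=
    Cardinal.mk_ord_toType _
  have l1 : μ < Order.succ μ := Order.lt_succ μ
  have l2 : Order.succ μ < Order.succ (Order.succ μ) := Order.lt_succ _
  have k1 : Order.succ μ ≤ κ := l2.le.trans hμκ
  have k0 : μ ≤ κ := l1.le.trans k1
  have e0 : isCard (ck B μ.ord.ToType) = ⊤ := by
    refine isCard_ck M ?_ ?_ ?_
    · rw [c0]; exact k0
    · rw [c0]; exact hμ
    · intro a
      rw [c0]
      exact mk_Iio_lt_card a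
  have e1 : isPlus (ck B μ.ord.ToType) (ck B (Order.succ μ).ord.ToType) = ⊤ := by
    refine isPlus_ck M ?_ ?_ ?_ ?_
    · rw [c0]; exact k0
    · rw [c0, c1]; exact l1
    · rw [c1]; exact hμ.trans l1
    · intro a
      rw [c0]
      exact Order.lt_succ_iff.1 (mk_Iio_lt_card a)
  have e2 : isPlus (ck B (Order.succ μ).ord.ToType)
      (ck B (Order.succ (Order.succ μ)).ord.ToType) = ⊤ := by
    refine isPlus_ck M ?_ ?_ ?_ ?_
    · rw [c1]; exact k1
    · rw [c1, c2]; exact l2
    · rw [c2]; exact (hμ.trans l1).trans l2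
    · intro a
      rw [c1]
      exact Order.lt_succ_iff.1 (mk_Iio_lt_card a)
  have hreg : (Order.succ (Order.succ μ)).IsRegular :=
    Cardinal.isRegular_succ (hμ.le.trans l1.le)
  have h1 : ℵ₁ < Order.succ (Order.succ μ) :=
    lt_of_le_of_lt (Cardinal.aleph_one_le_iff.2 hμ) (l1.trans l2)
  have e3 := isAron_ck M A hμκ hreg h1
  unfold Tk
  rw [e0, top_inf_eq]
  refine top_le_iff.1 ?_
  refine le_trans ?_ (le_iSup (fun k1 : BSet B => ⨆ k2 : BSet B,
    isPlus (ck B μ.ord.ToType) k1 ⊓ isPlus k1 k2 ⊓ isAron k2) (ck B (Order.succ μ).ord.ToType))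
  refine le_trans ?_ (le_iSup (fun k2 : BSet B =>
    isPlus (ck B μ.ord.ToType) (ck B (Order.succ μ).ord.ToType) ⊓
      isPlus (ck B (Order.succ μ).ord.ToType) k2 ⊓ isAron k2)
      (ck B (Order.succ (Order.succ μ)).ord.ToType))
  rw [e1, e2, e3, inf_top_eq, inf_top_eq]

end Pool.Agent.LibMA62
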