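import Pool.Agent.LibMA62.MDef
import Pool.Agent.LibDm83.Names

/-! Row V8: preservation of stationary subsets of `κ` (Boolean-valued form).

`J` is `κ` (a well-ordered type), `k : I → J` a cofinal increasing sequence of length `cf κ`.
`unbB v = ⨅ β, ⨆ α, ⨆ (_ : β < α), v α`, `cloB v = ⨅ γ, ⨅ (_ : ∃ b, b < γ),
(⨅ β, ⨅ (_ : β < γ), ⨆ α, ⨆ (_ : β < α ∧ α < γ), v α) ⇨ v γ` (`LibDm83/Names.lean`).
Let `e i α := (unbB v) ⊓ (v α if k i < α, else ⊥) ⊓ ⨅ β, ⨅ (_ : k i < β ∧ β < α), (v β)ᶜ` (`α` is the least element above `k i`):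
`e i α ⊓ e i α' = ⊥` for `α ≠ α'`, and `unbB v ≤ ⨆ α, e i α` (well-foundedness: `unbB v ≤ ⨆ α > k i, v α`, and
`⨆ α > k i, v α ≤ ⨆ α, e i α`: by strong induction `v α ≤ ⨆ α', e' i α'`...). By `hc I J e` it suffices that
`unbB v ⊓ cloB v ⊓ ⨅ i, ⨅ α ∉ S i, (e i α)ᶜ ≤ ⨆ ξ ∈ St, v ξ` for each countable-valued `S : I → Set J`. By `hcof` choose
`G i : J`, a strict upper bound of `S i`. Let
`C := {γ : J | (∃ b, b < γ) ∧ (∀ ξ < γ, ∃ i, ξ < k i ∧ k i < γ) ∧ ∀ i, k i < γ → G i < γ}`.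
`C` is closed: clear. `C` is unbounded: given `α`, define `β 0 := α`, `β (n + 1) :=` an element which is greater than `β n`, than
some `k i > β n`, and than all `G i` with `k i ≤ β n` or so: the set of the `i` with `k i ≤ β n` is contained in `Iio j` for
some `j` (`k` is monotone and cofinal), so the `G i` are bounded by `hsm`. The least upper bound `γ` of the `β n` exists
(`hcof`, well-foundedness) and is in `C`. By `hst` there is `γ ∈ C ∩ St`. For `i` with `k i < γ`: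
`unbB v ⊓ ⨅ α ∉ S i, (e i α)ᶜ ≤ ⨆ α ∈ S i, e i α ≤ ⨆ α, k i < α < γ, v α`. As for each `β < γ` there is `i` with
`β < k i < γ`, the value is `≤ ⨅ β < γ, ⨆ α ∈ (β, γ), v α`, so by `cloB v` it is `≤ v γ`. -/

set_option autoImplicit false

namespace Pool.Agent.LibMA62

open Cardinal Set Pool.Agent.LibDm83

section

variable {B : Type} [CompleteBooleanAlgebra B] {J : Type} [LinearOrder J]

/-- `α` is the least element above `a`. -/
private def lst (v : J → B) (a α : J) : B :=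
  ⨆ (_ : a < α), v α ⊓ ⨅ β, ⨅ (_ : a < β ∧ β < α), (v β)ᶜ

private theorem lst_le (v : J → B) (a α : J) : lst v a α ≤ v α :=
  iSup_le fun _ => inf_le_left

private theorem lst_le_compl (v : J → B) {a α β : J} (h : a < β) (h' : β < α) :
    lst v a α ≤ (v β)ᶜ :=
  iSup_le fun _ => inf_le_right.trans (iInf₂_le_of_le β ⟨h, h'⟩ le_rfl)

private theorem lst_lt (v : J → B) {a α β : J} (h : β < α) : lst v a β ⊓ lst v a α = ⊥ := by
  by_cases ha : a < β
  · refine le_bot_iff.1 ?_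
    calc lst v a β ⊓ lst v a α ≤ v β ⊓ (v β)ᶜ := inf_le_inf (lst_le v a β) (lst_le_compl v ha h)
      _ = ⊥ := inf_compl_self _
  · have h1 : lst v a β = ⊥ := by
      unfold lst
      exact le_bot_iff.1 (iSup_le fun h2 => absurd h2 ha)
    rw [h1, bot_inf_eq]

private theorem lst_disj (v : J → B) (a : J) {α β : J} (h : α ≠ β) :
    lst v a α ⊓ lst v a β = ⊥ := by
  rcases h.lt_or_gt with h | h
  · exact lst_lt v h
  · rw [inf_comm]
    exact lst_lt v h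

private theorem le_of_inf_compl_le {x y : B} (h : x ⊓ yᶜ ≤ y) : x ≤ y := by
  calc x = x ⊓ (y ⊔ yᶜ) := by rw [sup_compl_eq_top, inf_top_eq]
    _ = x ⊓ y ⊔ x ⊓ yᶜ := inf_sup_left _ _ _
    _ ≤ y := sup_le inf_le_right h

private theorem le_lst [WellFoundedLT J] (v : J → B) (a : J) (α : J) :
    a < α → v α ≤ ⨆ α', lst v a α' := by
  induction α using WellFoundedLT.induction with
  | ind α ih =>
    intro h
    refine le_of_inf_compl_le ?_
    refine le_trans ?_ (le_iSup (lst v a) α)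
    refine le_trans ?_ (le_iSup _ h)
    refine le_inf inf_le_left ?_
    refine le_iInf₂ fun β hβ => ?_
    refine inf_le_right.trans ?_
    exact compl_le_compl (ih β hβ.2 hβ.1)

private theorem unbB_le_lst [WellFoundedLT J] (v : J → B) (a : J) :
    unbB v ≤ ⨆ α', lst v a α' := by
  refine (iInf_le _ a).trans ?_
  exact iSup₂_le fun α h => le_lst v a α h

end

theorem stat_pres {B : Type} [CompleteBooleanAlgebra B] {κ : Cardinal.{0}}
    (hc : ∀ (J V : Type) (e : J → V → B), #J ≤ κ →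
      (∀ j v v', v ≠ v' → e j v ⊓ e j v' = ⊥) →
      (⨆ S : {S : J → Set V // ∀ j, (S j).Countable}, ⨅ j, ⨅ v, ⨅ (_ : v ∉ S.1 j), (e j v)ᶜ) = ⊤)
    {J I : Type} [LinearOrder J] [WellFoundedLT J] [LinearOrder I] (hI : #I ≤ κ)
    (k : I → J) (hk : Monotone k) (hkc : ∀ a, ∃ i, a < k i)
    (hcof : ∀ s : Set J, s.Countable → ∃ b, ∀ a ∈ s, a < b)
    (hsm : ∀ (f : I → J) (j : I), ∃ b, ∀ i, i < j → f i < b) (St : Set J)
    (hst : ∀ C : Set J, (∀ a, ∃ b ∈ C, a ≤ b) →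
      (∀ γ, (∃ b, b < γ) → (∀ β, β < γ → ∃ δ ∈ C, β < δ ∧ δ < γ) → γ ∈ C) → ∃ ξ ∈ C, ξ ∈ St)
    (v : J → B) : unbB v ⊓ cloB v ≤ ⨆ ξ, ⨆ (_ : ξ ∈ St), v ξ := by
  have htop := hc I J (fun i α => lst v (k i) α) hI (fun i α β h => lst_disj v (k i) h)
  rw [← inf_top_eq (unbB v ⊓ cloB v), ← htop, inf_iSup_eq]
  refine iSup_le fun S => ?_
  set cS : B := ⨅ i, ⨅ α, ⨅ (_ : α ∉ S.1 i), (lst v (k i) α)ᶜ with hcS
  have hG : ∀ i, ∃ b, ∀ a ∈ S.1 i, a < b := fun i => hcof _ (S.2 i)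
  choose G hG using hG
  -- one step
  have hF : ∀ β : J, ∃ γ : J, β < γ ∧ (∃ i, β < k i ∧ k i < γ) ∧ ∀ i, k i ≤ β → G i < γ := by
    intro β
    obtain ⟨j, hj⟩ := hkc β
    obtain ⟨b1, hb1⟩ := hsm G j
    obtain ⟨γ, hγ⟩ := hcof {β, k j, b1} (by simp)
    refine ⟨γ, hγ β (by simp), ⟨j, hj, hγ (k j) (by simp)⟩, fun i hi => ?_⟩
    have hij : i < j := by
      by_contra hcon
      exact absurd (hk (not_lt.1 hcon)) (not_le.2 (hi.trans_lt hj))
    exact (hb1 i hij).trans (hγ b1 (by simp))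
  choose F hF1 hF2 hF3 using hF
  obtain ⟨γ, ⟨hγ1, hγ2, hγ3⟩, hγSt⟩ := hst
    {γ : J | (∃ b, b < γ) ∧ (∀ ξ, ξ < γ → ∃ i, ξ < k i ∧ k i < γ) ∧ ∀ i, k i < γ → G i < γ}
    (by
      intro α0
      let β : ℕ → J := fun n => Nat.rec α0 (fun _ b => F b) n
      have hβ0 : β 0 = α0 := rfl
      have hβs : ∀ n, β (n + 1) = F (β n) := fun _ => rfl
      let U : Set J := {γ | ∀ n, β n < γ}
      have hU : U.Nonempty := by
        obtain ⟨b, hb⟩ := hcof (Set.range β) (Set.countable_range β)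
        exact ⟨b, fun n => hb _ ⟨n, rfl⟩⟩
      let γ := (wellFounded_lt (α := J)).min U hU
      have hγU : ∀ n, β n < γ := (wellFounded_lt (α := J)).min_mem U hU
      have hγm : ∀ ξ, ξ < γ → ∃ n, ξ ≤ β n := by
        intro ξ hξ
        by_contra hcon
        push Not at hcon
        exact (wellFounded_lt (α := J)).not_lt_min U (show ξ ∈ U from hcon) hξ
      refine ⟨γ, ⟨⟨β 0, hγU 0⟩, ?_, ?_⟩, ?_⟩
      · intro ξ hξ
        obtain ⟨n, hn⟩ := hγm ξ hξ
        obtain ⟨i, hi1, hi2⟩ := hF2 (β n)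
        refine ⟨i, hn.trans_lt hi1, hi2.trans ?_⟩
        rw [← hβs]
        exact hγU (n + 1)
      · intro i hi
        obtain ⟨n, hn⟩ := hγm (k i) hi
        refine (hF3 (β n) i hn).trans ?_
        rw [← hβs]
        exact hγU (n + 1)
      · rw [← hβ0]
        exact (hγU 0).le)
    (by
      intro γ hγ h
      refine ⟨hγ, fun ξ hξ => ?_, fun i hi => ?_⟩
      · obtain ⟨δ, hδ, h1, h2⟩ := h ξ hξ
        obtain ⟨i, hi1, hi2⟩ := hδ.2.1 ξ h1
        exact ⟨i, hi1, hi2.trans h2⟩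
      · obtain ⟨δ, hδ, h1, h2⟩ := h (k i) hi
        exact (hδ.2.2 i h1).trans h2)
  refine le_trans ?_ (le_iSup₂ (f := fun ξ (_ : ξ ∈ St) => v ξ) γ hγSt)
  have hclo : cloB v ≤ (⨅ β, ⨅ (_ : β < γ), ⨆ α, ⨆ (_ : β < α ∧ α < γ), v α) ⇨ v γ :=
    iInf₂_le_of_le γ hγ1 le_rfl
  have hM : unbB v ⊓ cS ≤ ⨅ β, ⨅ (_ : β < γ), ⨆ α, ⨆ (_ : β < α ∧ α < γ), v α := by
    refine le_iInf₂ fun β hβ => ?_
    obtain ⟨i, hi1, hi2⟩ := hγ2 β hβ
    calc unbB v ⊓ cS ≤ (⨆ α, lst v (k i) α) ⊓ cS := inf_le_inf_right _ (unbB_le_lst v (k i))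
      _ = ⨆ α, lst v (k i) α ⊓ cS := iSup_inf_eq _ _
      _ ≤ _ := by
        refine iSup_le fun α => ?_
        by_cases hα : α ∈ S.1 i
        · by_cases hkα : k i < α
          · refine inf_le_left.trans ((lst_le v (k i) α).trans ?_)
            exact le_iSup₂ (f := fun α (_ : β < α ∧ α < γ) => v α) α
              ⟨hi1.trans hkα, (hG i α hα).trans (hγ3 i hi2)⟩
          · have h1 : lst v (k i) α = ⊥ := by
              unfold lst
              exact le_bot_iff.1 (iSup_le fun h2 => absurd h2 hkα)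
            rw [h1, bot_inf_eq]
            exact bot_le
        · have h1 : cS ≤ (lst v (k i) α)ᶜ := by
            refine (iInf_le _ i).trans ?_
            exact iInf₂_le_of_le α hα le_rfl
          calc lst v (k i) α ⊓ cS ≤ lst v (k i) α ⊓ (lst v (k i) α)ᶜ := inf_le_inf_left _ h1
            _ = ⊥ := inf_compl_self _
            _ ≤ _ := bot_le
  calc unbB v ⊓ cloB v ⊓ cS ≤ ((⨅ β, ⨅ (_ : β < γ), ⨆ α, ⨆ (_ : β < α ∧ α < γ), v α) ⇨ v γ) ⊓
        (⨅ β, ⨅ (_ : β < γ), ⨆ α, ⨆ (_ : β < α ∧ α < γ), v α) := by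
        refine le_inf ?_ ?_
        · exact (inf_le_left.trans inf_le_right).trans hclo
        · exact le_trans (le_inf (inf_le_left.trans inf_le_left) inf_le_right) hM
    _ ≤ v γ := himp_inf_le

end Pool.Agent.LibMA62
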