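import Mathlib

/-! Row W1: the well-ordered type `κ.ord.ToType` of a singular cardinal of uncountable cofinality.

`cof_countable`: a countable set is bounded because `ℵ₀ < κ.ord.cof` (`Ordinal.cof` of `κ.ord` is the cofinality
of the order of `κ.ord.ToType`: see `Ordinal.cof_type`, `Order.cof`, `Order.cof_le`, `Ordinal.le_cof_type`, or the lemmas
`Ordinal.lsub_lt_ord`, `Ordinal.iSup_lt_ord`... on ordinals `< κ.ord`, transported by `Ordinal.typein`,
`Ordinal.enum`); a strict bound exists because `κ.ord.ToType` has no largest element (`κ` infinite).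
`exists_cofseq`: let `c := κ.ord.cof` (a regular cardinal, `ℵ₀ < c < κ`) and `I := c.ord.ToType` (`#I = c ≤ κ`, initial
segments have fewer than `c` elements). There is a cofinal (unbounded) function `g : I → κ.ord.ToType`. By well-founded
recursion, or directly, put `k i :=` the least `a` with `g i' < a` for all `i' ≤ i`: it exists because fewer than `c`
elements are bounded. `k` is monotone, `g i < k i`. `hsm`: a family indexed by `Iio j`, of fewer than `c` elements, is bounded.
`exists_sing`: the same cofinal function `I → κ.ord.ToType`; since `c < κ`, `I` is order isomorphic to (or just in bijection with)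
`{j // j < a}` for the element `a` of order type `c.ord`. -/

set_option autoImplicit false

namespace Pool.Agent.LibMA62

open Cardinal Set

private theorem w1_bdd {κ : Cardinal.{0}} (s : Set κ.ord.ToType) (hs : #s < κ.ord.cof) :
    ∃ b, ∀ a ∈ s, a < b := by
  rw [← not_isCofinal_iff]
  intro h
  have h1 := Order.cof_le h
  rw [Ordinal.cof_toType] at h1
  exact absurd hs (not_lt.2 h1)

theorem cof_countable {κ : Cardinal.{0}} (h1 : ℵ₀ < κ.ord.cof) (s : Set κ.ord.ToType)
    (hs : s.Countable) : ∃ b, ∀ a ∈ s, a < b :=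
  w1_bdd s ((Cardinal.le_aleph0_iff_set_countable.2 hs).trans_lt h1)

theorem exists_cofseq {κ : Cardinal.{0}} (h1 : ℵ₀ < κ.ord.cof) (h2 : κ.ord.cof < κ) :
    ∃ (I : Type) (_ : LinearOrder I) (k : I → κ.ord.ToType), #I ≤ κ ∧ Monotone k ∧
      (∀ a, ∃ i, a < k i) ∧ ∀ (f : I → κ.ord.ToType) (j : I), ∃ b, ∀ i, i < j → f i < b := by
  obtain ⟨s, hs, hs'⟩ := Ordinal.exists_ord_cof_eq κ.ord.ToType
  rw [Ordinal.cof_toType] at hs'
  have hcard : #s = κ.ord.cof := by
    have h3 := congrArg Ordinal.card hs'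
    rwa [Ordinal.card_type, Cardinal.card_ord] at h3
  refine ⟨s, inferInstance, Subtype.val, ?_, Subtype.mono_coe _, ?_, ?_⟩
  · rw [hcard]
    exact h2.le
  · intro a
    obtain ⟨b, hb⟩ := w1_bdd {a} (by
      rw [mk_singleton]
      exact one_lt_aleph0.trans h1)
    obtain ⟨c, hc, hbc⟩ := hs b
    exact ⟨⟨c, hc⟩, (hb a rfl).trans_le hbc⟩
  · intro f j
    have h3 : #(Iio j) < #s := Cardinal.mk_Iio_lt j (by rw [hcard, hs'])
    obtain ⟨b, hb⟩ := w1_bdd (f '' Iio j) ((mk_image_le).trans_lt (by rw [← hcard]; exact h3))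
    exact ⟨b, fun i hi => hb (f i) ⟨i, hi, rfl⟩⟩

theorem exists_sing {κ : Cardinal.{0}} (h1 : ℵ₀ < κ.ord.cof) (h2 : κ.ord.cof < κ) :
    ∃ (a : κ.ord.ToType) (f : {j // j < a} → κ.ord.ToType), ∀ b, ∃ j, b < f j := by
  obtain ⟨s, hs, hs'⟩ := Ordinal.exists_ord_cof_eq κ.ord.ToType
  rw [Ordinal.cof_toType] at hs'
  have hcard : #s = κ.ord.cof := by
    have h3 := congrArg Ordinal.card hs'
    rwa [Ordinal.card_type, Cardinal.card_ord] at h3
  have hlt : κ.ord.cof.ord < κ.ord := Cardinal.ord_lt_ord.2 h2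
  set a : κ.ord.ToType := Ordinal.ToType.mk ⟨κ.ord.cof.ord, hlt⟩ with ha
  have hle : κ.ord.cof ≤ #{j // j < a} := by
    have h4 : ∀ o : κ.ord.cof.ord.ToType, (Ordinal.ToType.mk.symm o).1 < κ.ord.cof.ord :=
      fun o => (Ordinal.ToType.mk.symm o).2
    have h5 : #κ.ord.cof.ord.ToType ≤ #{j // j < a} := by
      refine Cardinal.mk_le_of_injective (f := fun o =>
        ⟨Ordinal.ToType.mk ⟨(Ordinal.ToType.mk.symm o).1, (h4 o).trans hlt⟩, ?_⟩) ?_
      · rw [ha, Ordinal.ToType.mk.lt_iff_lt]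
        exact h4 o
      · intro o o' hoo
        have h6 := Ordinal.ToType.mk.injective (Subtype.mk.inj hoo)
        exact Ordinal.ToType.mk.symm.injective (Subtype.ext (Subtype.mk.inj h6))
    rwa [mk_ord_toType] at h5
  rw [← hcard] at hle
  obtain ⟨g⟩ : Nonempty (s ↪ {j // j < a}) := hle
  have hne : Nonempty s := by
    rw [← Cardinal.mk_ne_zero_iff, hcard]
    exact (aleph0_pos.trans h1).ne'
  refine ⟨a, fun j => (Function.invFun g j : s), fun b => ?_⟩
  obtain ⟨b', hb'⟩ := w1_bdd {b} (by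
    rw [mk_singleton]
    exact one_lt_aleph0.trans h1)
  obtain ⟨c, hc, hbc⟩ := hs b'
  refine ⟨g ⟨c, hc⟩, ?_⟩
  show b < (Function.invFun g (g ⟨c, hc⟩) : s)
  rw [Function.leftInverse_invFun g.injective ⟨c, hc⟩]
  exact (hb' b rfl).trans_le hbc

end Pool.Agent.LibMA62
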