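import Pool.Agent.LibMA62.MDef

/-! Row W2: the frozen form of stationarity, transported to `κ.ord.ToType`.

Given `C : Set κ.ord.ToType` as in the conclusion, let
`C' := {β : Ordinal | Ordinal.omega0 < β ∧ ∃ ξ ∈ C, (Ordinal.ToType.mk.symm ξ).1 = β}` (`Ordinal.ToType.mk : Iio o ≃o o.ToType`; each ordinal `< κ.ord` is of
this form). `C'` is unbounded in `κ.ord` (`ω < κ.ord`; for `α < κ.ord` take
an element of `C` above the elements numbered `α + 1` and `ω + 1`; `κ.ord` is a limit ordinal). It is closed: if `β < κ.ord` is a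
limit of elements of `C'` then `ω < β` and the element numbered `β` is a limit of elements of `C`, so it is in `C`. By `hst` there is
`μ < κ` with `μ.ord ∈ C'` and the tree; `Ordinal.omega0 < μ.ord` means `ℵ₀ < μ` (`Cardinal.ord_aleph0`,
`Cardinal.ord_lt_ord`). -/

set_option autoImplicit false

namespace Pool.Agent.LibMA62

open Cardinal Set

/-- There is a `ν`-Aronszajn tree. -/
def HasATree (ν : Cardinal.{0}) : Prop :=
  ∃ (T : Type) (_ : PartialOrder T) (ht : T → Ordinal.{0}), ATree ν T ht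

/-- The set of the cardinals `μ < κ` such that there is a `μ⁺⁺`-Aronszajn tree is stationary in `κ`. -/
def TStat (κ : Cardinal.{0}) : Prop :=
  ∀ C : Set Ordinal.{0}, C ⊆ Set.Iio κ.ord →
    (∀ α < κ.ord, ∃ β ∈ C, α ≤ β) →
    (∀ β < κ.ord, 0 < β → (∀ γ < β, ∃ δ ∈ C, γ < δ ∧ δ < β) → β ∈ C) →
    ∃ μ : Cardinal.{0}, μ < κ ∧ μ.ord ∈ C ∧ HasATree (Order.succ (Order.succ μ))

theorem TStat.toType {κ : Cardinal.{0}} (h1 : ℵ₀ < κ) (hst : TStat κ) (C : Set κ.ord.ToType)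
    (hu : ∀ a, ∃ b ∈ C, a ≤ b)
    (hcl : ∀ γ, (∃ b, b < γ) → (∀ β, β < γ → ∃ δ ∈ C, β < δ ∧ δ < γ) → γ ∈ C) :
    ∃ ξ ∈ C, ∃ μ : Cardinal.{0}, ℵ₀ < μ ∧ μ < κ ∧ (Ordinal.ToType.mk.symm ξ).1 = μ.ord ∧
      HasATree (Order.succ (Order.succ μ)) := by
  have hlim : Order.IsSuccLimit κ.ord := Cardinal.isSuccLimit_ord h1.le
  have hω : Ordinal.omega0 < κ.ord := by
    rw [← Cardinal.ord_aleph0]
    exact Cardinal.ord_lt_ord.2 h1
  have hω1 : Order.succ Ordinal.omega0 < κ.ord := hlim.succ_lt hω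
  have lt_iff : ∀ x y : κ.ord.ToType, x < y ↔
      (Ordinal.ToType.mk.symm x).1 < (Ordinal.ToType.mk.symm y).1 := by
    intro x y
    rw [Subtype.coe_lt_coe, OrderIso.lt_iff_lt]
  have le_iff : ∀ x y : κ.ord.ToType, x ≤ y ↔
      (Ordinal.ToType.mk.symm x).1 ≤ (Ordinal.ToType.mk.symm y).1 := by
    intro x y
    rw [Subtype.coe_le_coe, OrderIso.le_iff_le]
  have symm_mk : ∀ (β : Ordinal.{0}) (hβ : β < κ.ord),
      (Ordinal.ToType.mk.symm (Ordinal.ToType.mk ⟨β, hβ⟩)).1 = β := by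
    intro β hβ
    rw [OrderIso.symm_apply_apply]
  obtain ⟨μ, hμ, ⟨hμω, ξ, hξ, hξμ⟩, hT⟩ := hst
    {β : Ordinal.{0} | Ordinal.omega0 < β ∧ ∃ ξ ∈ C, (Ordinal.ToType.mk.symm ξ).1 = β}
    (by
      rintro β ⟨_, ξ, _, rfl⟩
      exact (Ordinal.ToType.mk.symm ξ).2)
    (by
      intro α hα
      have hm : max α (Order.succ Ordinal.omega0) < κ.ord := max_lt hα hω1
      obtain ⟨b, hbC, hab⟩ := hu (Ordinal.ToType.mk ⟨_, hm⟩)
      rw [le_iff, symm_mk] at hab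
      exact ⟨(Ordinal.ToType.mk.symm b).1,
        ⟨(Order.lt_succ Ordinal.omega0).trans_le ((le_max_right _ _).trans hab), b, hbC, rfl⟩,
        (le_max_left _ _).trans hab⟩)
    (by
      intro β hβ h0 hβl
      obtain ⟨δ, ⟨hδω, ζ, hζ, hζδ⟩, _, hδβ⟩ := hβl 0 h0
      refine ⟨hδω.trans hδβ, Ordinal.ToType.mk ⟨β, hβ⟩, hcl _ ⟨ζ, ?_⟩ ?_, symm_mk β hβ⟩
      · rw [lt_iff, symm_mk, hζδ]
        exact hδβ
      · intro b hb
        rw [lt_iff, symm_mk] at hb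
        obtain ⟨δ', ⟨_, η, hη, hηδ⟩, h2, h3⟩ := hβl _ hb
        refine ⟨η, hη, ?_, ?_⟩
        · rw [lt_iff, hηδ]
          exact h2
        · rw [lt_iff, symm_mk, hηδ]
          exact h3)
  refine ⟨ξ, hξ, μ, ?_, hμ, hξμ, hT⟩
  rw [← Cardinal.ord_aleph0, Cardinal.ord_lt_ord] at hμω
  exact hμω

end Pool.Agent.LibMA62
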