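import Pool.Agent.LibMA62.V7
import Pool.Agent.LibMA62.V8
import Pool.Agent.LibMA62.W1
import Pool.Agent.LibMA62.W2
import Pool.Agent.LibMA62.SepN
import Pool.Agent.LibDm83.VB2

/-! Row W3: `T_κ` is stationary in `V^B`.

`chk_eq_ck`: `eq_ck_chk` (`SepN.lean`) for `J := μ.ord.ToType`, `K := κ.ord.ToType`, `a := ξ`: an order isomorphism of
`μ.ord.ToType` with the elements below `ξ` (`(Ordinal.ToType.mk.symm ξ).1 = μ.ord`): both are well-orders of type `μ.ord`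
(`Ordinal.ToType.mk : Iio o ≃o o.ToType`; send `j` to the element of `κ.ord.ToType` of order type
`(Ordinal.ToType.mk.symm j).1 < μ.ord < κ.ord`).
`stat_ck`: unfold `stat`; for a name `C` it suffices that `isClub (ck B J) C ≤ ex (ck B J) fun x => mem x C ⊓ Tk x`
(`J := κ.ord.ToType`). By `isClub_le` (`LibDm83/VB2.lean`) and `stat_pres` (with `M.cover`, `exists_cofseq`, `cof_countable`, and `St :=` the set of
the `ξ` such that for some `μ`: `ℵ₀ < μ`, `μ < κ`, `(Ordinal.ToType.mk.symm ξ).1 = μ.ord`, `HasATree μ⁺⁺`; `TStat.toType`), for `v α := mem (chk α) C`,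
it is `≤ ⨆ ξ ∈ St, mem (chk ξ) C`. The right side is `⨆ ξ, mem (chk ξ) C ⊓ Tk (chk ξ)` (`ex_ck`, `Ext_Tk`), and
`Tk (chk ξ) = ⊤` for `ξ ∈ St` by `Tk_ck`, `chk_eq_ck` and `Ext_Tk`. `μ⁺⁺ ≤ κ` because `κ` is a limit cardinal: a successor cardinal
`κ = Order.succ c` with `ℵ₀ ≤ c` is regular, `κ.ord.cof = κ` (`Cardinal.isRegular_succ`), which contradicts `h2`
(the same for `μ⁺ < κ`). -/

set_option autoImplicit false

namespace Pool.Agent.LibMA62

open Cardinal Set Pool.Agent.LibPlas90 Pool.Agent.LibPlas90.BSet Pool.Agent.LibTk83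
  Pool.Agent.LibDm83

variable {B : Type} [CompleteBooleanAlgebra B] {κ : Cardinal.{0}} {Th K : Type}
  [LinearOrder Th] [WellFoundedLT Th] [LinearOrder K] [WellFoundedLT K]

private theorem w3_lt (ξ : κ.ord.ToType) : (Ordinal.ToType.mk.symm ξ).1 < κ.ord :=
  (Ordinal.ToType.mk.symm ξ).2

theorem chk_eq_ck {μ : Cardinal.{0}} (ξ : κ.ord.ToType)
    (h : (Ordinal.ToType.mk.symm ξ).1 = μ.ord) :
    eq (ck B μ.ord.ToType) (chk ξ) = ⊤ := by
  have hlt : ∀ j : μ.ord.ToType, (Ordinal.ToType.mk.symm j).1 < κ.ord := fun j =>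
    (show (Ordinal.ToType.mk.symm j).1 < μ.ord from (Ordinal.ToType.mk.symm j).2).trans
      (h ▸ w3_lt ξ)
  refine eq_ck_chk ξ (fun j : μ.ord.ToType =>
    (Ordinal.ToType.mk ⟨(Ordinal.ToType.mk.symm j).1, hlt j⟩ : κ.ord.ToType)) ?_ ?_
  · intro a b hab
    have h1 : Ordinal.ToType.mk.symm a < Ordinal.ToType.mk.symm b :=
      Ordinal.ToType.mk.symm.strictMono hab
    exact Ordinal.ToType.mk.strictMono (show (⟨_, hlt a⟩ : Set.Iio κ.ord) < ⟨_, hlt b⟩ from h1)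
  · intro k
    constructor
    · intro hk
      have h1 : Ordinal.ToType.mk.symm k < Ordinal.ToType.mk.symm ξ :=
        Ordinal.ToType.mk.symm.strictMono hk
      have h2 : (Ordinal.ToType.mk.symm k).1 < μ.ord := by
        rw [← h]
        exact h1
      refine ⟨Ordinal.ToType.mk ⟨(Ordinal.ToType.mk.symm k).1, h2⟩, ?_⟩
      simp
    · rintro ⟨i, rfl⟩
      have h1 : (Ordinal.ToType.mk.symm i).1 < (Ordinal.ToType.mk.symm ξ).1 := by
        rw [h]
        exact (Ordinal.ToType.mk.symm i).2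
      have h2 : (⟨(Ordinal.ToType.mk.symm i).1, hlt i⟩ : Set.Iio κ.ord) <
          Ordinal.ToType.mk.symm ξ := h1
      have h3 := Ordinal.ToType.mk.strictMono h2
      simpa using h3

private theorem w3_succ {μ : Cardinal.{0}} (h2 : κ.ord.cof < κ) (hμ : ℵ₀ < μ) (hμκ : μ < κ) :
    Order.succ (Order.succ μ) ≤ κ := by
  by_contra hcon
  have h3 : κ ≤ Order.succ μ := Order.lt_succ_iff.1 (not_le.1 hcon)
  have h4 : κ = Order.succ μ := le_antisymm h3 (Order.succ_le_of_lt hμκ)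
  have h5 := (Cardinal.isRegular_succ hμ.le).cof_ord
  rw [← h4] at h5
  exact absurd h5 h2.ne

theorem stat_ck (M : MM B κ Th K) (h1 : ℵ₀ < κ.ord.cof) (h2 : κ.ord.cof < κ)
    (hst : TStat κ) : stat (ck B κ.ord.ToType) Tk = ⊤ := by
  rw [eq_top_iff]
  unfold stat
  refine le_iInf fun C => ?_
  rw [le_himp_iff, top_inf_eq]
  have hE : Ext (fun x : BSet B => mem x C ⊓ Tk x) := Ext.inf (Ext.mem_left C) Ext_Tk
  rw [ex_ck hE]
  refine (isClub_le (K := κ.ord.ToType) C).trans ?_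
  obtain ⟨I, _, k, hI, hk, hkc, hsm⟩ := exists_cofseq h1 h2
  refine (stat_pres M.cover hI k hk hkc (cof_countable h1) hsm
    {ξ | ∃ μ : Cardinal.{0}, ℵ₀ < μ ∧ μ < κ ∧ (Ordinal.ToType.mk.symm ξ).1 = μ.ord ∧
      HasATree (Order.succ (Order.succ μ))}
    (fun C' hu hcl => hst.toType (h1.trans h2) C' hu hcl) _).trans ?_
  refine iSup_le fun ξ => iSup_le fun hξ => ?_
  obtain ⟨μ, hμ, hμκ, hξμ, T, _, ht, A⟩ := hξ
  refine le_iSup_of_le ξ (le_inf le_rfl ?_)
  have h3 : Tk (ck B μ.ord.ToType) = ⊤ := Tk_ck M hμ (w3_succ h2 hμ hμκ) A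
  have h4 : eq (ck B μ.ord.ToType) (chk ξ) = ⊤ := chk_eq_ck ξ hξμ
  have h5 : (Tk (chk ξ : BSet B)) = ⊤ := by
    rw [eq_top_iff]
    have h6 := Ext_Tk (ck B μ.ord.ToType) (chk ξ)
    rw [h3, h4, top_inf_eq] at h6
    exact h6
  rw [h5]
  exact le_top

end Pool.Agent.LibMA62
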