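import Pool.Agent.LibMA62.V1
import Pool.Agent.LibMA62.SepN
import Pool.Agent.LibMA62.MDef
import Pool.Agent.LibDm83.VB6

/-! Definitions: the values of the clauses of `isTree`, enumerations of the levels. -/

set_option autoImplicit false

namespace Pool.Agent.LibMA62

open Cardinal Set Pool.Agent.LibPlas90 Pool.Agent.LibPlas90.BSet Pool.Agent.LibTk83
  Pool.Agent.LibDm83

/-- Below `c`, `(T, R)` is a tree of height `K` with the height function `h`. -/
structure TreeVal {B : Type} [CompleteBooleanAlgebra B] (K : Type) [LinearOrder K]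
    [WellFoundedLT K] (c : B) (T R h : BSet B) : Prop where
  func : ∀ t (a b : K), a ≠ b → c ⊓ mem t T ⊓ rel h t (chk a) ⊓ rel h t (chk b) = ⊥
  incr : ∀ s t (a b : K), ¬ a < b →
    c ⊓ mem s T ⊓ mem t T ⊓ rel R s t ⊓ rel h s (chk a) ⊓ rel h t (chk b) = ⊥
  comp : ∀ s u t, c ⊓ mem s T ⊓ mem u T ⊓ mem t T ⊓ rel R s t ⊓ rel R u t ≤
    rel R s u ⊔ eq s u ⊔ rel R u s
  down : ∀ t (a b : K), a < b → c ⊓ mem t T ⊓ rel h t (chk b) ≤
    ⨆ s : BSet B, mem s T ⊓ rel R s t ⊓ rel h s (chk a)
  ne : ∀ a : K, c ≤ ⨆ t : BSet B, mem t T ⊓ rel h t (chk a)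

/-- Below `c`, `E a t z` says that the element `t` of `T` is the node number `z` of the level `a`. -/
structure EnumData {B : Type} [CompleteBooleanAlgebra B] {K : Type} [LinearOrder K]
    [WellFoundedLT K] {Th : Type} (c : B) (T h : BSet B) (E : K → BSet B → Th → B) : Prop where
  ext : ∀ a z, Ext (fun t => E a t z)
  le : ∀ a t z, E a t z ≤ mem t T ⊓ rel h t (chk a)
  tot : ∀ a t, c ⊓ (mem t T ⊓ rel h t (chk a)) ≤ ⨆ z, E a t z
  func : ∀ a t z z', z ≠ z' → E a t z ⊓ E a t z' = ⊥
  inj : ∀ a t t' z, E a t z ⊓ E a t' z ≤ eq t t'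

/-- The truth value: there is a node number `z` at level `a`. -/
noncomputable def ndE {B : Type} [CompleteBooleanAlgebra B] {K Th : Type}
    (E : K → BSet B → Th → B) (a : K) (z : Th) : B := ⨆ t : BSet B, E a t z

/-- The truth value: the node number `z` of level `a` is below the node number `w` of level `b`. -/
noncomputable def ltE {B : Type} [CompleteBooleanAlgebra B] {K Th : Type} (R : BSet B)
    (E : K → BSet B → Th → B) (a : K) (z : Th) (b : K) (w : Th) : B :=
  ⨆ s : BSet B, ⨆ t : BSet B, E a s z ⊓ E b t w ⊓ rel R s t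

end Pool.Agent.LibMA62
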