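import Pool.Agent.LibMA62.X0

/-! Row X1: the values of the clauses of `isTree`.

`all T φ = ⨅ x, mem x T ⇨ φ x`, so `all T φ ⊓ mem t T ≤ φ t` for each name `t` (`iInf_le`, `himp_inf_le`); the
quantifiers over `l = ck B K`: use them at `chk a` with `mem_chk_ck`, and for existence the universal instances only (no
`all_ck` is needed for the direction used here); `ex T φ = ⨆ x, mem x T ⊓ φ x`. `func`: second clause of `isMap h T (ck B K)` at `t`,
`chk a`, `chk b`, and `eq_chk`. `incr`: at `s`, `t`, `chk a`, `chk b`: the value is `≤ mem (chk a) (chk b)`, which is `⊥` unless `a < b`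
(`mem_chk_chk`). `down`: at `t`, `chk b`: `≤ all (chk b) fun a => ex T ...`, used at `chk a` (`mem_chk_of_lt`). -/

set_option autoImplicit false

namespace Pool.Agent.LibMA62

open Cardinal Set Pool.Agent.LibPlas90 Pool.Agent.LibPlas90.BSet Pool.Agent.LibTk83
  Pool.Agent.LibDm83

private theorem X1_all {B : Type} [CompleteBooleanAlgebra B] {c : B} {T : BSet B}
    {φ : BSet B → B} (h : c ≤ all T φ) (t : BSet B) : c ⊓ mem t T ≤ φ t := by
  have h1 : c ≤ mem t T ⇨ φ t := h.trans (iInf_le _ t)
  exact le_himp_iff.mp h1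

private theorem X1_all_top {B : Type} [CompleteBooleanAlgebra B] {c : B} {T : BSet B}
    {φ : BSet B → B} (h : c ≤ all T φ) (t : BSet B) (ht : mem t T = ⊤) : c ≤ φ t := by
  have h1 := X1_all h t
  rwa [ht, inf_top_eq] at h1

theorem treeVal_of_isTree {B : Type} [CompleteBooleanAlgebra B] {K : Type} [LinearOrder K]
    [WellFoundedLT K] {c : B} {T R h : BSet B} (hc : c ≤ isTree (ck B K) T R h) :
    TreeVal K c T R h := by
  have hd := hc
  unfold isTree at hd
  simp only [le_inf_iff] at hd
  obtain ⟨⟨⟨⟨⟨hmap, hincr⟩, -⟩, hcomp⟩, hdown⟩, hne⟩ := hd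
  have hmap2 : c ≤ all T fun x => all (ck B K) fun y => all (ck B K) fun y' =>
      rel h x y ⊓ rel h x y' ⇨ eq y y' := by
    refine hmap.trans ?_
    unfold isMap
    exact inf_le_right
  refine ⟨?_, ?_, ?_, ?_, ?_⟩
  · intro t a b hab
    have h1 := X1_all hmap2 t
    have h2 := X1_all_top h1 (chk a) (mem_chk_ck a)
    have h3 := X1_all_top h2 (chk b) (mem_chk_ck b)
    rw [eq_chk hab] at h3
    have h4 := le_himp_iff.mp h3
    rw [← inf_assoc] at h4
    exact le_bot_iff.mp h4
  · intro s t a b hab
    have h1 := X1_all hincr s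
    have h2 := X1_all h1 t
    have h3 := le_himp_iff.mp h2
    have h4 := X1_all_top h3 (chk a) (mem_chk_ck a)
    have h5 := X1_all_top h4 (chk b) (mem_chk_ck b)
    have h6 : mem (chk a : BSet B) (chk b) = ⊥ := by
      classical
      rw [mem_chk_chk, if_neg hab]
    rw [h6] at h5
    have h7 := le_himp_iff.mp h5
    rw [← inf_assoc] at h7
    exact le_bot_iff.mp h7
  · intro s u t
    have h1 := X1_all hcomp s
    have h2 := X1_all h1 u
    have h3 := X1_all h2 t
    have h4 := le_himp_iff.mp h3
    rw [← inf_assoc] at h4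
    exact h4
  · intro t a b hab
    have h1 := X1_all hdown t
    have h2 := X1_all_top h1 (chk b) (mem_chk_ck b)
    have h3 := le_himp_iff.mp h2
    have h4 := X1_all_top h3 (chk a) (mem_chk_of_lt hab)
    refine h4.trans ?_
    unfold ex
    refine iSup_mono fun s => ?_
    rw [inf_assoc]
  · intro a
    have h1 := X1_all_top hne (chk a) (mem_chk_ck a)
    exact h1

end Pool.Agent.LibMA62
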