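import Pool.Agent.LibMA62.X0

/-! Row X3: the nodes and their order have the properties required in `MM.tp`.

All computations are in the complete Boolean algebra; use `D.ext` in the form `eq t t' ⊓ E a t z ≤ E a t' z`, `Ext.rel1`, `Ext.rel2` for
`rel R s t` (`eq s s' ⊓ rel R s t ≤ rel R s' t`), `eq_symm`, `inf_iSup_eq`, `iSup_inf_eq`.
`e_pred`: `c ⊓ E b t w ≤ c ⊓ mem t T ⊓ rel h t (chk b) ≤ ⨆ s, mem s T ⊓ rel R s t ⊓ rel h s (chk a)` (`V.down`), and
`c ⊓ (mem s T ⊓ rel h s (chk a)) ≤ ⨆ z, E a s z` (`D.tot`).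
`e_uniq`: `c ⊓ E a s z ⊓ E b t w ⊓ rel R s t ⊓ E a s' z' ⊓ E b t' w ⊓ rel R s' t'`: `D.inj` gives `eq t t'`, so `rel R s' t`; `V.comp` gives
`rel R s s' ⊔ eq s s' ⊔ rel R s' s`; the first and the last are excluded by `V.incr` (`a < a` is false; heights `chk a`), and
`eq s s' ⊓ E a s z ⊓ E a s' z' ≤ E a s' z ⊓ E a s' z' = ⊥`.
`e_coh`: in the same way `V.comp` gives `rel R s s' ⊔ eq s s' ⊔ rel R s' s` for `s` of height `a` and `s'` of height `a'`, `a < a'`: `eq s s'` is
excluded by `V.func` (`a ≠ a'`), `rel R s' s` by `V.incr`. So `rel R s s'` and `E a s z ⊓ E a' s' z' ⊓ rel R s s' ≤ ltE R E a z a' z'`.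
`e_ne`: `V.ne`, `D.tot`. -/

set_option autoImplicit false

namespace Pool.Agent.LibMA62

open Cardinal Set Pool.Agent.LibPlas90 Pool.Agent.LibPlas90.BSet Pool.Agent.LibTk83
  Pool.Agent.LibDm83

variable {B : Type} [CompleteBooleanAlgebra B] {K Th : Type} [LinearOrder K] [WellFoundedLT K]
  {c : B} {T R h : BSet B} {E : K → BSet B → Th → B}

private theorem x3_split {p x y z g : B} (h : p ≤ x ⊔ y ⊔ z) (hx : p ⊓ x ≤ g) (hy : p ⊓ y ≤ g)
    (hz : p ⊓ z ≤ g) : p ≤ g := by
  calc p ≤ p ⊓ (x ⊔ y ⊔ z) := le_inf le_rfl h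
    _ = p ⊓ x ⊔ p ⊓ y ⊔ p ⊓ z := by rw [inf_sup_left, inf_sup_left]
    _ ≤ g := sup_le (sup_le hx hy) hz

private theorem x3_iSup {ι : Sort*} {p g : B} {f : ι → B} (h : p ≤ ⨆ i, f i)
    (hf : ∀ i, p ⊓ f i ≤ g) : p ≤ g := by
  calc p ≤ p ⊓ ⨆ i, f i := le_inf le_rfl h
    _ = ⨆ i, p ⊓ f i := inf_iSup_eq _ _
    _ ≤ g := iSup_le hf

private theorem x3_lt {R : BSet B} {E : K → BSet B → Th → B} {a b : K} {z w : Th} {p g : B}
    (h : p ≤ ltE R E a z b w)
    (hf : ∀ s t, p ⊓ (E a s z ⊓ E b t w ⊓ rel R s t) ≤ g) : p ≤ g := by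
  refine x3_iSup h fun s => ?_
  rw [inf_iSup_eq]
  exact iSup_le fun t => hf s t

private theorem x3_lt' {p : B} (s t : BSet B) {a b : K} {z w : Th} (h1 : p ≤ E a s z)
    (h2 : p ≤ E b t w) (h3 : p ≤ rel R s t) : p ≤ ltE R E a z b w :=
  le_iSup_of_le s (le_iSup_of_le t (le_inf (le_inf h1 h2) h3))

theorem e_pred (V : TreeVal K c T R h) (D : EnumData c T h E) (a b : K) (w : Th) (hab : a < b) :
    c ⊓ ndE E b w ≤ ⨆ z, ltE R E a z b w := by
  unfold ndE
  rw [inf_iSup_eq]
  refine iSup_le fun t => ?_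
  have h1 : c ⊓ E b t w ≤ c ⊓ mem t T ⊓ rel h t (chk b) := by
    rw [inf_assoc]
    exact inf_le_inf_left _ (D.le b t w)
  refine x3_iSup (h1.trans (V.down t a b hab)) fun s => ?_
  have h2 : c ⊓ E b t w ⊓ (mem s T ⊓ rel R s t ⊓ rel h s (chk a)) ≤ ⨆ z, E a s z := by
    refine le_trans ?_ (D.tot a s)
    exact le_inf (inf_le_left.trans inf_le_left)
      (le_inf (inf_le_right.trans (inf_le_left.trans inf_le_left)) (inf_le_right.trans inf_le_right))
  refine x3_iSup h2 fun z => ?_
  refine le_iSup_of_le z ?_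
  exact x3_lt' s t inf_le_right (inf_le_left.trans (inf_le_left.trans inf_le_right))
    (inf_le_left.trans (inf_le_right.trans (inf_le_left.trans inf_le_right)))

theorem e_uniq (V : TreeVal K c T R h) (D : EnumData c T h E) (a b : K) (z z' w : Th)
    (hab : a < b) (hz : z ≠ z') : c ⊓ (ltE R E a z b w ⊓ ltE R E a z' b w) = ⊥ := by
  rw [eq_bot_iff]
  refine x3_lt (inf_le_right.trans inf_le_left) fun s t => ?_
  refine x3_lt (inf_le_left.trans (inf_le_right.trans inf_le_right)) fun s' t' => ?_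
  generalize hp : c ⊓ (ltE R E a z b w ⊓ ltE R E a z' b w) ⊓ (E a s z ⊓ E b t w ⊓ rel R s t) ⊓
    (E a s' z' ⊓ E b t' w ⊓ rel R s' t') = p
  have hc : p ≤ c := hp ▸ inf_le_left.trans (inf_le_left.trans inf_le_left)
  have h1 : p ≤ E a s z := hp ▸ inf_le_left.trans (inf_le_right.trans
    (inf_le_left.trans inf_le_left))
  have h2 : p ≤ E b t w := hp ▸ inf_le_left.trans (inf_le_right.trans
    (inf_le_left.trans inf_le_right))
  have h3 : p ≤ rel R s t := hp ▸ inf_le_left.trans (inf_le_right.trans inf_le_right)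
  have h4 : p ≤ E a s' z' := hp ▸ inf_le_right.trans (inf_le_left.trans inf_le_left)
  have h5 : p ≤ E b t' w := hp ▸ inf_le_right.trans (inf_le_left.trans inf_le_right)
  have h6 : p ≤ rel R s' t' := hp ▸ inf_le_right.trans inf_le_right
  have e1 := h1.trans (D.le a s z)
  have e2 := h2.trans (D.le b t w)
  have e4 := h4.trans (D.le a s' z')
  have h7 : p ≤ rel R s' t := by
    refine le_trans (le_inf ?_ h6) (Ext.rel2 R s' t' t)
    rw [eq_symm]
    exact (le_inf h2 h5).trans (D.inj b t t' w)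
  refine x3_split (x := rel R s s') (y := eq s s') (z := rel R s' s) ?_ ?_ ?_ ?_
  · exact le_trans (le_inf (le_inf (le_inf (le_inf (le_inf hc (e1.trans inf_le_left))
      (e4.trans inf_le_left)) (e2.trans inf_le_left)) h3) h7) (V.comp s s' t)
  · rw [← V.incr s s' a a (lt_irrefl a)]
    exact le_inf (le_inf (le_inf (le_inf (le_inf (inf_le_left.trans hc)
      (inf_le_left.trans (e1.trans inf_le_left))) (inf_le_left.trans (e4.trans inf_le_left)))
      inf_le_right) (inf_le_left.trans (e1.trans inf_le_right)))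
      (inf_le_left.trans (e4.trans inf_le_right))
  · rw [← D.func a s' z z' hz]
    exact le_inf (le_trans (le_inf inf_le_right (inf_le_left.trans h1)) (D.ext a z s s'))
      (inf_le_left.trans h4)
  · rw [← V.incr s' s a a (lt_irrefl a)]
    exact le_inf (le_inf (le_inf (le_inf (le_inf (inf_le_left.trans hc)
      (inf_le_left.trans (e4.trans inf_le_left))) (inf_le_left.trans (e1.trans inf_le_left)))
      inf_le_right) (inf_le_left.trans (e4.trans inf_le_right)))
      (inf_le_left.trans (e1.trans inf_le_right))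

theorem e_coh (V : TreeVal K c T R h) (D : EnumData c T h E) (a a' b : K) (z z' w : Th)
    (haa : a < a') (hab : a' < b) :
    c ⊓ (ltE R E a z b w ⊓ ltE R E a' z' b w) ≤ ltE R E a z a' z' := by
  refine x3_lt (inf_le_right.trans inf_le_left) fun s t => ?_
  refine x3_lt (inf_le_left.trans (inf_le_right.trans inf_le_right)) fun s' t' => ?_
  generalize hp : c ⊓ (ltE R E a z b w ⊓ ltE R E a' z' b w) ⊓ (E a s z ⊓ E b t w ⊓ rel R s t) ⊓
    (E a' s' z' ⊓ E b t' w ⊓ rel R s' t') = p
  have hc : p ≤ c := hp ▸ inf_le_left.trans (inf_le_left.trans inf_le_left)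
  have h1 : p ≤ E a s z := hp ▸ inf_le_left.trans (inf_le_right.trans
    (inf_le_left.trans inf_le_left))
  have h2 : p ≤ E b t w := hp ▸ inf_le_left.trans (inf_le_right.trans
    (inf_le_left.trans inf_le_right))
  have h3 : p ≤ rel R s t := hp ▸ inf_le_left.trans (inf_le_right.trans inf_le_right)
  have h4 : p ≤ E a' s' z' := hp ▸ inf_le_right.trans (inf_le_left.trans inf_le_left)
  have h5 : p ≤ E b t' w := hp ▸ inf_le_right.trans (inf_le_left.trans inf_le_right)
  have h6 : p ≤ rel R s' t' := hp ▸ inf_le_right.trans inf_le_right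
  have e1 := h1.trans (D.le a s z)
  have e2 := h2.trans (D.le b t w)
  have e4 := h4.trans (D.le a' s' z')
  have h7 : p ≤ rel R s' t := by
    refine le_trans (le_inf ?_ h6) (Ext.rel2 R s' t' t)
    rw [eq_symm]
    exact (le_inf h2 h5).trans (D.inj b t t' w)
  refine x3_split (x := rel R s s') (y := eq s s') (z := rel R s' s) ?_ ?_ ?_ ?_
  · exact le_trans (le_inf (le_inf (le_inf (le_inf (le_inf hc (e1.trans inf_le_left))
      (e4.trans inf_le_left)) (e2.trans inf_le_left)) h3) h7) (V.comp s s' t)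
  · exact x3_lt' s s' (inf_le_left.trans h1) (inf_le_left.trans h4) inf_le_right
  · refine le_trans (b := ⊥) ?_ bot_le
    rw [← V.func s a a' haa.ne]
    refine le_inf (le_inf (le_inf (inf_le_left.trans hc)
      (inf_le_left.trans (e1.trans inf_le_left))) (inf_le_left.trans (e1.trans inf_le_right))) ?_
    refine le_trans (le_inf ?_ (inf_le_left.trans (e4.trans inf_le_right)))
      (Ext.rel1 h (chk a') s' s)
    rw [eq_symm]
    exact inf_le_right
  · refine le_trans (b := ⊥) ?_ bot_le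
    rw [← V.incr s' s a' a haa.not_gt]
    exact le_inf (le_inf (le_inf (le_inf (le_inf (inf_le_left.trans hc)
      (inf_le_left.trans (e4.trans inf_le_left))) (inf_le_left.trans (e1.trans inf_le_left)))
      inf_le_right) (inf_le_left.trans (e4.trans inf_le_right)))
      (inf_le_left.trans (e1.trans inf_le_right))

theorem e_ne (V : TreeVal K c T R h) (D : EnumData c T h E) (b : K) :
    c ≤ ⨆ w, ndE E b w := by
  refine x3_iSup (V.ne b) fun t => ?_
  refine (D.tot b t).trans (iSup_mono fun z => ?_)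
  exact le_iSup (fun t => E b t z) t

end Pool.Agent.LibMA62
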